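import Pool.Agent.H262.EB.Defs

/-!
# Project EB (disproof of MP_6b7756_an, frozen statement S04952): interface of the analytic part

Every `St... : Prop` below is one job. The docstring contains the paper proof.
-/

set_option autoImplicit false

namespace Pool.Agent.H262.EB

open Finset MeasureTheory
open scoped symmDiff

/-- The slices `U d = {x | x.d = d}` of `Tw c`. -/
def slice {D : Type} [Group D] (c : Cocycle D) (d : D) : Set (Tw c) := {x | x.d = d}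

/-- JOB AP-SLICE. Proof. `slice c d` is the preimage of the open and closed set `{d} × univ` (compact,
because `ℕ → ZMod 4` is compact) under the homeomorphism `Tw.homeo` (`D` discrete). Left translation
by `⟨d, 0⟩` maps `slice c 1` onto `slice c d` (as `c d 1 = 0`, `⟨d, 0⟩ * ⟨1, a⟩ = ⟨d, a⟩`), so by left
invariance both have the same Haar measure, which is finite (compact) and positive (open,
nonempty), and `∫_{slice c d} F = ∫_{slice c 1} F (⟨d, 0⟩ * k) dk` for every `F` (left invariance,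
`MeasureTheory.integral_mul_left_eq_self` applied to the indicator function). The slices are
disjoint, measurable and cover `Tw c`; `D` is countable, so for integrable `F` we have `HasSum`
(`MeasureTheory.hasSum_integral_iUnion` and `setIntegral_univ`). The last clause: a function which is constant on all
slices, supported on finitely many slices: it is continuous with compact support. -/
def StSlice : Prop :=
  ∀ (D : Type) [Group D] [Countable D] (c : Cocycle D),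
    (∀ d, IsOpen (slice c d) ∧ IsCompact (slice c d) ∧ MeasurableSet (slice c d)) ∧
    (∀ d, (Measure.haar : Measure (Tw c)) (slice c d) =
      (Measure.haar : Measure (Tw c)) (slice c 1)) ∧
    (Measure.haar : Measure (Tw c)) (slice c 1) ≠ 0 ∧
    (Measure.haar : Measure (Tw c)) (slice c 1) ≠ ⊤ ∧
    (∀ (F : Tw c → ℂ) (d : D), ∫ x in slice c d, F x ∂(Measure.haar : Measure (Tw c)) =
      ∫ k in slice c 1, F (⟨d, 0⟩ * k) ∂(Measure.haar : Measure (Tw c))) ∧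
    (∀ F : Tw c → ℂ, Integrable F (Measure.haar : Measure (Tw c)) →
      HasSum (fun d => ∫ x in slice c d, F x ∂(Measure.haar : Measure (Tw c)))
        (∫ x, F x ∂(Measure.haar : Measure (Tw c)))) ∧
    (∀ F : Tw c → ℂ, Continuous F → {d : D | ∃ x : Tw c, x.d = d ∧ F x ≠ 0}.Finite →
      Integrable F (Measure.haar : Measure (Tw c)) ∧ MemLp F 2 (Measure.haar : Measure (Tw c)))

/-- JOB AP-HERO (you may assume `StSlice`: prove `StSlice → StHeroCoef`).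
Proof. Let `κ = (haar (slice c 1)).toReal > 0` and
`ξ y = κ^(-1/2) * f y.d * ii (χ y.a)`. It is continuous (locally constant in `d`, and `χ` is
continuous into the discrete `ZMod 4`) and supported on finitely many slices. In
`ξ y * conj (ξ (x⁻¹ * y))` use `y = x * (x⁻¹ * y)`, hence
`y.a = x.a + (x⁻¹ * y).a + c.c x.d (x.d⁻¹ * y.d)`, so the product is
`κ⁻¹ * f y.d * conj (f (x.d⁻¹ * y.d)) * ii (χ x.a) * ii (χ (c.c x.d (x.d⁻¹ * y.d)))`
(`ii (u) * conj (ii v) = ii (u - v)`), which depends only on `y.d`. Its integral over the slice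
of `d` is `κ` times the value. Sum over `d`. -/
def StHeroCoef : Prop :=
  ∀ (D : Type) [Group D] [Countable D] (c : Cocycle D) (χ : (ℕ → ZMod 4) →+ ZMod 4),
    Continuous χ → ∀ f : D → ℂ, f.support.Finite →
    ∃ ξ : Tw c → ℂ, MemLp ξ 2 (Measure.haar : Measure (Tw c)) ∧
      ∀ x : Tw c, coef ξ x = ii (χ x.a) * tc c χ f x.d

/-- JOB AP-ADV (you may assume `StSlice`: prove `StSlice → StAdvCoef`).
Proof. Let `U = slice c 1` (a compact open central subgroup: `c 1 x = c x 1 = 0`), `κ` its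
measure, and `f d = κ^(-1/2) * ∫_{j ∈ U} ξ (⟨d, 0⟩ * j) * conj (ii (χ j.a)) dj`. By Cauchy-Schwarz
`‖f d‖ ^ 2 ≤ ∫_{j ∈ U} ‖ξ (⟨d, 0⟩ * j)‖ ^ 2 dj = ∫_{slice c d} ‖ξ‖ ^ 2`, summable with sum `≤ ‖ξ‖_2 ^ 2`.
Fix `x`. For `k ∈ U` apply the hypothesis with `a = - k.a`, i.e. at the point `⟨x, 0⟩ * k⁻¹ = ⟨x, -k.a⟩`, multiply by
`ii (χ k.a)` and average over `k ∈ U`: `‖t - κ⁻¹ * ∫_{k ∈ U} ii (χ k.a) * coef ξ (⟨x, 0⟩ * k⁻¹) dk‖ ≤ ε`.
Now `coef ξ (⟨x, 0⟩ * k⁻¹) = ∑ d, ∫_{j ∈ U} ξ (⟨d, 0⟩ * j) * conj (ξ (k * ⟨x, 0⟩⁻¹ * ⟨d, 0⟩ * j)) dj` and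
`⟨x, 0⟩⁻¹ * ⟨d, 0⟩ = ⟨x⁻¹ * d, 0⟩ * u`, `u = ⟨1, - c x (x⁻¹ d)⟩`; `k`, `j` and `u` are central, so
`k * ⟨x, 0⟩⁻¹ * ⟨d, 0⟩ * j = ⟨x⁻¹ * d, 0⟩ * (u * j * k)`. For fixed `j` substitute `k' = u * j * k` (left
translation by the element `u * j` of `U`), so `ii (χ k.a) = ii (χ k'.a) * conj (ii (χ j.a)) * ii (χ (c x (x⁻¹ d)))` and
`κ⁻¹ * ∫_k ii (χ k.a) * coef ξ (⟨x, 0⟩ * k⁻¹) dk = ∑ d, f d * conj (f (x⁻¹ * d)) * ii (χ (c x (x⁻¹ * d))) = tc c χ f x`.
Fubini and the interchange with the sum are justified by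
`∫_k ∫_j ‖ξ (⟨d,0⟩ j)‖ * ‖ξ (⟨x⁻¹ d, 0⟩ (u j k))‖ ≤ κ * ‖ξ_d‖_2 * ‖ξ_{x⁻¹ d}‖_2` (`ξ_d j = ξ (⟨d, 0⟩ * j)` in `L²(U)`), which is
summable over `d`. (`Tw c` is second countable, so the product measure is well behaved.) -/
def StAdvCoef : Prop :=
  ∀ (D : Type) [Group D] [Countable D] (c : Cocycle D) (χ : (ℕ → ZMod 4) →+ ZMod 4),
    Continuous χ → ∀ ξ : Tw c → ℂ, MemLp ξ 2 (Measure.haar : Measure (Tw c)) →
    ∃ f : D → ℂ, Summable (fun z => ‖f z‖ ^ 2) ∧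
      ∀ (x : D) (t : ℂ) (ε : ℝ), (∀ a, ‖ii (χ a) * t - coef ξ ⟨x, a⟩‖ ≤ ε) →
        ‖t - tc c χ f x‖ ≤ ε

/-- JOB AP-LR. Proof. Given `f` put `F y = conj (f y⁻¹) * ii (χ (c y y⁻¹))`. Reindex the sum
`tc c χ f x = ∑' z, ..` by `z = y⁻¹` (`Equiv.inv`, `Equiv.tsum_eq`): with `f y⁻¹ = conj (F y) * ii (χ (c y y⁻¹))`
and `f ((y x)⁻¹) = conj (F (y x)) * ii (χ (c (y x) (y x)⁻¹))` the summand is
`conj (F y) * F (y x) * ii (χ (c y y⁻¹ - c (y x) (y x)⁻¹ + c x (y x)⁻¹))`, and the cocycle identity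
`c y x + c (y x) (y x)⁻¹ = c y y⁻¹ + c x (y x)⁻¹` gives `ii (χ (c y x))`. The converse
direction is the same with `f z = conj (F z⁻¹) * ii (χ (c z⁻¹ z))`. -/
def StLR : Prop :=
  ∀ (D : Type) [Group D] (c : Cocycle D) (χ : (ℕ → ZMod 4) →+ ZMod 4),
    (∀ f : D → ℂ, ∃ F : D → ℂ, (∀ y, ‖F y‖ = ‖f y⁻¹‖) ∧ ∀ x, tc c χ f x = rc c χ F x) ∧
    (∀ F : D → ℂ, ∃ f : D → ℂ, (∀ y, ‖f y‖ = ‖F y⁻¹‖) ∧ ∀ x, tc c χ f x = rc c χ F x)

/-- JOB AP-LIM. Proof. Let `𝒰` be a nonprincipal ultrafilter on `ℕ` (`Filter.hyperfilter ℕ`).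
For fixed `m` and `d` the bounded sequence `m' ↦ A m m' d` converges along `𝒰` (values in a compact closed ball of
`ℂ`); call the limit `B m d`, `‖B m d‖ ≤ 1`; let `α d` be the limit of `m ↦ B m d` along `𝒰`. For `a : ℕ → ZMod 4`
let `u` be the limit of `m ↦ a (m + 1)` along `𝒰` (finite set: `∃ u, ∀ᶠ m in 𝒰, a (m + 1) = u`).
For fixed `m` the function `ψ m x = ii (x.a 0 - x.a (m + 1) + u (x.a)) * B m x.d` is the pointwise
limit along `𝒰` of `x ↦ ii (chi m m' x.a) * A m m' x.d` (`m' > m` holds eventually along `𝒰`), so it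
lies in the closure (`mem_closure_of_tendsto`, `tendsto_pi_nhds`). Letting `m` tend to `𝒰`, `x.a (m + 1) = u (x.a)` eventually, so
`x ↦ ii (x.a 0) * α x.d` lies in the closure of the closure. -/
def StLim : Prop :=
  ∀ (D : Type) [Group D] (c : Cocycle D) (A : ℕ → ℕ → D → ℂ),
    (∀ m m' d, m < m' → ‖A m m' d‖ ≤ 1) →
    ∃ α : D → ℂ, (fun x : Tw c => ii (x.a 0) * α x.d) ∈
      closure {ψ : Tw c → ℂ | ∃ m m', m < m' ∧ ψ = fun x => ii (chi m m' x.a) * A m m' x.d}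

/-- JOB AP-COC. Proof. By `C.lift` choose for every `k`, `g` a function `ψ` and normalise: `e k g x = ψ x - ψ 1`;
so `e k g 1 = 0` and `e k g (x * a s) - e k g x = om k s (g * x) - om k s x`. Because the `a s` generate `H`
and are involutions, a function `θ : H → ZMod 4` with `θ (x * a s) = θ x` for all `x`, `s` is constant
(`Subgroup.closure_induction` or: the set of `h` with `∀ x, θ (x * h) = θ x` is a subgroup containing all `a s`).
Hence `e k 1 = 0` and `e k (g * g') x = e k g (g' * x) - e k g g' + e k g' x` (both sides have the same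
differences and vanish at `x = 1`). Put `c y x k = e k y.g x.g` for `y x : Lam H S`. The
cocycle identity `c x y + c (x * y) z = c x (y * z) + c y z` is the last formula. And
`c y (el ..) k = e k y.g (a s) = om k s y.g - om k s 1`. -/
def StCoc : Prop :=
  ∀ (H S : Type) [Group H] [Fintype S] [DecidableEq S] [DecidableEq H] (d b : ℕ)
    (C : CTData H S d b), ∃ cL : Cocycle (Lam H S), ∀ y s lam lam',
      cL.c y (el C.a s lam lam') = (fun k => C.om k s y.g) - (fun k => C.om k s 1)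

/-- JOB AP-PS. Orthogonality for the projections `ps`: for `Y ⊆ S`,
`∑ lam, ps d s lam * (-1)^|lam ∩ Y| = 1` if `s ∈ Y` and `|Y| ≤ d`, else `0`.
Proof. `∑ lam, (-1)^|lam ∩ τ| * (-1)^|lam ∩ Y| = ∑ lam, (-1)^|lam ∩ (τ ∆ Y)| = 2^|S| * [τ = Y]`. The second clause:
`∑ lam, |ps d s lam|` is finite of course; nothing to prove. -/
def StPs : Prop :=
  ∀ (S : Type) [Fintype S] [DecidableEq S] (d : ℕ) (s : S) (Y : Finset S),
    (∑ lam : Finset S, ps S d s lam * (-1 : ℝ) ^ (lam ∩ Y).card) =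
      if s ∈ Y ∧ Y.card ≤ d then 1 else 0

/-- JOB AP-HEROSUM (you may assume `StPs`: prove `StPs → StHero`).
Proof. Take `B, τ, ψ, η` from `C.hero i`. Put `v x = ψ 0 x - ψ (i + 1) x + ψ (m' + 1) x`. For
`x ∈ B`, `s ∈ τ x` we get (as `i + 1 ≠ 0`, `m' + 1 ∉ {0, i + 1}`)
`χ (fun k => om k s x) = om 0 s x - om (i + 1) s x + om (m' + 1) s x = v (x * a s) - v x` for `χ = chi i m'`.
Let `L = B ×ˢ univ : Finset (H × S)`, `Y = {(x, s) ∈ L | s ∈ τ x}` and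
`F ⟨l, g⟩ = c₀ * (if g ∈ B ∧ l ⊆ L then ii (- v g) * (-1) ^ (l ∩ Y).card else 0)`, where
`c₀ ^ 2 = 1 / (|B| * 2 ^ |L|)`. Then `∑ ‖F‖ ^ 2 = 1`. Now for `g ∈ B` and `l ⊆ L`,
`⟨l, g⟩ * el a s lam lam' = ⟨l ∆ ({g} × lam) ∆ ({g * a s} × lam'), g * a s⟩`. If
`g * a s ∈ B`, then `F` of it is `c₀ * ii (- v (g * a s)) * (-1)^|l ∩ Y| * (-1)^|lam ∩ τ g| * (-1)^|lam' ∩ τ (g * a s)|`
(the sign is multiplicative under symmetric difference), if `g * a s ∉ B` it is `0`. Summing over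
`lam, lam'` with the weights `ps` (`StPs`) gives the indicator of
`s ∈ τ g ∧ |τ g| ≤ d ∧ s ∈ τ (g * a s) ∧ |τ (g * a s)| ≤ d`, which for `g ∈ B` with `g * a s ∈ B`
contains `s ∈ τ g`; in that case the phases cancel:
`conj (ii (- v g)) * ii (v (g * a s) - v g) * ii (- v (g * a s)) = 1`. Hence
`TT C χ F = c₀ ^ 2 * ∑_{l ⊆ L} ∑_{g ∈ B} ∑_s [s ∈ τ g ∧ s ∈ τ (g a s) ∧ ..] = |B|⁻¹ ∑_{g ∈ B} |τ g| ≥ d - 1`.
(The sums over `y` are finite sums: `F` is supported on `L.powerset × B`. Note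
that for `g ∈ B`, `s ∈ τ g` implies `g * a s ∈ B`, and conversely the indicator implies `s ∈ τ g`.) -/
def StHero : Prop :=
  ∀ (H S : Type) [Group H] [Fintype S] [DecidableEq S] [DecidableEq H] (d b : ℕ)
    (C : CTData H S d b) (i m' : ℕ), m' ≠ i →
    ∃ F : Lam H S → ℂ, F.support.Finite ∧ ∑' y, ‖F y‖ ^ 2 = 1 ∧
      (d : ℝ) - 1 ≤ (TT C (chi i m') F).re

/-- JOB AP-CHEEGER. A Cheeger type inequality for antisymmetric functions on a graph `m` (weights)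
with an involution `θ`, degrees at most `d`, where all finite sets `W` with `W ∩ θ W = ∅` span
at most `(d - h) |W|` (ordered) edges.
Proof. Let `f⁺ = max f 0`, `f⁻ = max (-f) 0`, so `f = f⁺ - f⁻`, `f⁻ = f⁺ ∘ θ`, `U` is `θ`-stable and
(all sums over `U`) `∑ m f f = ∑ m f⁺ f⁺ + ∑ m f⁻ f⁻ - 2 ∑ m f⁺ f⁻ ≤ 2 ∑ m f⁺ f⁺` (by the symmetry under `θ`), `∑ f ^ 2 = 2 ∑ (f⁺) ^ 2`.
So it is enough to show `∑ m u u ≤ R ∑ u ^ 2` for `u = f⁺ ≥ 0`, whose support `{u > 0}` is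
disjoint from its image under `θ`. Let `q = u ^ 2`, `k x = d - ∑_{y ∈ U} m x y ≥ 0`.
(1) Coarea: `h * ∑ q ≤ ½ ∑_{x,y} m x y * |q x - q y| + ∑ k x * q x`. Indeed both sides are
additive over level sets: for `t > 0`, `W_t = {q > t}` satisfies the isoperimetric hypothesis,
`h |W_t| ≤ d |W_t| - m(W_t, W_t) = m(W_t, U \ W_t) + k(W_t)`, and integration over `t` gives (1).
(Discrete proof by induction on the number of values or on the support: let `t₀` be the smallest nonzero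
value of `q`, subtract `t₀ * 1_{q > 0}`; `|q x - q y|` is additive under this decomposition since `q - t₀ 1` and
`t₀ 1` are comonotone.)
(2) Cauchy-Schwarz: with `a = ∑_{x,y} ½ m (u x - u y) ^ 2 + ∑ k u ^ 2 = d ∑ u ^ 2 - ∑ m u u` and
`b = ∑_{x,y} ½ m (u x + u y) ^ 2 + ∑ k u ^ 2 = d ∑ u ^ 2 + ∑ m u u` we have
`(½ ∑ m |q x - q y| + ∑ k q) ^ 2 ≤ a * b = d ^ 2 (∑ u ^ 2) ^ 2 - (∑ m u u) ^ 2`
(as `|q x - q y| = |u x - u y| * (u x + u y)`; write `½ m` and `k` as weights).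
(3) So `(∑ m u u) ^ 2 ≤ (d ^ 2 - h ^ 2) (∑ u ^ 2) ^ 2 ≤ (R ∑ u ^ 2) ^ 2`. -/
def StCheeger : Prop :=
  ∀ (X : Type) [DecidableEq X] (U : Finset X) (m : X → X → ℝ) (θ : X → X) (d h R : ℝ),
    (∀ x y, 0 ≤ m x y) → (∀ x y, m x y = m y x) → (∀ x, θ (θ x) = x) →
    (∀ x, x ∈ U → θ x ∈ U) → (∀ x y, m (θ x) (θ y) = m x y) →
    (∀ x ∈ U, ∑ y ∈ U, m x y ≤ d) → 0 ≤ h → 0 ≤ R → d ^ 2 - h ^ 2 ≤ R ^ 2 →
    (∀ W ⊆ U, (∀ w ∈ W, θ w ∉ W) → ∑ x ∈ W, ∑ y ∈ W, m x y ≤ (d - h) * W.card) →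
    ∀ f : X → ℝ, (∀ x, f (θ x) = - f x) →
      ∑ x ∈ U, ∑ y ∈ U, m x y * (f x * f y) ≤ R * ∑ x ∈ U, f x ^ 2

/-- JOB AP-MARK (you may assume `StCheeger`: prove `StCheeger → StMark`).
Twisted adjacency operators of marked subgraphs (degrees at most `d`) of the Cayley graph
have norm at most `d - 3/2`.
Proof. Let `P` be a finite set of places containing `supp φ`, `U = P ×ˢ univ : Finset (H × ZMod 4)`,
`θ (g, j) = (g, j + 2)`, and
`m (g, j) (g', j') = #{s | g' = g * a s ∧ j' = j + om 0 s g ∧ s ∈ τ g ∧ |τ g| ≤ d ∧ s ∈ τ g' ∧ |τ g'| ≤ d}` (symmetric by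
`a s * a s = 1` and `C.anti`; row sums `≤ |τ g| ≤ d` or `0`). `C.pl` gives
`∑_{x ∈ W} ∑_{y ∈ W} m x y ≤ (d - b) |W|` (the unmarked count is larger: for `w ∈ W`, `∑_{y ∈ W} m w y ≤ #{s | (w.1 * a s, w.2 + om 0 s w.1) ∈ W}`).
Apply `StCheeger` with `h = b`, `R = d - 3/2` (`R ^ 2 ≥ d ^ 2 - b ^ 2` since `b ^ 2 ≥ 3 d`; `d ≥ 3/2`
because `3 d ≤ b ^ 2 ≤ d ^ 2` and `d > 0`; if `d = 0`, then all sums of the left side vanish — and the right side is then negative: so `0 < d` is assumed) to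
`f (g, j) = Re (ii j * φ g)`, which satisfies `f (g, j + 2) = - f (g, j)`. As
`∑_j Re (ii j * z) * Re (ii j * w) = 2 * Re (conj z * w)` we get
`∑ m f f = 2 * Re (∑_g ∑_s [marked] conj (φ g) * ii (om 0 s g) * φ (g * a s))` and `∑ f ^ 2 = 2 ∑ |φ| ^ 2`. -/
def StMark : Prop :=
  ∀ (H S : Type) [Group H] [Fintype S] [DecidableEq S] [DecidableEq H] (d b : ℕ)
    (C : CTData H S d b), 0 < d → b ≤ d → 3 * d ≤ b ^ 2 → ∀ (τ : H → Finset S) (P : Finset H) (φ : H → ℂ),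
    (∀ g, g ∉ P → φ g = 0) →
    (∑ g ∈ P, ∑ s : S, (if (s ∈ τ g ∧ (τ g).card ≤ d) ∧ (s ∈ τ (g * C.a s) ∧ (τ (g * C.a s)).card ≤ d)
      then (starRingEnd ℂ) (φ g) * ii (C.om 0 s g) * φ (g * C.a s) else 0)).re ≤
      ((d : ℝ) - 3 / 2) * ∑ g ∈ P, ‖φ g‖ ^ 2

/-- JOB AP-FOUR (you may assume `StMark` and `StPs`: prove `StMark → StPs → StFour`).
Proof. Let `P` be the finite set of places `g` of elements of `supp F`, and `L : Finset (H × S)`
a finite set which contains all lamps `l` of elements of `supp F` and `P ×ˢ univ`. For `Y ⊆ L` put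
`φ_Y g = ∑_{l ⊆ L} (-1)^|l ∩ Y| * F ⟨l, g⟩` and `τ_Y g = {s | (g, s) ∈ Y}`. Parseval on the finite group
`(L.powerset, ∆)`: `∑_{Y ⊆ L} ‖φ_Y g‖ ^ 2 = 2^|L| * ∑_{l ⊆ L} ‖F ⟨l, g⟩‖ ^ 2`, and for `v ⊆ L`
`∑_{l ⊆ L} conj (F ⟨l, g⟩) * F ⟨l ∆ v, g'⟩ = 2^(-|L|) ∑_{Y ⊆ L} (-1)^|v ∩ Y| * conj (φ_Y g) * φ_Y g'`.
For `y = ⟨l, g⟩` with `g ∈ P`: `y * el a s lam lam' = ⟨l ∆ v, g * a s⟩` with
`v = ({g} × lam) ∆ ({g * a s} × lam')`; only `g * a s ∈ P` matters (otherwise `F = 0` there) and then `v ⊆ L`,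
`(-1)^|v ∩ Y| = (-1)^|lam ∩ τ_Y g| * (-1)^|lam' ∩ τ_Y (g * a s)|`. Sum over `lam, lam'` with the weights `ps`
(`StPs`): `TT C chi0 F = 2^(-|L|) ∑_{Y ⊆ L} ∑_{g ∈ P} ∑_s [marks τ_Y] conj (φ_Y g) * ii (om 0 s g) * φ_Y (g * a s)`
(terms with `g * a s ∉ P` vanish on both sides). Apply `StMark` to every `Y` and Parseval. -/
def StFour : Prop :=
  ∀ (H S : Type) [Group H] [Fintype S] [DecidableEq S] [DecidableEq H] (d b : ℕ)
    (C : CTData H S d b), 0 < d → b ≤ d → 3 * d ≤ b ^ 2 → ∀ F : Lam H S → ℂ, F.support.Finite →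
    (TT C chi0 F).re ≤ ((d : ℝ) - 3 / 2) * ∑' y, ‖F y‖ ^ 2

/-- JOB AP-TAIL (you may assume `StFour`: prove `StFour → StTail`).
Proof. Truncate: for a finite set `V` of `Lam H S` let `F_V = F` on `V` and `0` outside. As
`V` grows (filter `atTop` on `Finset (Lam H S)`), `∑ ‖F_V‖ ^ 2 → ∑' ‖F‖ ^ 2`, and for every fixed `x`, `s`
`∑' y, conj (F_V y) * ii (..) * F_V (y * x) → ∑' y, conj (F y) * ii (..) * F (y * x)`: dominated
convergence for series (`tendsto_tsum_of_dominated_convergence`) with the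
summable bound `‖F y‖ * ‖F (y * x)‖ ≤ (‖F y‖ ^ 2 + ‖F (y * x)‖ ^ 2) / 2`. `TT` is a finite linear
combination of such sums. Take the limit in `StFour`. -/
def StTail : Prop :=
  ∀ (H S : Type) [Group H] [Fintype S] [DecidableEq S] [DecidableEq H] (d b : ℕ)
    (C : CTData H S d b), 0 < d → b ≤ d → 3 * d ≤ b ^ 2 → ∀ F : Lam H S → ℂ,
    Summable (fun y => ‖F y‖ ^ 2) →
    (TT C chi0 F).re ≤ ((d : ℝ) - 3 / 2) * ∑' y, ‖F y‖ ^ 2

/-- The frozen statement S04951 (the positive answer to Q1). -/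
def Q1 : Prop :=
  ∀ (G : Type) [Group G] [TopologicalSpace G] [IsTopologicalGroup G]
    [LocallyCompactSpace G] [T2Space G] [MeasurableSpace G] [BorelSpace G],
    ∀ φ : G → ℂ, Continuous φ →
      φ ∈ closure {ψ : G → ℂ | ∃ ξ : G → ℂ,
            MeasureTheory.MemLp ξ 2 (MeasureTheory.Measure.haar : MeasureTheory.Measure G) ∧
            ∀ x : G, ψ x = ∫ y, ξ y * (starRingEnd ℂ) (ξ (x⁻¹ * y))
              ∂(MeasureTheory.Measure.haar : MeasureTheory.Measure G)} →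
      ∀ K : Set G, IsCompact K → ∀ ε : ℝ, 0 < ε →
        ∃ ξ : G → ℂ,
          MeasureTheory.MemLp ξ 2 (MeasureTheory.Measure.haar : MeasureTheory.Measure G) ∧
          ∀ x ∈ K, ‖φ x - ∫ y, ξ y * (starRingEnd ℂ) (ξ (x⁻¹ * y))
              ∂(MeasureTheory.Measure.haar : MeasureTheory.Measure G)‖ < ε

/-- JOB AP-FINAL: prove
`StSlice → StHeroCoef → StAdvCoef → StLR → StLim → StCoc → StHero → StTail → StAP`.
Proof. Let `cL` be the cocycle of `StCoc`, `G = Tw cL` (countable lamp group). For `m < m'` let `F m m'` be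
the function of `StHero` (`i = m`), and `A m m' = rc cL (chi m m') (F m m')`; `‖A m m' x‖ ≤ ∑ ‖F‖^2 = 1`
(Cauchy-Schwarz: `‖conj (F y) * F (y x)‖ ≤ (‖F y‖ ^ 2 + ‖F (y x)‖ ^ 2) / 2`), `A m m' 1 = 1` (as `c y 1 = 0`). By `StLR`, `StHeroCoef`
every `ψ x = ii (chi m m' x.a) * A m m' x.d` is the coefficient function of an `L²` function. By
`StLim` we get `α` with `φ x = ii (x.a 0) * α x.d` in the closure; `φ` is continuous (locally
constant in `d`, continuous in `a 0`).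
Let `X s lam lam' : G = ⟨el C.a s lam lam', fun k => C.om k s 1⟩` and for `ψ : G → ℂ`
`T ψ = ∑ s lam lam', ps s lam * ps s lam' * ψ (X s lam lam')`, continuous in `ψ` for pointwise convergence. For
`ψ x = ii (χ x.a) * rc cL χ F x.d` we have `T ψ = TT C χ F` because
`ii (χ (om · s 1)) * ii (χ (c y (el ..))) = ii (χ (om · s y.g))` by `StCoc`. So `Re (T ψ) ≥ d - 1` and
`ψ 1 = 1` for all hero functions; both conditions are closed, so `Re (T φ) ≥ d - 1`, `φ 1 = 1`, i.e. `α 1 = 1`.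
Suppose `Q1`. Let `N = ∑ |ps s lam * ps s lam'|`, `ε > 0` with `ε * (N + d) < 1/2`, and
`K = {x : G | x.d ∈ E}` with the finite set `E = {1} ∪ {el ..}`; it is compact (finite union of slices, `StSlice`). `Q1` gives
`ξ ∈ L²` with `‖φ x - coef ξ x‖ < ε` on `K`. By `StAdvCoef` with `χ = chi0` and `StLR` we get `F` with
`Summable ‖F‖ ^ 2` and `‖α x - rc cL chi0 F x‖ ≤ ε` for `x ∈ E`. Then
`∑' ‖F y‖ ^ 2 = rc cL chi0 F 1 ≤ 1 + ε` (real part), and `|Re (T φ) - Re (TT C chi0 F)| ≤ ε * N`. By `StTail`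
`d - 1 - ε N ≤ (d - 3/2) * ∑' ‖F‖ ^ 2 ≤ (d - 3/2) (1 + ε)` (here `d ≥ 3/2`: from `0 < d`, `3 d ≤ b^2 ≤ d^2`),
contradiction. -/
def StAP : Prop :=
  ∀ (H S : Type) [Group H] [Countable H] [Fintype S] [DecidableEq S] [DecidableEq H] (d b : ℕ)
    (_ : CTData H S d b), 0 < d → b ≤ d → 3 * d ≤ b ^ 2 → ¬ Q1

end Pool.Agent.H262.EB
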