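import Pool.Agent.H262.EB.AP

/-! Project EB (helper262), task AP-FINAL: assembly of the analytic part (helper278) -/

set_option autoImplicit false
set_option linter.style.haveILetI false

namespace Pool.Agent.H262.EB.APFinal

open Finset MeasureTheory Pool.Agent.H262.EB

section general

variable {D : Type} [Group D] (c : Cocycle D) (χ : (ℕ → ZMod 4) →+ ZMod 4)

theorem rc_one (F : D → ℂ) : rc c χ F 1 = ((∑' y, ‖F y‖ ^ 2 : ℝ) : ℂ) := by
  unfold rc
  rw [Complex.ofReal_tsum]
  refine tsum_congr fun y => ?_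
  rw [c.one_right, map_zero, ii_zero, mul_one, mul_one, mul_comm, Complex.mul_conj,
    Complex.normSq_eq_norm_sq]

theorem norm_rc_le (F : D → ℂ) (hF : Summable (fun y => ‖F y‖ ^ 2)) (x : D) :
    ‖rc c χ F x‖ ≤ ∑' y, ‖F y‖ ^ 2 := by
  have h1 : HasSum (fun y => ‖F (y * x)‖ ^ 2) (∑' y, ‖F y‖ ^ 2) :=
    (Equiv.mulRight x).hasSum_iff.2 hF.hasSum
  have h2 := (hF.hasSum.add h1).div_const 2
  rw [add_self_div_two] at h2
  refine tsum_of_norm_bounded h2 fun y => ?_
  rw [norm_mul, norm_mul, RCLike.norm_conj, norm_ii, mul_one]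
  nlinarith [sq_nonneg (‖F y‖ - ‖F (y * x)‖)]

omit [Group D] in
theorem summable_of_tsum_eq_one (F : D → ℂ) (h : ∑' y, ‖F y‖ ^ 2 = 1) :
    Summable (fun y => ‖F y‖ ^ 2) := by
  by_contra h0
  rw [tsum_eq_zero_of_not_summable h0] at h
  exact zero_ne_one h

theorem continuous_phi (α : D → ℂ) : Continuous (fun x : Tw c => ii (x.a 0) * α x.d) := by
  letI : TopologicalSpace D := ⊥
  haveI : DiscreteTopology D := ⟨rfl⟩
  have h1 : Continuous (fun x : Tw c => x.d) := Tw.continuous_d id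
  have h2 : Continuous (fun x : Tw c => x.a 0) := (continuous_apply 0).comp Tw.continuous_a
  exact ((continuous_of_discreteTopology (f := ii)).comp h2).mul
    ((continuous_of_discreteTopology (f := α)).comp h1)

end general

section test

variable {H S : Type} [Group H] [Fintype S] [DecidableEq S] [DecidableEq H] {d b : ℕ}

/-- The test functional on functions on the extension. -/
noncomputable def T (C : CTData H S d b) (cL : Cocycle (Lam H S)) (ψ : Tw cL → ℂ) : ℂ :=
  ∑ s : S, ∑ lam : Finset S, ∑ lam' : Finset S, ((ps S d s lam * ps S d s lam' : ℝ) : ℂ) *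
    ψ ⟨el C.a s lam lam', fun k => C.om k s 1⟩

theorem continuous_T (C : CTData H S d b) (cL : Cocycle (Lam H S)) : Continuous (T C cL) := by
  unfold T
  exact continuous_finsetSum _ fun s _ => continuous_finsetSum _ fun lam _ =>
    continuous_finsetSum _ fun lam' _ => continuous_const.mul (continuous_apply _)

theorem T_eq (C : CTData H S d b) (cL : Cocycle (Lam H S))
    (hcL : ∀ y s lam lam',
      cL.c y (el C.a s lam lam') = (fun k => C.om k s y.g) - (fun k => C.om k s 1))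
    (χ : (ℕ → ZMod 4) →+ ZMod 4) (F : Lam H S → ℂ) :
    T C cL (fun x => ii (χ x.a) * rc cL χ F x.d) = TT C χ F := by
  unfold T TT
  refine Finset.sum_congr rfl fun s _ => Finset.sum_congr rfl fun lam _ =>
    Finset.sum_congr rfl fun lam' _ => ?_
  refine congrArg _ ?_
  show ii (χ (fun k => C.om k s 1)) * rc cL χ F (el C.a s lam lam') = _
  unfold rc
  rw [← tsum_mul_left]
  refine tsum_congr fun y => ?_
  have h : ii (χ (fun k => C.om k s y.g)) =
      ii (χ (fun k => C.om k s 1)) * ii (χ (cL.c y (el C.a s lam lam'))) := by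
    rw [hcL, map_sub, ← ii_add, add_sub_cancel]
  rw [h]
  ring

/-- The total mass of the coefficients of the test element. -/
noncomputable def N (S : Type) [Fintype S] [DecidableEq S] (d : ℕ) : ℝ :=
  ∑ s : S, ∑ lam : Finset S, ∑ lam' : Finset S, |ps S d s lam * ps S d s lam'|

theorem N_nonneg : 0 ≤ N S d :=
  Finset.sum_nonneg fun _ _ => Finset.sum_nonneg fun _ _ => Finset.sum_nonneg fun _ _ =>
    abs_nonneg _

theorem norm_T_sub_le (C : CTData H S d b) (cL : Cocycle (Lam H S)) (α β : Lam H S → ℂ) (ε : ℝ)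
    (h : ∀ s lam lam', ‖α (el C.a s lam lam') - β (el C.a s lam lam')‖ ≤ ε) :
    ‖T C cL (fun x => ii (x.a 0) * α x.d) - T C cL (fun x => ii (x.a 0) * β x.d)‖ ≤ N S d * ε := by
  unfold T N
  rw [← Finset.sum_sub_distrib, Finset.sum_mul]
  refine (norm_sum_le _ _).trans (Finset.sum_le_sum fun s _ => ?_)
  rw [← Finset.sum_sub_distrib, Finset.sum_mul]
  refine (norm_sum_le _ _).trans (Finset.sum_le_sum fun lam _ => ?_)
  rw [← Finset.sum_sub_distrib, Finset.sum_mul]
  refine (norm_sum_le _ _).trans (Finset.sum_le_sum fun lam' _ => ?_)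
  rw [← mul_sub, ← mul_sub, norm_mul, norm_mul, norm_ii, one_mul, Complex.norm_real,
    Real.norm_eq_abs]
  exact mul_le_mul_of_nonneg_left (h s lam lam') (abs_nonneg _)

end test

theorem main : StSlice → StHeroCoef → StAdvCoef → StLR → StLim → StCoc → StHero → StTail →
    StAP := by
  intro hSlice hHeroCoef hAdv hLR hLim hCoc hHero hTail H S _ _ _ _ _ d b C hd hbd h3 hQ
  obtain ⟨cL, hcL⟩ := hCoc H S d b C
  -- the hero functions
  have hF : ∀ m m' : ℕ, ∃ F : Lam H S → ℂ, m < m' → (F.support.Finite ∧ ∑' y, ‖F y‖ ^ 2 = 1 ∧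
      (d : ℝ) - 1 ≤ (TT C (chi m m') F).re) := by
    intro m m'
    by_cases h : m < m'
    · obtain ⟨F, h1, h2, h3⟩ := hHero H S d b C m m' h.ne'
      exact ⟨F, fun _ => ⟨h1, h2, h3⟩⟩
    · exact ⟨0, fun h' => absurd h' h⟩
  choose F hF using hF
  obtain ⟨α, hα⟩ := hLim (Lam H S) cL (fun m m' => rc cL (chi m m') (F m m')) (by
    intro m m' x h
    have h1 := norm_rc_le cL (chi m m') (F m m')
      (summable_of_tsum_eq_one _ (hF m m' h).2.1) x
    rwa [(hF m m' h).2.1] at h1)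
  have hφc : Continuous (fun x : Tw cL => ii (x.a 0) * α x.d) := continuous_phi cL α
  -- the hero functions give coefficient functions
  have hφ1 := closure_mono (t := {ψ : Tw cL → ℂ | ∃ ξ : Tw cL → ℂ,
            MeasureTheory.MemLp ξ 2 (MeasureTheory.Measure.haar : MeasureTheory.Measure (Tw cL)) ∧
            ∀ x : Tw cL, ψ x = ∫ y, ξ y * (starRingEnd ℂ) (ξ (x⁻¹ * y))
              ∂(MeasureTheory.Measure.haar : MeasureTheory.Measure (Tw cL))}) (by
    rintro ψ ⟨m, m', h, rfl⟩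
    obtain ⟨f, hf1, hf2⟩ := (hLR (Lam H S) cL (chi m m')).2 (F m m')
    have hfs : f.support.Finite := by
      refine ((hF m m' h).1.inv).subset ?_
      intro y hy
      rw [Set.mem_inv, Function.mem_support, ← norm_ne_zero_iff, ← hf1 y, norm_ne_zero_iff]
      exact hy
    obtain ⟨ξ, hξ1, hξ2⟩ := hHeroCoef (Lam H S) cL (chi m m') (continuous_chi m m') f hfs
    refine ⟨ξ, hξ1, fun x => ?_⟩
    show ii (chi m m' x.a) * rc cL (chi m m') (F m m') x.d = coef ξ x
    rw [hξ2 x, hf2]) hα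
  -- closed conditions
  have hT : (d : ℝ) - 1 ≤ (T C cL (fun x => ii (x.a 0) * α x.d)).re := by
    have hcl : IsClosed {ψ : Tw cL → ℂ | (d : ℝ) - 1 ≤ (T C cL ψ).re} :=
      isClosed_le continuous_const (Complex.continuous_re.comp (continuous_T C cL))
    refine closure_minimal ?_ hcl hα
    rintro ψ ⟨m, m', h, rfl⟩
    show (d : ℝ) - 1 ≤ (T C cL (fun x => ii (chi m m' x.a) * rc cL (chi m m') (F m m') x.d)).re
    rw [T_eq C cL hcL]
    exact (hF m m' h).2.2
  have hα1 : α 1 = 1 := by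
    have hcl : IsClosed {ψ : Tw cL → ℂ | ψ 1 = 1} :=
      isClosed_eq (continuous_apply _) continuous_const
    have h1 : (fun x : Tw cL => ii (x.a 0) * α x.d) ∈ {ψ : Tw cL → ℂ | ψ 1 = 1} := by
      refine closure_minimal ?_ hcl hα
      rintro ψ ⟨m, m', h, rfl⟩
      show ii (chi m m' (1 : Tw cL).a) * rc cL (chi m m') (F m m') (1 : Tw cL).d = 1
      rw [Tw.one_a, Tw.one_d, map_zero, ii_zero, one_mul, rc_one, (hF m m' h).2.1,
        Complex.ofReal_one]
    have h2 : ii ((1 : Tw cL).a 0) * α (1 : Tw cL).d = 1 := h1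
    rw [Tw.one_a, Tw.one_d, Pi.zero_apply, ii_zero, one_mul] at h2
    exact h2
  -- the compact set
  have hN := N_nonneg (S := S) (d := d)
  have hd' : (0 : ℝ) < d := by exact_mod_cast hd
  set ε : ℝ := 1 / (2 * (N S d + d + 1)) with hε
  have hε0 : 0 < ε := by rw [hε]; positivity
  have hε1 : ε * (N S d + d + 1) = 1 / 2 := by
    rw [hε]
    field_simp
  letI : DecidableEq (Lam H S) := Classical.decEq _
  set E : Finset (Lam H S) := insert 1 (Finset.univ.image
    fun p : S × Finset S × Finset S => el C.a p.1 p.2.1 p.2.2) with hE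
  have hE1 : (1 : Lam H S) ∈ E := Finset.mem_insert_self _ _
  have hE2 : ∀ s lam lam', el C.a s lam lam' ∈ E := fun s lam lam' =>
    Finset.mem_insert_of_mem (Finset.mem_image.2 ⟨(s, lam, lam'), Finset.mem_univ _, rfl⟩)
  have hK : IsCompact {x : Tw cL | x.d ∈ E} := by
    have h1 : {x : Tw cL | x.d ∈ E} = ⋃ e ∈ E, slice cL e := by
      ext x
      simp only [Set.mem_ofPred_eq, Set.mem_iUnion, slice, exists_prop]
      constructor
      · intro h
        exact ⟨x.d, h, rfl⟩
      · rintro ⟨e, he, h⟩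
        rw [h]
        exact he
    rw [h1]
    exact E.isCompact_biUnion fun e _ => ((hSlice (Lam H S) cL).1 e).2.1
  obtain ⟨ξ, hξ, hξK⟩ := hQ (Tw cL) _ hφc hφ1 _ hK ε hε0
  obtain ⟨f, hf, hft⟩ := hAdv (Lam H S) cL chi0 continuous_chi0 ξ hξ
  obtain ⟨G, hG1, hG2⟩ := (hLR (Lam H S) cL chi0).1 f
  have hGs : Summable (fun y => ‖G y‖ ^ 2) := by
    have h1 : Summable (fun y => ‖f y⁻¹‖ ^ 2) := (Equiv.inv (Lam H S)).summable_iff.2 hf
    refine h1.congr fun y => ?_
    rw [hG1]
  have hαG : ∀ x ∈ E, ‖α x - rc cL chi0 G x‖ ≤ ε := by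
    intro x hx
    rw [← hG2]
    exact hft x (α x) ε fun a => (hξK ⟨x, a⟩ hx).le
  -- the total mass
  have hS : ∑' y, ‖G y‖ ^ 2 ≤ 1 + ε := by
    have h1 := hαG 1 hE1
    rw [hα1, rc_one] at h1
    have h2 := Complex.abs_re_le_norm ((1 : ℂ) - ((∑' y, ‖G y‖ ^ 2 : ℝ) : ℂ))
    rw [Complex.sub_re, Complex.one_re, Complex.ofReal_re] at h2
    have h3 := (abs_le.1 (h2.trans h1)).1
    linarith
  have hTT := hTail H S d b C hd hbd h3 G hGs
  have hdiff := norm_T_sub_le C cL α (rc cL chi0 G) ε fun s lam lam' => hαG _ (hE2 s lam lam')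
  have hTG : T C cL (fun x => ii (x.a 0) * rc cL chi0 G x.d) = TT C chi0 G :=
    T_eq C cL hcL chi0 G
  rw [hTG] at hdiff
  have hre := (Complex.re_le_norm _).trans hdiff
  rw [Complex.sub_re] at hre
  have hd3 : 3 ≤ d := by
    have h1 : b ^ 2 ≤ d ^ 2 := Nat.pow_le_pow_left hbd 2
    have h2 : 3 * d ≤ d * d := by nlinarith
    exact Nat.le_of_mul_le_mul_right h2 hd
  have hd3' : (3 : ℝ) ≤ d := by exact_mod_cast hd3
  have h4 : ((d : ℝ) - 3 / 2) * ∑' y, ‖G y‖ ^ 2 ≤ ((d : ℝ) - 3 / 2) * (1 + ε) :=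
    mul_le_mul_of_nonneg_left hS (by linarith)
  nlinarith

end Pool.Agent.H262.EB.APFinal
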