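import Pool.Agent.H262.EB.AP

/-! Project EB (helper262), task AP-ADV: averaging over the compact centre (helper407) -/

set_option autoImplicit false
set_option linter.all false

namespace Pool.Agent.H262.EB.AdvCoef

open Finset MeasureTheory Pool.Agent.H262.EB

section

variable {D : Type} [Group D] [Countable D] (c : Cocycle D)

/-- the Haar measure -/
noncomputable abbrev mu : Measure (Tw c) := Measure.haar

instance : SFinite (mu c) := inferInstance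

variable {c}

omit [Countable D] in
theorem central {u : Tw c} (hu : u ∈ slice c 1) (y : Tw c) : y * u = u * y := by
  have h1 : u.d = 1 := hu
  apply Tw.ext'
  · rw [Tw.mul_d, Tw.mul_d, h1, mul_one, one_mul]
  · rw [Tw.mul_a, Tw.mul_a, h1, c.one_left, c.one_right, add_zero, add_zero, add_comm]

omit [Countable D] in
theorem mem_mul {u : Tw c} (hu : u ∈ slice c 1) (k : Tw c) : u * k ∈ slice c 1 ↔ k ∈ slice c 1 := by
  have h1 : u.d = 1 := hu
  show (u * k).d = 1 ↔ k.d = 1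
  rw [Tw.mul_d, h1, one_mul]

omit [Countable D] in
theorem mul_a' {u : Tw c} (hu : u ∈ slice c 1) (k : Tw c) : (u * k).a = u.a + k.a := by
  have h1 : u.d = 1 := hu
  rw [Tw.mul_a, h1, c.one_left, add_zero]

/-- invariance of the integral over the centre -/
theorem int_inv (hm : MeasurableSet (slice c 1)) {u : Tw c} (hu : u ∈ slice c 1) (Φ : Tw c → ℂ) :
    ∫ k in slice c 1, Φ (u * k) ∂(mu c) = ∫ k in slice c 1, Φ k ∂(mu c) := by
  rw [← integral_indicator hm, ← integral_indicator hm,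
    ← integral_mul_left_eq_self ((slice c 1).indicator Φ) u]
  congr 1
  funext k
  by_cases hk : k ∈ slice c 1
  · rw [Set.indicator_of_mem hk, Set.indicator_of_mem ((mem_mul hu k).2 hk)]
  · rw [Set.indicator_of_notMem hk, Set.indicator_of_notMem (fun h => hk ((mem_mul hu k).1 h))]

theorem ii_cancel (a : ZMod 4) : ii a * ii (-a) = 1 := by
  rw [← ii_add, add_neg_cancel, ii_zero]

/-- the projection onto the isotypic component -/
noncomputable def gg (χ : (ℕ → ZMod 4) →+ ZMod 4) (ξ : Tw c → ℂ) (y : Tw c) : ℂ :=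
  ∫ k in slice c 1, ii (χ (-k.a)) * ξ (k * y) ∂(mu c)

theorem gg_mul (hm : MeasurableSet (slice c 1)) (χ : (ℕ → ZMod 4) →+ ZMod 4) (ξ : Tw c → ℂ)
    {u : Tw c} (hu : u ∈ slice c 1) (y : Tw c) : gg χ ξ (u * y) = ii (χ u.a) * gg χ ξ y := by
  unfold gg
  rw [← int_inv hm hu (fun k => ii (χ (-k.a)) * ξ (k * y)), ← integral_const_mul]
  refine setIntegral_congr_fun hm fun k hk => ?_
  show ii (χ (-k.a)) * ξ (k * (u * y)) = ii (χ u.a) * (ii (χ (-(u * k).a)) * ξ (u * k * y))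
  rw [mul_a' hu, ← mul_assoc, ← mul_assoc, ← ii_add, ← map_add, central hu k]
  congr 4
  abel

theorem continuous_iichi (χ : (ℕ → ZMod 4) →+ ZMod 4) (hχ : Continuous χ) :
    Continuous (fun k : Tw c => ii (χ k.a)) := by
  have h1 : Continuous ii := continuous_of_discreteTopology
  exact h1.comp (hχ.comp Tw.continuous_a)

/-- mean square -/
theorem mean_sq {X : Type} [MeasurableSpace X] (ν : Measure X) [IsFiniteMeasure ν] (κ : ℝ)
    (hκ : κ = ν.real Set.univ) (hκ0 : 0 < κ) (f : X → ℝ) (h1 : Integrable f ν)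
    (h2 : Integrable (fun x => f x ^ 2) ν) : (∫ x, f x ∂ν) ^ 2 ≤ κ * ∫ x, f x ^ 2 ∂ν := by
  set m := (∫ x, f x ∂ν) / κ with hm
  have h3 : 0 ≤ ∫ x, (f x - m) ^ 2 ∂ν := integral_nonneg fun x => sq_nonneg _
  have h4 : ∫ x, (f x - m) ^ 2 ∂ν = ∫ x, f x ^ 2 ∂ν - 2 * m * ∫ x, f x ∂ν + m ^ 2 * κ := by
    have e : (fun x => (f x - m) ^ 2) = fun x => (f x ^ 2 - 2 * m * f x) + m ^ 2 := by
      funext x; ring
    have e1 : Integrable (fun x => 2 * m * f x) ν := h1.const_mul _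
    have e2 : Integrable (fun x => f x ^ 2 - 2 * m * f x) ν := h2.sub e1
    have e3 : Integrable (fun _ : X => m ^ 2) ν := integrable_const _
    rw [e, integral_add e2 e3, integral_sub h2 e1, integral_const_mul, integral_const,
      smul_eq_mul, hκ]
    ring
  have h5 : ∫ x, f x ∂ν = m * κ := by rw [hm]; field_simp
  rw [h4, h5] at h3
  rw [h5]
  nlinarith [h3, hκ0]

end

section main

variable {D : Type} [Group D] [Countable D] {c : Cocycle D}

/-- The main part, for measurable functions. -/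
theorem key (hS : StSlice) (χ : (ℕ → ZMod 4) →+ ZMod 4) (hχ : Continuous χ) (ξ : Tw c → ℂ)
    (hξm : StronglyMeasurable ξ) (hξ : MemLp ξ 2 (Measure.haar : Measure (Tw c))) :
    ∃ f : D → ℂ, Summable (fun z => ‖f z‖ ^ 2) ∧
      ∀ (x : D) (t : ℂ) (ε : ℝ), (∀ a, ‖ii (χ a) * t - coef ξ ⟨x, a⟩‖ ≤ ε) →
        ‖t - tc c χ f x‖ ≤ ε := by
  obtain ⟨hsl, hμd, hμ0, hμtop, hshift, hsum, -⟩ := hS D c
  have hm : MeasurableSet (slice c 1) := (hsl 1).2.2
  set μ : Measure (Tw c) := Measure.haar with hμ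
  set U : Set (Tw c) := slice c 1 with hU
  haveI hfin : IsFiniteMeasure (μ.restrict U) :=
    ⟨by rw [Measure.restrict_apply_univ]; exact lt_top_iff_ne_top.2 hμtop⟩
  set κ : ℝ := μ.real U with hκ
  have hκ0 : 0 < κ := ENNReal.toReal_pos hμ0 hμtop
  have hκc : (κ : ℂ) ≠ 0 := by exact_mod_cast hκ0.ne'
  have hii : Measurable (fun k : Tw c => ii (χ k.a)) := (continuous_iichi χ hχ).measurable
  -- square integrability
  have hsq : Integrable (fun y => ‖ξ y‖ ^ 2) μ := hξ.integrable_norm_pow (by norm_num)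
  have hLp : ∀ z : Tw c, MemLp (fun y => ξ (z * y)) 2 μ := fun z =>
    hξ.comp_measurePreserving (measurePreserving_mul_left μ z)
  have hsqz : ∀ z : Tw c, Integrable (fun y => ‖ξ (z * y)‖ ^ 2) μ := fun z =>
    (hLp z).integrable_norm_pow (by norm_num)
  have hL1 : ∀ z : Tw c, Integrable (fun y => ξ (z * y)) (μ.restrict U) := fun z =>
    ((hLp z).restrict U).integrable (by norm_num)
  -- Fubini
  have hF : ∀ z : Tw c, Integrable (fun p : Tw c × Tw c =>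
      ii (χ p.1.a) * (ξ p.2 * (starRingEnd ℂ) (ξ (p.1 * z * p.2)))) ((μ.restrict U).prod μ) := by
    intro z
    have hmeas : Measurable (fun p : Tw c × Tw c => p.1 * z * p.2) :=
      (measurable_fst.mul_const z).mul measurable_snd
    have h1 : Integrable (fun p : Tw c × Tw c => ‖ξ p.2‖ ^ 2) ((μ.restrict U).prod μ) :=
      hsq.comp_snd (μ.restrict U)
    have h2 : Integrable (fun p : Tw c × Tw c => ‖ξ (p.1 * z * p.2)‖ ^ 2)
        ((μ.restrict U).prod μ) := by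
      have hp1 : MeasurePreserving (fun p : Tw c × Tw c => (p.1, z * p.2))
          ((μ.restrict U).prod μ) ((μ.restrict U).prod μ) :=
        (MeasurePreserving.id (μ.restrict U)).prod (measurePreserving_mul_left μ z)
      have hp2 := measurePreserving_prod_mul (μ.restrict U) μ
      have hp := hp2.comp hp1
      have h3 := (hp.integrable_comp h1.aestronglyMeasurable).2 h1
      refine h3.congr (Filter.Eventually.of_forall fun p => ?_)
      show ‖ξ (p.1 * (z * p.2))‖ ^ 2 = ‖ξ (p.1 * z * p.2)‖ ^ 2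
      rw [mul_assoc]
    refine Integrable.mono' (h1.add h2) ?_ (Filter.Eventually.of_forall fun p => ?_)
    · have m1 : Measurable (fun p : Tw c × Tw c => ii (χ p.1.a)) := hii.comp measurable_fst
      have m2 : StronglyMeasurable (fun p : Tw c × Tw c => ξ p.2) :=
        hξm.comp_measurable measurable_snd
      have m3 : StronglyMeasurable (fun p : Tw c × Tw c => ξ (p.1 * z * p.2)) :=
        hξm.comp_measurable hmeas
      exact (m1.stronglyMeasurable.mul (m2.mul (Complex.continuous_conj.comp_stronglyMeasurable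
        m3))).aestronglyMeasurable
    · rw [norm_mul, norm_ii, one_mul, norm_mul, RCLike.norm_conj]
      show ‖ξ p.2‖ * ‖ξ (p.1 * z * p.2)‖ ≤ ‖ξ p.2‖ ^ 2 + ‖ξ (p.1 * z * p.2)‖ ^ 2
      nlinarith [sq_nonneg (‖ξ p.2‖ - ‖ξ (p.1 * z * p.2)‖), sq_nonneg (‖ξ p.2‖),
        sq_nonneg (‖ξ (p.1 * z * p.2)‖)]
  -- the function on `D`
  let f : D → ℂ := fun d => ((Real.sqrt κ)⁻¹ : ℝ) * gg χ ξ (⟨d, 0⟩ : Tw c)
  have hsqrt : ((Real.sqrt κ)⁻¹ : ℝ) * ((Real.sqrt κ)⁻¹ : ℝ) = κ⁻¹ := by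
    rw [← mul_inv, Real.mul_self_sqrt hκ0.le]
  have hkd : ∀ d : D, ∀ k ∈ U, k * (⟨d, 0⟩ : Tw c) = ⟨d, 0⟩ * k := fun d k hk =>
    (central hk _).symm
  have hfsum : Summable (fun z => ‖f z‖ ^ 2) := by
    have h1 : Summable (fun d : D => ∫ y in slice c d, ‖ξ y‖ ^ 2 ∂μ) := by
      have h2 : Integrable (fun y => ((‖ξ y‖ ^ 2 : ℝ) : ℂ)) μ := hsq.ofReal
      have h3 := (hsum _ h2).summable
      have h4 := h3.norm
      refine h4.congr fun d => ?_
      rw [integral_complex_ofReal, Complex.norm_real, Real.norm_of_nonneg]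
      exact integral_nonneg fun y => sq_nonneg _
    refine h1.of_nonneg_of_le (fun d => sq_nonneg _) fun d => ?_
    -- the integral over the slice
    have h2 : ∫ y in slice c d, ‖ξ y‖ ^ 2 ∂μ = ∫ k in U, ‖ξ (⟨d, 0⟩ * k)‖ ^ 2 ∂μ := by
      have h3 := hshift (fun y => ((‖ξ y‖ ^ 2 : ℝ) : ℂ)) d
      rw [integral_complex_ofReal] at h3
      have h4 : ∫ k in U, ((‖ξ (⟨d, 0⟩ * k)‖ ^ 2 : ℝ) : ℂ) ∂μ =
          ((∫ k in U, ‖ξ (⟨d, 0⟩ * k)‖ ^ 2 ∂μ : ℝ) : ℂ) := integral_complex_ofReal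
      have h5 := h3.trans h4
      exact_mod_cast h5
    rw [h2]
    have h6 : ‖gg χ ξ (⟨d, 0⟩ : Tw c)‖ ≤ ∫ k in U, ‖ξ (⟨d, 0⟩ * k)‖ ∂μ := by
      unfold gg
      refine (norm_integral_le_integral_norm _).trans (le_of_eq ?_)
      refine setIntegral_congr_fun hm fun k hk => ?_
      show ‖ii (χ (-k.a)) * ξ (k * ⟨d, 0⟩)‖ = ‖ξ (⟨d, 0⟩ * k)‖
      rw [norm_mul, norm_ii, one_mul, hkd d k hk]
    have h7 := mean_sq (μ.restrict U) κ (by rw [hκ, measureReal_restrict_apply_univ]) hκ0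
      (fun k => ‖ξ (⟨d, 0⟩ * k)‖) (hL1 _).norm ((hsqz _).restrict)
    have h8 : ‖f d‖ ^ 2 = κ⁻¹ * ‖gg χ ξ (⟨d, 0⟩ : Tw c)‖ ^ 2 := by
      show ‖(((Real.sqrt κ)⁻¹ : ℝ) : ℂ) * gg χ ξ (⟨d, 0⟩ : Tw c)‖ ^ 2 = _
      rw [norm_mul, Complex.norm_real, Real.norm_of_nonneg (by positivity), mul_pow, sq, hsqrt]
    rw [h8]
    have h9 : ‖gg χ ξ (⟨d, 0⟩ : Tw c)‖ ^ 2 ≤ κ * ∫ k in U, ‖ξ (⟨d, 0⟩ * k)‖ ^ 2 ∂μ :=
      (pow_le_pow_left₀ (norm_nonneg _) h6 2).trans h7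
    calc κ⁻¹ * ‖gg χ ξ (⟨d, 0⟩ : Tw c)‖ ^ 2 ≤ κ⁻¹ * (κ * ∫ k in U, ‖ξ (⟨d, 0⟩ * k)‖ ^ 2 ∂μ) :=
          mul_le_mul_of_nonneg_left h9 (by positivity)
      _ = _ := by rw [← mul_assoc, inv_mul_cancel₀ hκ0.ne', one_mul]
  refine ⟨f, hfsum, fun x t ε hε => ?_⟩
  set z : Tw c := (⟨x, 0⟩ : Tw c)⁻¹ with hz
  -- the average
  have hcoef : ∀ k ∈ U, coef ξ ⟨x, -k.a⟩ = ∫ y, ξ y * (starRingEnd ℂ) (ξ (k * z * y)) ∂μ := by
    intro k hk
    have hk1 : k.d = 1 := hk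
    have e : (⟨x, -k.a⟩ : Tw c) = ⟨x, 0⟩ * k⁻¹ := by
      apply Tw.ext'
      · show x = x * k.d⁻¹
        rw [hk1, inv_one, mul_one]
      · show -k.a = 0 + (-k.a - c.c k.d⁻¹ k.d) + c.c x k.d⁻¹
        rw [hk1, inv_one, c.one_left, c.one_right]
        abel
    unfold coef
    rw [e, mul_inv_rev, inv_inv]
  have hA : ∫ k in U, ii (χ k.a) * coef ξ ⟨x, -k.a⟩ ∂μ = κ * tc c χ f x := by
    have h1 : ∫ k in U, ii (χ k.a) * coef ξ ⟨x, -k.a⟩ ∂μ =
        ∫ k in U, ∫ y, ii (χ k.a) * (ξ y * (starRingEnd ℂ) (ξ (k * z * y))) ∂μ ∂μ := by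
      refine setIntegral_congr_fun hm fun k hk => ?_
      show ii (χ k.a) * coef ξ ⟨x, -k.a⟩ = _
      rw [hcoef k hk, ← integral_const_mul]
    have h2 : ∫ k in U, ∫ y, ii (χ k.a) * (ξ y * (starRingEnd ℂ) (ξ (k * z * y))) ∂μ ∂μ =
        ∫ y, ∫ k in U, ii (χ k.a) * (ξ y * (starRingEnd ℂ) (ξ (k * z * y))) ∂μ ∂μ :=
      integral_integral_swap (hF z)
    have h3 : ∀ y, ∫ k in U, ii (χ k.a) * (ξ y * (starRingEnd ℂ) (ξ (k * z * y))) ∂μ =
        ξ y * (starRingEnd ℂ) (gg χ ξ (z * y)) := by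
      intro y
      unfold gg
      rw [← integral_conj, ← integral_const_mul]
      refine integral_congr_ae (Filter.Eventually.of_forall fun k => ?_)
      show ii (χ k.a) * (ξ y * (starRingEnd ℂ) (ξ (k * z * y))) =
        ξ y * (starRingEnd ℂ) (ii (χ (-k.a)) * ξ (k * (z * y)))
      rw [map_mul, map_neg, ii_neg, Complex.conj_conj, mul_assoc k z y]
      ring
    have h4 : Integrable (fun y => ξ y * (starRingEnd ℂ) (gg χ ξ (z * y))) μ := by
      refine (hF z).integral_prod_right.congr (Filter.Eventually.of_forall fun y => ?_)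
      exact h3 y
    have h5 := hsum _ h4
    have h6 : ∀ d : D, ∫ y in slice c d, ξ y * (starRingEnd ℂ) (gg χ ξ (z * y)) ∂μ =
        κ * (f d * (starRingEnd ℂ) (f (x⁻¹ * d)) * ii (χ (c.c x (x⁻¹ * d)))) := by
      intro d
      rw [hshift]
      have h7 : ∀ k ∈ U, gg χ ξ (z * (⟨d, 0⟩ * k)) =
          ii (χ (-c.c x (x⁻¹ * d) + k.a)) * gg χ ξ ⟨x⁻¹ * d, 0⟩ := by
        intro k hk
        have hk1 : k.d = 1 := hk
        set u : Tw c := ⟨1, -c.c x (x⁻¹ * d)⟩ with hu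
        have huU : u ∈ slice c 1 := rfl
        have hukU : u * k ∈ slice c 1 := (mem_mul huU k).2 hk
        have e : z * (⟨d, 0⟩ * k) = (u * k) * ⟨x⁻¹ * d, 0⟩ := by
          have e1 : z * (⟨d, 0⟩ : Tw c) = u * ⟨x⁻¹ * d, 0⟩ := by
            apply Tw.ext'
            · show x⁻¹ * d = 1 * (x⁻¹ * d)
              rw [one_mul]
            · show (-0 - c.c x⁻¹ x) + 0 + c.c x⁻¹ d =
                -c.c x (x⁻¹ * d) + 0 + c.c 1 (x⁻¹ * d)
              have hc := c.coc x⁻¹ x (x⁻¹ * d)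
              rw [inv_mul_cancel, c.one_left, mul_inv_cancel_left, add_zero] at hc
              rw [c.one_left, hc]
              abel
          rw [← mul_assoc, e1, mul_assoc, mul_assoc, central hk]
        rw [e, gg_mul hm χ ξ hukU, mul_a' huU]
      have h8 : ∫ k in slice c 1, ξ (⟨d, 0⟩ * k) *
            (starRingEnd ℂ) (gg χ ξ (z * (⟨d, 0⟩ * k))) ∂μ =
          (ii (χ (c.c x (x⁻¹ * d))) * (starRingEnd ℂ) (gg χ ξ ⟨x⁻¹ * d, 0⟩)) *
            ∫ k in slice c 1, ii (χ (-k.a)) * ξ (k * ⟨d, 0⟩) ∂μ := by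
        rw [← integral_const_mul]
        refine setIntegral_congr_fun hm fun k hk => ?_
        show ξ (⟨d, 0⟩ * k) * (starRingEnd ℂ) (gg χ ξ (z * (⟨d, 0⟩ * k))) = _
        rw [h7 k hk, hkd d k hk, map_mul, map_add, ii_add, map_mul, map_neg, map_neg, ii_neg,
          ii_neg, Complex.conj_conj]
        ring
      rw [h8]
      show _ = (κ : ℂ) * ((((Real.sqrt κ)⁻¹ : ℝ) : ℂ) * gg χ ξ (⟨d, 0⟩ : Tw c) *
        (starRingEnd ℂ) ((((Real.sqrt κ)⁻¹ : ℝ) : ℂ) * gg χ ξ (⟨x⁻¹ * d, 0⟩ : Tw c)) *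
          ii (χ (c.c x (x⁻¹ * d))))
      have hsc : (κ : ℂ) * ((((Real.sqrt κ)⁻¹ : ℝ) : ℂ) * (((Real.sqrt κ)⁻¹ : ℝ) : ℂ)) = 1 := by
        rw [← Complex.ofReal_mul, hsqrt, ← Complex.ofReal_mul, mul_inv_cancel₀ hκ0.ne',
          Complex.ofReal_one]
      rw [map_mul, Complex.conj_ofReal]
      have e9 : (κ : ℂ) * ((((Real.sqrt κ)⁻¹ : ℝ) : ℂ) * gg χ ξ (⟨d, 0⟩ : Tw c) *
          ((((Real.sqrt κ)⁻¹ : ℝ) : ℂ) * (starRingEnd ℂ) (gg χ ξ (⟨x⁻¹ * d, 0⟩ : Tw c))) *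
          ii (χ (c.c x (x⁻¹ * d)))) =
          (κ : ℂ) * ((((Real.sqrt κ)⁻¹ : ℝ) : ℂ) * (((Real.sqrt κ)⁻¹ : ℝ) : ℂ)) *
          (ii (χ (c.c x (x⁻¹ * d))) * (starRingEnd ℂ) (gg χ ξ ⟨x⁻¹ * d, 0⟩) *
            gg χ ξ (⟨d, 0⟩ : Tw c)) := by ring
      rw [e9, hsc, one_mul]
      rfl
    rw [h1, h2, integral_congr_ae (Filter.Eventually.of_forall h3), ← h5.tsum_eq, tc,
      ← tsum_mul_left]
    exact tsum_congr h6
  -- the estimate
  have hint1 : Integrable (fun k => ii (χ k.a) * coef ξ ⟨x, -k.a⟩) (μ.restrict U) := by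
    refine (hF z).integral_prod_left.congr ?_
    refine (ae_restrict_iff' hm).2 (Filter.Eventually.of_forall fun k hk => ?_)
    show ∫ y, ii (χ k.a) * (ξ y * (starRingEnd ℂ) (ξ (k * z * y))) ∂μ =
      ii (χ k.a) * coef ξ ⟨x, -k.a⟩
    rw [hcoef k hk, ← integral_const_mul]
  have h1 : ∫ k in U, (t - ii (χ k.a) * coef ξ ⟨x, -k.a⟩) ∂μ = κ * (t - tc c χ f x) := by
    rw [integral_sub (integrable_const _) hint1, hA, integral_const, measureReal_restrict_apply_univ,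
      ← hκ, Complex.real_smul]
    ring
  have h2 : ‖∫ k in U, (t - ii (χ k.a) * coef ξ ⟨x, -k.a⟩) ∂μ‖ ≤ ε * μ.real U := by
    refine norm_setIntegral_le_of_norm_le_const (lt_top_iff_ne_top.2 hμtop) fun k hk => ?_
    have h3 := hε (-k.a)
    have e : t - ii (χ k.a) * coef ξ ⟨x, -k.a⟩ =
        ii (χ k.a) * (ii (χ (-k.a)) * t - coef ξ ⟨x, -k.a⟩) := by
      rw [mul_sub, ← mul_assoc, map_neg, ii_cancel, one_mul]
    rw [e, norm_mul, norm_ii, one_mul]
    exact h3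
  rw [h1, norm_mul, Complex.norm_real, Real.norm_of_nonneg hκ0.le, ← hκ, mul_comm ε] at h2
  exact le_of_mul_le_mul_left h2 hκ0

end main

theorem main : StSlice → StAdvCoef := by
  intro hS D _ _ c χ hχ ξ hξ
  set ξ' : Tw c → ℂ := hξ.1.mk ξ with hξ'
  have hae : ξ =ᵐ[(Measure.haar : Measure (Tw c))] ξ' := hξ.1.ae_eq_mk
  have hm' : StronglyMeasurable ξ' := hξ.1.stronglyMeasurable_mk
  have hLp' : MemLp ξ' 2 (Measure.haar : Measure (Tw c)) := (memLp_congr_ae hae).1 hξ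
  have hcoef : ∀ x, coef ξ x = coef ξ' x := by
    intro x
    unfold coef
    have h1 : (fun y => ξ (x⁻¹ * y)) =ᵐ[(Measure.haar : Measure (Tw c))]
        fun y => ξ' (x⁻¹ * y) :=
      (measurePreserving_mul_left (Measure.haar : Measure (Tw c))
        x⁻¹).quasiMeasurePreserving.ae_eq hae
    refine integral_congr_ae ?_
    filter_upwards [hae, h1] with y hy1 hy2
    rw [hy1, hy2]
  obtain ⟨f, hf, hf2⟩ := key hS χ hχ ξ' hm' hLp'
  refine ⟨f, hf, fun x t ε hε => hf2 x t ε fun a => ?_⟩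
  rw [← hcoef]
  exact hε a

end Pool.Agent.H262.EB.AdvCoef
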