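import Pool.Agent.H262.EB.CT

set_option autoImplicit false

/-!
# Project EB, job CT-AVG: the average degree of a block
-/

namespace Pool.Agent.H262.EB.Avg

open Finset
open scoped symmDiff
open Pool.Agent.TH950.FC
open Pool.Agent.TH429.J864
open Pool.Agent.H262.EB

section

variable {m : ℕ} {n : ℕ → ℕ} (G : ∀ i, SimpleGraph (Fin (n i)))
  (c : ∀ i, Sym2 (Fin (n i)) → Fin m)
  (hc : ∀ i (u v w : Fin (n i)), (G i).Adj u v → (G i).Adj u w → v ≠ w →
    c i s(u, v) ≠ c i s(u, w)) {T : Theta (Fin m) (QQ m n)} (hT : T.toLG = LGG G c hc)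

include hT in
/-- the degree of a vertex of the cover -/
theorem odeg_emb (i : ℕ) (v : Fin (n i)) (A : Finset (Sym2 (Fin (n i)))) :
    odeg T.cov (emb i (v, A)) = ((G i).neighborSet v).ncard := by
  classical
  unfold odeg
  rw [← Set.ncard_coe_finset]
  have h1 : ((univ.filter fun s : Fin m => ∃ y, T.cov.E s (emb i (v, A)) y : Finset (Fin m)) :
      Set (Fin m)) = (fun u => c i s(v, u)) '' (G i).neighborSet v := by
    ext s
    rw [Finset.mem_coe, Finset.mem_filter]
    constructor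
    · rintro ⟨-, y, hy⟩
      obtain ⟨u, h1, h2, -⟩ := cov_inv G c hc hT hy
      exact ⟨u, h1, h2⟩
    · rintro ⟨u, h1, rfl⟩
      exact ⟨mem_univ _, _, cov_adj G c hc hT h1 A⟩
  rw [h1, Set.InjOn.ncard_image]
  intro a ha b hb hab
  by_contra hne
  exact hc i v a b ha hb hne hab

end

/-- sum over a set of pairs of a function of the first coordinate, equal fibres -/
theorem sum_fib {V A : Type} [Fintype V] [Fintype A] [DecidableEq V] [DecidableEq A]
    (B : Finset (V × A)) (N : ℕ) (hN : ∀ v, (univ.filter fun a => (v, a) ∈ B).card = N)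
    (f : V → ℕ) : ∑ x ∈ B, f x.1 = N * ∑ v, f v := by
  have h1 : ∑ x ∈ B, f x.1 = ∑ x : V × A, if x ∈ B then f x.1 else 0 := by
    rw [← Finset.sum_filter]
    refine Finset.sum_congr ?_ fun _ _ => rfl
    ext x
    simp
  rw [h1, Fintype.sum_prod_type, Finset.mul_sum]
  refine Finset.sum_congr rfl fun v _ => ?_
  rw [← Finset.sum_filter]
  show ∑ a ∈ univ.filter (fun a => (v, a) ∈ B), f v = N * f v
  rw [Finset.sum_const, hN v, smul_eq_mul]

theorem main : StAvg := by
  intro m n G c hc T hT D i v0 hpre hdeg hsum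
  classical
  set q0 : QQ m n × Finset (Sym2 (QQ m n)) := (Sum.inl ⟨i, v0⟩, ∅) with hq0
  have hq0' : q0 = emb i (v0, ∅) := by
    rw [hq0]
    unfold emb
    simp
  set B0 : Finset (Fin (n i) × Finset (Sym2 (Fin (n i)))) :=
    univ.filter (fun x => T.cov.Reach q0 (emb i x)) with hB0
  have hmem0 : ∀ x, x ∈ B0 ↔ T.cov.Reach q0 (emb i x) := by
    intro x
    rw [hB0]
    simp
  have hmem1 : ∀ (v : Fin (n i)) (A : Finset (Sym2 (Fin (n i)))),
      A ∈ (univ.filter fun A => (v, A) ∈ B0) ↔ T.cov.Reach q0 (emb i (v, A)) := by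
    intro v A
    rw [Finset.mem_filter, hmem0]
    exact ⟨fun h => h.2, fun h => ⟨mem_univ _, h⟩⟩
  have hle : ∀ u v, (G i).Adj u v → (univ.filter fun A => (u, A) ∈ B0).card ≤
      (univ.filter fun A => (v, A) ∈ B0).card := by
    intro u v huv
    refine Finset.card_le_card_of_injOn (fun A => A ∆ {s(u, v)}) ?_ ?_
    · intro A hA
      rw [Finset.mem_coe, hmem1] at hA
      rw [Finset.mem_coe, hmem1]
      exact reach_step _ hA (cov_adj G c hc hT huv A)
    · intro A _ A' _ h
      exact symmDiff_left_injective _ h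
  have heq : ∀ u v, (univ.filter fun A => (u, A) ∈ B0).card =
      (univ.filter fun A => (v, A) ∈ B0).card := by
    intro u v
    obtain ⟨p⟩ := hpre u v
    induction p with
    | nil => rfl
    | cons h p ih => exact (le_antisymm (hle _ _ h) (hle _ _ h.symm)).trans ih
  set N := (univ.filter fun A => (v0, A) ∈ B0).card with hN
  have hN' : ∀ v, (univ.filter fun A => (v, A) ∈ B0).card = N := fun v => heq v v0
  have hcard : B0.card = N * n i := by
    have h1 := sum_fib B0 N hN' (fun _ => 1)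
    simpa using h1
  have hdegs : ∑ x ∈ B0, ((G i).neighborSet x.1).ncard = N * ∑ v, ((G i).neighborSet v).ncard :=
    sum_fib B0 N hN' (fun v => ((G i).neighborSet v).ncard)
  refine ⟨B0.map ⟨emb i, emb_inj i⟩, ?_, ?_, ?_⟩
  · intro z
    rw [Finset.mem_map]
    constructor
    · rintro ⟨x, hx, rfl⟩
      exact (hmem0 x).1 hx
    · intro hz
      obtain ⟨w, hw⟩ := id hz
      rw [hq0'] at hw
      obtain ⟨y, rfl⟩ := reach_emb G c hc hT w _ _ hw
      exact ⟨y, (hmem0 y).2 hz, rfl⟩
  · intro x hx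
    rw [Finset.mem_map] at hx
    obtain ⟨⟨v, A⟩, -, rfl⟩ := hx
    rw [Function.Embedding.coeFn_mk, odeg_emb G c hc hT]
    exact hdeg v
  · rw [Finset.card_map, Finset.sum_map]
    have h1 : ∑ x ∈ B0, odeg T.cov ((⟨emb i, emb_inj i⟩ : Fin (n i) × Finset (Sym2 (Fin (n i))) ↪
        QQ m n × Finset (Sym2 (QQ m n))) x) = ∑ x ∈ B0, ((G i).neighborSet x.1).ncard := by
      refine Finset.sum_congr rfl ?_
      rintro ⟨v, A⟩ -
      exact odeg_emb G c hc hT i v A
    rw [h1, hdegs, hcard]
    calc D * (N * n i) = N * (D * n i) := by ring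
      _ ≤ N * ((∑ v, ((G i).neighborSet v).ncard) + n i) := Nat.mul_le_mul_left _ hsum
      _ = N * (∑ v, ((G i).neighborSet v).ncard) + N * n i := by ring

end Pool.Agent.H262.EB.Avg
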