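import Pool.Agent.H262.EB.CT

/-! Project EB (helper262), task CT-BBT: transport of `CoverIso` to labelled graphs (helper230) -/

set_option autoImplicit false

namespace Pool.Agent.H262.EB.BBT

open Finset
open scoped symmDiff
open Pool.Agent.TH950.FC Pool.Agent.TH429.J864 Pool.Agent.H262.EB

/-- reachable vertices of the components that are single edges -/
theorem reach_inr {m : ℕ} {n : ℕ → ℕ} (G : ∀ i, SimpleGraph (Fin (n i)))
    (c : ∀ i, Sym2 (Fin (n i)) → Fin m)
    (hc : ∀ i (u v w : Fin (n i)), (G i).Adj u v → (G i).Adj u w → v ≠ w →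
      c i s(u, v) ≠ c i s(u, w)) {T : Theta (Fin m) (QQ m n)} (hT : T.toLG = LGG G c hc)
    (w : List (Fin m)) : ∀ (s : Fin m) (x z : QQ m n × Finset (Sym2 (QQ m n))),
      (∃ b, x.1 = Sum.inr (s, b)) → T.cov.Path x w z → ∃ b, z.1 = Sum.inr (s, b) := by
  induction w with
  | nil =>
    rintro s x z ⟨b, hb⟩ h
    cases h
    exact ⟨b, hb⟩
  | cons t w ih =>
    rintro s x z ⟨b, hb⟩ ⟨y, ⟨hy, -⟩, hw⟩
    refine ih s y z ?_ hw
    have h1 := (E_iff G c hc hT _ _ _).1 hy
    rw [hb] at h1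
    exact ⟨!b, (EE_inr G c h1).1⟩

open Classical in
theorem main : StBBT := by
  intro m n G hh c hc T hT hTh hiso q₀ W hreach hW
  rcases q₀ with ⟨i, v₀⟩ | ⟨s, b⟩
  · -- a component with the graph `G i`
    have hq0 : ((Sum.inl ⟨i, v₀⟩, ∅) : QQ m n × Finset (Sym2 (QQ m n))) = emb i (v₀, ∅) := by
      unfold emb
      simp
    let φ : ((Fin (n i) × Finset (Sym2 (Fin (n i)))) × ZMod 4) →
        (QQ m n × Finset (Sym2 (QQ m n))) × ZMod 4 := fun x => (emb i x.1, x.2)
    have hφ : Function.Injective φ := by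
      rintro ⟨x, j⟩ ⟨y, k⟩ h
      have h1 : emb (m := m) (n := n) i x = emb i y := (Prod.mk.inj h).1
      have h2 : j = k := (Prod.mk.inj h).2
      rw [emb_inj i h1, h2]
    let W' : Finset ((Fin (n i) × Finset (Sym2 (Fin (n i)))) × ZMod 4) :=
      univ.filter fun x => φ x ∈ W
    have hmem : ∀ x, x ∈ W' ↔ φ x ∈ W := fun x => by
      simp only [W', mem_filter, mem_univ, true_and]
    have hWW : W = W'.map ⟨φ, hφ⟩ := by
      ext w
      rw [mem_map]
      constructor
      · intro hw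
        obtain ⟨l, hl⟩ := hreach w hw
        rw [hq0] at hl
        obtain ⟨y, hy⟩ := reach_emb G c hc hT l _ _ hl
        have e : φ (y, w.2) = w := Prod.ext hy.symm rfl
        exact ⟨(y, w.2), (hmem _).2 (by rw [e]; exact hw), e⟩
      · rintro ⟨x, hx, rfl⟩
        exact (hmem x).1 hx
    have hcard : W.card = W'.card := by rw [hWW, card_map]
    have hW'2 : ∀ w ∈ W', (w.1, w.2 + 2) ∉ W' := by
      intro w hw h
      exact hW (φ w) ((hmem w).1 hw) ((hmem _).1 h)
    have hI := hiso i W' hW'2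
    have hsum : ∑ w ∈ W, outd T.cov (fun s c => (T.h s c.1 : ZMod 4)) W w ≤
        ∑ w ∈ W', {v | (G i).Adj w.1.1 v ∧
          ((v, w.1.2 ∆ {s(w.1.1, v)}), w.2 + (hh i w.1.1 v : ZMod 4)) ∈ W'}.ncard := by
      conv_lhs => rw [hWW]
      rw [sum_map]
      refine sum_le_sum ?_
      rintro ⟨⟨u, A⟩, j⟩ _
      show outd T.cov (fun s c => (T.h s c.1 : ZMod 4)) (W'.map ⟨φ, hφ⟩) (emb i (u, A), j) ≤
        {v | (G i).Adj u v ∧ ((v, A ∆ {s(u, v)}), j + (hh i u v : ZMod 4)) ∈ W'}.ncard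
      rw [← hWW]
      set Z : Set (Fin (n i)) :=
        {v | (G i).Adj u v ∧ ((v, A ∆ {s(u, v)}), j + (hh i u v : ZMod 4)) ∈ W'} with hZ
      unfold outd
      rw [← Set.ncard_coe_finset]
      refine (Set.ncard_le_ncard (t := (fun v => c i s(u, v)) '' Z) ?_ (Set.toFinite _)).trans
        (Set.ncard_image_le (Set.toFinite _))
      · intro s hs
        rw [Finset.mem_coe, mem_filter] at hs
        obtain ⟨-, y, hy, hyW⟩ := hs
        obtain ⟨v, hadj, hcs, rfl⟩ := cov_inv G c hc hT hy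
        refine ⟨v, ⟨hadj, ?_⟩, hcs⟩
        rw [hmem]
        have h1 : T.h s (Sum.inl ⟨i, u⟩) = hh i u v := by
          rw [hTh, ← hcs]
          have h2 : hp G hh c (c i s(u, v)) (Sum.inl ⟨i, u⟩) = wt hh (Sum.inl ⟨i, u⟩)
            (Sum.inl ⟨i, v⟩) := hp_eq G hh c hc (EE.a hadj)
          rw [h2, wt_same]
        have h3 : ((emb i (v, A ∆ {s(u, v)}) : QQ m n × Finset (Sym2 (QQ m n))),
            j + ((T.h s (Sum.inl ⟨i, u⟩) : ℤ) : ZMod 4)) ∈ W := hyW
        rw [h1] at h3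
        exact h3
    rw [hcard]
    exact (Nat.add_le_add_right hsum _).trans hI
  · -- a single edge
    have h1 : ∀ w ∈ W, outd T.cov (fun s c => (T.h s c.1 : ZMod 4)) W w ≤ 1 := by
      intro w hw
      obtain ⟨l, hl⟩ := hreach w hw
      obtain ⟨b', hb'⟩ := reach_inr G c hc hT l s _ _ ⟨b, rfl⟩ hl
      unfold outd
      refine (card_le_card (t := {s}) ?_).trans (by simp)
      intro t ht
      rw [mem_filter] at ht
      obtain ⟨-, y, ⟨hy, -⟩, -⟩ := ht
      have h2 := (E_iff G c hc hT _ _ _).1 hy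
      rw [hb'] at h2
      rw [mem_singleton]
      exact (EE_inr G c h2).2
    have h2 : ∑ w ∈ W, outd T.cov (fun s c => (T.h s c.1 : ZMod 4)) W w ≤ W.card := by
      refine (sum_le_sum h1).trans ?_
      simp
    have h3 : (DD : ℕ) = 4194304 := rfl
    rw [h3]
    omega

end Pool.Agent.H262.EB.BBT
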