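import Pool.Agent.H262.EB.AP
import Pool.Graph.R_seed8.TH950.FC.Defs
import Pool.Graph.R_seed8.TH429.J864
import Pool.Graph.R_seed8.TH628.J778

/-!
# Project EB (disproof of MP_6b7756_an, frozen statement S04952): interface of the combinatorial part

Every `St... : Prop` below is one job. The docstring contains the paper proof. The library modules
`Pool.Graph.R_seed8.*` (fetch them with `team-store fetch /workdir/pool Pool/Graph/R_seed8/...`) may be imported.
-/

set_option autoImplicit false

namespace Pool.Agent.H262.EB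

open Finset
open scoped symmDiff
open Pool.Agent.TH950.FC
open Pool.Agent.TH429.J864

/-- the maximal degree of the graphs (`2 ^ 22`) -/
abbrev DD : ℕ := 4194304

/-- `EE = DD / 16 = 2 ^ 18` -/
abbrev EE : ℕ := 262144

/-! ## Graphs -/

/-- In the `ZMod 4`-covers of `G` given by all cochains `h''` which agree with `h` modulo `2`, a set
`W` which is disjoint from its rotation by `2` has at most `(D - η) |W|` ordered inner edges. -/
def BaseIso {V : Type} [Fintype V] [DecidableEq V] (G : SimpleGraph V) (h : V → V → ℤ)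
    (D η : ℕ) : Prop :=
  ∀ h'' : V → V → ZMod 4, (∀ u v, h'' v u = - h'' u v) →
    (∀ u v, h'' u v = (h u v : ZMod 4) ∨ h'' u v = (h u v : ZMod 4) + 2) →
    ∀ W : Finset (V × ZMod 4), (∀ w ∈ W, (w.1, w.2 + 2) ∉ W) →
      (∑ w ∈ W, {v | G.Adj w.1 v ∧ (v, w.2 + h'' w.1 v) ∈ W}.ncard) + η * W.card ≤ D * W.card

/-- The same for the `Z/2`-homology cover. -/
def CoverIso {V : Type} [Fintype V] [DecidableEq V] (G : SimpleGraph V) (h : V → V → ℤ)
    (D b : ℕ) : Prop :=
  ∀ W : Finset ((V × Finset (Sym2 V)) × ZMod 4), (∀ w ∈ W, (w.1, w.2 + 2) ∉ W) →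
    (∑ w ∈ W, {v | G.Adj w.1.1 v ∧
      ((v, w.1.2 ∆ {s(w.1.1, v)}), w.2 + (h w.1.1 v : ZMod 4)) ∈ W}.ncard) + b * W.card ≤
      D * W.card

/-- JOB CT-LAB. This is `TH444.FC.exists_labelling` (Pool.Graph.R_seed8.TH444.J863) with `400` replaced by
a general `D ≥ 400` (there `b = 400 ^ 2000`, `m = b + 1602`; now `b = D ^ 2000`, `m = b + 4 * D + 2`). Copy
`TH444/J863.lean`, `TH444/FC/Single.lean` (and what else contains `400`; `TH444/FC/NB.lean` probably unchanged and importable)
to `Pool/Agent/H262/EB/` and replace `400` by a variable `D` with `400 ≤ D` (or `2 ≤ D`). -/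
def StLab : Prop :=
  ∀ D : ℕ, 400 ≤ D →
    (∀ (k : ℕ) (G : SimpleGraph (Fin k)) (g : ℕ),
      (∀ (v : Fin k) (c : G.Walk v v), c.IsCycle → g ≤ c.length) →
      ∀ p q : List (Fin k), NBWalk G p → NBWalk G q → p.head? = q.head? →
        p.getLast? = q.getLast? → (p.length - 1) + (q.length - 1) < g → p = q) →
    ∃ m : ℕ, ∀ (g : ℕ → ℕ) (n : ℕ → ℕ) (G : ∀ i, SimpleGraph (Fin (n i))),
    (∀ i, 10000 ≤ g i) → (∀ i, g i + 10000 ≤ g (i + 1)) → (∀ i, n i ≤ 4 * D ^ g i) →
    (∀ i v, ((G i).neighborSet v).ncard ≤ D) →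
    (∀ i (v : Fin (n i)) (c : (G i).Walk v v), c.IsCycle → g i ≤ c.length) →
    ∃ c : ∀ i, Sym2 (Fin (n i)) → Fin m,
      (∀ i (u v w : Fin (n i)), (G i).Adj u v → (G i).Adj u w → v ≠ w →
        c i s(u, v) ≠ c i s(u, w)) ∧
      (∀ i (p q : List (Fin (n i))), NBWalk (G i) p → NBWalk (G i) q →
        word (c i) p = word (c i) q → p.head? ≠ q.head? → 100 * (p.length - 1) ≤ g i) ∧
      (∀ i j, i ≠ j → ∀ (p : List (Fin (n i))) (q : List (Fin (n j))), NBWalk (G i) p →
        NBWalk (G j) q → word (c i) p = word (c j) q → 100 * (p.length - 1) ≤ g i)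

/-- JOB CT-MAX. A graph on `4 * D ^ g` vertices with maximal degree `≤ D`, no cycle shorter than `g` and average
degree `≥ D - 1`. This is `exists_maxgraph` of Pool.Graph.R_seed8.TH553.J779 with `400` replaced by `D` and a sharper count at
the end. Proof: take a graph with the maximal number of edges with
degrees `≤ D` and girth `≥ g`. The set `L` of vertices of degree `< D` has pairwise distances
`≤ g - 2` (otherwise an edge could be added), so `|L| ≤ 2 * D ^ (g - 2)` (ball bound `ball`: a ball of radius `r` has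
less than `2 * D ^ r` points) and
`∑ deg ≥ D * (N - |L|) ≥ D * N - 2 * D ^ (g - 1) ≥ D * N - N`, `N = 4 * D ^ g`. -/
def StMax : Prop :=
  ∀ D g : ℕ, 400 ≤ D → 3 ≤ g →
    ∃ G : SimpleGraph (Fin (4 * D ^ g)), (∀ v, (G.neighborSet v).ncard ≤ D) ∧
      (∀ (v : Fin (4 * D ^ g)) (c : G.Walk v v), c.IsCycle → g ≤ c.length) ∧
      D * (4 * D ^ g) ≤ (∑ v, (G.neighborSet v).ncard) + 4 * D ^ g

/-- JOB CT-GRAPH (you may assume `StMax`: prove `StMax → StGraph`).
Proof. Take the graph `G` of `StMax` and a nonempty vertex set `U` of minimal cardinality with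
`D * |U| ≤ e(U) + |U|`, `e(U) = #{(x, y) ∈ U × U | x ~ y}` (`U = univ` satisfies this). `|U| ≥ 2` since `e = 0 ` for
singletons. For `v ∈ U` the set `U \ {v}` violates the inequality, `e(U \ {v}) = e(U) - 2 deg_U v`, hence
`2 deg_U v > D - 1`, so `deg_U v ≥ 2`. If `U = A ∪ B` were a partition in two nonempty sets without
edges between them, both violate the inequality, `e(U) = e(A) + e(B)`: contradiction; so the induced graph is
connected. Transport the induced graph to `Fin |U|` (`G.comap f` for an embedding `f : Fin |U| ↪ Fin (4 * D ^ g)` with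
range `U`, see `exists_graph` in Pool.Graph.R_seed8.TH553.J779 for the same transport, including the cycles). -/
def StGraph : Prop :=
  ∀ D g : ℕ, 400 ≤ D → 3 ≤ g →
    ∃ (n : ℕ) (G : SimpleGraph (Fin n)), 0 < n ∧ n ≤ 4 * D ^ g ∧
      (∀ v, (G.neighborSet v).ncard ≤ D) ∧ (∀ v, 2 ≤ (G.neighborSet v).ncard) ∧
      (∀ (v : Fin n) (c : G.Walk v v), c.IsCycle → g ≤ c.length) ∧ G.Preconnected ∧
      D * n ≤ (∑ v, (G.neighborSet v).ncard) + n

/-- Auxiliary notion for the random parity: `t` a symmetric family of bits, `U` a vertex set, `k u` tells whether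
the fibre over `u` has two elements, `f u` its parity. The sum counts, for ordered adjacent pairs in `U`:
pairs of the same kind with `t ≠ f + f` , pairs of kinds (true, false), and the missing degrees. -/
def ParityIso {V : Type} [Fintype V] [DecidableEq V] (G : SimpleGraph V) (t : V → V → ZMod 2)
    (D η : ℕ) : Prop :=
  ∀ (U : Finset V) (k : V → Bool) (f : V → ZMod 2),
    (∑ u ∈ U, {v | v ∈ U ∧ G.Adj u v}.ncard) + 2 * η * U.card ≤ D * U.card +
      ∑ u ∈ U, {v | v ∈ U ∧ G.Adj u v ∧
        ((k u = k v ∧ t u v ≠ f u + f v) ∨ (k u = true ∧ k v = false))}.ncard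

open Pool.Agent.TH628.J778 in
/-- JOB CT-RANDB. The probabilistic part of the random parity. `Conn G U` (connected), `P G U` (oriented inner edges), `idx`,
`card_conn` (at most `|V| d^(2n)` connected sets with `n` elements), `weight_sum` (`∑_s (1/4)^#bad ≤ 2^X (5/8)^|P|`) and `geo_Icc` are
in Pool.Graph.R_seed8.TH628.J778, whose theorem `exists_connection` is a harder version of the same argument.
Proof. Suppose that for every `s : V × V → Bool` there are `U`, `k`, `f` with `Conn G U`, `n = |U| ≥ g`, `k`, `f` trivial outside `U`,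
`|M| ≥ 5 η n` for `M = {p ∈ P G U | k p.1 = k p.2}`, `η = EE`, and less than `η n` bad elements of `M`. For fixed `(U, k, f)`:
`1 ≤ 4^(η n) * (1/4)^#bad` for those `s`, and `∑_s 4^(η n) (1/4)^#bad ≤ 2^X * 4^(η n) * (5/8)^(5 η n) = 2^X * (4 * (5/8)^5)^(η n) ≤ 2^X * (2/5)^(η n)`
(`weight_sum`: for each `p` one of the two values of the bit is bad).
The number of `(U, k, f)` with `|U| = n` is at most `|V| * DD^(2n) * 4^n ≤ 4 * DD^(3n) * 4^n = 4 * (2^68)^n` (`g ≤ n`), and
`(2/5)^η ≤ (2/5)^100 ≤ 2^(-130)`, so `2^X ≤ 2^X * ∑_{n ≥ g} 4 * 2^(-62 n) < 2^X`. Contradiction. -/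
def StRandB : Prop :=
  ∀ (V : Type) [Fintype V] [DecidableEq V] (G : SimpleGraph V) [DecidableRel G.Adj] (g : ℕ), 20 ≤ g →
    Fintype.card V ≤ 4 * DD ^ g → (∀ v, G.degree v ≤ DD) →
    ∃ s : V × V → Bool, ∀ (U : Finset V) (k : V → Bool) (f : V → ZMod 2), Conn G U → g ≤ U.card →
      (∀ v, v ∉ U → k v = false ∧ f v = 0) →
      5 * EE * U.card ≤ ((P G U).filter fun p => k p.1 = k p.2).card →
      EE * U.card ≤ ((P G U).filter fun p => k p.1 = k p.2 ∧
        (if s p then (1 : ZMod 2) else 0) ≠ f p.1 + f p.2).card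

/-- JOB CT-RANDA: prove `StRandB → StRandom`. The random parity.
Proof. Take `s` from `StRandB` and (with `idx` of Pool.Graph.R_seed8.TH628.J778, an injective numbering of the vertices) `t u v = bit of s (u, v)`
if `idx u < idx v`, of `s (v, u)` otherwise.
`N(U) := ∑_{u ∈ U} deg_U u`. All the terms of the inequality in `ParityIso` are additive over the connected components of
the induced graph on `U`: given `k` and `f`, take a counterexample `U` with minimal cardinality; it is nonempty and `Conn G U` (J778: for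
`A ⊆ U` nonempty, `≠ U`, without edges to `U \ A`, one of `A`, `U \ A` would be a smaller counterexample). We may change `k`, `f` outside `U` to
be trivial. If `|U| < g` then by the last hypothesis `N(U) < 2|U|`, and `2|U| + 2 * EE |U| ≤ DD |U|`: no counterexample. So `n = |U| ≥ g`, and
`N(U) + 2η n > D n + bad(U, k, f)`, `η = EE`, `D = DD = 16 η`. Then: `N(U) > (D - 2η) n`; the number of
ordered pairs of kinds (true, false) is `< 2η n` (as `N(U) ≤ D n`), so with the reversed ones `< 4η n`, hence there are more than `(D - 6η) n = 10 η n` ordered pairs of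
the same kind, i.e. `> 5 η n` elements of `P G U` of the same kind (`P G U` = inner edges oriented by `idx`; see `two_P`), of which
less than `η n` are bad (`t ≠ f + f`). This contradicts `StRandB`. -/
def StRandom : Prop :=
  ∀ (V : Type) [Fintype V] [DecidableEq V] (G : SimpleGraph V) (g : ℕ), 20 ≤ g →
    Fintype.card V ≤ 4 * DD ^ g → (∀ v, (G.neighborSet v).ncard ≤ DD) →
    (∀ U : Finset V, U.Nonempty →
      2 * U.card ≤ (∑ u ∈ U, {v | v ∈ U ∧ G.Adj u v}.ncard) → g ≤ U.card) →
    ∃ t : V → V → ZMod 2, (∀ u v, t u v = t v u) ∧ ParityIso G t DD EE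

/-- JOB CT-PARITY. From parities to the isoperimetric inequality in the `ZMod 4`-covers.
Proof. Choose a linear order on `V`
(or an equivalence with `Fin n`) and let `h u v = 1` if `t u v ≠ 0` and `u < v`, `h u v = -1` if `t u v ≠ 0` and `v < u`, else `0`.
Let `h''` be as in `BaseIso`; `h'' u v` reduced modulo `2` is `t u v` (for `u ≠ v`). Let `W` be a finite set with `W ∩ (W + 2) = ∅`,
`U` its projection to `V`, `W_u` the fibre. `|W_u| ∈ {1, 2}` for `u ∈ U`, and if `|W_u| = 2` then
`W_u = {j, j + 1}`. Let `k u = (|W_u| = 2)`, `f u` the parity of the element `j` (single) resp. of `j` in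
`W_u = {j, j + 1}`. For adjacent `u, v ∈ U` let `N(u, v) = #{j ∈ W_u | j + h'' u v ∈ W_v}`. Then
`N(u, v) ≤ |W_u|`; if `k u = k v` and `t u v ≠ f u + f v` then `N(u, v) ≤ |W_u| - 1` (for singles parity shows
`N = 0`; for doubles `{j, j+1} + h''` and `{j', j'+1}` are different because `j + h''` and `j'` have different parity, so `N ≤ 1`); if `k u = true`, `k v = false` then
`N(u, v) ≤ |W_v| = 1 = |W_u| - 1`. (All finite checks in `ZMod 4`: `decide`.) So with `bad(u)` = number of `v ∈ U` adjacent to `u` of the kind in `ParityIso`: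
`∑_{w ∈ W} #{v | ..} = ∑_{u ∈ U} ∑_{v ∈ U, v ~ u} N(u, v) ≤ ∑_u (|W_u| deg_U u - bad(u))`, and
`D |W| - ∑ .. ≥ ∑_u |W_u| (D - deg_U u) + ∑ bad ≥ ∑_u (D - deg_U u) + ∑ bad ≥ 2 η |U| ≥ η |W|` (`|W_u| ≥ 1`, `D ≥ deg_U u`). -/
def StParity : Prop :=
  ∀ (V : Type) [Fintype V] [DecidableEq V] (G : SimpleGraph V) (t : V → V → ZMod 2) (D η : ℕ),
    (∀ u v, t u v = t v u) → (∀ v, (G.neighborSet v).ncard ≤ D) → ParityIso G t D η →
    ∃ h : V → V → ℤ, (∀ u v, h v u = - h u v) ∧ (∀ u v, |h u v| ≤ 1) ∧ BaseIso G h D η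

/-- JOB CT-NORM (you may assume `StCheeger`: prove `StCheeger → StNorm`).
Proof. Apply `StCheeger` with `X = V × ZMod 4`, `U = univ`, `θ (u, j) = (u, j + 2)`,
`m (u, j) (v, j') = if G.Adj u v ∧ j' = j + h'' u v then 1 else 0` (symmetric since `h'' v u = - h'' u v`),
`d = DD = 2^22`, `h = EE = 2^18`, `R = DD - 8192 = 2^22 - 2^13`: `R ^ 2 = DD ^ 2 - 2 * 8192 * DD + 8192 ^ 2 ≥ DD ^ 2 - EE ^ 2` because `EE ^ 2 = 2^36 = 2^14 * 2^22`.
The isoperimetric hypothesis is `BaseIso`. -/
def StNorm : Prop :=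
  ∀ (V : Type) [Fintype V] [DecidableEq V] (G : SimpleGraph V) [DecidableRel G.Adj] (h : V → V → ℤ),
    (∀ v, (G.neighborSet v).ncard ≤ DD) → BaseIso G h DD EE →
    ∀ h'' : V → V → ZMod 4, (∀ u v, h'' v u = - h'' u v) →
      (∀ u v, h'' u v = (h u v : ZMod 4) ∨ h'' u v = (h u v : ZMod 4) + 2) →
      ∀ F : V → ZMod 4 → ℝ, (∀ u j, F u (j + 2) = - F u j) →
        (∑ u, ∑ j, ∑ v, if G.Adj u v then F u j * F v (j + h'' u v) else 0) ≤
          ((DD : ℝ) - 8192) * ∑ u, ∑ j, F u j ^ 2

/-- JOB CT-COVER (you may assume `StNorm`: prove `StNorm → StCover`).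
Proof. Let `F v A j = 1` if `((v, A), j) ∈ W`, `-1` if `((v, A), j + 2) ∈ W`, else `0` (well defined, antisymmetric in
`j ↦ j + 2`). For `B : Finset (Sym2 V)` let `F_B v j = ∑_A (-1)^|A ∩ B| F v A j`. Parseval:
`∑_B ∑ F_B v j ^ 2 = 2^n ∑_A F v A j ^ 2` (`n = card (Sym2 V)`), and for an edge `e`,
`∑_A F u A j * F v (A ∆ {e}) j' = 2^(-n) ∑_B (-1)^[e ∈ B] F_B u j * F_B v j'`. Since
`- F_B v j' = F_B v (j' + 2)`, for each `B` we get the form of `StNorm` with
`h'' u v = h u v + (if s(u, v) ∈ B then 2 else 0)`. Hence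
`Q := ∑_{v, A, j} ∑_{u ~ v} F v A j * F u (A ∆ {vu}) (j + h v u) ≤ (DD - 8192) ∑ F ^ 2 = (DD - 8192) * 2 |W|`.
On the other hand, with `E⁺ = ∑_{w ∈ W} #{v | (neighbour of w) ∈ W}` and `E⁻ = ∑_{w ∈ W} #{v | (neighbour of w) + 2 ∈ W}` we
have `Q = 2 E⁺ - 2 E⁻` and `E⁺ + E⁻ ≤ DD |W|`. So `2 E⁺ ≤ (2 DD - 8192) |W|`. (J775 of the library, Pool.Graph.R_seed8.TH480.J775, contains a
similar Fourier argument.) -/
def StCover : Prop :=
  ∀ (V : Type) [Fintype V] [DecidableEq V] (G : SimpleGraph V) (h : V → V → ℤ),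
    (∀ u v, h v u = - h u v) → (∀ v, (G.neighborSet v).ncard ≤ DD) → BaseIso G h DD EE →
    CoverIso G h DD 4096

/-! ## Labelled graphs -/

section lg

variable {S V Q : Type} [Fintype S]

open Classical in
/-- the number of letters leading from `w` (a vertex of the `ZMod 4`-cover of `X` given by `ω`) into `W` -/
noncomputable def outd (X : LG S V) (ω : S → V → ZMod 4) (W : Finset (V × ZMod 4))
    (w : V × ZMod 4) : ℕ :=
  (univ.filter fun s : S => ∃ y, X.E s w.1 y ∧ (y, w.2 + ω s w.1) ∈ W).card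

open Classical in
/-- the degree of a vertex -/
noncomputable def odeg (X : LG S V) (x : V) : ℕ :=
  (univ.filter fun s : S => ∃ y, X.E s x y).card

/-- every finite set `W` disjoint from its rotation by `2` has at most `(d - b) |W|` ordered inner edges -/
def PLg (X : LG S V) (ω : S → V → ZMod 4) (d b : ℕ) : Prop :=
  ∀ W : Finset (V × ZMod 4), (∀ w ∈ W, (w.1, w.2 + 2) ∉ W) →
    (∑ w ∈ W, outd X ω W w) + b * W.card ≤ d * W.card

/-- the same in the blocks (components of the cover) -/
def BB [DecidableEq Q] (T : Theta S Q) (d b : ℕ) : Prop :=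
  ∀ (q₀ : Q) (W : Finset ((Q × Finset (Sym2 Q)) × ZMod 4)),
    (∀ w ∈ W, T.cov.Reach (q₀, ∅) w.1) → (∀ w ∈ W, (w.1, w.2 + 2) ∉ W) →
    (∑ w ∈ W, outd T.cov (fun s c => (T.h s c.1 : ZMod 4)) W w) + b * W.card ≤ d * W.card

end lg

/-- JOB CT-BBT. Transport of `CoverIso` to the family of labelled graphs of the library module J864.
Proof. Let `q₀ = Sum.inl ⟨i, v⟩`. By `reach_emb` (J864) every `c` reachable from `(q₀, ∅) = emb i (v, ∅)` is `emb i x`. Pull
`W` back to `W' : Finset ((Fin (n i) × Finset (Sym2 (Fin (n i)))) × ZMod 4)` (`emb_inj`). For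
`w = (emb i (u, A), j) ∈ W` the letters `s` with `∃ c', T.cov.E s (emb i (u, A)) c' ∧ (c', j + T.h s ..) ∈ W` correspond
injectively to the neighbours `v'` of `u` (`cov_inv`: `s = c i s(u, v')`, `c' = emb i (v', A ∆ {s(u, v')})`, and
`T.h s (inl ⟨i, u⟩) = hh i u v'` by `hp_eq`, `wt_same`), with `((v', A ∆ {s(u, v')}), j + hh i u v') ∈ W'`. So the claim is `CoverIso (G i) (hh i)`.
For `q₀ = Sum.inr (s, b)`: from any reachable `c` (its first coordinate is `Sum.inr (s, _)`, `EE_inr`) only the letter `s` can be read, so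
`outd ≤ 1` and `1 + 4096 ≤ DD`. -/
def StBBT : Prop :=
  ∀ (m : ℕ) (n : ℕ → ℕ) (G : ∀ i, SimpleGraph (Fin (n i)))
    (hh : ∀ i, Fin (n i) → Fin (n i) → ℤ) (c : ∀ i, Sym2 (Fin (n i)) → Fin m)
    (hc : ∀ i (u v w : Fin (n i)), (G i).Adj u v → (G i).Adj u w → v ≠ w →
      c i s(u, v) ≠ c i s(u, w)) (T : Theta (Fin m) (QQ m n)),
    T.toLG = LGG G c hc → (∀ s q, T.h s q = hp G hh c s q) →
    (∀ i, CoverIso (G i) (hh i) DD 4096) → BB T DD 4096

/-- JOB CT-AVG. The average degree of a block.
Proof. Let `B` be the (finite) set of all `emb i (v, A)` reachable from `(Sum.inl ⟨i, v0⟩, ∅) = emb i (v0, ∅)` (as in the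
proof of `expand` in J864). For `v` let `B_v = {A | emb i (v, A) ∈ B}`. All `B_v` have the same cardinality: for adjacent `u, v`
the map `A ↦ A ∆ {s(u, v)}` maps `B_u` injectively into `B_v` (`cov_adj`, `reach_step`), and conversely; and `G i` is
preconnected. The degree `odeg T.cov (emb i (v, A))` is the number of neighbours of `v` (`cov_adj`, `cov_inv`, the
letters at different neighbours differ by `hc`). So `∑_{c ∈ B} odeg = |B_{v0}| * ∑_v deg v ≥ |B_{v0}| * (D n - n) = (D - 1) |B|`. -/
def StAvg : Prop :=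
  ∀ (m : ℕ) (n : ℕ → ℕ) (G : ∀ i, SimpleGraph (Fin (n i))) (c : ∀ i, Sym2 (Fin (n i)) → Fin m)
    (hc : ∀ i (u v w : Fin (n i)), (G i).Adj u v → (G i).Adj u w → v ≠ w →
      c i s(u, v) ≠ c i s(u, w)) (T : Theta (Fin m) (QQ m n)),
    T.toLG = LGG G c hc → ∀ (D i : ℕ) (v0 : Fin (n i)), (G i).Preconnected →
    (∀ v, ((G i).neighborSet v).ncard ≤ D) →
    D * n i ≤ (∑ v, ((G i).neighborSet v).ncard) + n i →
    ∃ B : Finset (QQ m n × Finset (Sym2 (QQ m n))),
      (∀ x, x ∈ B ↔ T.cov.Reach (Sum.inl ⟨i, v0⟩, ∅) x) ∧ (∀ x ∈ B, odeg T.cov x ≤ D) ∧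
      D * B.card ≤ (∑ x ∈ B, odeg T.cov x) + B.card

/-- JOB CT-THETA: prove `StLab → StGraph → StRandom → StParity → StCover → StBBT → StAvg → StTheta`.
Proof. As `exists_theta` in J864 (with `huniq` from `nbwalk_unique`, see `main_of` in
Pool.Graph.R_seed8.TH950.FC.Final): for `i : ℕ` take the graph of `StGraph` with `D = DD`, `g = 10000 * (i + 1)`, the bits `t` of `StRandom` (sparse small
sets: `Pool.Agent.TH553.J779.card_ge_of_girth`) and `h` of `StParity`, labels from `StLab`. Let
`T0 = TT G hh c ..` of J864 but with the cochain `h s q = hp G hh c s q` (without the factor), and for `k ≥ 1` let `T k` be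
the same with `h s q = if q = Sum.inl ⟨k - 1, _⟩ then hp G hh c s q else 0` (`h_anti` holds since edges stay inside one
component). `BB (T 0) DD 4096` by `StCover` and `StBBT`. For `i` take `q = Sum.inl ⟨i, ⟨0, _⟩⟩` and `StAvg`. By `reach_base`, `r` reachable
from `q` is `Sum.inl ⟨i, _⟩`. -/
def StTheta : Prop :=
  ∃ (m : ℕ) (Q : Type) (_ : DecidableEq Q) (_ : Countable Q) (_ : Nonempty Q)
    (T : ℕ → Theta (Fin m) Q), (∀ k, (T k).toLG = (T 0).toLG) ∧ BB (T 0) DD 4096 ∧
    ∀ i : ℕ, ∃ (q : Q) (B : Finset (Q × Finset (Sym2 Q))),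
      (∀ x, x ∈ B ↔ (T 0).cov.Reach (q, ∅) x) ∧ (∀ x ∈ B, odeg (T 0).cov x ≤ DD) ∧
      DD * B.card ≤ (∑ x ∈ B, odeg (T 0).cov x) + B.card ∧
      ∀ k s r, (T 0).Reach q r → (T k).h s r = if k = 0 ∨ k = i + 1 then (T 0).h s r else 0

/-- JOB CT-MACHINE (helper262 does this himself). The inductive construction of the library, keeping
track of `PLg`. -/
def StMachine : Prop :=
  ∀ (m : ℕ) (Q : Type) [DecidableEq Q] [Countable Q] [Nonempty Q] (T T₀ : Theta (Fin m) Q)
    (d b : ℕ), T.toLG = T₀.toLG → b + 2 ≤ d →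
    ∃ (V : Type) (X : LG (Fin m) V) (β : V → Finset (Wt Q)) (ω : Fin m → V → ℤ)
      (p : V → PresentedGroup (rels T₀)) (base : V),
      Limit T (fun s => (PresentedGroup.of s : PresentedGroup (rels T₀))) X β ω p base ∧
      (BB T d (b + 2) → PLg X (fun s x => (ω s x : ZMod 4)) d b)

/-- JOB CT-TRA. The vertices of the limit graph `X` correspond to the elements of `H = PresentedGroup (rels T₀)`.
Proof. `T.toLG = T₀.toLG` implies that `rels T` and `rels T₀` are equal (destruct `T`, `T₀` and substitute). Let `a s = PresentedGroup.of s`.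
Every letter acts on `V` as a permutation (`total`, `func`, `symm`: an involution), so `FreeGroup S` acts on `V`; the relators act
trivially: squares clear, and for a closed word of the cover at `(q, ∅)`: at every `x` the chart `ι` of `(x, q)` maps the closed path
of the cover to a closed path of `X` at `x`. So (normal closure of `rels`) a word `w` with `(w.map a).prod = 1` is closed at every point.
(See `homog_of_limit` in Pool.Graph.R_seed8.TH429.J866 for the same argument with weights: a word with trivial value is closed.)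
Conversely by `pot` a path from `x` to `y` with word `w` gives `p y = p x * (w.map a).prod`. Hence if `p x = p y`, take a word `w` from `x` to `y` (`conn`);
`(w.map a).prod = 1`, so `w` is closed at `x` and `x = y`. Surjectivity: the `a s` generate `H` and `a s * a s = 1`, so every `g` is
`(w.map a).prod`; follow `w` from `base`. Put `e g` = the vertex with `p (e g) = p base * g`. -/
def StTrA : Prop :=
  ∀ (S Q V : Type) [Fintype S] [DecidableEq S] [DecidableEq Q] (T T₀ : Theta S Q) (X : LG S V)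
    (β : V → Finset (Wt Q)) (ω : S → V → ℤ) (p : V → PresentedGroup (rels T₀)) (base : V),
    T.toLG = T₀.toLG →
    Limit T (fun s => (PresentedGroup.of s : PresentedGroup (rels T₀))) X β ω p base →
    ∃ e : PresentedGroup (rels T₀) ≃ V, ∀ g s, X.E s (e g) (e (g * PresentedGroup.of s))

/-- JOB CT-TRLIFT. Proof. For a word `w` and `x : V` let `hol(w, x)` be the total weight along the path `w` from `x` in `X` (`WPath`; unique `m` with
`X.WPath ω x w y m`). A word `w` with `(w.map of).prod = 1` is closed at every `e g` (by induction the path `w` from `e g` leads to `e (g * (w.map of).prod)`),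
and by `homog_of_limit` (Pool.Graph.R_seed8.TH429.J866; it is stated for `T = T₀`: destruct `T`, `T₀` and substitute, `rels` only depends on
`toLG`) `hol(w, x)` does not depend on `x` then. For `g` define
`ψ x = hol(w, e g) - hol(w, e 1)` for a chosen word `w = w_x` with `(w.map of).prod = x`. Independence of `w`: for two such words `w, w'` the word
`w ++ w'.reverse` is closed with `hol = hol(w, ·) - hol(w', ·)` (reversal changes the sign by `anti`). Taking `w_x ++ [s]` as a word for `x * of s` gives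
`ψ (x * of s) - ψ x = ω s (e (g * x)) - ω s (e x)`. -/
def StTrLift : Prop :=
  ∀ (S Q V : Type) [Fintype S] [DecidableEq S] [DecidableEq Q] (T T₀ : Theta S Q) (X : LG S V)
    (β : V → Finset (Wt Q)) (ω : S → V → ℤ) (p : V → PresentedGroup (rels T₀)) (base : V),
    T.toLG = T₀.toLG →
    Limit T (fun s => (PresentedGroup.of s : PresentedGroup (rels T₀))) X β ω p base →
    ∀ e : PresentedGroup (rels T₀) ≃ V, (∀ g s, X.E s (e g) (e (g * PresentedGroup.of s))) →
    ∀ g, ∃ ψ : PresentedGroup (rels T₀) → ℤ, ∀ s x,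
      ψ (x * PresentedGroup.of s) - ψ x = ω s (e (g * x)) - ω s (e x)

/-- JOB CT-TRCHART. Proof. First clause: take the chart `ι, j, ψ` of `(e 1, q)` (`Limit.charted`). By induction on `w`,
`ι c = e ((w.map of).prod)` for every path `w` from `(q, ∅)` to `c` (`X.func`), so
`ω s (e ((w.map of).prod)) = ω s (ι c) = T.h s c.1 + ψ c' - ψ c`.
Second clause (⟸): if two paths `w, w'` end at the same `c` then `w ++ w'.reverse` is a closed path of the cover at `(q, ∅)`,
a relator; squares of letters are relators, so `(w'.reverse.map of).prod = ((w'.map of).prod)⁻¹`. (⟹): if the products agree then `ι c = ι c'`, so `c.2 = c'.2` by the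
formula for `β` (`j` injective), and `c.2` determines `c.1` for `c` reachable from `(q, ∅)`: by induction along a path, for every vertex `v` the number of non-loop edges of `c.2` at `v` is congruent to
`[v = q] + [v = c.1]` modulo `2` (a loop `s(v, v)` never occurs because of `girth`; or use this to simplify). -/
def StTrChart : Prop :=
  ∀ (S Q V : Type) [Fintype S] [DecidableEq S] [DecidableEq Q] (T T₀ : Theta S Q) (X : LG S V)
    (β : V → Finset (Wt Q)) (ω : S → V → ℤ) (p : V → PresentedGroup (rels T₀)) (base : V),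
    T.toLG = T₀.toLG →
    Limit T (fun s => (PresentedGroup.of s : PresentedGroup (rels T₀))) X β ω p base →
    ∀ e : PresentedGroup (rels T₀) ≃ V, (∀ g s, X.E s (e g) (e (g * PresentedGroup.of s))) →
      (∀ q : Q, ∃ ψ : Q × Finset (Sym2 Q) → ℤ, ∀ w c, T₀.cov.Path (q, ∅) w c →
        ∀ s c', T₀.cov.E s c c' →
          ω s (e ((w.map fun s => (PresentedGroup.of s : PresentedGroup (rels T₀))).prod)) =
            T.h s c.1 + ψ c' - ψ c) ∧
      (∀ (q : Q) (w w' : List S) (c c' : Q × Finset (Sym2 Q)), T₀.cov.Path (q, ∅) w c →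
        T₀.cov.Path (q, ∅) w' c' →
        ((w.map fun s => (PresentedGroup.of s : PresentedGroup (rels T₀))).prod =
          (w'.map fun s => (PresentedGroup.of s : PresentedGroup (rels T₀))).prod ↔ c = c'))

/-- JOB CT-TRANSPORT: prove `StTrA → StTrLift → StTrChart → StTransport`.
Proof. `om s g := (ω s (e g) : ZMod 4)` with `e` of `StTrA`. `anti` from `Limit.anti`; the next three clauses are `StTrLift`, `StTrChart` reduced modulo `4`;
the last: map `W` to `W' = W.map (e × id)`; `outd X ω W' (e g, j) = #{s | (g * of s, j + om s g) ∈ W}` because `X.E s (e g) y ↔ y = e (g * of s)` (`func`). -/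
def StTransport : Prop :=
  ∀ (S Q V : Type) [Fintype S] [DecidableEq S] [DecidableEq Q] (T T₀ : Theta S Q) (X : LG S V)
    (β : V → Finset (Wt Q)) (ω : S → V → ℤ) (p : V → PresentedGroup (rels T₀)) (base : V),
    T.toLG = T₀.toLG →
    Limit T (fun s => (PresentedGroup.of s : PresentedGroup (rels T₀))) X β ω p base →
    ∃ om : S → PresentedGroup (rels T₀) → ZMod 4,
      (∀ s g, om s (g * PresentedGroup.of s) = - om s g) ∧
      (∀ g, ∃ ψ : PresentedGroup (rels T₀) → ZMod 4, ∀ s x,
        ψ (x * PresentedGroup.of s) - ψ x = om s (g * x) - om s x) ∧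
      (∀ q : Q, ∃ ψ : Q × Finset (Sym2 Q) → ZMod 4, ∀ w c, T₀.cov.Path (q, ∅) w c →
        ∀ s c', T₀.cov.E s c c' →
          om s ((w.map fun s => (PresentedGroup.of s : PresentedGroup (rels T₀))).prod) =
            (T.h s c.1 : ZMod 4) + ψ c' - ψ c) ∧
      (∀ (q : Q) (w w' : List S) (c c' : Q × Finset (Sym2 Q)), T₀.cov.Path (q, ∅) w c →
        T₀.cov.Path (q, ∅) w' c' →
        ((w.map fun s => (PresentedGroup.of s : PresentedGroup (rels T₀))).prod =
          (w'.map fun s => (PresentedGroup.of s : PresentedGroup (rels T₀))).prod ↔ c = c')) ∧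
      ∀ d b : ℕ, PLg X (fun s x => (ω s x : ZMod 4)) d b →
        ∀ (_ : DecidableEq (PresentedGroup (rels T₀)))
          (W : Finset (PresentedGroup (rels T₀) × ZMod 4)), (∀ w ∈ W, (w.1, w.2 + 2) ∉ W) →
          (∑ w ∈ W, (univ.filter fun s : S =>
            (w.1 * PresentedGroup.of s, w.2 + om s w.1) ∈ W).card) + b * W.card ≤ d * W.card

/-- JOB CT-FINAL: prove `StTheta → StMachine → StTransport → StCT`.
Proof. Let `T k` be as in `StTheta`, `H = PresentedGroup (rels (T 0))` (countable: quotient of the free group on a finite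
type), `a s = of s` (`a s * a s = 1` is a relator; the `a s` generate). For every `k` apply `StMachine` to `T k`, `T₀ = T 0`, `d = DD`, `b = 4094` and
`StTransport`; this gives `om k`, and `pl` for `k = 0` from `BB (T 0) DD 4096`. For the hero: given `i` take `q`, `B'` from `StTheta`. Let
`ι c = (w.map a).prod` for any path `w` from `(q, ∅)` to `c` (well defined and injective on the reachable `c`, clause 4 of
`StTransport`), `B = ι '' B'`, `τ (ι c) = {s | ∃ c', E s c c'}` (and `∅` outside `B`), `ψ k (ι c) = ψ_k c` (the function of clause 3 for `T k`), `η s (ι c) = (T 0).h s c.1`.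
If `s ∈ τ (ι c)`, `E s c c'`, then `ι c * a s = ι c' ∈ B` and `s ∈ τ (ι c')` by symmetry. `om k s (ι c) = (T k).h s c.1 + ψ_k c' - ψ_k c` and `(T k).h s c.1` is
`(T 0).h s c.1` or `0`. -/
def StCT : Prop :=
  ∃ (H S : Type) (_ : Group H) (_ : Countable H) (_ : Fintype S) (_ : DecidableEq S)
    (_ : DecidableEq H), Nonempty (CTData H S DD 4094)

end Pool.Agent.H262.EB
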