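import Pool.Agent.H262.EB.CT

/-!
# Project EB: the group theoretic data (`StCT`), by helper980
-/

set_option autoImplicit false

namespace Pool.Agent.H262.EB.CTFinal

open Finset
open scoped symmDiff
open Pool.Agent.TH950.FC

theorem path_snoc {S U : Type} (X : LG S U) (w : List S) : ∀ {x y z : U} {s : S},
    X.Path x w y → X.E s y z → X.Path x (w ++ [s]) z := by
  induction w with
  | nil =>
    intro x y z s h1 h2
    have h3 : x = y := h1
    subst h3
    exact ⟨z, h2, rfl⟩
  | cons t w ih =>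
    intro x y z s h1 h2
    obtain ⟨u, hu, hw⟩ := h1
    exact ⟨u, hu, ih hw h2⟩

theorem path_base {S Q : Type} [DecidableEq Q] (X : LG S Q) (w : List S) :
    ∀ {c c' : Q × Finset (Sym2 Q)}, X.cov.Path c w c' → X.Path c.1 w c'.1 := by
  induction w with
  | nil =>
    intro c c' h
    have h1 : c = c' := h
    subst h1
    rfl
  | cons t w ih =>
    intro c c' h
    obtain ⟨u, hu, hw⟩ := h
    exact ⟨u.1, hu.1, ih hw⟩

theorem countable_presented {S : Type} [Countable S] (R : Set (FreeGroup S)) :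
    Countable (PresentedGroup R) := by
  haveI : Countable (FreeGroup S) := by
    have h : Function.Surjective (FreeGroup.mk : List (S × Bool) → FreeGroup S) := Quot.mk_surjective
    exact h.countable
  have h : Function.Surjective (PresentedGroup.mk R) := QuotientGroup.mk'_surjective _
  exact h.countable

open Classical in
theorem main : StTheta → StMachine → StTransport → StCT := by
  intro hTheta hMachine hTransport
  obtain ⟨m, Q, _, _, _, T, hTk, hBB, hB⟩ := hTheta
  -- the data for all `k`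
  have hdat : ∀ k : ℕ, ∃ om : Fin m → PresentedGroup (rels (T 0)) → ZMod 4,
      (∀ s g, om s (g * PresentedGroup.of s) = - om s g) ∧
      (∀ g, ∃ ψ : PresentedGroup (rels (T 0)) → ZMod 4, ∀ s x,
        ψ (x * PresentedGroup.of s) - ψ x = om s (g * x) - om s x) ∧
      (∀ q : Q, ∃ ψ : Q × Finset (Sym2 Q) → ZMod 4, ∀ w c, (T 0).cov.Path (q, ∅) w c →
        ∀ s c', (T 0).cov.E s c c' →
          om s ((w.map fun s => (PresentedGroup.of s : PresentedGroup (rels (T 0)))).prod) =
            ((T k).h s c.1 : ZMod 4) + ψ c' - ψ c) ∧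
      (∀ (q : Q) (w w' : List (Fin m)) (c c' : Q × Finset (Sym2 Q)),
        (T 0).cov.Path (q, ∅) w c → (T 0).cov.Path (q, ∅) w' c' →
        ((w.map fun s => (PresentedGroup.of s : PresentedGroup (rels (T 0)))).prod =
          (w'.map fun s => (PresentedGroup.of s : PresentedGroup (rels (T 0)))).prod ↔ c = c')) ∧
      (k = 0 → ∀ (_ : DecidableEq (PresentedGroup (rels (T 0))))
          (W : Finset (PresentedGroup (rels (T 0)) × ZMod 4)), (∀ w ∈ W, (w.1, w.2 + 2) ∉ W) →
          (∑ w ∈ W, (univ.filter fun s : Fin m =>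
            (w.1 * PresentedGroup.of s, w.2 + om s w.1) ∈ W).card) + 4094 * W.card ≤
              DD * W.card) := by
    intro k
    obtain ⟨V, X, β, ω, p, base, hL, hPL⟩ := hMachine m Q (T k) (T 0) DD 4094 (hTk k) (by norm_num)
    obtain ⟨om, h1, h2, h3, h4, h5⟩ := hTransport (Fin m) Q V (T k) (T 0) X β ω p base (hTk k) hL
    refine ⟨om, h1, h2, h3, h4, ?_⟩
    intro hk
    subst hk
    exact h5 DD 4094 (hPL hBB)
  choose om hanti hlift hchart hinj hpl using hdat
  have hsq : ∀ s : Fin m, (PresentedGroup.of s : PresentedGroup (rels (T 0))) *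
      PresentedGroup.of s = 1 := by
    intro s
    have h1 : (FreeGroup.of s * FreeGroup.of s : FreeGroup (Fin m)) ∈ rels (T 0) :=
      Or.inl ⟨s, rfl⟩
    have h2 := PresentedGroup.one_of_mem h1
    rw [map_mul] at h2
    exact h2
  refine ⟨PresentedGroup (rels (T 0)), Fin m, inferInstance, countable_presented _, inferInstance,
    inferInstance, Classical.decEq _, ⟨?_⟩⟩
  letI : DecidableEq (PresentedGroup (rels (T 0))) := Classical.decEq _
  refine
    { a := fun s => PresentedGroup.of s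
      inv := hsq
      gen := PresentedGroup.closure_range_of _
      om := om
      anti := hanti
      lift := hlift
      pl := fun W hW => hpl 0 rfl _ W hW
      hero := ?_ }
  intro i
  obtain ⟨q, B', hB1, hB2, hB3, hB4⟩ := hB i
  -- the words
  have hwd : ∀ c : Q × Finset (Sym2 Q), ∃ w : List (Fin m), c ∈ B' → (T 0).cov.Path (q, ∅) w c := by
    intro c
    by_cases hc : c ∈ B'
    · obtain ⟨w, hw⟩ := (hB1 c).1 hc
      exact ⟨w, fun _ => hw⟩
    · exact ⟨[], fun h => absurd h hc⟩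
  choose wd hwd using hwd
  obtain ⟨ι, hι⟩ : ∃ ι : Q × Finset (Sym2 Q) → PresentedGroup (rels (T 0)), ι = fun c =>
    ((wd c).map fun s => (PresentedGroup.of s : PresentedGroup (rels (T 0)))).prod := ⟨_, rfl⟩
  have hιw : ∀ (w : List (Fin m)) (c : Q × Finset (Sym2 Q)), (T 0).cov.Path (q, ∅) w c →
      (w.map fun s => (PresentedGroup.of s : PresentedGroup (rels (T 0)))).prod = ι c := by
    intro w c hw
    have hc : c ∈ B' := (hB1 c).2 ⟨w, hw⟩
    rw [hι]
    exact (hinj 0 q w (wd c) c c hw (hwd c hc)).2 rfl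
  have hιi : ∀ c ∈ B', ∀ c' ∈ B', ι c = ι c' → c = c' := by
    intro c hc c' hc' h
    rw [hι] at h
    exact (hinj 0 q (wd c) (wd c') c c' (hwd c hc) (hwd c' hc')).1 h
  have hstep : ∀ c ∈ B', ∀ s c', (T 0).cov.E s c c' →
      c' ∈ B' ∧ ι c' = ι c * PresentedGroup.of s := by
    intro c hc s c' hE
    have h1 := path_snoc (T 0).cov (wd c) (hwd c hc) hE
    refine ⟨(hB1 c').2 ⟨_, h1⟩, ?_⟩
    rw [← hιw _ _ h1, List.map_append, List.prod_append, List.map_singleton, List.prod_singleton,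
      hιw _ _ (hwd c hc)]
  -- the inverse of `ι`
  have hcc : ∀ x : PresentedGroup (rels (T 0)), ∃ c : Q × Finset (Sym2 Q),
      (∃ c' ∈ B', ι c' = x) → c ∈ B' ∧ ι c = x := by
    intro x
    by_cases h : ∃ c' ∈ B', ι c' = x
    · obtain ⟨c', h1, h2⟩ := h
      exact ⟨c', fun _ => ⟨h1, h2⟩⟩
    · exact ⟨(q, ∅), fun h' => absurd h' h⟩
  choose cc hcc using hcc
  have hccι : ∀ c ∈ B', cc (ι c) = c := by
    intro c hc
    obtain ⟨h1, h2⟩ := hcc (ι c) ⟨c, hc, rfl⟩
    exact hιi _ h1 _ hc h2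
  choose ψ hψ using fun k => hchart k q
  obtain ⟨τ, hτ⟩ : ∃ τ : PresentedGroup (rels (T 0)) → Finset (Fin m), τ = fun x =>
    univ.filter fun s : Fin m => ∃ y, (T 0).cov.E s (cc x) y := ⟨_, rfl⟩
  have hτm : ∀ c ∈ B', ∀ s, s ∈ τ (ι c) ↔ ∃ y, (T 0).cov.E s c y := by
    intro c hc s
    rw [hτ]
    simp only [Finset.mem_filter, Finset.mem_univ, true_and]
    rw [hccι c hc]
  have hτc : ∀ c ∈ B', (τ (ι c)).card = odeg (T 0).cov c := by
    intro c hc
    unfold odeg
    apply congrArg Finset.card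
    ext s
    rw [hτm c hc]
    simp only [Finset.mem_filter, Finset.mem_univ, true_and]
  refine ⟨B'.image ι, τ, fun k x => ψ k (cc x), fun s x => ((T 0).h s (cc x).1 : ZMod 4),
    ?_, ?_, ?_, ?_, ?_⟩
  · have h1 : (q, (∅ : Finset (Sym2 Q))) ∈ B' := (hB1 _).2 ⟨[], rfl⟩
    exact ⟨ι (q, ∅), Finset.mem_image_of_mem _ h1⟩
  · intro x hx
    rw [Finset.mem_image] at hx
    obtain ⟨c, hc, rfl⟩ := hx
    rw [hτc c hc]
    exact hB2 c hc
  · intro x hx s hs
    rw [Finset.mem_image] at hx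
    obtain ⟨c, hc, rfl⟩ := hx
    obtain ⟨c', hE⟩ := (hτm c hc s).1 hs
    obtain ⟨h1, h2⟩ := hstep c hc s c' hE
    show ι c * PresentedGroup.of s ∈ B'.image ι ∧ s ∈ τ (ι c * PresentedGroup.of s)
    rw [← h2]
    exact ⟨Finset.mem_image_of_mem _ h1, (hτm c' h1 s).2 ⟨c, (T 0).cov.symm hE⟩⟩
  · have h1 : Set.InjOn ι (B' : Set (Q × Finset (Sym2 Q))) := fun c hc c' hc' h =>
      hιi c hc c' hc' h
    rw [Finset.card_image_of_injOn h1, Finset.sum_image h1]
    rw [Finset.sum_congr rfl hτc]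
    exact hB3
  · intro k x hx s hs
    rw [Finset.mem_image] at hx
    obtain ⟨c, hc, rfl⟩ := hx
    obtain ⟨c', hE⟩ := (hτm c hc s).1 hs
    obtain ⟨h1, h2⟩ := hstep c hc s c' hE
    have h3 := hψ k (wd c) c (hwd c hc) s c' hE
    rw [hιw _ _ (hwd c hc)] at h3
    have h4 : (T 0).Reach q c.1 := ⟨wd c, path_base (T 0).toLG (wd c) (hwd c hc)⟩
    have h5 := hB4 k s c.1 h4
    show om k s (ι c) = ψ k (cc (ι c * PresentedGroup.of s)) - ψ k (cc (ι c)) +
      if k = 0 ∨ k = i + 1 then ((T 0).h s (cc (ι c)).1 : ZMod 4) else 0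
    rw [h3, ← h2, hccι c hc, hccι c' h1, h5]
    split_ifs
    · ring
    · push_cast
      ring

end Pool.Agent.H262.EB.CTFinal
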