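import Pool.Agent.H262.EB.AP

/-!
# Project EB: the Cheeger type inequality (job AP-CHEEGER)
-/

set_option autoImplicit false

namespace Pool.Agent.H262.EB.Cheeger

open Finset

variable {X : Type} [DecidableEq X]

/-- The coarea inequality. -/
theorem coarea (U : Finset X) (m : X → X → ℝ) (e : ℝ) :
    ∀ (n : ℕ) (q : X → ℝ), (∀ x, 0 ≤ q x) → (U.filter fun x => q x ≠ 0).card = n →
    (∀ W ⊆ U.filter (fun x => q x ≠ 0), ∑ x ∈ W, ∑ y ∈ W, m x y ≤ e * W.card) →
    ∑ x ∈ U, ∑ y ∈ U, m x y * min (q x) (q y) ≤ e * ∑ x ∈ U, q x := by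
  intro n
  induction n using Nat.strong_induction_on with
  | _ n ih =>
    intro q hq hn hW
    rcases Finset.eq_empty_or_nonempty (U.filter fun x => q x ≠ 0) with hemp | hne
    · have h0 : ∀ x ∈ U, q x = 0 := by
        intro x hx
        by_contra h
        have : x ∈ U.filter fun x => q x ≠ 0 := mem_filter.2 ⟨hx, h⟩
        rw [hemp] at this
        exact absurd this (Finset.notMem_empty x)
      rw [Finset.sum_eq_zero, Finset.sum_eq_zero h0, mul_zero]
      intro x hx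
      refine Finset.sum_eq_zero fun y hy => ?_
      rw [h0 x hx, h0 y hy, min_self, mul_zero]
    · obtain ⟨x0, hx0, hmin⟩ := Finset.exists_min_image _ q hne
      obtain ⟨V, hV⟩ : ∃ V : Finset X, V = U.filter fun x => q x ≠ 0 := ⟨_, rfl⟩
      rw [← hV] at hx0 hmin hW hn
      have hVU : V ⊆ U := by
        rw [hV]
        exact Finset.filter_subset _ _
      have hx0' : q x0 ≠ 0 := by
        rw [hV, mem_filter] at hx0
        exact hx0.2
      have ht : 0 < q x0 := lt_of_le_of_ne (hq x0) (Ne.symm hx0')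
      obtain ⟨q', hq'⟩ : ∃ q' : X → ℝ, q' = fun x => if x ∈ V then q x - q x0 else 0 := ⟨_, rfl⟩
      have hq'V : ∀ x, x ∈ V → q' x = q x - q x0 := fun x hx => by
        rw [hq']
        exact if_pos hx
      have hq'N : ∀ x, x ∉ V → q' x = 0 := fun x hx => by
        rw [hq']
        exact if_neg hx
      have hq'0 : ∀ x, 0 ≤ q' x := by
        intro x
        by_cases hx : x ∈ V
        · rw [hq'V x hx]
          exact sub_nonneg.2 (hmin x hx)
        · rw [hq'N x hx]
      have hqN : ∀ x ∈ U, x ∉ V → q x = 0 := by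
        intro x hx hxV
        by_contra h
        exact hxV (by rw [hV, mem_filter]; exact ⟨hx, h⟩)
      have hsub : (U.filter fun x => q' x ≠ 0) ⊆ V.erase x0 := by
        intro x hx
        rw [mem_filter] at hx
        have hxV : x ∈ V := by
          by_contra h
          exact hx.2 (hq'N x h)
        rw [mem_erase]
        refine ⟨?_, hxV⟩
        rintro rfl
        exact hx.2 (by rw [hq'V x hxV, sub_self])
      have hcard : (U.filter fun x => q' x ≠ 0).card < n := by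
        rw [← hn]
        exact lt_of_le_of_lt (Finset.card_le_card hsub) (Finset.card_erase_lt_of_mem hx0)
      have hih := ih _ hcard q' hq'0 rfl (fun W hWs => hW W
        (hWs.trans (hsub.trans (Finset.erase_subset _ _))))
      have hWV := hW V (Finset.Subset.refl V)
      have e1 : ∀ x ∈ U, ∀ y ∈ U, m x y * min (q x) (q y) =
          m x y * min (q' x) (q' y) + q x0 * (if x ∈ V then (if y ∈ V then m x y else 0) else 0) := by
        intro x hx y hy
        by_cases hxV : x ∈ V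
        · by_cases hyV : y ∈ V
          · rw [hq'V x hxV, hq'V y hyV, if_pos hxV, if_pos hyV, min_sub_sub_right]
            ring
          · rw [hqN y hy hyV, hq'N y hyV, if_neg hyV, ite_self, min_eq_right (hq x),
              min_eq_right (hq'0 x)]
            ring
        · rw [hqN x hx hxV, hq'N x hxV, if_neg hxV, min_eq_left (hq y), min_eq_left (hq'0 y)]
          ring
      have e2 : ∑ x ∈ U, ∑ y ∈ U, (if x ∈ V then (if y ∈ V then m x y else 0) else 0) =
          ∑ x ∈ V, ∑ y ∈ V, m x y := by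
        have h1 : ∀ x ∈ U, ∑ y ∈ U, (if x ∈ V then (if y ∈ V then m x y else 0) else 0) =
            if x ∈ V then ∑ y ∈ V, m x y else 0 := by
          intro x _
          by_cases hxV : x ∈ V
          · simp only [if_pos hxV]
            rw [← Finset.sum_filter]
            refine Finset.sum_congr ?_ fun _ _ => rfl
            ext y
            rw [mem_filter]
            exact ⟨fun h => h.2, fun h => ⟨hVU h, h⟩⟩
          · simp only [if_neg hxV, Finset.sum_const_zero]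
        rw [Finset.sum_congr rfl h1, ← Finset.sum_filter]
        refine Finset.sum_congr ?_ fun _ _ => rfl
        ext y
        rw [mem_filter]
        exact ⟨fun h => h.2, fun h => ⟨hVU h, h⟩⟩
      have e3 : ∑ x ∈ U, q x = ∑ x ∈ U, q' x + q x0 * V.card := by
        have h1 : ∀ x ∈ U, q x = q' x + (if x ∈ V then q x0 else 0) := by
          intro x hx
          by_cases hxV : x ∈ V
          · rw [hq'V x hxV, if_pos hxV]
            ring
          · rw [hqN x hx hxV, hq'N x hxV, if_neg hxV, add_zero]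
        rw [Finset.sum_congr rfl h1, Finset.sum_add_distrib, ← Finset.sum_filter]
        congr 1
        have h2 : U.filter (fun x => x ∈ V) = V := by
          ext y
          rw [mem_filter]
          exact ⟨fun h => h.2, fun h => ⟨hVU h, h⟩⟩
        rw [h2, Finset.sum_const, nsmul_eq_mul, mul_comm]
      have e4 : ∑ x ∈ U, ∑ y ∈ U, m x y * min (q x) (q y) =
          ∑ x ∈ U, ∑ y ∈ U, m x y * min (q' x) (q' y) + q x0 * ∑ x ∈ V, ∑ y ∈ V, m x y := by
        rw [← e2, Finset.mul_sum, ← Finset.sum_add_distrib]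
        refine Finset.sum_congr rfl fun x hx => ?_
        rw [Finset.mul_sum, ← Finset.sum_add_distrib]
        exact Finset.sum_congr rfl fun y hy => e1 x hx y hy
      rw [e4, e3]
      have h5 : q x0 * ∑ x ∈ V, ∑ y ∈ V, m x y ≤ q x0 * (e * V.card) :=
        mul_le_mul_of_nonneg_left hWV ht.le
      calc ∑ x ∈ U, ∑ y ∈ U, m x y * min (q' x) (q' y) + q x0 * ∑ x ∈ V, ∑ y ∈ V, m x y
          ≤ e * ∑ x ∈ U, q' x + q x0 * (e * V.card) := add_le_add hih h5
        _ = e * (∑ x ∈ U, q' x + q x0 * V.card) := by ring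

theorem min_half (a b : ℝ) : min a b = (a + b - |a - b|) / 2 := by
  rcases le_total a b with h | h
  · rw [min_eq_left h, abs_of_nonpos (sub_nonpos.2 h)]
    ring
  · rw [min_eq_right h, abs_of_nonneg (sub_nonneg.2 h)]
    ring

/-- The inequality for nonnegative functions. -/
theorem pos_part (U : Finset X) (m : X → X → ℝ) (d h R : ℝ)
    (hm : ∀ x y, 0 ≤ m x y) (hsym : ∀ x y, m x y = m y x)
    (hd : ∀ x ∈ U, ∑ y ∈ U, m x y ≤ d) (hh : 0 ≤ h) (hR : 0 ≤ R) (hdR : d ^ 2 - h ^ 2 ≤ R ^ 2)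
    (u : X → ℝ) (hu : ∀ x, 0 ≤ u x)
    (hW : ∀ W ⊆ U.filter (fun x => u x ^ 2 ≠ 0), ∑ x ∈ W, ∑ y ∈ W, m x y ≤ (d - h) * W.card) :
    ∑ x ∈ U, ∑ y ∈ U, m x y * (u x * u y) ≤ R * ∑ x ∈ U, u x ^ 2 := by
  have hco := coarea U m (d - h) _ (fun x => u x ^ 2) (fun x => sq_nonneg _) rfl hW
  obtain ⟨N, hN⟩ : ∃ N : ℝ, N = ∑ x ∈ U, u x ^ 2 := ⟨_, rfl⟩
  obtain ⟨M, hM⟩ : ∃ M : ℝ, M = ∑ x ∈ U, ∑ y ∈ U, m x y * (u x * u y) := ⟨_, rfl⟩
  obtain ⟨D, hD⟩ : ∃ D : ℝ, D = ∑ x ∈ U, ∑ y ∈ U, m x y * u x ^ 2 := ⟨_, rfl⟩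
  obtain ⟨Z, hZ⟩ : ∃ Z : ℝ, Z = ∑ p ∈ U ×ˢ U, m p.1 p.2 / 2 * |u p.1 ^ 2 - u p.2 ^ 2| := ⟨_, rfl⟩
  have hN0 : 0 ≤ N := by
    rw [hN]
    exact Finset.sum_nonneg fun x _ => sq_nonneg _
  have hD' : D = ∑ x ∈ U, ∑ y ∈ U, m x y * u y ^ 2 := by
    rw [hD, Finset.sum_comm]
    refine Finset.sum_congr rfl fun x _ => Finset.sum_congr rfl fun y _ => ?_
    rw [hsym]
  have hDN : D ≤ d * N := by
    rw [hD, hN, Finset.mul_sum]
    refine Finset.sum_le_sum fun x hx => ?_
    rw [← Finset.sum_mul]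
    exact mul_le_mul_of_nonneg_right (hd x hx) (sq_nonneg _)
  have hZm : ∑ x ∈ U, ∑ y ∈ U, m x y * min (u x ^ 2) (u y ^ 2) = D - Z := by
    have h1 : D = (∑ x ∈ U, ∑ y ∈ U, m x y * u x ^ 2 + ∑ x ∈ U, ∑ y ∈ U, m x y * u y ^ 2) / 2 := by
      rw [← hD, ← hD']
      ring
    rw [h1, hZ, Finset.sum_product, ← Finset.sum_add_distrib, Finset.sum_div,
      ← Finset.sum_sub_distrib]
    refine Finset.sum_congr rfl fun x _ => ?_
    rw [← Finset.sum_add_distrib, Finset.sum_div, ← Finset.sum_sub_distrib]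
    refine Finset.sum_congr rfl fun y _ => ?_
    rw [min_half (u x ^ 2) (u y ^ 2)]
    ring
  have hmin0 : 0 ≤ ∑ x ∈ U, ∑ y ∈ U, m x y * min (u x ^ 2) (u y ^ 2) :=
    Finset.sum_nonneg fun x _ => Finset.sum_nonneg fun y _ =>
      mul_nonneg (hm x y) (le_min (sq_nonneg _) (sq_nonneg _))
  have hZ1 : D - Z ≤ (d - h) * N := by
    rw [← hZm, hN]
    exact hco
  have hZ0 : 0 ≤ D - Z := by
    rw [← hZm]
    exact hmin0
  have hCS : Z ^ 2 ≤ (D - M) * (D + M) := by
    have h1 := Finset.sum_sq_le_sum_mul_sum_of_sq_le_mul (U ×ˢ U)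
      (r := fun p => m p.1 p.2 / 2 * |u p.1 ^ 2 - u p.2 ^ 2|)
      (f := fun p => m p.1 p.2 / 2 * (u p.1 - u p.2) ^ 2)
      (g := fun p => m p.1 p.2 / 2 * (u p.1 + u p.2) ^ 2)
      (fun p _ => mul_nonneg (div_nonneg (hm _ _) two_pos.le) (sq_nonneg _))
      (fun p _ => mul_nonneg (div_nonneg (hm _ _) two_pos.le) (sq_nonneg _))
      (fun p _ => by
        refine le_of_eq ?_
        rw [mul_pow, sq_abs]
        ring)
    have h2 : ∑ p ∈ U ×ˢ U, m p.1 p.2 / 2 * (u p.1 - u p.2) ^ 2 = D - M := by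
      have h1 : D = (∑ x ∈ U, ∑ y ∈ U, m x y * u x ^ 2 + ∑ x ∈ U, ∑ y ∈ U, m x y * u y ^ 2) / 2 := by
        rw [← hD, ← hD']
        ring
      rw [h1, hM, Finset.sum_product, ← Finset.sum_add_distrib, Finset.sum_div,
        ← Finset.sum_sub_distrib]
      refine Finset.sum_congr rfl fun x _ => ?_
      rw [← Finset.sum_add_distrib, Finset.sum_div, ← Finset.sum_sub_distrib]
      refine Finset.sum_congr rfl fun y _ => ?_
      ring
    have h3 : ∑ p ∈ U ×ˢ U, m p.1 p.2 / 2 * (u p.1 + u p.2) ^ 2 = D + M := by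
      have h1 : D = (∑ x ∈ U, ∑ y ∈ U, m x y * u x ^ 2 + ∑ x ∈ U, ∑ y ∈ U, m x y * u y ^ 2) / 2 := by
        rw [← hD, ← hD']
        ring
      rw [h1, hM, Finset.sum_product, ← Finset.sum_add_distrib, Finset.sum_div,
        ← Finset.sum_add_distrib]
      refine Finset.sum_congr rfl fun x _ => ?_
      rw [← Finset.sum_add_distrib, Finset.sum_div, ← Finset.sum_add_distrib]
      refine Finset.sum_congr rfl fun y _ => ?_
      ring
    rw [h2, h3, ← hZ] at h1
    exact h1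
  rw [← hM, ← hN]
  have hkey : M ^ 2 ≤ (R * N) ^ 2 := by
    have h1 : 0 ≤ d * N - D := sub_nonneg.2 hDN
    have h2 : h * N ≤ Z + (d * N - D) := by linarith
    have h3 : (h * N) ^ 2 ≤ (Z + (d * N - D)) ^ 2 := by
      have h4 : 0 ≤ h * N := mul_nonneg hh hN0
      nlinarith
    have h5 : Z * (d * N - D) ≤ D * (d * N - D) :=
      mul_le_mul_of_nonneg_right (by linarith) h1
    have h6 : (d ^ 2 - h ^ 2) * N ^ 2 ≤ R ^ 2 * N ^ 2 :=
      mul_le_mul_of_nonneg_right hdR (sq_nonneg _)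
    nlinarith
  exact le_of_sq_le_sq_aux hkey (mul_nonneg hR hN0)
where
  le_of_sq_le_sq_aux {a b : ℝ} (h : a ^ 2 ≤ b ^ 2) (hb : 0 ≤ b) : a ≤ b :=
    (le_abs_self a).trans (abs_le_of_sq_le_sq h hb)

theorem main : StCheeger := by
  intro X _ U m θ d h R hm hsym hθ hU hmθ hd hh hR hdR hW f hf
  have hsum : ∀ F : X → ℝ, ∑ x ∈ U, F (θ x) = ∑ x ∈ U, F x := fun F =>
    Finset.sum_nbij' θ θ hU hU (fun x _ => hθ x) (fun x _ => hθ x) (fun x _ => rfl)
  obtain ⟨u, hu⟩ : ∃ u : X → ℝ, u = fun x => max (f x) 0 := ⟨_, rfl⟩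
  have hux : ∀ x, u x = max (f x) 0 := fun x => by rw [hu]
  have huθ : ∀ x, u (θ x) = max (-f x) 0 := fun x => by rw [hux, hf]
  have hu0 : ∀ x, 0 ≤ u x := fun x => by
    rw [hux]
    exact le_max_right _ _
  have hfu : ∀ x, f x = u x - u (θ x) := by
    intro x
    rw [hux, huθ]
    rcases le_total (f x) 0 with h1 | h1
    · rw [max_eq_right h1, max_eq_left (neg_nonneg.2 h1)]
      ring
    · rw [max_eq_left h1, max_eq_right (neg_nonpos.2 h1)]
      ring
  have huu : ∀ x, u x * u (θ x) = 0 := by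
    intro x
    rw [hux, huθ]
    rcases le_total (f x) 0 with h1 | h1
    · rw [max_eq_right h1, zero_mul]
    · rw [max_eq_right (neg_nonpos.2 h1), mul_zero]
  have hmain := pos_part U m d h R hm hsym hd hh hR hdR u hu0 (fun W hWs => by
    refine hW W (hWs.trans (Finset.filter_subset _ _)) fun w hw hw' => ?_
    have h1 := (mem_filter.1 (hWs hw)).2
    have h2 := (mem_filter.1 (hWs hw')).2
    have h3 : u w ≠ 0 := fun h => h1 (by rw [h]; ring)
    have h4 : u (θ w) ≠ 0 := fun h => h2 (by rw [h]; ring)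
    exact mul_ne_zero h3 h4 (huu w))
  have h1 : ∑ x ∈ U, f x ^ 2 = 2 * ∑ x ∈ U, u x ^ 2 := by
    have h2 : ∀ x ∈ U, f x ^ 2 = u x ^ 2 + u (θ x) ^ 2 := by
      intro x _
      rw [hfu x]
      have := huu x
      nlinarith
    rw [Finset.sum_congr rfl h2, Finset.sum_add_distrib, hsum (fun x => u x ^ 2)]
    ring
  have h2 : ∑ x ∈ U, ∑ y ∈ U, m x y * (f x * f y) ≤
      2 * ∑ x ∈ U, ∑ y ∈ U, m x y * (u x * u y) := by
    have h3 : ∑ x ∈ U, ∑ y ∈ U, m x y * (u (θ x) * u (θ y)) =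
        ∑ x ∈ U, ∑ y ∈ U, m x y * (u x * u y) := by
      rw [← hsum (fun x => ∑ y ∈ U, m x y * (u x * u y))]
      refine Finset.sum_congr rfl fun x _ => ?_
      rw [← hsum (fun y => m (θ x) y * (u (θ x) * u y))]
      refine Finset.sum_congr rfl fun y _ => ?_
      rw [hmθ]
    have h4 : ∑ x ∈ U, ∑ y ∈ U, m x y * (f x * f y) ≤
        ∑ x ∈ U, ∑ y ∈ U, m x y * (u x * u y) +
          ∑ x ∈ U, ∑ y ∈ U, m x y * (u (θ x) * u (θ y)) := by
      rw [← Finset.sum_add_distrib]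
      refine Finset.sum_le_sum fun x _ => ?_
      rw [← Finset.sum_add_distrib]
      refine Finset.sum_le_sum fun y _ => ?_
      rw [← mul_add]
      refine mul_le_mul_of_nonneg_left ?_ (hm x y)
      rw [hfu x, hfu y]
      have h5 := mul_nonneg (hu0 x) (hu0 (θ y))
      have h6 := mul_nonneg (hu0 (θ x)) (hu0 y)
      nlinarith
    rw [h3] at h4
    linarith
  rw [h1]
  linarith

end Pool.Agent.H262.EB.Cheeger
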