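import Pool.Agent.H262.EB.AP

/-!
# Project EB: the cocycle on the lamp group (job AP-COC)
-/

set_option autoImplicit false

namespace Pool.Agent.H262.EB.Coc

open Pool.Agent.H262.EB

section

variable {H S : Type} [Group H] [Fintype S] [DecidableEq S] [DecidableEq H] {d b : ℕ}

/-- a function which is invariant under the right translations by the generators is constant -/
lemma const_of (C : CTData H S d b) (θ : H → ZMod 4) (h : ∀ x s, θ (x * C.a s) = θ x) (x : H) :
    θ x = θ 1 := by
  let K : Subgroup H :=
    { carrier := {h | ∀ x, θ (x * h) = θ x}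
      mul_mem' := by
        intro p q hp hq x
        rw [← mul_assoc, hq, hp]
      one_mem' := by
        intro x
        rw [mul_one]
      inv_mem' := by
        intro p hp x
        have := hp (x * p⁻¹)
        rw [inv_mul_cancel_right] at this
        exact this.symm }
  have h1 : Subgroup.closure (Set.range C.a) ≤ K := by
    rw [Subgroup.closure_le]
    rintro _ ⟨s, rfl⟩ x
    exact h x s
  rw [C.gen] at h1
  have h2 : x ∈ K := h1 (Subgroup.mem_top x)
  have h3 := h2 1
  rw [one_mul] at h3
  exact h3

/-- uniqueness of the potential -/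
lemma uniq (C : CTData H S d b) (f f' : H → ZMod 4)
    (h : ∀ x s, f (x * C.a s) - f x = f' (x * C.a s) - f' x) (h1 : f 1 = f' 1) (x : H) :
    f x = f' x := by
  have h2 := const_of C (fun x => f x - f' x) (fun x s => by
    have := h x s
    show f (x * C.a s) - f' (x * C.a s) = f x - f' x
    linear_combination this) x
  have h3 : f x - f' x = f 1 - f' 1 := h2
  rw [h1, sub_self] at h3
  exact sub_eq_zero.1 h3

/-- the normalised potentials -/
noncomputable def e (C : CTData H S d b) (k : ℕ) (g x : H) : ZMod 4 :=
  (C.lift k g).choose x - (C.lift k g).choose 1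

lemma e_one (C : CTData H S d b) (k : ℕ) (g : H) : e C k g 1 = 0 := sub_self _

lemma e_step (C : CTData H S d b) (k : ℕ) (g x : H) (s : S) :
    e C k g (x * C.a s) - e C k g x = C.om k s (g * x) - C.om k s x := by
  have := (C.lift k g).choose_spec s x
  unfold e
  linear_combination this

lemma e_one_left (C : CTData H S d b) (k : ℕ) (x : H) : e C k 1 x = 0 := by
  refine uniq C (e C k 1) (fun _ => 0) (fun x s => ?_) (e_one C k 1) x
  rw [e_step, one_mul]
  ring

lemma e_mul (C : CTData H S d b) (k : ℕ) (g g' x : H) :
    e C k (g * g') x = e C k g (g' * x) - e C k g g' + e C k g' x := by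
  refine uniq C (e C k (g * g')) (fun x => e C k g (g' * x) - e C k g g' + e C k g' x)
    (fun x s => ?_) ?_ x
  · have h1 := e_step C k (g * g') x s
    have h2 := e_step C k g (g' * x) s
    have h3 := e_step C k g' x s
    rw [← mul_assoc g g' x] at h2
    show e C k (g * g') (x * C.a s) - e C k (g * g') x =
      (e C k g (g' * (x * C.a s)) - e C k g g' + e C k g' (x * C.a s)) -
        (e C k g (g' * x) - e C k g g' + e C k g' x)
    rw [← mul_assoc g' x]
    linear_combination h1 - h2 - h3
  · show e C k (g * g') 1 = e C k g (g' * 1) - e C k g g' + e C k g' 1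
    rw [e_one, e_one, mul_one]
    ring

end

theorem main : StCoc := by
  intro H S _ _ _ _ d b C
  refine ⟨⟨fun y x k => e C k y.g x.g, ?_, ?_, ?_⟩, ?_⟩
  · intro x
    funext k
    exact e_one_left C k x.g
  · intro x
    funext k
    exact e_one C k x.g
  · intro x y z
    funext k
    show e C k x.g y.g + e C k (x.g * y.g) z.g = e C k x.g (y.g * z.g) + e C k y.g z.g
    rw [e_mul]
    ring
  · intro y s lam lam'
    funext k
    show e C k y.g (C.a s) = C.om k s y.g - C.om k s 1
    have h := e_step C k y.g 1 s
    rw [one_mul, mul_one, e_one, sub_zero] at h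
    exact h

end Pool.Agent.H262.EB.Coc
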