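import Pool.Agent.H262.EB.CT

/-!
# Project EB, job COVER: isoperimetry in the homology cover
-/

set_option autoImplicit false

namespace Pool.Agent.H262.EB.Cover

open Finset
open scoped symmDiff

section four

variable {E : Type} [Fintype E] [DecidableEq E]

/-- the characters of the group of finite sets -/
def ch (A B : Finset E) : ℝ := ∏ x, if x ∈ A ∧ x ∈ B then (-1 : ℝ) else 1

omit [Fintype E] in
/-- the sign of an element -/
def sg (e : E) (B : Finset E) : ℝ := if e ∈ B then (-1 : ℝ) else 1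

omit [Fintype E] in
lemma sg_sq (e : E) (B : Finset E) : sg e B * sg e B = 1 := by
  unfold sg
  split_ifs <;> norm_num

lemma ch_comm (A B : Finset E) : ch A B = ch B A := by
  unfold ch
  refine prod_congr rfl fun x _ => ?_
  simp only [and_comm]

lemma ch_sd (A B : Finset E) (e : E) : ch (A ∆ {e}) B = ch A B * sg e B := by
  have h1 : sg e B = ∏ x, if x = e then sg e B else 1 := by
    rw [prod_ite_eq' univ e (fun _ => sg e B), if_pos (mem_univ e)]
  rw [h1]
  unfold ch
  rw [← prod_mul_distrib]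
  refine prod_congr rfl fun x _ => ?_
  by_cases hx : x = e
  · subst hx
    rw [if_pos rfl]
    unfold sg
    by_cases h2 : x ∈ A <;> by_cases h3 : x ∈ B <;> simp [h2, h3, mem_symmDiff]
  · rw [if_neg hx, mul_one]
    have h2 : x ∈ A ∆ {e} ↔ x ∈ A := by
      simp [mem_symmDiff, hx]
    simp only [h2]

lemma ch_sd' (A B : Finset E) (e : E) : ch A (B ∆ {e}) = ch A B * sg e A := by
  rw [ch_comm, ch_sd, ch_comm]

lemma ch_sq (A B : Finset E) : ch A B * ch A B = 1 := by
  unfold ch
  rw [← prod_mul_distrib]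
  refine prod_eq_one fun x _ => ?_
  split_ifs <;> norm_num

/-- the toggle of an element -/
def tog (e : E) : Equiv.Perm (Finset E) where
  toFun A := A ∆ {e}
  invFun A := A ∆ {e}
  left_inv _ := symmDiff_symmDiff_cancel_right _ _
  right_inv _ := symmDiff_symmDiff_cancel_right _ _

lemma sum_tog (e : E) (f : Finset E → ℝ) : ∑ A, f (A ∆ {e}) = ∑ A, f A :=
  Equiv.sum_comp (tog e) f

lemma orth {A A' : Finset E} (h : A ≠ A') : ∑ B, ch A B * ch A' B = 0 := by
  obtain ⟨e, he⟩ : ∃ e, ¬ (e ∈ A ↔ e ∈ A') := by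
    by_contra hcon
    push Not at hcon
    exact h (Finset.ext hcon)
  have h1 : sg e A * sg e A' = -1 := by
    unfold sg
    by_cases h2 : e ∈ A <;> by_cases h3 : e ∈ A' <;> simp_all
  have h2 := sum_tog e (fun B => ch A B * ch A' B)
  have h3 : ∑ B, ch A (B ∆ {e}) * ch A' (B ∆ {e}) = -∑ B, ch A B * ch A' B := by
    rw [← sum_neg_distrib]
    refine sum_congr rfl fun B _ => ?_
    rw [ch_sd', ch_sd']
    linear_combination ch A B * ch A' B * h1
  linarith

lemma diag (A : Finset E) : ∑ B, ch A B * ch A B = (Fintype.card (Finset E) : ℝ) := by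
  rw [sum_congr rfl fun B _ => ch_sq A B, sum_const, nsmul_eq_mul, mul_one, card_univ]

lemma pars (f g : Finset E → ℝ) : ∑ B, (∑ A, ch A B * f A) * (∑ A, ch A B * g A) =
    (Fintype.card (Finset E) : ℝ) * ∑ A, f A * g A := by
  have h1 : ∀ B : Finset E, (∑ A, ch A B * f A) * (∑ A, ch A B * g A) =
      ∑ A, ∑ A', f A * g A' * (ch A B * ch A' B) := by
    intro B
    rw [sum_mul_sum]
    refine sum_congr rfl fun A _ => sum_congr rfl fun A' _ => ?_
    ring
  rw [sum_congr rfl fun B _ => h1 B, sum_comm, mul_sum]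
  refine sum_congr rfl fun A _ => ?_
  rw [sum_comm, sum_eq_single A]
  · rw [← mul_sum, diag]
    ring
  · intro A' _ hA'
    rw [← mul_sum, orth (Ne.symm hA'), mul_zero]
  · intro hA
    exact absurd (mem_univ A) hA

lemma twist (e : E) (B : Finset E) (g : Finset E → ℝ) :
    sg e B * ∑ A, ch A B * g A = ∑ A, ch A B * g (A ∆ {e}) := by
  rw [← sum_tog e (fun A => ch A B * g A), mul_sum]
  refine sum_congr rfl fun A _ => ?_
  rw [ch_sd]
  linear_combination ch A B * g (A ∆ {e}) * sg_sq e B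

lemma pars_twist (e : E) (f g : Finset E → ℝ) :
    ∑ B, (∑ A, ch A B * f A) * (sg e B * ∑ A, ch A B * g A) =
    (Fintype.card (Finset E) : ℝ) * ∑ A, f A * g (A ∆ {e}) := by
  rw [← pars]
  refine sum_congr rfl fun B _ => ?_
  rw [twist]

end four

theorem main : StNorm → StCover := by
  classical
  intro hN V _ _ G h hh hdeg hB W hW
  -- the function
  set F : V → Finset (Sym2 V) → ZMod 4 → ℝ := fun v A j =>
    (if ((v, A), j) ∈ W then 1 else 0) - (if ((v, A), j + 2) ∈ W then 1 else 0) with hF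
  have h4 : ∀ j : ZMod 4, j + 2 + 2 = j := by decide
  have hFa : ∀ v A j, F v A (j + 2) = - F v A j := by
    intro v A j
    simp only [hF]
    rw [h4]
    ring
  have hFB : ∀ (B : Finset (Sym2 V)) (v : V) (j : ZMod 4),
      (∑ A, ch A B * F v A (j + 2)) = -∑ A, ch A B * F v A j := by
    intro B v j
    rw [← sum_neg_distrib]
    refine sum_congr rfl fun A _ => ?_
    rw [hFa]
    ring
  -- the bound for each character
  have hmain : ∀ B : Finset (Sym2 V),
      (∑ u, ∑ j, ∑ v, if G.Adj u v then (∑ A, ch A B * F u A j) *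
        (sg s(u, v) B * ∑ A, ch A B * F v A (j + (h u v : ZMod 4))) else 0) ≤
        ((DD : ℝ) - 8192) * ∑ u, ∑ j, (∑ A, ch A B * F u A j) ^ 2 := by
    intro B
    have h1 := hN V G h hdeg hB
      (fun u v => (h u v : ZMod 4) + if s(u, v) ∈ B then 2 else 0) (by
        intro u v
        rw [hh u v, Sym2.eq_swap (a := v) (b := u)]
        have : -(2 : ZMod 4) = 2 := by decide
        split_ifs
        · push_cast
          rw [neg_add, this]
        · push_cast
          ring) (by
        intro u v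
        split_ifs
        · exact Or.inr rfl
        · exact Or.inl (add_zero _))
      (fun u j => ∑ A, ch A B * F u A j) (fun u j => hFB B u j)
    refine le_trans (le_of_eq ?_) h1
    refine sum_congr rfl fun u _ => sum_congr rfl fun j _ => sum_congr rfl fun v _ => ?_
    by_cases hadj : G.Adj u v
    · rw [if_pos hadj, if_pos hadj]
      congr 1
      unfold sg
      split_ifs with hm
      · rw [← add_assoc, hFB]
        ring
      · rw [add_zero, one_mul]
    · rw [if_neg hadj, if_neg hadj]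
  -- sum over the characters
  set M : ℝ := (Fintype.card (Finset (Sym2 V)) : ℝ) with hM
  have hM0 : 0 < M := by
    rw [hM]
    exact_mod_cast Fintype.card_pos
  set Gf : V → Finset (Sym2 V) → ZMod 4 → ℝ := fun u A j =>
    ∑ v, if G.Adj u v then F v (A ∆ {s(u, v)}) (j + (h u v : ZMod 4)) else 0 with hGf
  have hsum : M * ∑ u, ∑ j, ∑ A, F u A j * Gf u A j ≤
      M * (((DD : ℝ) - 8192) * ∑ u, ∑ j, ∑ A, F u A j ^ 2) := by
    have h1 := sum_le_sum fun B (_ : B ∈ (univ : Finset (Finset (Sym2 V)))) => hmain B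
    refine le_trans (le_of_eq ?_) (h1.trans (le_of_eq ?_))
    · symm
      rw [sum_comm, mul_sum]
      refine sum_congr rfl fun u _ => ?_
      rw [sum_comm, mul_sum]
      refine sum_congr rfl fun j _ => ?_
      rw [sum_comm]
      have h2 : ∀ v, (∑ B, if G.Adj u v then (∑ A, ch A B * F u A j) *
          (sg s(u, v) B * ∑ A, ch A B * F v A (j + (h u v : ZMod 4))) else 0) =
          M * ∑ A, F u A j * (if G.Adj u v then F v (A ∆ {s(u, v)}) (j + (h u v : ZMod 4)) else 0) := by
        intro v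
        by_cases hadj : G.Adj u v
        · simp only [if_pos hadj]
          exact pars_twist s(u, v) (fun A => F u A j) (fun A => F v A (j + (h u v : ZMod 4)))
        · simp only [if_neg hadj, mul_zero, sum_const_zero]
      rw [sum_congr rfl fun v _ => h2 v, ← mul_sum, sum_comm]
      congr 1
      refine sum_congr rfl fun A _ => ?_
      rw [hGf]
      simp only
      rw [mul_sum]
    · rw [← mul_sum, sum_comm]
      have h2 : ∀ u, (∑ B : Finset (Sym2 V), ∑ j, (∑ A, ch A B * F u A j) ^ 2) =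
          M * ∑ j, ∑ A, F u A j ^ 2 := by
        intro u
        rw [sum_comm, mul_sum]
        refine sum_congr rfl fun j _ => ?_
        have h3 := pars (fun A => F u A j) (fun A => F u A j)
        simp only [← pow_two] at h3
        exact h3
      rw [sum_congr rfl fun u _ => h2 u, ← mul_sum]
      ring
  have hQ := le_of_mul_le_mul_left hsum hM0
  -- to sums over the cover
  have conv : ∀ f : V → Finset (Sym2 V) → ZMod 4 → ℝ, ∑ u, ∑ j, ∑ A, f u A j =
      ∑ x : (V × Finset (Sym2 V)) × ZMod 4, f x.1.1 x.1.2 x.2 := by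
    intro f
    rw [Fintype.sum_prod_type, Fintype.sum_prod_type]
    refine sum_congr rfl fun u _ => ?_
    rw [sum_comm]
  rw [conv, conv] at hQ
  have hfold : ∀ g : (V × Finset (Sym2 V)) × ZMod 4 → ℝ, (∀ x, g (x.1, x.2 + 2) = - g x) →
      ∑ x, F x.1.1 x.1.2 x.2 * g x = 2 * ∑ x ∈ W, g x := by
    intro g hg
    have e1 : ∑ x, (if x ∈ W then (1 : ℝ) else 0) * g x = ∑ x ∈ W, g x := by
      simp only [ite_mul, one_mul, zero_mul, sum_ite_mem, univ_inter]
    let τ : Equiv.Perm ((V × Finset (Sym2 V)) × ZMod 4) :=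
      { toFun := fun x => (x.1, x.2 + 2)
        invFun := fun x => (x.1, x.2 + 2)
        left_inv := fun x => by simp only [h4]
        right_inv := fun x => by simp only [h4] }
    have e2 : ∑ x, (if (x.1, x.2 + 2) ∈ W then (1 : ℝ) else 0) * g x = -∑ x ∈ W, g x := by
      have e0 : ∑ x, (if x ∈ W then (1 : ℝ) else 0) * g x =
          ∑ x : (V × Finset (Sym2 V)) × ZMod 4,
            (if (x.1, x.2 + 2) ∈ W then (1 : ℝ) else 0) * g (x.1, x.2 + 2) :=
        (Equiv.sum_comp τ (fun x => (if x ∈ W then (1 : ℝ) else 0) * g x)).symm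
      rw [← e1, e0, ← sum_neg_distrib]
      refine sum_congr rfl fun x _ => ?_
      rw [hg]
      ring
    have e3 : ∀ x : (V × Finset (Sym2 V)) × ZMod 4, F x.1.1 x.1.2 x.2 * g x =
        (if x ∈ W then (1 : ℝ) else 0) * g x -
          (if (x.1, x.2 + 2) ∈ W then (1 : ℝ) else 0) * g x := by
      intro x
      rw [← sub_mul]
    rw [sum_congr rfl fun x _ => e3 x, sum_sub_distrib, e1, e2]
    ring
  have hFW : ∀ x ∈ W, F x.1.1 x.1.2 x.2 = 1 := by
    intro x hx
    have h1 : ((x.1.1, x.1.2), x.2) ∈ W := hx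
    have h2 : ((x.1.1, x.1.2), x.2 + 2) ∉ W := hW x hx
    simp only [hF]
    rw [if_pos h1, if_neg h2, sub_zero]
  have hsq : ∑ x : (V × Finset (Sym2 V)) × ZMod 4, F x.1.1 x.1.2 x.2 ^ 2 = 2 * (W.card : ℝ) := by
    simp only [pow_two]
    rw [hfold (fun x => F x.1.1 x.1.2 x.2) (fun x => hFa _ _ _), sum_congr rfl hFW, sum_const,
      nsmul_eq_mul, mul_one]
  have hGa : ∀ x : (V × Finset (Sym2 V)) × ZMod 4, Gf x.1.1 x.1.2 (x.2 + 2) =
      - Gf x.1.1 x.1.2 x.2 := by
    intro x
    simp only [hGf]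
    rw [← sum_neg_distrib]
    refine sum_congr rfl fun v _ => ?_
    split_ifs
    · rw [add_right_comm, hFa]
    · rw [neg_zero]
  rw [hsq, hfold (fun x => Gf x.1.1 x.1.2 x.2) hGa] at hQ
  have hncard : ∀ (p : V → Prop) [DecidablePred p],
      (({v | p v}.ncard : ℕ) : ℝ) = ∑ v, if p v then (1 : ℝ) else 0 := by
    intro p _
    have e : {v | p v} = ((univ.filter p : Finset V) : Set V) := by
      ext v
      simp
    rw [e, Set.ncard_coe_finset, card_filter]
    push_cast
    rfl
  have hlow : ∀ x ∈ W, 2 * ((({v | G.Adj x.1.1 v ∧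
      ((v, x.1.2 ∆ {s(x.1.1, v)}), x.2 + (h x.1.1 v : ZMod 4)) ∈ W}.ncard : ℕ)) : ℝ) - DD ≤
      Gf x.1.1 x.1.2 x.2 := by
    intro x _
    have hd : ((G.neighborSet x.1.1).ncard : ℝ) ≤ DD := by exact_mod_cast hdeg x.1.1
    have hd' : ((G.neighborSet x.1.1).ncard : ℝ) = ∑ v, if G.Adj x.1.1 v then (1 : ℝ) else 0 :=
      hncard fun v => G.Adj x.1.1 v
    rw [hncard fun v => G.Adj x.1.1 v ∧
      ((v, x.1.2 ∆ {s(x.1.1, v)}), x.2 + (h x.1.1 v : ZMod 4)) ∈ W]
    have h1 : 2 * (∑ v, if G.Adj x.1.1 v ∧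
        ((v, x.1.2 ∆ {s(x.1.1, v)}), x.2 + (h x.1.1 v : ZMod 4)) ∈ W then (1 : ℝ) else 0) -
        ∑ v, (if G.Adj x.1.1 v then (1 : ℝ) else 0) ≤ Gf x.1.1 x.1.2 x.2 := by
      rw [mul_sum, ← sum_sub_distrib]
      simp only [hGf]
      refine sum_le_sum fun v _ => ?_
      by_cases hadj : G.Adj x.1.1 v
      · simp only [hadj, true_and, if_true]
        by_cases hm : ((v, x.1.2 ∆ {s(x.1.1, v)}), x.2 + (h x.1.1 v : ZMod 4)) ∈ W
        · have hm' : ((v, x.1.2 ∆ {s(x.1.1, v)}), x.2 + (h x.1.1 v : ZMod 4) + 2) ∉ W := hW _ hm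
          simp only [hF]
          rw [if_pos hm, if_neg hm']
          norm_num
        · simp only [hF]
          rw [if_neg hm]
          split_ifs <;> norm_num
      · simp [hadj]
    linarith
  have hfin := sum_le_sum hlow
  rw [sum_sub_distrib, ← mul_sum, sum_const, nsmul_eq_mul] at hfin
  have hreal : (∑ w ∈ W, ((({v | G.Adj w.1.1 v ∧
      ((v, w.1.2 ∆ {s(w.1.1, v)}), w.2 + (h w.1.1 v : ZMod 4)) ∈ W}.ncard : ℕ)) : ℝ)) +
      4096 * (W.card : ℝ) ≤ DD * (W.card : ℝ) := by
    linarith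
  exact_mod_cast hreal

end Pool.Agent.H262.EB.Cover
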