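import Pool.Agent.H262.EB.Tw

/-!
# Project EB (disproof of MP_6b7756_an, frozen statement S04952): definitions for the analytic part
-/

set_option autoImplicit false
set_option linter.unusedSectionVars false

namespace Pool.Agent.H262.EB

open Finset
open scoped symmDiff

/-- the additive character `j ↦ i ^ j` of `ZMod 4` -/
noncomputable def ii (j : ZMod 4) : ℂ := Complex.I ^ j.val

theorem ii_zero : ii 0 = 1 := by simp [ii]

theorem ii_add (a b : ZMod 4) : ii (a + b) = ii a * ii b := by
  have h4 : Complex.I ^ 4 = 1 := Complex.I_pow_four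
  unfold ii
  rw [← pow_add, ZMod.val_add]
  exact (pow_mod_orderOf_aux h4 (a.val + b.val)).symm
where
  pow_mod_orderOf_aux {z : ℂ} (h : z ^ 4 = 1) (n : ℕ) : z ^ n = z ^ (n % 4) := by
    conv_lhs => rw [← Nat.div_add_mod n 4, pow_add, pow_mul, h, one_pow, one_mul]

theorem norm_ii (a : ZMod 4) : ‖ii a‖ = 1 := by simp [ii]

theorem ii_neg (a : ZMod 4) : ii (-a) = (starRingEnd ℂ) (ii a) := by
  have h1 : ii (-a) * ii a = 1 := by rw [← ii_add, neg_add_cancel, ii_zero]
  have h2 : (starRingEnd ℂ) (ii a) * ii a = 1 := by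
    rw [mul_comm, Complex.mul_conj, Complex.normSq_eq_norm_sq, norm_ii]; norm_num
  have h3 : ii a ≠ 0 := by
    intro h; rw [h, mul_zero] at h1; exact zero_ne_one h1
  exact mul_right_cancel₀ h3 (h1.trans h2.symm)

theorem ii_two : ii 2 = -1 := by
  have : (2 : ZMod 4).val = 2 := rfl
  simp [ii, this]

/-- the coefficient of the left regular representation of `D` twisted by the character `χ`
of the centre of `Tw c` -/
noncomputable def tc {D : Type} [Group D] (c : Cocycle D) (χ : (ℕ → ZMod 4) →+ ZMod 4)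
    (f : D → ℂ) (x : D) : ℂ :=
  ∑' z, f z * (starRingEnd ℂ) (f (x⁻¹ * z)) * ii (χ (c.c x (x⁻¹ * z)))

/-- the same for the right regular representation -/
noncomputable def rc {D : Type} [Group D] (c : Cocycle D) (χ : (ℕ → ZMod 4) →+ ZMod 4)
    (F : D → ℂ) (x : D) : ℂ :=
  ∑' y, (starRingEnd ℂ) (F y) * ii (χ (c.c y x)) * F (y * x)

/-- the character `a ↦ a 0` -/
def chi0 : (ℕ → ZMod 4) →+ ZMod 4 := Pi.evalAddMonoidHom (fun _ : ℕ => ZMod 4) 0

/-- the character `a ↦ a 0 - a (m + 1) + a (m' + 1)` -/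
def chi (m m' : ℕ) : (ℕ → ZMod 4) →+ ZMod 4 :=
  Pi.evalAddMonoidHom (fun _ : ℕ => ZMod 4) 0 - Pi.evalAddMonoidHom (fun _ : ℕ => ZMod 4) (m + 1)
    + Pi.evalAddMonoidHom (fun _ : ℕ => ZMod 4) (m' + 1)

@[simp] theorem chi0_apply (a : ℕ → ZMod 4) : chi0 a = a 0 := rfl
@[simp] theorem chi_apply (m m' : ℕ) (a : ℕ → ZMod 4) :
    chi m m' a = a 0 - a (m + 1) + a (m' + 1) := rfl

theorem continuous_chi0 : Continuous chi0 := continuous_apply 0
theorem continuous_chi (m m' : ℕ) : Continuous (chi m m') := by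
  have h : ∀ k : ℕ, Continuous fun a : ℕ → ZMod 4 => a k := fun k => continuous_apply k
  exact ((h 0).sub (h (m + 1))).add (h (m' + 1))

/-! ## The combinatorial data -/

/-- The group theoretic input: a countable group `H` generated by a finite family of involutions
`a s`; `om k` are `ZMod 4`-valued cochains on its Cayley graph with homogeneous holonomy (`lift`:
translation by `g` changes `om k` by a coboundary); `pl`: in the `ZMod 4`-cover of the Cayley graph
given by `om 0` every finite set `W` disjoint from its rotation by `2` spans few edges; `hero`: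
there are finite subgraphs `B` (edges `x - x * a s`, `s ∈ τ x`) with maximal degree `≤ d`
and average degree `≥ d - 1` on which `om k` is a coboundary for
all `k ∉ {0, i+1}`, and for `k ∈ {0, i + 1}` it is the sum of a coboundary and of one and the same
cochain `η`. -/
structure CTData (H S : Type) [Group H] [Fintype S] [DecidableEq S] [DecidableEq H]
    (d b : ℕ) where
  a : S → H
  inv : ∀ s, a s * a s = 1
  gen : Subgroup.closure (Set.range a) = ⊤
  om : ℕ → S → H → ZMod 4
  anti : ∀ k s g, om k s (g * a s) = - om k s g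
  lift : ∀ k g, ∃ ψ : H → ZMod 4, ∀ s x,
    ψ (x * a s) - ψ x = om k s (g * x) - om k s x
  pl : ∀ W : Finset (H × ZMod 4), (∀ w ∈ W, (w.1, w.2 + 2) ∉ W) →
    (∑ w ∈ W, (univ.filter fun s : S => (w.1 * a s, w.2 + om 0 s w.1) ∈ W).card) + b * W.card ≤
      d * W.card
  hero : ∀ i : ℕ, ∃ (B : Finset H) (τ : H → Finset S) (ψ : ℕ → H → ZMod 4)
    (η : S → H → ZMod 4), B.Nonempty ∧ (∀ x ∈ B, (τ x).card ≤ d) ∧
    (∀ x ∈ B, ∀ s ∈ τ x, x * a s ∈ B ∧ s ∈ τ (x * a s)) ∧
    d * B.card ≤ (∑ x ∈ B, (τ x).card) + B.card ∧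
    ∀ k, ∀ x ∈ B, ∀ s ∈ τ x,
      om k s x = ψ k (x * a s) - ψ k x + if k = 0 ∨ k = i + 1 then η s x else 0

/-! ## The lamp group -/

/-- The lamplighter type group: pairs `(l, g)` where `l` is a finite subset of `H × S`
(the lamps which are on; there is one lamp for every element of `S` at every place in `H`)
and `g : H` is the position. -/
structure Lam (H S : Type) : Type where
  l : Finset (H × S)
  g : H

namespace Lam

variable {H S : Type} [Group H] [DecidableEq H] [DecidableEq S]

@[ext] theorem ext' {x y : Lam H S} (h1 : x.l = y.l) (h2 : x.g = y.g) : x = y := by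
  cases x; cases y; simp_all

/-- translation of a set of lamps -/
def sh (g : H) (l : Finset (H × S)) : Finset (H × S) := l.image fun p => (g * p.1, p.2)

theorem mem_sh {g : H} {l : Finset (H × S)} {p : H × S} :
    p ∈ sh g l ↔ (g⁻¹ * p.1, p.2) ∈ l := by
  unfold sh
  rw [mem_image]
  constructor
  · rintro ⟨q, hq, rfl⟩
    simpa using hq
  · intro h
    exact ⟨_, h, by simp⟩

theorem sh_one (l : Finset (H × S)) : sh 1 l = l := by
  ext p; simp [mem_sh]

theorem sh_mul (g h : H) (l : Finset (H × S)) : sh (g * h) l = sh g (sh h l) := by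
  ext p; simp [mem_sh, mul_assoc]

theorem sh_symmDiff (g : H) (l l' : Finset (H × S)) : sh g (l ∆ l') = sh g l ∆ sh g l' := by
  ext p; simp [mem_sh, mem_symmDiff]

instance : Mul (Lam H S) := ⟨fun x y => ⟨x.l ∆ sh x.g y.l, x.g * y.g⟩⟩
instance : One (Lam H S) := ⟨⟨∅, 1⟩⟩
instance : Inv (Lam H S) := ⟨fun x => ⟨sh x.g⁻¹ x.l, x.g⁻¹⟩⟩

@[simp] theorem mul_l (x y : Lam H S) : (x * y).l = x.l ∆ sh x.g y.l := rfl
@[simp] theorem mul_g (x y : Lam H S) : (x * y).g = x.g * y.g := rfl
@[simp] theorem one_l : (1 : Lam H S).l = ∅ := rfl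
@[simp] theorem one_g : (1 : Lam H S).g = 1 := rfl
@[simp] theorem inv_l (x : Lam H S) : (x⁻¹).l = sh x.g⁻¹ x.l := rfl
@[simp] theorem inv_g (x : Lam H S) : (x⁻¹).g = x.g⁻¹ := rfl

instance : Group (Lam H S) :=
  Group.ofLeftAxioms
    (by
      intro x y z
      apply ext'
      · simp [sh_symmDiff, sh_mul, symmDiff_assoc]
      · simp [mul_assoc])
    (by
      intro x
      apply ext'
      · simp [sh_one]
      · simp)
    (by
      intro x
      apply ext'
      · simp
      · simp)

instance [Countable H] [Countable S] : Countable (Lam H S) := by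
  have h : Function.Injective (fun x : Lam H S => (x.l, x.g)) := by
    intro x y hxy
    simp only [Prod.mk.injEq] at hxy
    exact ext' hxy.1 hxy.2
  exact h.countable

end Lam

/-! ## The test element -/

section test

variable {H S : Type} [Group H] [Fintype S] [DecidableEq S] [DecidableEq H]

/-- The coefficients of the projection `p_s` of the group algebra of the lamps at one place
onto the characters `τ` with `s ∈ τ` and `|τ| ≤ d`. -/
noncomputable def ps (S : Type) [Fintype S] [DecidableEq S] (d : ℕ) (s : S)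
    (lam : Finset S) : ℝ :=
  ((2 : ℝ) ^ Fintype.card S)⁻¹ *
    ∑ τ ∈ univ.filter (fun τ : Finset S => s ∈ τ ∧ τ.card ≤ d), (-1 : ℝ) ^ (lam ∩ τ).card

/-- the element (lamps `lam` at the place `1`) * (step `s`) * (lamps `lam'`) of the lamp group -/
def el (a : S → H) (s : S) (lam lam' : Finset S) : Lam H S :=
  ⟨(lam.image fun t => ((1 : H), t)) ∆ (lam'.image fun t => (a s, t)), a s⟩

/-- The quadratic form of the test element `∑ s, p_s s p_s` in the twisted right regular
representation of the lamp group. -/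
noncomputable def TT {d b : ℕ} (C : CTData H S d b) (χ : (ℕ → ZMod 4) →+ ZMod 4)
    (F : Lam H S → ℂ) : ℂ :=
  ∑ s : S, ∑ lam : Finset S, ∑ lam' : Finset S, ((ps S d s lam * ps S d s lam' : ℝ) : ℂ) *
    ∑' y : Lam H S, (starRingEnd ℂ) (F y) * ii (χ (fun k => C.om k s y.g)) *
      F (y * el C.a s lam lam')

end test

end Pool.Agent.H262.EB
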