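import Pool.Agent.H262.EB.AP

/-!
# Project EB: Fourier transform over the lamps
-/

set_option autoImplicit false
set_option linter.unusedSectionVars false

namespace Pool.Agent.H262.EB.Four

open Finset
open scoped symmDiff
open Pool.Agent.H262.EB

section fourier

variable {α : Type} [DecidableEq α]

/-- the characters of the group of the finite subsets -/
noncomputable def sg (Y l : Finset α) : ℂ := (-1) ^ (l ∩ Y).card

theorem sg_eq_prod (Y l : Finset α) : sg Y l = ∏ x ∈ l, (if x ∈ Y then (-1 : ℂ) else 1) := by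
  unfold sg
  rw [Finset.prod_ite, Finset.prod_const, Finset.prod_const_one, mul_one,
    Finset.filter_mem_eq_inter]

theorem sg_comm (Y l : Finset α) : sg Y l = sg l Y := by
  unfold sg
  rw [Finset.inter_comm]

theorem sg_eq (Y : Finset α) {l T : Finset α} (h : l ⊆ T) :
    sg Y l = ∏ x ∈ T, (if x ∈ l then (if x ∈ Y then (-1 : ℂ) else 1) else 1) := by
  rw [sg_eq_prod, ← Finset.prod_subset h]
  · exact Finset.prod_congr rfl fun x hx => by rw [if_pos hx]
  · intro x _ hx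
    rw [if_neg hx]

theorem sg_symmDiff (Y l l' : Finset α) : sg Y (l ∆ l') = sg Y l * sg Y l' := by
  have h1 : l ∆ l' ⊆ l ∪ l' := by
    intro x hx
    rw [mem_symmDiff] at hx
    rw [mem_union]
    tauto
  rw [sg_eq Y h1, sg_eq Y (Finset.subset_union_left : l ⊆ l ∪ l'),
    sg_eq Y (Finset.subset_union_right : l' ⊆ l ∪ l'), ← Finset.prod_mul_distrib]
  refine Finset.prod_congr rfl fun x _ => ?_
  by_cases h1 : x ∈ l <;> by_cases h2 : x ∈ l' <;> by_cases h3 : x ∈ Y <;>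
    simp [mem_symmDiff, h1, h2, h3]

theorem conj_sg (Y l : Finset α) : (starRingEnd ℂ) (sg Y l) = sg Y l := by
  unfold sg
  simp

theorem sum_sg {L l : Finset α} (h : l ⊆ L) :
    ∑ Y ∈ L.powerset, sg Y l = if l = ∅ then (2 : ℂ) ^ L.card else 0 := by
  have h1 : ∑ Y ∈ L.powerset, sg Y l = ∏ x ∈ L, (1 + (if x ∈ l then (-1 : ℂ) else 1)) := by
    rw [Finset.prod_one_add]
    exact Finset.sum_congr rfl fun Y _ => by rw [sg_comm, sg_eq_prod]
  rw [h1]
  split_ifs with h0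
  · rw [h0]
    rw [Finset.prod_congr rfl (fun x _ => by
      rw [if_neg (Finset.notMem_empty x)]), Finset.prod_const]
    norm_num
  · obtain ⟨x, hx⟩ := Finset.nonempty_iff_ne_empty.2 h0
    refine Finset.prod_eq_zero (h hx) ?_
    rw [if_pos hx]
    norm_num

theorem symmDiff_subset {L l l' : Finset α} (h : l ⊆ L) (h' : l' ⊆ L) : l ∆ l' ⊆ L := by
  intro x hx
  rw [mem_symmDiff] at hx
  rcases hx with hx | hx
  · exact h hx.1
  · exact h' hx.1

theorem parseval {L v : Finset α} (hv : v ⊆ L) (u w : Finset α → ℂ) :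
    ∑ Y ∈ L.powerset, sg Y v * (starRingEnd ℂ) (∑ l ∈ L.powerset, sg Y l * u l) *
      (∑ l ∈ L.powerset, sg Y l * w l) =
    (2 : ℂ) ^ L.card * ∑ l ∈ L.powerset, (starRingEnd ℂ) (u l) * w (l ∆ v) := by
  have h1 : ∀ Y : Finset α, sg Y v * (starRingEnd ℂ) (∑ l ∈ L.powerset, sg Y l * u l) *
      (∑ l ∈ L.powerset, sg Y l * w l) =
      ∑ l ∈ L.powerset, ∑ l' ∈ L.powerset, (starRingEnd ℂ) (u l) * w l' * sg Y (l' ∆ (l ∆ v)) := by
    intro Y
    rw [map_sum, mul_assoc, Finset.sum_mul_sum, Finset.mul_sum]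
    refine Finset.sum_congr rfl fun l _ => ?_
    rw [Finset.mul_sum]
    refine Finset.sum_congr rfl fun l' _ => ?_
    rw [sg_symmDiff, sg_symmDiff, map_mul, conj_sg]
    ring
  simp only [h1]
  rw [Finset.sum_comm, Finset.mul_sum]
  refine Finset.sum_congr rfl fun l hl => ?_
  rw [Finset.sum_comm]
  have hlv : l ∆ v ∈ L.powerset :=
    Finset.mem_powerset.2 (symmDiff_subset (Finset.mem_powerset.1 hl) hv)
  have h2 : ∀ l' ∈ L.powerset, ∑ Y ∈ L.powerset, (starRingEnd ℂ) (u l) * w l' *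
      sg Y (l' ∆ (l ∆ v)) = if l' = l ∆ v then (starRingEnd ℂ) (u l) * w l' * 2 ^ L.card else 0 := by
    intro l' hl'
    rw [← Finset.mul_sum, sum_sg (symmDiff_subset (Finset.mem_powerset.1 hl')
      (Finset.mem_powerset.1 hlv))]
    by_cases h : l' = l ∆ v
    · rw [if_pos h, if_pos (by rw [h]; exact symmDiff_self _)]
    · have hne : ¬ l' ∆ (l ∆ v) = ∅ := fun h0 => h (symmDiff_eq_bot.1 h0)
      rw [if_neg h, if_neg hne, mul_zero]
  rw [Finset.sum_congr rfl h2, Finset.sum_ite_eq' L.powerset (l ∆ v), if_pos hlv]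
  ring

end fourier

theorem swap {ι κ : Type} (A : Finset ι) (K : Finset κ) (p : ι → ℂ) (c : ℂ) (e e' : ι → κ → ℂ)
    (X : κ → ℂ) :
    ∑ a ∈ A, ∑ b ∈ A, (p a * p b) * (c * ∑ k ∈ K, e a k * e' b k * X k) =
      c * ∑ k ∈ K, (∑ a ∈ A, p a * e a k) * (∑ b ∈ A, p b * e' b k) * X k := by
  have h1 : ∀ k, c * ((∑ a ∈ A, p a * e a k) * (∑ b ∈ A, p b * e' b k) * X k) =
      ∑ a ∈ A, ∑ b ∈ A, c * ((p a * e a k) * (p b * e' b k) * X k) := by
    intro k
    rw [Finset.sum_mul_sum, Finset.sum_mul, Finset.mul_sum]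
    refine Finset.sum_congr rfl fun a _ => ?_
    rw [Finset.sum_mul, Finset.mul_sum]
  rw [Finset.mul_sum]
  simp only [h1]
  symm
  rw [Finset.sum_comm]
  refine Finset.sum_congr rfl fun a _ => ?_
  rw [Finset.sum_comm]
  refine Finset.sum_congr rfl fun b _ => ?_
  rw [Finset.mul_sum, Finset.mul_sum]
  refine Finset.sum_congr rfl fun k _ => ?_
  ring

section lam

variable {H S : Type} [Group H] [Fintype S] [DecidableEq S] [DecidableEq H]

/-- the marks at one place -/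
def tau (Y : Finset (H × S)) (g : H) : Finset S := univ.filter fun t => (g, t) ∈ Y

theorem sg_image (Y : Finset (H × S)) (g : H) (lam : Finset S) :
    sg Y (lam.image fun t => (g, t)) = ((-1 : ℝ) ^ (lam ∩ tau Y g).card : ℝ) := by
  have h1 : (lam.image fun t => (g, t)) ∩ Y = (lam ∩ tau Y g).image fun t => (g, t) := by
    ext ⟨x, t⟩
    simp only [mem_inter, mem_image, tau, mem_filter, mem_univ, true_and, Prod.mk.injEq]
    constructor
    · rintro ⟨⟨t', ht', rfl, rfl⟩, h⟩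
      exact ⟨t', ⟨ht', h⟩, rfl, rfl⟩
    · rintro ⟨t', ⟨ht', h⟩, rfl, rfl⟩
      exact ⟨⟨t', ht', rfl, rfl⟩, h⟩
  unfold sg
  rw [h1, Finset.card_image_of_injective _ (fun a b hab => (Prod.mk.injEq _ _ _ _ ▸ hab).2)]
  push_cast
  rfl

/-- the lamps which are switched -/
def vv (a : S → H) (s : S) (lam lam' : Finset S) (g : H) : Finset (H × S) :=
  (lam.image fun t => (g, t)) ∆ (lam'.image fun t => (g * a s, t))

theorem sh_vv (a : S → H) (s : S) (lam lam' : Finset S) (g : H) :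
    Lam.sh g ((lam.image fun t => ((1 : H), t)) ∆ (lam'.image fun t => (a s, t))) =
      vv a s lam lam' g := by
  rw [Lam.sh_symmDiff]
  unfold vv Lam.sh
  rw [Finset.image_image, Finset.image_image]
  congr 1
  refine Finset.image_congr fun t _ => ?_
  simp

theorem mul_el (a : S → H) (s : S) (lam lam' : Finset S) (l : Finset (H × S)) (g : H) :
    (⟨l, g⟩ : Lam H S) * el a s lam lam' = ⟨l ∆ vv a s lam lam' g, g * a s⟩ := by
  refine Lam.ext' ?_ rfl
  rw [Lam.mul_l, ← sh_vv]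
  rfl

theorem tsum_lam {F : Lam H S → ℂ} {L : Finset (H × S)} {P : Finset H}
    (hF : ∀ y, F y ≠ 0 → y.l ∈ L.powerset ∧ y.g ∈ P) {R : Type} [AddCommMonoid R]
    [TopologicalSpace R] (h : Lam H S → R) (h0 : ∀ y, F y = 0 → h y = 0) :
    ∑' y, h y = ∑ g ∈ P, ∑ l ∈ L.powerset, h ⟨l, g⟩ := by
  classical
  have hinj : Function.Injective (fun p : H × Finset (H × S) => (⟨p.2, p.1⟩ : Lam H S)) := by
    intro p q hpq
    have h1 := congrArg Lam.l hpq
    have h2 := congrArg Lam.g hpq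
    exact Prod.ext h2 h1
  rw [tsum_eq_sum (s := (P ×ˢ L.powerset).image fun p => (⟨p.2, p.1⟩ : Lam H S))]
  · rw [Finset.sum_image (fun a _ b _ hab => hinj hab), Finset.sum_product]
  · intro y hy
    refine h0 y ?_
    by_contra hne
    obtain ⟨h1, h2⟩ := hF y hne
    exact hy (Finset.mem_image.2 ⟨(y.g, y.l), Finset.mem_product.2 ⟨h2, h1⟩, rfl⟩)

end lam

theorem main : StMark → StPs → StFour := by
  intro hMark hPs H S _ _ _ _ d b C hd hbd hdb F hF
  classical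
  set P : Finset H := hF.toFinset.image Lam.g with hP
  set L : Finset (H × S) := (hF.toFinset.biUnion Lam.l) ∪ (P ×ˢ univ) with hL
  have hsup : ∀ y, F y ≠ 0 → y.l ∈ L.powerset ∧ y.g ∈ P := by
    intro y hy
    have hy' : y ∈ hF.toFinset := by
      rw [Set.Finite.mem_toFinset]
      exact hy
    refine ⟨?_, Finset.mem_image_of_mem _ hy'⟩
    rw [Finset.mem_powerset]
    exact (Finset.subset_biUnion_of_mem Lam.l hy').trans Finset.subset_union_left
  have hFP : ∀ g, g ∉ P → ∀ l, F ⟨l, g⟩ = 0 := by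
    intro g hg l
    by_contra hne
    exact hg (hsup _ hne).2
  set φ : Finset (H × S) → H → ℂ := fun Y g => ∑ l ∈ L.powerset, sg Y l * F ⟨l, g⟩ with hφ
  have hφP : ∀ Y g, g ∉ P → φ Y g = 0 := by
    intro Y g hg
    simp only [hφ]
    exact Finset.sum_eq_zero fun l _ => by rw [hFP g hg, mul_zero]
  have h2L : (2 : ℂ) ^ L.card ≠ 0 := pow_ne_zero _ two_ne_zero
  -- the correlations
  have hcor : ∀ g ∈ P, ∀ s lam lam', ∑ l ∈ L.powerset, (starRingEnd ℂ) (F ⟨l, g⟩) *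
      F ⟨l ∆ vv C.a s lam lam' g, g * C.a s⟩ = ((2 : ℂ) ^ L.card)⁻¹ *
      ∑ Y ∈ L.powerset, sg Y (vv C.a s lam lam' g) * (starRingEnd ℂ) (φ Y g) *
        φ Y (g * C.a s) := by
    intro g hg s lam lam'
    by_cases hgs : g * C.a s ∈ P
    · have hv : vv C.a s lam lam' g ⊆ L := by
        unfold vv
        refine (symmDiff_subset ?_ ?_).trans (Finset.subset_union_right : P ×ˢ univ ⊆ L)
        · intro x hx
          obtain ⟨t, _, rfl⟩ := Finset.mem_image.1 hx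
          exact Finset.mem_product.2 ⟨hg, Finset.mem_univ _⟩
        · intro x hx
          obtain ⟨t, _, rfl⟩ := Finset.mem_image.1 hx
          exact Finset.mem_product.2 ⟨hgs, Finset.mem_univ _⟩
      have h1 := parseval hv (fun l => F ⟨l, g⟩) (fun l => F ⟨l, g * C.a s⟩)
      rw [eq_inv_mul_iff_mul_eq₀ h2L]
      exact h1.symm
    · rw [Finset.sum_eq_zero (fun l _ => by rw [hFP _ hgs, mul_zero]),
        Finset.sum_eq_zero (fun Y _ => by rw [hφP Y _ hgs, mul_zero]), mul_zero]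
  have hTT : TT C chi0 F = ((2 : ℂ) ^ L.card)⁻¹ * ∑ Y ∈ L.powerset, ∑ g ∈ P, ∑ s : S,
      (if (s ∈ tau Y g ∧ (tau Y g).card ≤ d) ∧
        (s ∈ tau Y (g * C.a s) ∧ (tau Y (g * C.a s)).card ≤ d)
      then (starRingEnd ℂ) (φ Y g) * ii (C.om 0 s g) * φ Y (g * C.a s) else 0) := by
    unfold TT
    have hI : ∀ s lam lam', ∑' y : Lam H S, (starRingEnd ℂ) (F y) *
        ii (chi0 (fun k => C.om k s y.g)) * F (y * el C.a s lam lam') =
        ((2 : ℂ) ^ L.card)⁻¹ * ∑ k ∈ P ×ˢ L.powerset,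
          (((-1 : ℝ) ^ (lam ∩ tau k.2 k.1).card : ℝ) : ℂ) *
          (((-1 : ℝ) ^ (lam' ∩ tau k.2 (k.1 * C.a s)).card : ℝ) : ℂ) *
          ((starRingEnd ℂ) (φ k.2 k.1) * ii (C.om 0 s k.1) * φ k.2 (k.1 * C.a s)) := by
      intro s lam lam'
      rw [tsum_lam hsup _ (fun y hy => by rw [hy, map_zero, zero_mul, zero_mul]),
        Finset.sum_product, Finset.mul_sum]
      refine Finset.sum_congr rfl fun g hg => ?_
      have e1 : ∀ l : Finset (H × S), (starRingEnd ℂ) (F ⟨l, g⟩) *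
          ii (chi0 (fun k => C.om k s g)) * F ((⟨l, g⟩ : Lam H S) * el C.a s lam lam') =
          ii (C.om 0 s g) * ((starRingEnd ℂ) (F ⟨l, g⟩) *
            F ⟨l ∆ vv C.a s lam lam' g, g * C.a s⟩) := by
        intro l
        rw [mul_el, chi0_apply]
        ring
      simp only [e1]
      rw [← Finset.mul_sum, hcor g hg, mul_left_comm, Finset.mul_sum]
      congr 1
      refine Finset.sum_congr rfl fun Y _ => ?_
      unfold vv
      rw [sg_symmDiff, sg_image, sg_image]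
      ring
    simp only [hI]
    have hS : ∀ s : S, ∑ lam : Finset S, ∑ lam' : Finset S,
        ((ps S d s lam * ps S d s lam' : ℝ) : ℂ) * (((2 : ℂ) ^ L.card)⁻¹ *
          ∑ k ∈ P ×ˢ L.powerset, (((-1 : ℝ) ^ (lam ∩ tau k.2 k.1).card : ℝ) : ℂ) *
          (((-1 : ℝ) ^ (lam' ∩ tau k.2 (k.1 * C.a s)).card : ℝ) : ℂ) *
          ((starRingEnd ℂ) (φ k.2 k.1) * ii (C.om 0 s k.1) * φ k.2 (k.1 * C.a s))) =
        ((2 : ℂ) ^ L.card)⁻¹ * ∑ k ∈ P ×ˢ L.powerset,
          (if (s ∈ tau k.2 k.1 ∧ (tau k.2 k.1).card ≤ d) ∧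
            (s ∈ tau k.2 (k.1 * C.a s) ∧ (tau k.2 (k.1 * C.a s)).card ≤ d)
          then (starRingEnd ℂ) (φ k.2 k.1) * ii (C.om 0 s k.1) * φ k.2 (k.1 * C.a s) else 0) := by
      intro s
      have h1 := swap (univ : Finset (Finset S)) (P ×ˢ L.powerset)
        (fun lam => ((ps S d s lam : ℝ) : ℂ)) (((2 : ℂ) ^ L.card)⁻¹)
        (fun lam k => (((-1 : ℝ) ^ (lam ∩ tau k.2 k.1).card : ℝ) : ℂ))
        (fun lam k => (((-1 : ℝ) ^ (lam ∩ tau k.2 (k.1 * C.a s)).card : ℝ) : ℂ))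
        (fun k => (starRingEnd ℂ) (φ k.2 k.1) * ii (C.om 0 s k.1) * φ k.2 (k.1 * C.a s))
      have h2 : ∀ lam lam' : Finset S, ((ps S d s lam * ps S d s lam' : ℝ) : ℂ) =
          ((ps S d s lam : ℝ) : ℂ) * ((ps S d s lam' : ℝ) : ℂ) := fun lam lam' =>
        Complex.ofReal_mul _ _
      simp only [h2]
      rw [h1]
      congr 1
      refine Finset.sum_congr rfl fun k _ => ?_
      have h3 : ∀ Y : Finset S, ∑ lam : Finset S, ((ps S d s lam : ℝ) : ℂ) *
          (((-1 : ℝ) ^ (lam ∩ Y).card : ℝ) : ℂ) = if s ∈ Y ∧ Y.card ≤ d then 1 else 0 := by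
        intro Y
        have h4 := congrArg (fun r : ℝ => (r : ℂ)) (hPs S d s Y)
        rw [Complex.ofReal_sum] at h4
        simp only [Complex.ofReal_mul] at h4
        rw [h4]
        split_ifs <;> simp
      rw [h3, h3]
      by_cases c1 : s ∈ tau k.2 k.1 ∧ (tau k.2 k.1).card ≤ d
      · by_cases c2 : s ∈ tau k.2 (k.1 * C.a s) ∧ (tau k.2 (k.1 * C.a s)).card ≤ d
        · rw [if_pos c1, if_pos c2, if_pos ⟨c1, c2⟩, one_mul, one_mul]
        · rw [if_pos c1, if_neg c2, if_neg (fun h => c2 h.2), mul_zero, zero_mul]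
      · rw [if_neg c1, zero_mul, zero_mul, if_neg (fun h => c1 h.1)]
    simp only [hS]
    rw [← Finset.mul_sum]
    congr 1
    rw [Finset.sum_comm, Finset.sum_product, Finset.sum_comm]
  have hpar : ∑ Y ∈ L.powerset, ∑ g ∈ P, ‖φ Y g‖ ^ 2 = 2 ^ L.card * ∑' y, ‖F y‖ ^ 2 := by
    rw [tsum_lam hsup (fun y => ‖F y‖ ^ 2) (fun y hy => by rw [hy]; simp), Finset.sum_comm,
      Finset.mul_sum]
    refine Finset.sum_congr rfl fun g _ => ?_
    have h1 := parseval (Finset.empty_subset L) (fun l => F ⟨l, g⟩) (fun l => F ⟨l, g⟩)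
    have h2 : ∀ Y : Finset (H × S), sg Y ∅ = 1 := by
      intro Y
      unfold sg
      simp
    have h3 : ∀ l : Finset (H × S), l ∆ ∅ = l := fun l => symmDiff_bot l
    simp only [h2, h3, one_mul] at h1
    have h4 : ∀ z : ℂ, (starRingEnd ℂ) z * z = ((‖z‖ ^ 2 : ℝ) : ℂ) := by
      intro z
      rw [mul_comm, Complex.mul_conj, Complex.normSq_eq_norm_sq]
    simp only [h4] at h1
    have h5 : (((∑ Y ∈ L.powerset, ‖φ Y g‖ ^ 2 : ℝ)) : ℂ) =
        ((2 ^ L.card * ∑ l ∈ L.powerset, ‖F ⟨l, g⟩‖ ^ 2 : ℝ) : ℂ) := by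
      push_cast
      push_cast at h1
      exact h1
    exact_mod_cast h5
  have hre : (TT C chi0 F).re = (2 ^ L.card : ℝ)⁻¹ * ∑ Y ∈ L.powerset, (∑ g ∈ P, ∑ s : S,
      (if (s ∈ tau Y g ∧ (tau Y g).card ≤ d) ∧
        (s ∈ tau Y (g * C.a s) ∧ (tau Y (g * C.a s)).card ≤ d)
      then (starRingEnd ℂ) (φ Y g) * ii (C.om 0 s g) * φ Y (g * C.a s) else 0)).re := by
    rw [hTT]
    have h1 : ((2 : ℂ) ^ L.card)⁻¹ = (((2 ^ L.card : ℝ)⁻¹ : ℝ) : ℂ) := by push_cast; rfl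
    rw [h1, Complex.re_ofReal_mul, Complex.re_sum]
  rw [hre]
  have h2p : (0 : ℝ) < 2 ^ L.card := by positivity
  calc (2 ^ L.card : ℝ)⁻¹ * ∑ Y ∈ L.powerset, (∑ g ∈ P, ∑ s : S,
      (if (s ∈ tau Y g ∧ (tau Y g).card ≤ d) ∧
        (s ∈ tau Y (g * C.a s) ∧ (tau Y (g * C.a s)).card ≤ d)
      then (starRingEnd ℂ) (φ Y g) * ii (C.om 0 s g) * φ Y (g * C.a s) else 0)).re
      ≤ (2 ^ L.card : ℝ)⁻¹ * ∑ Y ∈ L.powerset, ((d : ℝ) - 3 / 2) * ∑ g ∈ P, ‖φ Y g‖ ^ 2 := by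
        refine mul_le_mul_of_nonneg_left ?_ (inv_pos.2 h2p).le
        refine Finset.sum_le_sum fun Y _ => ?_
        exact hMark H S d b C hd hbd hdb (tau Y) P (φ Y) (hφP Y)
    _ = ((d : ℝ) - 3 / 2) * ∑' y, ‖F y‖ ^ 2 := by
        rw [← Finset.mul_sum, hpar]
        field_simp

end Pool.Agent.H262.EB.Four
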