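import Pool.Agent.H262.EB.CT
import Pool.Graph.R_seed8.TH950.FC.Shape
import Pool.Graph.R_seed8.TH159.J891

/-!
# Project EB: gluing a block preserves the isoperimetric inequality `PLg`
-/

set_option autoImplicit false
set_option linter.unusedSectionVars false

namespace Pool.Agent.H262.EB.GluePL

open Finset
open scoped symmDiff
open Pool.Agent.TH950.FC
open Pool.Agent.TH950.FC.LG

section general

variable {S V : Type} [Fintype S]

theorem outd_union (X : LG S V) (ω : S → V → ZMod 4) [DecidableEq V] (A B : Finset (V × ZMod 4))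
    (w : V × ZMod 4) : outd X ω (A ∪ B) w ≤ outd X ω A w + outd X ω B w := by
  classical
  unfold outd
  refine le_trans (card_le_card ?_) (card_union_le _ _)
  intro s hs
  simp only [mem_filter, mem_univ, true_and, mem_union] at hs ⊢
  obtain ⟨y, hy, h | h⟩ := hs
  · exact Or.inl ⟨y, hy, h⟩
  · exact Or.inr ⟨y, hy, h⟩

/-- double counting of the edges between two sets -/
theorem outd_comm (X : LG S V) (ω : S → V → ZMod 4)
    (hanti : ∀ {s x y}, X.E s x y → ω s y = - ω s x) (A B : Finset (V × ZMod 4)) :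
    ∑ w ∈ A, outd X ω B w ≤ ∑ w ∈ B, outd X ω A w := by
  classical
  have key : ∀ A B : Finset (V × ZMod 4), ∑ w ∈ A, outd X ω B w =
      ((A ×ˢ (univ : Finset S)).filter fun p =>
        ∃ y, X.E p.2 p.1.1 y ∧ (y, p.1.2 + ω p.2 p.1.1) ∈ B).card := by
    intro A B
    rw [card_filter, sum_product]
    refine sum_congr rfl fun w _ => ?_
    unfold outd
    rw [card_filter]
  rw [key, key]
  refine card_le_card_of_injOn
    (fun p => if h : ∃ y, X.E p.2 p.1.1 y then ((h.choose, p.1.2 + ω p.2 p.1.1), p.2) else p)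
    ?_ ?_
  · rintro ⟨w, s⟩ hp
    simp only [coe_filter, mem_product, mem_univ, and_true, Set.mem_setOf_eq] at hp ⊢
    obtain ⟨hw, y, hy, hyB⟩ := hp
    have hex : ∃ y, X.E s w.1 y := ⟨y, hy⟩
    rw [dif_pos hex]
    have hc : hex.choose = y := X.func hex.choose_spec hy
    simp only [hc]
    refine ⟨hyB, w.1, X.symm hy, ?_⟩
    rw [hanti hy, add_neg_cancel_right]
    exact hw
  · rintro ⟨w, s⟩ hp ⟨w', s'⟩ hp' heq
    simp only [coe_filter, mem_product, mem_univ, and_true, Set.mem_setOf_eq] at hp hp'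
    obtain ⟨hw, y, hy, hyB⟩ := hp
    obtain ⟨hw', y', hy', hyB'⟩ := hp'
    have hex : ∃ y, X.E s w.1 y := ⟨y, hy⟩
    have hex' : ∃ y, X.E s' w'.1 y := ⟨y', hy'⟩
    have hc : hex.choose = y := X.func hex.choose_spec hy
    have hc' : hex'.choose = y' := X.func hex'.choose_spec hy'
    simp only [dif_pos hex, dif_pos hex', hc, hc', Prod.mk.injEq] at heq
    obtain ⟨⟨h1, h2⟩, h3⟩ := heq
    subst h3 h1
    have h4 : w.1 = w'.1 := X.func (X.symm hy) (X.symm hy')
    rw [h4] at h2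
    have h5 : w.2 = w'.2 := add_right_cancel h2
    rw [Prod.ext h4 h5]

theorem outd_le_one (X : LG S V) (ω : S → V → ZMod 4) (B : Finset (V × ZMod 4))
    (w : V × ZMod 4) (h : ∀ s s' y y', X.E s w.1 y → X.E s' w.1 y' →
      (y, w.2 + ω s w.1) ∈ B → (y', w.2 + ω s' w.1) ∈ B → s = s') : outd X ω B w ≤ 1 := by
  classical
  unfold outd
  rw [card_le_one]
  intro s hs s' hs'
  simp only [mem_filter, mem_univ, true_and] at hs hs'
  obtain ⟨y, h1, h2⟩ := hs
  obtain ⟨y', h3, h4⟩ := hs'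
  exact h s s' y y' h1 h3 h2 h4

end general

variable {S Q H : Type} [Fintype S] [DecidableEq Q] [Group H] {T : Theta S Q} {a : S → H}
  {st st' : St S Q H} {x₀ : Vt Q} {q₀ : Q} {ι : Q × Finset (Sym2 Q) → Vt Q} {j : Sym2 Q → Wt Q}

/-- a new vertex is the image of a point outside the overlap -/
theorem new_vertex (hG : Glue T st st' x₀ q₀ ι j) {x : Vt Q} (h : x ∈ st'.dom) (h' : x ∉ st.dom) :
    ∃ c, T.cov.Reach (q₀, ∅) c ∧ x = ι c ∧ c ∉ D0 T st x₀ q₀ := by
  rcases (hG.dom_iff x).1 h with h1 | ⟨c, hc, rfl⟩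
  · exact absurd h1 h'
  · exact ⟨c, hc, rfl, fun hD => h' ((hG.old_iff c hc).2 hD)⟩

/-- an edge at a new vertex is an edge of the block -/
theorem new_edge (hst : Good T a 6 st) (hG : Glue T st st' x₀ q₀ ι j) {s : S} {y : Vt Q}
    {c : Q × Finset (Sym2 Q)} (hc : T.cov.Reach (q₀, ∅) c) (h' : ι c ∉ st.dom)
    (hE : st'.X.E s (ι c) y) : ∃ c', T.cov.E s c c' ∧ y = ι c' := by
  rcases (hG.E_iff s (ι c) y).1 hE with h1 | ⟨d, d', hd, hdd, h1, rfl⟩
  · exact absurd (hst.edge_dom h1) h'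
  · have : c = d := hG.inj c d hc hd h1
    subst this
    exact ⟨d', hdd, rfl⟩

/-- A new vertex has at most one old neighbour. -/
theorem one_old (hst : Good T a 6 st) (hG : Glue T st st' x₀ q₀ ι j) {x y y' : Vt Q} {s s' : S}
    (hx : x ∈ st'.dom) (hx' : x ∉ st.dom) (hE : st'.X.E s x y) (hE' : st'.X.E s' x y')
    (hy : y ∈ st.dom) (hy' : y' ∈ st.dom) : s = s' := by
  obtain ⟨c, hc, rfl, hcD⟩ := new_vertex hG hx hx'
  obtain ⟨d, hd, rfl⟩ := new_edge hst hG hc hx' hE
  obtain ⟨d', hd', rfl⟩ := new_edge hst hG hc hx' hE'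
  have hD : d ∈ D0 T st x₀ q₀ := (hG.old_iff d (hc.step hd)).1 hy
  have hD' : d' ∈ D0 T st x₀ q₀ := (hG.old_iff d' (hc.step hd')).1 hy'
  have hg := T.hundred_le q₀
  have hL : ∀ (e : Q × Finset (Sym2 Q)) (t : S), T.cov.E t e c → Leaves T st x₀ q₀ e [t] := by
    intro e t he u₁ u₂ c₁ hu hne hp
    rcases u₁ with _ | ⟨r, u₁⟩
    · exact absurd rfl hne
    · simp only [List.cons_append, List.cons.injEq] at hu
      obtain ⟨rfl, hu⟩ := hu
      have h1 := List.append_eq_nil_iff.1 hu.symm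
      rw [h1.1] at hp
      have h2 : c = c₁ := T.cov.func he (path_singleton.1 hp)
      rw [← h2]
      exact hcD
  have := leaves_unique hst hG hD hD' (path_singleton.2 (T.cov.symm hd))
    (path_singleton.2 (T.cov.symm hd')) rfl (red_singleton s) (red_singleton s')
    (by simp; omega) (by simp; omega) (hL d s (T.cov.symm hd)) (hL d' s' (T.cov.symm hd'))
  simpa using this.2

/-- Gluing preserves `PLg`. -/
theorem pl_of_glue (hst : Good T a 6 st) (hb : Basic T a st') (hG : Glue T st st' x₀ q₀ ι j)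
    {d b : ℕ} (hBB : BB T d (b + 2)) (hPL : PLg st.X (fun s x => (st.ω s x : ZMod 4)) d b)
    (hbd : b ≤ d) : PLg st'.X (fun s x => (st'.ω s x : ZMod 4)) d b := by
  classical
  intro W hW
  set ω' : S → Vt Q → ZMod 4 := fun s x => (st'.ω s x : ZMod 4) with hω'
  set ω : S → Vt Q → ZMod 4 := fun s x => (st.ω s x : ZMod 4) with hω
  have hdom : ∀ {s x y}, st'.X.E s x y → x ∈ st'.dom ∧ y ∈ st'.dom := fun h =>
    ⟨hb.edge_dom h, hb.edge_dom (st'.X.symm h)⟩
  have hanti : ∀ {s x y}, st'.X.E s x y → ω' s y = - ω' s x := by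
    intro s x y h
    simp only [hω']
    rw [hb.anti h]
    push_cast
    rfl
  set N : Finset (Vt Q × ZMod 4) := W.filter fun w => w.1 ∈ st'.dom ∧ w.1 ∉ st.dom with hN
  set O : Finset (Vt Q × ZMod 4) := W.filter fun w => ¬ (w.1 ∈ st'.dom ∧ w.1 ∉ st.dom) with hO
  have hWNO : W = O ∪ N := by
    rw [union_comm, hN, hO, filter_union_filter_not_eq]
  have hdisj : Disjoint O N := by
    rw [disjoint_comm, hN, hO]
    exact disjoint_filter_filter_not _ _ _
  have hOd : ∀ w ∈ O, w.1 ∈ st'.dom → w.1 ∈ st.dom := by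
    intro w hw h
    rw [hO, mem_filter] at hw
    by_contra hcon
    exact hw.2 ⟨h, hcon⟩
  have hNd : ∀ w ∈ N, w.1 ∈ st'.dom ∧ w.1 ∉ st.dom := by
    intro w hw
    rw [hN, mem_filter] at hw
    exact hw.2
  -- the sum splits
  have hsum : ∑ w ∈ W, outd st'.X ω' W w ≤
      (∑ w ∈ O, outd st'.X ω' O w + ∑ w ∈ O, outd st'.X ω' N w) +
      (∑ w ∈ N, outd st'.X ω' O w + ∑ w ∈ N, outd st'.X ω' N w) := by
    calc ∑ w ∈ W, outd st'.X ω' W w = ∑ w ∈ O, outd st'.X ω' W w + ∑ w ∈ N, outd st'.X ω' W w := by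
          conv_lhs => rw [show (∑ w ∈ W, outd st'.X ω' W w) =
            ∑ w ∈ O ∪ N, outd st'.X ω' W w by rw [← hWNO]]
          exact sum_union hdisj
      _ ≤ _ := by
          rw [← sum_add_distrib, ← sum_add_distrib]
          refine Nat.add_le_add (sum_le_sum fun w _ => ?_) (sum_le_sum fun w _ => ?_)
          · conv_lhs => rw [hWNO]
            exact outd_union _ _ _ _ _
          · conv_lhs => rw [hWNO]
            exact outd_union _ _ _ _ _
  -- old-old
  have h1 : ∑ w ∈ O, outd st'.X ω' O w ≤ ∑ w ∈ O, outd st.X ω O w := by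
    refine sum_le_sum fun w hw => ?_
    unfold outd
    refine card_le_card ?_
    intro s hs
    simp only [mem_filter, mem_univ, true_and] at hs ⊢
    obtain ⟨y, hy, hyO⟩ := hs
    have hx1 := hOd w hw (hdom hy).1
    have hy1 := hOd _ hyO (hdom hy).2
    have hE : st.X.E s w.1 y := hG.full s _ _ hy hx1 hy1
    refine ⟨y, hE, ?_⟩
    have h2 : ω' s w.1 = ω s w.1 := by
      simp only [hω', hω]
      rw [hG.ext.ω hE]
    rw [← h2]
    exact hyO
  have h2 : (∑ w ∈ O, outd st.X ω O w) + b * O.card ≤ d * O.card := by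
    refine hPL O fun w hw hw' => ?_
    rw [hO, mem_filter] at hw hw'
    exact hW w hw.1 hw'.1
  -- new-old
  have h3 : ∑ w ∈ N, outd st'.X ω' O w ≤ N.card := by
    rw [card_eq_sum_ones]
    refine sum_le_sum fun w hw => ?_
    refine outd_le_one _ _ _ _ ?_
    intro s s' y y' hE hE' hy hy'
    exact one_old hst hG (hNd w hw).1 (hNd w hw).2 hE hE' (hOd _ hy (hdom hE).2)
      (hOd _ hy' (hdom hE').2)
  have h4 : ∑ w ∈ O, outd st'.X ω' N w ≤ N.card :=
    (outd_comm st'.X ω' hanti O N).trans h3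
  -- new-new
  have h5 : (∑ w ∈ N, outd st'.X ω' N w) + (b + 2) * N.card ≤ d * N.card := by
    obtain ⟨ι', j', ψ, hj', hι0, hι⟩ := hG.chart (q₀, ∅) (Reach.refl _)
    have hιι : ∀ c, T.cov.Reach (q₀, ∅) c → ι' c = ι c := by
      rintro c ⟨w, hw⟩
      have p1 : st'.X.Path (ι (q₀, ∅)) w (ι c) :=
        Pool.Agent.TH159.J891.glue_path hG (Reach.refl _) hw
      have p2 : ∀ (w : List S) (c c' : Q × Finset (Sym2 Q)), T.cov.Reach (q₀, ∅) c →
          T.cov.Path c w c' → st'.X.Path (ι' c) w (ι' c') := by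
        intro w
        induction w with
        | nil =>
          intro c c' _ h
          exact congrArg ι' h
        | cons s w ih =>
          rintro c c' hr ⟨c₁, h1, h2⟩
          exact ⟨ι' c₁, ((hι c hr).2 s c₁ h1).1, ih c₁ c' (hr.step h1) h2⟩
      have p3 := p2 w _ _ (Reach.refl _) hw
      rw [hι0] at p3
      exact p3.func p1
    have hk : ∀ x : Vt Q, ∃ c, x ∈ st'.dom → x ∉ st.dom →
        T.cov.Reach (q₀, ∅) c ∧ x = ι c := by
      intro x
      by_cases hx : x ∈ st'.dom ∧ x ∉ st.dom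
      · obtain ⟨c, hc, hxc, -⟩ := new_vertex hG hx.1 hx.2
        exact ⟨c, fun _ _ => ⟨hc, hxc⟩⟩
      · exact ⟨(q₀, ∅), fun h h' => absurd ⟨h, h'⟩ hx⟩
    choose κ hκ using hk
    set f : Vt Q × ZMod 4 → (Q × Finset (Sym2 Q)) × ZMod 4 := fun w =>
      (κ w.1, w.2 - (ψ (κ w.1) : ZMod 4)) with hf
    have hinj : Set.InjOn f N := by
      intro w hw w' hw' h
      have k1 := hκ w.1 (hNd w hw).1 (hNd w hw).2
      have k2 := hκ w'.1 (hNd w' hw').1 (hNd w' hw').2
      simp only [hf, Prod.mk.injEq] at h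
      have e1 : w.1 = w'.1 := by rw [k1.2, k2.2, h.1]
      rw [h.1] at h
      exact Prod.ext e1 (sub_left_injective h.2)
    have hBBN := hBB q₀ (N.image f) ?_ ?_
    · rw [card_image_of_injOn hinj, sum_image hinj] at hBBN
      refine le_trans (Nat.add_le_add_right (sum_le_sum fun w hw => ?_) _) hBBN
      unfold outd
      refine card_le_card ?_
      intro s hs
      simp only [mem_filter, mem_univ, true_and] at hs ⊢
      obtain ⟨y, hy, hyN⟩ := hs
      have k1 := hκ w.1 (hNd w hw).1 (hNd w hw).2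
      have hy1 := hNd _ hyN
      have hwn : ι (κ w.1) ∉ st.dom := by rw [← k1.2]; exact (hNd w hw).2
      have hE1 : st'.X.E s (ι (κ w.1)) y := by rw [← k1.2]; exact hy
      obtain ⟨c', hc', hyc⟩ := new_edge hst hG k1.1 hwn hE1
      refine ⟨c', hc', ?_⟩
      rw [mem_image]
      refine ⟨_, hyN, ?_⟩
      have k2 := hκ y hy1.1 hy1.2
      have e1 : κ y = c' := hG.inj _ _ k2.1 (k1.1.step hc') (by rw [← k2.2, hyc])
      simp only [hf]
      rw [e1]
      refine Prod.ext rfl ?_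
      simp only
      have hω2 : ω' s w.1 = (T.h s (κ w.1).1 : ZMod 4) + (ψ c' : ZMod 4) - (ψ (κ w.1) : ZMod 4) := by
        have := ((hι _ k1.1).2 s c' hc').2
        rw [hιι _ k1.1, ← k1.2] at this
        simp only [hω']
        rw [this]
        push_cast
        ring
      rw [hω2]
      ring
    · intro w hw
      obtain ⟨v, hv, rfl⟩ := mem_image.1 hw
      exact (hκ v.1 (hNd v hv).1 (hNd v hv).2).1
    · intro w hw hw2
      obtain ⟨v, hv, rfl⟩ := mem_image.1 hw
      obtain ⟨v', hv', hvv⟩ := mem_image.1 hw2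
      simp only [hf, Prod.mk.injEq] at hvv
      have k1 := hκ v.1 (hNd v hv).1 (hNd v hv).2
      have k2 := hκ v'.1 (hNd v' hv').1 (hNd v' hv').2
      have e1 : v'.1 = v.1 := by rw [k1.2, k2.2, hvv.1]
      have e2 : v'.2 = v.2 + 2 := by
        have := hvv.2
        rw [hvv.1] at this
        linear_combination this
      have hvW : v ∈ W := (mem_filter.1 hv).1
      have hvW' : v' ∈ W := (mem_filter.1 hv').1
      refine hW v hvW ?_
      rw [← e1, ← e2]
      exact hvW'
  have hcard : W.card = O.card + N.card := by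
    conv_lhs => rw [hWNO]
    exact card_union_of_disjoint hdisj
  rw [hcard]
  nlinarith [h1, h2, h3, h4, h5, hsum]

end Pool.Agent.H262.EB.GluePL
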