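import Pool.Agent.H262.EB.CT

set_option autoImplicit false

namespace Pool.Agent.H262.EB.Graph

open Finset
open scoped Classical

lemma nc {n : ℕ} (G : SimpleGraph (Fin n)) (v : Fin n) :
    (G.neighborSet v).ncard = (univ.filter (fun w => G.Adj v w)).card := by
  rw [← Set.ncard_coe_finset]
  congr 1
  ext w
  simp

/-- the induced graph on a set of vertices -/
lemma transport {n : ℕ} (G : SimpleGraph (Fin n)) (D g : ℕ) (hD : ∀ v, (G.neighborSet v).ncard ≤ D)
    (hg : ∀ (v : Fin n) (c : G.Walk v v), c.IsCycle → g ≤ c.length) (W : Finset (Fin n)) :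
    ∃ G' : SimpleGraph (Fin W.card), (∀ v, (G'.neighborSet v).ncard ≤ D) ∧
      (∀ (v : Fin W.card) (c : G'.Walk v v), c.IsCycle → g ≤ c.length) ∧
      ∑ v, (G'.neighborSet v).ncard = ∑ u ∈ W, (W.filter (fun w => G.Adj u w)).card := by
  let f : Fin W.card → Fin n := fun i => (W.equivFin.symm i : Fin n)
  have hf : Function.Injective f := fun i j h => W.equivFin.symm.injective (Subtype.ext h)
  let G' : SimpleGraph (Fin W.card) := G.comap f
  have hadj : ∀ i j, G'.Adj i j ↔ G.Adj (f i) (f j) := fun i j => Iff.rfl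
  let hom : G' →g G := ⟨f, fun {i j} h => h⟩
  have hcount : ∀ i, (G'.neighborSet i).ncard = (W.filter (fun w => G.Adj (f i) w)).card := by
    intro i
    rw [nc]
    apply Finset.card_bij (fun j _ => f j)
    · intro j hj
      rw [Finset.mem_filter] at hj ⊢
      exact ⟨(W.equivFin.symm j).2, hj.2⟩
    · intro j _ k _ h
      exact hf h
    · intro w hw
      rw [Finset.mem_filter] at hw
      refine ⟨W.equivFin ⟨w, hw.1⟩, ?_, ?_⟩
      · rw [Finset.mem_filter]
        refine ⟨Finset.mem_univ _, ?_⟩
        show G.Adj (f i) (f (W.equivFin ⟨w, hw.1⟩))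
        have : f (W.equivFin ⟨w, hw.1⟩) = w := by
          simp only [f]
          rw [Equiv.symm_apply_apply]
        rw [this]
        exact hw.2
      · simp only [f]
        rw [Equiv.symm_apply_apply]
  refine ⟨G', ?_, ?_, ?_⟩
  · intro v
    rw [hcount]
    refine le_trans ?_ (hD (f v))
    rw [nc]
    exact Finset.card_le_card (Finset.filter_subset_filter _ (Finset.subset_univ _))
  · intro v c hc
    have h := hg _ (c.map hom) (hc.map (f := hom) hf)
    rwa [SimpleGraph.Walk.length_map] at h
  · rw [Finset.sum_congr rfl (fun i _ => hcount i)]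
    have e : ∑ i : Fin W.card, (W.filter (fun w => G.Adj (f i) w)).card =
        ∑ u : W, (W.filter (fun w => G.Adj (u : Fin n) w)).card := by
      apply Fintype.sum_equiv W.equivFin.symm
      intro i
      rfl
    rw [e, Finset.sum_coe_sort W (fun u => (W.filter (fun w => G.Adj u w)).card)]

theorem main' (D g : ℕ) (hD : 400 ≤ D)
    (h : ∃ G : SimpleGraph (Fin (4 * D ^ g)), (∀ v, (G.neighborSet v).ncard ≤ D) ∧
      (∀ (v : Fin (4 * D ^ g)) (c : G.Walk v v), c.IsCycle → g ≤ c.length) ∧
      D * (4 * D ^ g) ≤ (∑ v, (G.neighborSet v).ncard) + 4 * D ^ g) :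
    ∃ (n : ℕ) (G : SimpleGraph (Fin n)), 0 < n ∧ n ≤ 4 * D ^ g ∧
      (∀ v, (G.neighborSet v).ncard ≤ D) ∧ (∀ v, 2 ≤ (G.neighborSet v).ncard) ∧
      (∀ (v : Fin n) (c : G.Walk v v), c.IsCycle → g ≤ c.length) ∧ G.Preconnected ∧
      D * n ≤ (∑ v, (G.neighborSet v).ncard) + n := by
  let P : ℕ → Prop := fun n => 0 < n ∧ ∃ G : SimpleGraph (Fin n), (∀ v, (G.neighborSet v).ncard ≤ D) ∧
      (∀ (v : Fin n) (c : G.Walk v v), c.IsCycle → g ≤ c.length) ∧
      D * n ≤ (∑ v, (G.neighborSet v).ncard) + n
  have hP : ∃ n, P n := ⟨4 * D ^ g, by positivity, h⟩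
  obtain ⟨hn0, G, hGd, hGg, hGs⟩ := Nat.find_spec hP
  have hmin : ∀ m, m < Nat.find hP → ¬ P m := fun m hm => Nat.find_min hP hm
  have hle : Nat.find hP ≤ 4 * D ^ g := Nat.find_min' hP ⟨by positivity, h⟩
  generalize hn : Nat.find hP = n at hn0 G hGd hGg hGs hmin hle
  -- minimality for vertex sets
  have hW : ∀ W : Finset (Fin n), W.Nonempty → W.card < n →
      (∑ u ∈ W, (W.filter (fun w => G.Adj u w)).card) + W.card < D * W.card := by
    intro W hWn hWc
    by_contra hcon
    push Not at hcon
    obtain ⟨G', h1, h2, h3⟩ := transport G D g hGd hGg W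
    exact hmin W.card hWc ⟨Finset.card_pos.2 hWn, G', h1, h2, by rw [h3]; exact hcon⟩
  have hsum : ∑ v, (G.neighborSet v).ncard = ∑ v, (univ.filter (fun w => G.Adj v w)).card :=
    Finset.sum_congr rfl (fun v _ => nc G v)
  -- at least two vertices
  have hn2 : 2 ≤ n := by
    by_contra hcon
    have hn1 : n = 1 := by omega
    subst hn1
    have h0 : ∑ v, (G.neighborSet v).ncard = 0 := by
      rw [hsum]
      apply Finset.sum_eq_zero
      intro v _
      rw [Finset.card_eq_zero, Finset.filter_eq_empty_iff]
      intro w _ hvw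
      exact hvw.ne (Subsingleton.elim v w)
    rw [h0] at hGs
    omega
  refine ⟨n, G, hn0, hle, hGd, ?_, hGg, ?_, hGs⟩
  · intro v
    rw [nc]
    have hWc : (univ.erase v).card = n - 1 := by
      rw [Finset.card_erase_of_mem (Finset.mem_univ v), Finset.card_univ, Fintype.card_fin]
    have hWn : (univ.erase v).Nonempty := by
      rw [← Finset.card_pos, hWc]; omega
    have h1 := hW (univ.erase v) hWn (by rw [hWc]; omega)
    rw [hWc] at h1
    have hcard : ∀ u, (univ.filter (fun w => G.Adj u w)).card =
        ((univ.erase v).filter (fun w => G.Adj u w)).card + (if G.Adj u v then 1 else 0) := by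
      intro u
      rw [Finset.filter_erase]
      split_ifs with huv
      · rw [Finset.card_erase_of_mem (by simp [huv])]
        have : 0 < (univ.filter (fun w => G.Adj u w)).card := Finset.card_pos.2 ⟨v, by simp [huv]⟩
        omega
      · rw [Finset.erase_eq_of_notMem (by simp [huv]), add_zero]
    have hs2 : ∑ u, (univ.filter (fun w => G.Adj u w)).card =
        (∑ u ∈ univ.erase v, ((univ.erase v).filter (fun w => G.Adj u w)).card) +
          2 * (univ.filter (fun w => G.Adj v w)).card := by
      rw [← Finset.add_sum_erase univ _ (Finset.mem_univ v)]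
      rw [Finset.sum_congr rfl (fun u _ => hcard u), Finset.sum_add_distrib]
      have h2 : ∑ u ∈ univ.erase v, (if G.Adj u v then 1 else 0) = (univ.filter (fun w => G.Adj v w)).card := by
        rw [← Finset.card_filter, Finset.filter_erase, Finset.erase_eq_of_notMem (by simp)]
        congr 1
        ext w
        simp [G.adj_comm]
      rw [h2]
      have h3 := hcard v
      ring
    rw [hsum, hs2] at hGs
    set E := ∑ u ∈ univ.erase v, ((univ.erase v).filter (fun w => G.Adj u w)).card
    set d := (univ.filter (fun w => G.Adj v w)).card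
    obtain ⟨m, rfl⟩ : ∃ m, n = m + 1 := ⟨n - 1, by omega⟩
    have e1 : m + 1 - 1 = m := by omega
    rw [e1] at h1
    have e2 : D * (m + 1) = D * m + D := by ring
    rw [e2] at hGs
    omega
  · intro a b
    by_contra hab
    let A : Finset (Fin n) := univ.filter (fun u => G.Reachable a u)
    let B : Finset (Fin n) := univ.filter (fun u => ¬ G.Reachable a u)
    have haA : a ∈ A := by simp [A]
    have hbB : b ∈ B := by simp [B, hab]
    have hAB : A.card + B.card = n := by
      have := Finset.card_filter_add_card_filter_not (s := (univ : Finset (Fin n))) (fun u => G.Reachable a u)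
      rw [Finset.card_univ, Fintype.card_fin] at this
      exact this
    have hA0 : 0 < A.card := Finset.card_pos.2 ⟨a, haA⟩
    have hB0 : 0 < B.card := Finset.card_pos.2 ⟨b, hbB⟩
    have h1 := hW A ⟨a, haA⟩ (by omega)
    have h2 := hW B ⟨b, hbB⟩ (by omega)
    have hA1 : ∑ u ∈ A, (A.filter (fun w => G.Adj u w)).card = ∑ u ∈ A, (univ.filter (fun w => G.Adj u w)).card := by
      apply Finset.sum_congr rfl
      intro u hu
      congr 1
      ext w
      simp only [A, Finset.mem_filter, Finset.mem_univ, true_and] at hu ⊢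
      exact ⟨fun h => h.2, fun h => ⟨hu.trans h.reachable, h⟩⟩
    have hB1 : ∑ u ∈ B, (B.filter (fun w => G.Adj u w)).card = ∑ u ∈ B, (univ.filter (fun w => G.Adj u w)).card := by
      apply Finset.sum_congr rfl
      intro u hu
      congr 1
      ext w
      simp only [B, Finset.mem_filter, Finset.mem_univ, true_and] at hu ⊢
      exact ⟨fun h => h.2, fun h => ⟨fun hr => hu (hr.trans h.symm.reachable), h⟩⟩
    have hs : ∑ u, (univ.filter (fun w => G.Adj u w)).card =
        ∑ u ∈ A, (univ.filter (fun w => G.Adj u w)).card + ∑ u ∈ B, (univ.filter (fun w => G.Adj u w)).card :=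
      (Finset.sum_filter_add_sum_filter_not univ (fun u => G.Reachable a u) _).symm
    rw [hsum, hs] at hGs
    rw [hA1] at h1
    rw [hB1] at h2
    have e : D * (A.card + B.card) = D * A.card + D * B.card := mul_add _ _ _
    rw [hAB] at e
    rw [e] at hGs
    omega

theorem main : StMax → StGraph := by
  intro h D g hD hg
  exact main' D g hD (h D g hD hg)

end Pool.Agent.H262.EB.Graph
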