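import Pool.Agent.H262.EB.AP

/-!
# Project EB: the hero vectors (`StHero`), by helper980
-/

set_option autoImplicit false

namespace Pool.Agent.H262.EB.Hero

open Finset
open scoped symmDiff

/-- the pairs as elements of the lamp group -/
def eqv (H S : Type) : Finset (H × S) × H ≃ Lam H S where
  toFun p := ⟨p.1, p.2⟩
  invFun y := (y.l, y.g)
  left_inv _ := rfl
  right_inv _ := rfl

theorem tsum_lam {H S : Type} {E : Type} [AddCommMonoid E] [TopologicalSpace E] (G : Lam H S → E)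
    (L : Finset (H × S)) (B : Finset H) (h : ∀ y : Lam H S, ¬ (y.l ⊆ L ∧ y.g ∈ B) → G y = 0) :
    ∑' y, G y = ∑ l ∈ L.powerset, ∑ g ∈ B, G ⟨l, g⟩ := by
  rw [← (eqv H S).tsum_eq G, tsum_eq_sum (s := L.powerset ×ˢ B), Finset.sum_product]
  · rfl
  · intro p hp
    apply h
    intro h1
    apply hp
    rw [Finset.mem_product, Finset.mem_powerset]
    exact h1

section sign

variable {T : Type} [DecidableEq T]

theorem card_symm (A B : Finset T) : (A ∆ B).card + 2 * (A ∩ B).card = A.card + B.card := by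
  have h1 : (A ∆ B).card = (A \ B).card + (B \ A).card := by
    rw [symmDiff_def, Finset.sup_eq_union, Finset.card_union_of_disjoint disjoint_sdiff_sdiff]
  have h2 := Finset.card_sdiff_add_card_inter A B
  have h3 := Finset.card_sdiff_add_card_inter B A
  rw [Finset.inter_comm B A] at h3
  omega

theorem sign_symm (Y A B : Finset T) :
    (-1 : ℝ) ^ ((A ∆ B) ∩ Y).card = (-1 : ℝ) ^ (A ∩ Y).card * (-1 : ℝ) ^ (B ∩ Y).card := by
  have h1 : (A ∆ B) ∩ Y = (A ∩ Y) ∆ (B ∩ Y) := by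
    ext t
    simp only [Finset.mem_inter, Finset.mem_symmDiff]
    tauto
  rw [h1, ← pow_add, ← card_symm, pow_add, pow_mul]
  norm_num

end sign

/-- the square of the normalising constant -/
theorem sign_sq (n : ℕ) : (-1 : ℝ) ^ n * (-1 : ℝ) ^ n = 1 := by
  rw [← pow_add, ← two_mul, pow_mul]
  norm_num

theorem main : StPs → StHero := by
  intro hPs H S _ _ _ _ d b C i m' him
  obtain ⟨B, τ, ψ, η, hBn, hdeg, hcl, hav, hco⟩ := C.hero i
  obtain ⟨v, hv⟩ : ∃ v : H → ZMod 4, v = fun x => ψ 0 x - ψ (i + 1) x + ψ (m' + 1) x := ⟨_, rfl⟩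
  obtain ⟨L, hL⟩ : ∃ L : Finset (H × S), L = B ×ˢ univ := ⟨_, rfl⟩
  obtain ⟨Y, hY⟩ : ∃ Y : Finset (H × S), Y = L.filter (fun p => p.2 ∈ τ p.1) := ⟨_, rfl⟩
  have hmemL : ∀ (g : H) (t : S), (g, t) ∈ L ↔ g ∈ B := by
    intro g t
    rw [hL, Finset.mem_product]
    simp
  have hmemY : ∀ (g : H) (t : S), (g, t) ∈ Y ↔ g ∈ B ∧ t ∈ τ g := by
    intro g t
    rw [hY, Finset.mem_filter, hmemL]
  -- the phases
  have hphase : ∀ x ∈ B, ∀ s ∈ τ x, chi i m' (fun k => C.om k s x) = v (x * C.a s) - v x := by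
    intro x hx s hs
    rw [chi_apply, hco 0 x hx s hs, hco (i + 1) x hx s hs, hco (m' + 1) x hx s hs]
    have h1 : ¬ (m' + 1 = 0 ∨ m' + 1 = i + 1) := by omega
    have h2 : i + 1 = 0 ∨ i + 1 = i + 1 := Or.inr rfl
    have h3 : (0 : ℕ) = 0 ∨ (0 : ℕ) = i + 1 := Or.inl rfl
    rw [if_neg h1, if_pos h2, if_pos h3, hv]
    ring
  have hBc : (0 : ℝ) < B.card := by exact_mod_cast hBn.card_pos
  obtain ⟨c₀, hc₀⟩ : ∃ c₀ : ℝ, c₀ = Real.sqrt (((B.card : ℝ) * 2 ^ L.card)⁻¹) := ⟨_, rfl⟩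
  have hc0 : 0 ≤ c₀ := by rw [hc₀]; exact Real.sqrt_nonneg _
  have hcsq : c₀ ^ 2 = ((B.card : ℝ) * 2 ^ L.card)⁻¹ := by
    rw [hc₀, Real.sq_sqrt (by positivity)]
  obtain ⟨F, hF⟩ : ∃ F : Lam H S → ℂ, F = fun y =>
    if y.l ⊆ L ∧ y.g ∈ B then ii (- v y.g) * ((c₀ * (-1 : ℝ) ^ (y.l ∩ Y).card : ℝ) : ℂ) else 0 :=
    ⟨_, rfl⟩
  have hF0 : ∀ y : Lam H S, ¬ (y.l ⊆ L ∧ y.g ∈ B) → F y = 0 := by
    intro y hy
    rw [hF]
    exact if_neg hy
  have hF1 : ∀ y : Lam H S, y.l ⊆ L → y.g ∈ B →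
      F y = ii (- v y.g) * ((c₀ * (-1 : ℝ) ^ (y.l ∩ Y).card : ℝ) : ℂ) := by
    intro y hy1 hy2
    rw [hF]
    exact if_pos ⟨hy1, hy2⟩
  refine ⟨F, ?_, ?_, ?_⟩
  · -- finite support
    apply Set.Finite.subset (s := (fun p : Finset (H × S) × H => (⟨p.1, p.2⟩ : Lam H S)) ''
      ((L.powerset ×ˢ B : Finset _) : Set (Finset (H × S) × H)))
    · exact (Finset.finite_toSet _).image _
    · intro y hy
      by_cases h : y.l ⊆ L ∧ y.g ∈ B
      · refine ⟨(y.l, y.g), ?_, rfl⟩
        rw [Finset.mem_coe, Finset.mem_product, Finset.mem_powerset]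
        exact h
      · exact absurd (hF0 y h) hy
  · -- normalisation
    rw [tsum_lam _ L B (fun y hy => by rw [hF0 y hy]; norm_num)]
    have h1 : ∀ l ∈ L.powerset, ∀ g ∈ B, ‖F ⟨l, g⟩‖ ^ 2 = c₀ ^ 2 := by
      intro l hl g hg
      rw [hF1 ⟨l, g⟩ (Finset.mem_powerset.1 hl) hg, norm_mul, norm_ii, one_mul, Complex.norm_real,
        Real.norm_eq_abs, sq_abs, mul_pow, ← pow_mul, mul_comm _ 2, pow_mul]
      norm_num
    rw [Finset.sum_congr rfl fun l hl => Finset.sum_congr rfl fun g hg => h1 l hl g hg]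
    rw [Finset.sum_const, Finset.sum_const, Finset.card_powerset, hcsq]
    simp only [nsmul_eq_mul]
    push_cast
    field_simp
  · -- the quadratic form
    obtain ⟨Q, hQ⟩ : ∃ Q : S → H → ℂ, Q = fun s g =>
      if g * C.a s ∈ B then (starRingEnd ℂ) (ii (- v g)) *
        ii (chi i m' (fun k => C.om k s g)) * ii (- v (g * C.a s)) else 0 := ⟨_, rfl⟩
    -- the sets of lamps
    have himg : ∀ g ∈ B, ∀ lam : Finset S,
        ((lam.image fun t => (g, t)) ∩ Y).card = (lam ∩ τ g).card := by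
      intro g hg lam
      have h1 : (lam.image fun t => (g, t)) ∩ Y = (lam ∩ τ g).image fun t => (g, t) := by
        ext ⟨g', t⟩
        simp only [Finset.mem_inter, Finset.mem_image, Prod.mk.injEq]
        constructor
        · rintro ⟨⟨t', ht', h1, h2⟩, h3⟩
          subst h1
          subst h2
          exact ⟨t', ⟨ht', ((hmemY _ _).1 h3).2⟩, rfl, rfl⟩
        · rintro ⟨t', ⟨ht1, ht2⟩, h1, h2⟩
          subst h1
          subst h2
          exact ⟨⟨t', ht1, rfl, rfl⟩, (hmemY _ _).2 ⟨hg, ht2⟩⟩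
      rw [h1, Finset.card_image_of_injective]
      intro t t' h
      exact (Prod.mk.inj h).2
    have hsub : ∀ g ∈ B, ∀ lam : Finset S, (lam.image fun t => (g, t)) ⊆ L := by
      intro g hg lam p hp
      rw [Finset.mem_image] at hp
      obtain ⟨t, -, rfl⟩ := hp
      exact (hmemL _ _).2 hg
    have hterm : ∀ (s : S) (lam lam' : Finset S), ∀ l ∈ L.powerset, ∀ g ∈ B,
        (starRingEnd ℂ) (F ⟨l, g⟩) * ii (chi i m' (fun k => C.om k s (Lam.g (⟨l, g⟩ : Lam H S)))) *
          F (⟨l, g⟩ * el C.a s lam lam') =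
        ((c₀ ^ 2 * ((-1 : ℝ) ^ (lam ∩ τ g).card * (-1 : ℝ) ^ (lam' ∩ τ (g * C.a s)).card) : ℝ) : ℂ) *
          Q s g := by
      intro s lam lam' l hl g hg
      have hl' := Finset.mem_powerset.1 hl
      by_cases hgs : g * C.a s ∈ B
      · have e1 : (⟨l, g⟩ * el C.a s lam lam' : Lam H S).l =
            l ∆ ((lam.image fun t => (g, t)) ∆ (lam'.image fun t => (g * C.a s, t))) := by
          rw [Lam.mul_l]
          show l ∆ Lam.sh g ((lam.image fun t => ((1 : H), t)) ∆ (lam'.image fun t => (C.a s, t))) = _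
          rw [Lam.sh_symmDiff]
          have e2 : ∀ (u : H) (lam : Finset S),
              Lam.sh g (lam.image fun t => (u, t)) = lam.image fun t => (g * u, t) := by
            intro u lam
            unfold Lam.sh
            rw [Finset.image_image]
            rfl
          rw [e2, e2, mul_one]
        have e2 : (⟨l, g⟩ * el C.a s lam lam' : Lam H S).g = g * C.a s := rfl
        have e3 : (⟨l, g⟩ * el C.a s lam lam' : Lam H S).l ⊆ L := by
          rw [e1]
          have h1 := hsub g hg lam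
          have h2 := hsub (g * C.a s) hgs lam'
          intro p hp
          rw [Finset.mem_symmDiff, Finset.mem_symmDiff] at hp
          rcases hp with ⟨h3, -⟩ | ⟨⟨h3, -⟩ | ⟨h3, -⟩, -⟩
          · exact hl' h3
          · exact h1 h3
          · exact h2 h3
        rw [hF1 ⟨l, g⟩ hl' hg, hF1 _ e3 (by rw [e2]; exact hgs), e1, e2, sign_symm, sign_symm,
          himg g hg, himg _ hgs]
        rw [hQ]
        simp only [if_pos hgs]
        rw [map_mul, Complex.conj_ofReal]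
        have e4 : ((c₀ ^ 2 * ((-1 : ℝ) ^ (lam ∩ τ g).card *
            (-1 : ℝ) ^ (lam' ∩ τ (g * C.a s)).card) : ℝ) : ℂ) =
            ((c₀ * (-1 : ℝ) ^ (l ∩ Y).card : ℝ) : ℂ) * ((c₀ * ((-1 : ℝ) ^ (l ∩ Y).card *
              ((-1 : ℝ) ^ (lam ∩ τ g).card * (-1 : ℝ) ^ (lam' ∩ τ (g * C.a s)).card)) : ℝ) : ℂ) := by
          rw [← Complex.ofReal_mul]
          congr 1
          have := sign_sq (l ∩ Y).card
          calc c₀ ^ 2 * ((-1 : ℝ) ^ (lam ∩ τ g).card * (-1 : ℝ) ^ (lam' ∩ τ (g * C.a s)).card)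
              = c₀ ^ 2 * 1 * ((-1 : ℝ) ^ (lam ∩ τ g).card *
                (-1 : ℝ) ^ (lam' ∩ τ (g * C.a s)).card) := by ring
            _ = c₀ ^ 2 * ((-1 : ℝ) ^ (l ∩ Y).card * (-1 : ℝ) ^ (l ∩ Y).card) *
                ((-1 : ℝ) ^ (lam ∩ τ g).card * (-1 : ℝ) ^ (lam' ∩ τ (g * C.a s)).card) := by
                rw [this]
            _ = _ := by ring
        rw [e4]
        ring
      · have e1 : F (⟨l, g⟩ * el C.a s lam lam') = 0 := by
          apply hF0
          rintro ⟨-, h⟩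
          exact hgs h
        rw [e1, mul_zero, hQ]
        simp only [if_neg hgs]
        rw [mul_zero]
    have hmarks : ∀ (s : S), ∀ g ∈ B, Q s g *
        (((if s ∈ τ g ∧ (τ g).card ≤ d then (1 : ℝ) else 0) *
          (if s ∈ τ (g * C.a s) ∧ (τ (g * C.a s)).card ≤ d then (1 : ℝ) else 0) : ℝ) : ℂ) =
        ((if s ∈ τ g then (1 : ℝ) else 0 : ℝ) : ℂ) := by
      intro s g hg
      by_cases hs : s ∈ τ g
      · obtain ⟨h1, h2⟩ := hcl g hg s hs
        rw [if_pos ⟨hs, hdeg g hg⟩, if_pos ⟨h2, hdeg _ h1⟩, if_pos hs, hQ]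
        simp only [if_pos h1]
        rw [hphase g hg s hs, ← ii_neg, neg_neg, ← ii_add, ← ii_add]
        have h3 : v g + (v (g * C.a s) - v g) + -v (g * C.a s) = 0 := by ring
        rw [h3, ii_zero]
        norm_num
      · rw [if_neg (fun h => hs h.1), if_neg hs]
        norm_num
    have hTT : TT C (chi i m') F = (((B.card : ℝ)⁻¹ * ∑ g ∈ B, ((τ g).card : ℝ) : ℝ) : ℂ) := by
      unfold TT
      have step : ∀ s : S, (∑ lam : Finset S, ∑ lam' : Finset S,
          ((ps S d s lam * ps S d s lam' : ℝ) : ℂ) *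
          ∑' y : Lam H S, (starRingEnd ℂ) (F y) * ii (chi i m' (fun k => C.om k s y.g)) *
            F (y * el C.a s lam lam')) =
          ((2 ^ L.card * c₀ ^ 2 : ℝ) : ℂ) * ∑ g ∈ B, ((if s ∈ τ g then (1 : ℝ) else 0 : ℝ) : ℂ) := by
        intro s
        have h1 : ∀ lam lam' : Finset S, ((ps S d s lam * ps S d s lam' : ℝ) : ℂ) *
            ∑' y : Lam H S, (starRingEnd ℂ) (F y) * ii (chi i m' (fun k => C.om k s y.g)) *
              F (y * el C.a s lam lam') =
            ((2 ^ L.card * c₀ ^ 2 : ℝ) : ℂ) * ∑ g ∈ B, Q s g *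
              (((ps S d s lam * (-1 : ℝ) ^ (lam ∩ τ g).card) *
                (ps S d s lam' * (-1 : ℝ) ^ (lam' ∩ τ (g * C.a s)).card) : ℝ) : ℂ) := by
          intro lam lam'
          rw [tsum_lam _ L B (fun y hy => by rw [hF0 y hy, map_zero, zero_mul, zero_mul])]
          rw [Finset.sum_congr rfl fun l hl => Finset.sum_congr rfl fun g hg =>
            hterm s lam lam' l hl g hg]
          rw [Finset.sum_const, Finset.card_powerset, nsmul_eq_mul, Finset.mul_sum,
            Finset.mul_sum, Finset.mul_sum]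
          refine Finset.sum_congr rfl fun g _ => ?_
          push_cast
          ring
        simp only [h1]
        have h2 : ∀ lam : Finset S, ∑ lam' : Finset S, ((2 ^ L.card * c₀ ^ 2 : ℝ) : ℂ) *
            ∑ g ∈ B, Q s g * (((ps S d s lam * (-1 : ℝ) ^ (lam ∩ τ g).card) *
                (ps S d s lam' * (-1 : ℝ) ^ (lam' ∩ τ (g * C.a s)).card) : ℝ) : ℂ) =
            ((2 ^ L.card * c₀ ^ 2 : ℝ) : ℂ) * ∑ g ∈ B, Q s g *
              (((ps S d s lam * (-1 : ℝ) ^ (lam ∩ τ g).card) *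
              (if s ∈ τ (g * C.a s) ∧ (τ (g * C.a s)).card ≤ d then (1 : ℝ) else 0) : ℝ) : ℂ) := by
          intro lam
          rw [← Finset.mul_sum, Finset.sum_comm]
          congr 1
          refine Finset.sum_congr rfl fun g _ => ?_
          rw [← Finset.mul_sum, ← Complex.ofReal_sum, ← Finset.mul_sum, hPs S d s (τ (g * C.a s))]
        simp only [h2]
        rw [← Finset.mul_sum, Finset.sum_comm]
        congr 1
        refine Finset.sum_congr rfl fun g hg => ?_
        rw [← Finset.mul_sum, ← Complex.ofReal_sum, ← Finset.sum_mul, hPs S d s (τ g),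
          hmarks s g hg]
      rw [Finset.sum_congr rfl fun s _ => step s, ← Finset.mul_sum, Finset.sum_comm]
      have h3 : ∀ g ∈ B, ∑ s : S, ((if s ∈ τ g then (1 : ℝ) else 0 : ℝ) : ℂ) =
          (((τ g).card : ℝ) : ℂ) := by
        intro g _
        rw [← Complex.ofReal_sum, Finset.sum_ite_mem, Finset.univ_inter, Finset.sum_const,
          nsmul_eq_mul, mul_one]
      rw [Finset.sum_congr rfl h3, ← Complex.ofReal_sum, ← Complex.ofReal_mul]
      congr 2
      rw [hcsq]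
      field_simp
    rw [hTT, Complex.ofReal_re]
    have h4 : (d : ℝ) * B.card ≤ (∑ g ∈ B, ((τ g).card : ℝ)) + B.card := by
      have := hav
      exact_mod_cast this
    rw [inv_mul_eq_div, le_div_iff₀ hBc]
    linarith

end Pool.Agent.H262.EB.Hero
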