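import Pool.Agent.H262.EB.AP

/-!
# JOB AP-HERO: the coefficient functions of explicit vectors
-/

set_option autoImplicit false

namespace Pool.Agent.H262.EB.HeroCoef

open Finset MeasureTheory
open scoped symmDiff

variable {D : Type} [Group D]

theorem ii_mul_conj (v : ZMod 4) : ii v * (starRingEnd ℂ) (ii v) = 1 := by
  rw [← ii_neg, ← ii_add, add_neg_cancel, ii_zero]

/-- the vector -/
noncomputable def vv {c : Cocycle D} (κ : ℝ) (χ : (ℕ → ZMod 4) →+ ZMod 4) (f : D → ℂ) (y : Tw c) : ℂ :=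
  ((Real.sqrt κ : ℝ) : ℂ)⁻¹ * f y.d * ii (χ y.a)

theorem cont_vv {c : Cocycle D} (κ : ℝ) (χ : (ℕ → ZMod 4) →+ ZMod 4) (hχ : Continuous χ) (f : D → ℂ) :
    Continuous (vv (c := c) κ χ f) := by
  let _ : TopologicalSpace D := ⊥
  have : DiscreteTopology D := ⟨rfl⟩
  have h1 : Continuous fun y : Tw c => f y.d :=
    (continuous_of_discreteTopology (f := f)).comp (Tw.continuous_d id)
  have h2 : Continuous fun y : Tw c => ii (χ y.a) :=
    (continuous_of_discreteTopology (f := ii)).comp (hχ.comp Tw.continuous_a)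
  exact (continuous_const.mul h1).mul h2

theorem prod_eq {c : Cocycle D} {κ : ℝ} (hκ : 0 < κ) (χ : (ℕ → ZMod 4) →+ ZMod 4) (f : D → ℂ) (x y : Tw c) :
    vv κ χ f y * (starRingEnd ℂ) (vv κ χ f (x⁻¹ * y)) =
      (κ : ℂ)⁻¹ * (ii (χ x.a) * (f y.d * (starRingEnd ℂ) (f (x.d⁻¹ * y.d)) * ii (χ (c.c x.d (x.d⁻¹ * y.d))))) := by
  have h1 : y.a = x.a + (x⁻¹ * y).a + c.c x.d (x.d⁻¹ * y.d) := by
    have h2 : x * (x⁻¹ * y) = y := mul_inv_cancel_left x y
    have h3 := congrArg Tw.a h2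
    rw [Tw.mul_a] at h3
    exact h3.symm
  have h4 : ii (χ y.a) = ii (χ x.a) * ii (χ (x⁻¹ * y).a) * ii (χ (c.c x.d (x.d⁻¹ * y.d))) := by
    rw [h1, map_add, map_add, ii_add, ii_add]
  have h5 := ii_mul_conj (χ (x⁻¹ * y).a)
  have h6 : (((Real.sqrt κ : ℝ) : ℂ)⁻¹) * (starRingEnd ℂ) (((Real.sqrt κ : ℝ) : ℂ)⁻¹) = (κ : ℂ)⁻¹ := by
    rw [map_inv₀, Complex.conj_ofReal, ← mul_inv, ← Complex.ofReal_mul, Real.mul_self_sqrt hκ.le]
  have h7 : (x⁻¹ * y).d = x.d⁻¹ * y.d := rfl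
  unfold vv
  rw [map_mul, map_mul, h4, h7, ← h6]
  linear_combination (((Real.sqrt κ : ℝ) : ℂ)⁻¹) * (starRingEnd ℂ) (((Real.sqrt κ : ℝ) : ℂ)⁻¹) *
    (ii (χ x.a) * (f y.d * (starRingEnd ℂ) (f (x.d⁻¹ * y.d)) * ii (χ (c.c x.d (x.d⁻¹ * y.d))))) * h5

theorem main : StSlice → StHeroCoef := by
  intro hS D _ _ c χ hχ f hf
  obtain ⟨hsl, hμ, h0, htop, -, hsum, hLp⟩ := hS D c
  set κ : ℝ := ((Measure.haar : Measure (Tw c)) (slice c 1)).toReal with hκdef
  have hκ : 0 < κ := ENNReal.toReal_pos h0 htop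
  have hc := cont_vv (c := c) κ χ hχ f
  refine ⟨vv κ χ f, (hLp _ hc ?_).2, fun x => ?_⟩
  · refine hf.subset ?_
    rintro d ⟨y, rfl, hy⟩ h
    exact hy (by unfold vv; rw [h]; simp)
  · have hcF : Continuous fun y : Tw c => vv κ χ f y * (starRingEnd ℂ) (vv κ χ f (x⁻¹ * y)) :=
      hc.mul (Complex.continuous_conj.comp (hc.comp (continuous_const.mul continuous_id)))
    have hint := (hLp _ hcF (by
      refine hf.subset ?_
      rintro d ⟨y, rfl, hy⟩ h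
      exact hy (by unfold vv; rw [h]; simp))).1
    have h1 := (hsum _ hint).tsum_eq
    have h2 : ∀ d : D, ∫ y in slice c d, vv κ χ f y * (starRingEnd ℂ) (vv κ χ f (x⁻¹ * y))
        ∂(Measure.haar : Measure (Tw c)) =
        ii (χ x.a) * (f d * (starRingEnd ℂ) (f (x.d⁻¹ * d)) * ii (χ (c.c x.d (x.d⁻¹ * d)))) := by
      intro d
      have h3 : ∫ y in slice c d, vv κ χ f y * (starRingEnd ℂ) (vv κ χ f (x⁻¹ * y))
          ∂(Measure.haar : Measure (Tw c)) = ∫ _y in slice c d, (κ : ℂ)⁻¹ * (ii (χ x.a) *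
            (f d * (starRingEnd ℂ) (f (x.d⁻¹ * d)) * ii (χ (c.c x.d (x.d⁻¹ * d)))))
          ∂(Measure.haar : Measure (Tw c)) := by
        refine setIntegral_congr_fun (hsl d).2.2 fun y hy => ?_
        have h4 : y.d = d := hy
        show vv κ χ f y * (starRingEnd ℂ) (vv κ χ f (x⁻¹ * y)) = _
        rw [prod_eq hκ, h4]
      rw [h3, setIntegral_const, measureReal_def, hμ d, ← hκdef, Complex.real_smul, ← mul_assoc, mul_inv_cancel₀, one_mul]
      exact_mod_cast hκ.ne'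
    unfold coef tc
    rw [← h1]
    simp only [h2]
    rw [tsum_mul_left]

end Pool.Agent.H262.EB.HeroCoef
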