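import Pool.Agent.H262.EB.AP

/-! Project EB (helper262), task AP-LR: left versus right twisted coefficients (helper230) -/

set_option autoImplicit false

namespace Pool.Agent.H262.EB.LR

open Pool.Agent.H262.EB

theorem key {D : Type} [Group D] (c : Cocycle D) (χ : (ℕ → ZMod 4) →+ ZMod 4) (f F : D → ℂ)
    (h : ∀ y, F y = (starRingEnd ℂ) (f y⁻¹) * ii (χ (c.c y y⁻¹))) (x : D) :
    tc c χ f x = rc c χ F x := by
  unfold tc rc
  rw [← (Equiv.inv D).tsum_eq (fun z => f z * (starRingEnd ℂ) (f (x⁻¹ * z)) *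
    ii (χ (c.c x (x⁻¹ * z))))]
  refine tsum_congr fun y => ?_
  show f y⁻¹ * (starRingEnd ℂ) (f (x⁻¹ * y⁻¹)) * ii (χ (c.c x (x⁻¹ * y⁻¹))) = _
  rw [h y, h (y * x), mul_inv_rev]
  have e : c.c x (x⁻¹ * y⁻¹) = -c.c y y⁻¹ + c.c y x + c.c (y * x) (x⁻¹ * y⁻¹) := by
    have h1 := c.coc y x (x⁻¹ * y⁻¹)
    rw [mul_inv_cancel_left] at h1
    rw [add_assoc, h1]
    abel
  rw [e, map_add, map_add, map_neg, ii_add, ii_add, ii_neg, map_mul, Complex.conj_conj]
  ring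

theorem main : StLR := by
  intro D _ c χ
  refine ⟨fun f => ?_, fun F => ?_⟩
  · refine ⟨fun y => (starRingEnd ℂ) (f y⁻¹) * ii (χ (c.c y y⁻¹)), fun y => ?_, fun x => ?_⟩
    · rw [norm_mul, norm_ii, mul_one, Complex.norm_conj]
    · exact key c χ f _ (fun y => rfl) x
  · refine ⟨fun z => (starRingEnd ℂ) (F z⁻¹) * ii (χ (c.c z⁻¹ z)), fun y => ?_, fun x => ?_⟩
    · rw [norm_mul, norm_ii, mul_one, Complex.norm_conj]
    · refine key c χ _ F (fun y => ?_) x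
      rw [map_mul, Complex.conj_conj, inv_inv, mul_assoc, ← ii_neg, ← ii_add, neg_add_cancel,
        ii_zero, mul_one]

end Pool.Agent.H262.EB.LR
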