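import Pool.Agent.H262.EB.AP

/-!
# Project EB, job AP-LIM: ultrafilter limits of the coefficient functions (by helper603)
-/

set_option autoImplicit false

namespace Pool.Agent.H262.EB.Lim

open Filter Topology Pool.Agent.H262.EB

/-- limits of bounded sequences along an ultrafilter -/
theorem exists_lim (u : Ultrafilter ℕ) (f : ℕ → ℂ) (h : ∀ᶠ m in (u : Filter ℕ), ‖f m‖ ≤ 1) :
    ∃ z : ℂ, ‖z‖ ≤ 1 ∧ Tendsto f u (𝓝 z) := by
  have hK : IsCompact (Metric.closedBall (0 : ℂ) 1) := isCompact_closedBall 0 1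
  rw [isCompact_iff_ultrafilter_le_nhds] at hK
  obtain ⟨z, hz, hz2⟩ := hK (u.map f) (by
    rw [le_principal_iff]
    exact h.mono fun m hm => mem_closedBall_zero_iff.2 hm)
  exact ⟨z, mem_closedBall_zero_iff.1 hz, hz2⟩

theorem main : StLim := by
  intro D _ c A hA
  set u : Ultrafilter ℕ := hyperfilter ℕ with hu
  have hgt : ∀ m : ℕ, ∀ᶠ m' in (u : Filter ℕ), m < m' := by
    intro m
    have h1 : (u : Filter ℕ) ≤ atTop := Nat.hyperfilter_le_atTop
    exact h1 (eventually_gt_atTop m)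
  -- the limits
  have hB : ∀ (m : ℕ) (d : D), ∃ z : ℂ, ‖z‖ ≤ 1 ∧ Tendsto (fun m' => A m m' d) u (𝓝 z) := by
    intro m d
    exact exists_lim u _ ((hgt m).mono fun m' hm' => hA m m' d hm')
  choose B hB1 hB2 using hB
  have hα : ∀ d : D, ∃ z : ℂ, ‖z‖ ≤ 1 ∧ Tendsto (fun m => B m d) u (𝓝 z) := by
    intro d
    exact exists_lim u _ (Eventually.of_forall fun m => hB1 m d)
  choose α _ hα2 using hα
  have hv : ∀ a : ℕ → ZMod 4, ∃ z : ℂ, ‖z‖ ≤ 1 ∧ Tendsto (fun m => ii (a (m + 1))) u (𝓝 z) := by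
    intro a
    exact exists_lim u _ (Eventually.of_forall fun m => (norm_ii _).le)
  choose v _ hv2 using hv
  have hv3 : ∀ a, (starRingEnd ℂ) (v a) * v a = 1 := by
    intro a
    have h1 : Tendsto (fun m => ‖ii (a (m + 1))‖) u (𝓝 ‖v a‖) := (hv2 a).norm
    have h2 : ‖v a‖ = 1 := by
      have h3 : (fun m => ‖ii (a (m + 1))‖) = fun _ => (1 : ℝ) := by
        funext m
        exact norm_ii _
      rw [h3] at h1
      exact tendsto_nhds_unique h1 tendsto_const_nhds
    rw [mul_comm, Complex.mul_conj, Complex.normSq_eq_norm_sq, h2]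
    norm_num
  refine ⟨α, ?_⟩
  set S : Set (Tw c → ℂ) := {ψ : Tw c → ℂ | ∃ m m', m < m' ∧ ψ = fun x => ii (chi m m' x.a) * A m m' x.d}
    with hS
  -- the first limit
  have h1 : ∀ m : ℕ, (fun x : Tw c => ii (x.a 0) * (starRingEnd ℂ) (ii (x.a (m + 1))) * v x.a * B m x.d) ∈
      closure S := by
    intro m
    have h2 : Tendsto (fun m' : ℕ => fun x : Tw c => ii (chi m m' x.a) * A m m' x.d) u
        (𝓝 (fun x : Tw c => ii (x.a 0) * (starRingEnd ℂ) (ii (x.a (m + 1))) * v x.a * B m x.d)) := by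
      rw [tendsto_pi_nhds]
      intro x
      have h3 : ∀ m' : ℕ, ii (chi m m' x.a) = ii (x.a 0) * (starRingEnd ℂ) (ii (x.a (m + 1))) *
          ii (x.a (m' + 1)) := by
        intro m'
        rw [chi_apply, ii_add, sub_eq_add_neg, ii_add, ii_neg]
      simp only [h3]
      exact ((tendsto_const_nhds).mul (hv2 x.a)).mul (hB2 m x.d)
    refine mem_closure_of_tendsto h2 ((hgt m).mono fun m' hm' => ?_)
    exact ⟨m, m', hm', rfl⟩
  -- the second limit
  have h2 : Tendsto (fun m : ℕ => fun x : Tw c =>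
      ii (x.a 0) * (starRingEnd ℂ) (ii (x.a (m + 1))) * v x.a * B m x.d) u
      (𝓝 (fun x : Tw c => ii (x.a 0) * α x.d)) := by
    rw [tendsto_pi_nhds]
    intro x
    have h3 : Tendsto (fun m : ℕ => (starRingEnd ℂ) (ii (x.a (m + 1)))) u (𝓝 ((starRingEnd ℂ) (v x.a))) :=
      (Complex.continuous_conj.tendsto _).comp (hv2 x.a)
    have h4 := (((tendsto_const_nhds (x := ii (x.a 0))).mul h3).mul (tendsto_const_nhds (x := v x.a))).mul
      (hα2 x.d)
    have h5 : ii (x.a 0) * (starRingEnd ℂ) (v x.a) * v x.a * α x.d = ii (x.a 0) * α x.d := by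
      rw [mul_assoc (ii (x.a 0)), hv3, mul_one]
    rw [h5] at h4
    exact h4
  have h3 := mem_closure_of_tendsto h2 (Eventually.of_forall h1)
  rwa [closure_closure] at h3

end Pool.Agent.H262.EB.Lim
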