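import Pool.Agent.H262.EB.GluePL
import Pool.Graph.R_seed8.TH950.FC.Final
import Pool.Graph.R_seed8.TH377.J889
import Pool.Graph.R_seed8.TH745.J888

/-!
# Project EB: the inductive construction with an additional invariant
-/

set_option autoImplicit false
set_option linter.unusedSectionVars false
set_option linter.unusedVariables false

namespace Pool.Agent.H262.EB.Machine

open Finset
open scoped symmDiff
open Pool.Agent.TH950.FC
open Pool.Agent.TH950.FC.LG
open Pool.Agent.TH159.J891 (Stage stage_init stage_glue stage_length bad bad_finite nc_path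
  ch_mono)
open Pool.Agent.TH480.J869 (initSt init_good ext_le LV LX Lβ Lp Lω Lβ_eq Lp_eq Lω_eq path_lim
  path_stage charted_lim conn_lim)

section stage

variable {S Q H : Type} [DecidableEq Q] [Group H] {T : Theta S Q} {a : S → H}

theorem stage_loop (hrel : RelLemmas S Q (Vt Q)) (P : St S Q H → Prop)
    (hglue : ∀ st : St S Q H, Good T a 6 st → P st → ∀ x₀ ∈ st.dom, ∀ q₀, ¬ st.Ch T x₀ q₀ →
      ∃ st' ι j, Glue T st st' x₀ q₀ ι j ∧ Basic T a st' ∧ Inv T 8 st' ∧ Bg T st' ∧ Q2 T st' ∧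
        P st')
    {st : St S Q H} (hst : Good T a 4 st) : ∀ (n : ℕ) (cur : St S Q H) (N : Vt Q → Q → Prop),
      Stage T a st cur N → P cur → (bad T st cur).ncard ≤ n →
      ∃ cur' N', Stage T a st cur' N' ∧ P cur' ∧ bad T st cur' = ∅ := by
  intro n
  induction n with
  | zero =>
    intro cur N hS hP hn
    exact ⟨cur, N, hS, hP, (Set.ncard_eq_zero (bad_finite hst hS.ext)).1 (by omega)⟩
  | succ n ih =>
    intro cur N hS hP hn
    by_cases hbad : bad T st cur = ∅
    · exact ⟨cur, N, hS, hP, hbad⟩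
    · obtain ⟨⟨x₀, q₀⟩, hx, hq, h⟩ := Set.nonempty_iff_ne_empty.2 hbad
      obtain ⟨cur', ι, j, hG, h1, h2, h3, h4, hP'⟩ :=
        hglue cur hS.good hP x₀ (hS.ext.dom hx) q₀ hq
      have hS' := stage_glue hrel hst hS hx hG h1 h2 h3 h4
      refine ih cur' _ hS' hP' ?_
      have hlt : (bad T st cur').ncard < (bad T st cur).ncard := by
        refine Set.ncard_lt_ncard ?_ (bad_finite hst hS.ext)
        refine (Set.ssubset_iff_of_subset ?_).2 ⟨(x₀, q₀), ⟨hx, hq, h⟩, ?_⟩
        · rintro ⟨x, q⟩ ⟨hx', hq', h'⟩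
          exact ⟨hx', fun hc => hq' (ch_mono hS.good.edge_dom hG.ext (hS.ext.dom hx') hc), h'⟩
        · rintro ⟨_, h', _⟩
          apply h'
          have := hG.chart (q₀, ∅) (Reach.refl _)
          rwa [hG.base] at this
      omega

/-- One stage of the construction, preserving `P`. -/
theorem stage_of_glue (hrel : RelLemmas S Q (Vt Q)) (P : St S Q H → Prop)
    (hglue : ∀ st : St S Q H, Good T a 6 st → P st → ∀ x₀ ∈ st.dom, ∀ q₀, ¬ st.Ch T x₀ q₀ →
      ∃ st' ι j, Glue T st st' x₀ q₀ ι j ∧ Basic T a st' ∧ Inv T 8 st' ∧ Bg T st' ∧ Q2 T st' ∧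
        P st')
    (st : St S Q H) (hst : Good T a 4 st) (hP : P st) :
    ∃ st' : St S Q H, Ext st st' ∧ Good T a 4 st' ∧ P st' ∧
      ∀ x ∈ st.dom, ∀ q, (T.g q = 100 ∨ ∃ w y, st.Common T x q w y ∧ 2 * T.g q < 100 * w.length) →
        st'.Ch T x q := by
  obtain ⟨cur, N, hS, hP', hbad⟩ := stage_loop hrel P hglue hst _ st _ (stage_init hst) hP le_rfl
  refine ⟨cur, hS.ext, ⟨hS.good.toBasic, ?_, hS.good.bg, hS.good.q2⟩, hP', ?_⟩
  · intro x hx q hq w y hw
    refine ⟨?_, (hS.good.inv x hx q hq w y hw).2⟩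
    refine stage_length hrel hS.rel hS.full 2 ?_ hx hq hw
    intro x' hx' q' hq' w' y' hw'
    by_contra hlt
    have hlt' : 2 * T.g q' < 100 * w'.length := by omega
    have : (x', q') ∈ bad T st cur := ⟨hx', hq', Or.inr ⟨w', y', hw', hlt'⟩⟩
    rw [hbad] at this
    exact this
  · intro x hx q h
    by_contra hc
    have : (x, q) ∈ bad T st cur := ⟨hx, hc, h⟩
    rw [hbad] at this
    exact this

end stage

section limit

variable {S Q H : Type} [DecidableEq Q] [Group H]

/-- Passage to the limit, with an invariant `P` of the stages that passes to the limit. -/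
theorem limit_of_stage [Fintype S] [Countable Q] [Nonempty Q]
    (T : Theta S Q) (a : S → H) (d b : ℕ)
    (stage : ∀ st : St S Q H, Good T a 4 st → PLg st.X (fun s x => (st.ω s x : ZMod 4)) d b →
      ∃ st' : St S Q H, Ext st st' ∧ Good T a 4 st' ∧
      PLg st'.X (fun s x => (st'.ω s x : ZMod 4)) d b ∧
      ∀ x ∈ st.dom, ∀ q, (T.g q = 100 ∨ ∃ w y, st.Common T x q w y ∧ 2 * T.g q < 100 * w.length) →
        st'.Ch T x q) (hbd : b ≤ d) :
    ∃ (V : Type) (_ : Countable V) (X : LG S V) (β : V → Finset (Wt Q)) (ω : S → V → ℤ)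
      (p : V → H) (base : V), Limit T a X β ω p base ∧
      PLg X (fun s x => (ω s x : ZMod 4)) d b := by
  classical
  obtain ⟨q₀⟩ := (inferInstance : Nonempty Q)
  choose! nxt hn1 hn2 hn4 hn3 using stage
  obtain ⟨st, hgood, hext, hch, h0, hpl⟩ : ∃ st : ℕ → St S Q H, (∀ n, Good T a 4 (st n)) ∧
      (∀ n, Ext (st n) (st (n + 1))) ∧
      (∀ n, ∀ x ∈ (st n).dom, ∀ q, (T.g q = 100 ∨ ∃ w y, (st n).Common T x q w y ∧
        2 * T.g q < 100 * w.length) → (st (n + 1)).Ch T x q) ∧
      ((0, (q₀, ∅)) : Vt Q) ∈ (st 0).dom ∧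
      (∀ n, PLg (st n).X (fun s x => ((st n).ω s x : ZMod 4)) d b) := by
    have hinit : PLg (initSt S Q H q₀).X (fun s x => ((initSt S Q H q₀).ω s x : ZMod 4)) d b := by
      intro W hW
      have : ∀ w ∈ W, outd (initSt S Q H q₀).X
          (fun s x => ((initSt S Q H q₀).ω s x : ZMod 4)) W w = 0 := by
        intro w _
        unfold outd
        rw [card_eq_zero, filter_eq_empty_iff]
        rintro s - ⟨y, hy, -⟩
        exact hy
      rw [sum_congr rfl this, sum_const_zero, zero_add]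
      exact Nat.mul_le_mul_right _ hbd
    let seq : ℕ → {st : St S Q H // Good T a 4 st ∧
        PLg st.X (fun s x => (st.ω s x : ZMod 4)) d b} := fun n =>
      Nat.rec ⟨initSt S Q H q₀, init_good T a q₀, hinit⟩
        (fun _ s => ⟨nxt s.1, hn2 s.1 s.2.1 s.2.2, hn4 s.1 s.2.1 s.2.2⟩) n
    exact ⟨fun n => (seq n).1, fun n => (seq n).2.1, fun n => hn1 (seq n).1 (seq n).2.1 (seq n).2.2,
      fun n => hn3 (seq n).1 (seq n).2.1 (seq n).2.2, Set.mem_singleton _, fun n => (seq n).2.2⟩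
  have hsub : ∀ {i j : ℕ}, i ≤ j → (st i).dom ⊆ (st j).dom := fun h => (ext_le st hext h).dom
  have htotal : ∀ s (x : LV st), ∃ y, (LX st hext).E s x y := by
    intro s x
    obtain ⟨i, hi⟩ := x.2
    obtain ⟨q, hq, ⟨r, ⟨r', hr, _⟩⟩, _⟩ := T.edgeType s
    obtain ⟨ι, j, ψ, _, hι0, hι⟩ := hch i x.1 hi q (Or.inl hq)
    have h1 := ((hι (q, ∅) ⟨[], rfl⟩).2 s (r', ∅ ∆ {s(q, r')}) ⟨hr, rfl⟩).1
    rw [hι0] at h1
    refine ⟨⟨ι (r', ∅ ∆ {s(q, r')}), i + 1, (hgood (i + 1)).edge_dom ((st (i + 1)).X.symm h1)⟩,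
      i + 1, h1⟩
  have hread : ∀ (w : List S) (x : LV st), ∃ y, (LX st hext).Path x w y := by
    intro w
    induction w with
    | nil => intro x; exact ⟨x, rfl⟩
    | cons s w ih =>
      intro x
      obtain ⟨z, hz⟩ := htotal s x
      obtain ⟨y, hy⟩ := ih z
      exact ⟨y, z, hz, hy⟩
  refine ⟨LV st, inferInstance, LX st hext, Lβ st, Lω st, Lp st, ⟨_, 0, h0⟩, ?_, ?_⟩
  · refine ⟨htotal, ?_, ?_, ?_, ?_, ?_, ?_⟩
    · intro x
      obtain ⟨i, hi⟩ := x.2
      obtain ⟨w, hw⟩ := (hgood i).conn (hsub (Nat.zero_le i) h0) hi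
      exact ⟨w, path_lim hext hgood _ _ (hsub (Nat.zero_le i) h0) hw⟩
    · rintro s x y ⟨i, hi⟩
      rw [Lβ_eq hext x ((hgood i).edge_dom hi), Lβ_eq hext y ((hgood i).edge_dom
        ((st i).X.symm hi))]
      exact (hgood i).color hi
    · rintro s x y ⟨i, hi⟩
      rw [Lω_eq hext s x hi, Lω_eq hext s y ((st i).X.symm hi)]
      exact (hgood i).anti hi
    · rintro s x y ⟨i, hi⟩
      rw [Lp_eq hext x ((hgood i).edge_dom hi), Lp_eq hext y ((hgood i).edge_dom
        ((st i).X.symm hi))]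
      exact (hgood i).pot hi
    · intro x q
      obtain ⟨i, hi⟩ := x.2
      rcases eq_or_lt_of_le (T.hundred_le q) with hq | hq
      · exact charted_lim hext hgood x (hsub (Nat.le_succ i) hi) (hch i x.1 hi q (Or.inl hq.symm))
      · obtain ⟨w, hw1, hw2, hw3⟩ := T.long q hq
        obtain ⟨y, hy⟩ := hread w x
        obtain ⟨j, hj, hxj⟩ := path_stage hext x y hy
        exact charted_lim hext hgood x (hsub (Nat.le_succ j) hxj)
          (hch j x.1 hxj q (Or.inr ⟨w, y.1, ⟨hw1, hj, hw2⟩, hw3⟩))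
    · intro x y
      obtain ⟨i, hi⟩ := x.2
      obtain ⟨j, hj⟩ := y.2
      have hx := hsub (le_max_left i j) hi
      have hy := hsub (le_max_right i j) hj
      obtain ⟨x', hx', y', hy', n, hc, hn⟩ := (hgood (max i j)).q2 x.1 hx y.1 hy none none
        trivial trivial
      have e1 : x' = x.1 := hx'
      have e2 : y' = y.1 := hy'
      subst e1 e2
      obtain ⟨_, hc'⟩ := conn_lim hext hgood hc hx
      refine ⟨n, hc', hn.trans (le_of_eq ?_)⟩
      congr 1
      rw [Lβ_eq hext x hx, Lβ_eq hext y hy]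
      have e3 : (st (max i j)).OvWalls T x.1 none ∪ (st (max i j)).OvWalls T y.1 none = ∅ := by
        show (∅ : Set (Wt Q)) ∪ ∅ = ∅
        exact Set.union_empty _
      rw [e3, Set.sdiff_empty, Set.ncard_coe_finset]
  · -- the isoperimetric inequality passes to the limit
    intro W hW
    -- a stage containing all the edges inside `W`
    have hex : ∀ w : LV st × ZMod 4, ∀ s : S, ∃ n, ∀ y, (LX st hext).E s w.1 y →
        ∀ k, n ≤ k → (st k).X.E s w.1.1 y.1 := by
      intro w s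
      by_cases h : ∃ y, (LX st hext).E s w.1 y
      · obtain ⟨y, i, hi⟩ := h
        refine ⟨i, fun y' hy' k hk => ?_⟩
        have : y = y' := (LX st hext).func ⟨i, hi⟩ hy'
        rw [← this]
        exact (ext_le st hext hk).E hi
      · exact ⟨0, fun y hy => absurd ⟨y, hy⟩ h⟩
    choose nn hnn using hex
    set M : ℕ := W.sup fun w => univ.sup fun s : S => nn w s with hM
    have hMle : ∀ w ∈ W, ∀ s, nn w s ≤ M := by
      intro w hw s
      have h1 : nn w s ≤ univ.sup fun s : S => nn w s :=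
        Finset.le_sup (f := fun s : S => nn w s) (mem_univ s)
      have h2 : (univ.sup fun s : S => nn w s) ≤ M :=
        Finset.le_sup (f := fun w => univ.sup fun s : S => nn w s) hw
      exact h1.trans h2
    set F : LV st × ZMod 4 → Vt Q × ZMod 4 := fun w => (w.1.1, w.2) with hF
    have hFi : Function.Injective F := by
      rintro ⟨x, i⟩ ⟨y, j⟩ h
      simp only [hF, Prod.mk.injEq] at h
      exact Prod.ext (Subtype.ext h.1) h.2
    have h1 := hpl M (W.image F) (by
      intro w hw hw2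
      obtain ⟨v, hv, rfl⟩ := mem_image.1 hw
      obtain ⟨v', hv', hvv⟩ := mem_image.1 hw2
      apply hW v hv
      have : v' = (v.1, v.2 + 2) := hFi hvv
      rw [← this]
      exact hv')
    rw [card_image_of_injective _ hFi, sum_image (fun _ _ _ _ h => hFi h)] at h1
    refine le_trans (Nat.add_le_add_right (sum_le_sum fun w hw => ?_) _) h1
    unfold outd
    refine card_le_card ?_
    intro s hs
    simp only [mem_filter, mem_univ, true_and] at hs ⊢
    obtain ⟨y, hy, hyW⟩ := hs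
    have hE : (st M).X.E s w.1.1 y.1 := hnn w s y hy M (hMle w hw s)
    refine ⟨y.1, hE, ?_⟩
    rw [mem_image]
    refine ⟨_, hyW, ?_⟩
    simp only [hF]
    rw [Lω_eq hext s w.1 hE]

end limit

theorem main : StMachine := by
  intro m Q _ _ _ T T₀ d b hTT hbd
  classical
  have hrels : ∀ q w, T.cov.Path (q, ∅) w (q, ∅) →
      (w.map (fun s => (PresentedGroup.of s : PresentedGroup (rels T₀)))).prod = 1 := by
    intro q w hw
    have hw' : T₀.cov.Path (q, ∅) w (q, ∅) := by rw [← hTT]; exact hw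
    have h1 : (PresentedGroup.mk (rels T₀) (w.map FreeGroup.of).prod) = 1 :=
      PresentedGroup.one_of_mem (Or.inr ⟨q, w, hw', rfl⟩)
    rw [map_list_prod, List.map_map] at h1
    exact h1
  have ha : ∀ s : Fin m, (PresentedGroup.of s : PresentedGroup (rels T₀)) *
      PresentedGroup.of s = 1 := by
    intro s
    have : (PresentedGroup.mk (rels T₀) (FreeGroup.of s * FreeGroup.of s)) = 1 :=
      PresentedGroup.one_of_mem (Or.inl ⟨s, rfl⟩)
    rw [map_mul] at this
    exact this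
  have hglue : ∀ st : St (Fin m) Q (PresentedGroup (rels T₀)),
      Good T (fun s => PresentedGroup.of s) 6 st → ∀ x₀ ∈ st.dom, ∀ q₀, ¬ st.Ch T x₀ q₀ →
      ∃ st' ι j, Glue T st st' x₀ q₀ ι j ∧ Basic T (fun s => PresentedGroup.of s) st' ∧
        Inv T 8 st' ∧ Bg T st' ∧ Q2 T st' := by
    intro st hst x₀ hx₀ q₀ hq₀
    obtain ⟨st', ι, j, hG, hb⟩ := Pool.Agent.TH377.J889.exists_glue T _ ha hrels st hst.toBasic
      hst.inv x₀ hx₀ q₀ hq₀
    have h1 := shape_of_glue hst hG
    have h2 := inv_of_glue hst hG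
    have h3 := bg_of_glue hst hb hG
    exact ⟨st', ι, j, hG, hb, h2, h3,
      Pool.Agent.TH745.J888.glue_q2 (blockDichotomy _ _) T _ st st' hst hb x₀ q₀ ι j hG h1 h2 h3⟩
  by_cases hBB : BB T d (b + 2)
  · obtain ⟨V, -, X, β, ω, p, base, hL, hP⟩ := limit_of_stage T
      (fun s => (PresentedGroup.of s : PresentedGroup (rels T₀))) d b
      (fun st hst hPst => stage_of_glue (relLemmas' _ _ _)
        (fun st => PLg st.X (fun s x => (st.ω s x : ZMod 4)) d b) (by
          intro st hst hP x₀ hx₀ q₀ hq₀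
          obtain ⟨st', ι, j, hG, hb, h2, h3, h4⟩ := hglue st hst x₀ hx₀ q₀ hq₀
          exact ⟨st', ι, j, hG, hb, h2, h3, h4,
            GluePL.pl_of_glue hst hb hG hBB hP (by omega)⟩) st hst hPst) (by omega)
    exact ⟨V, X, β, ω, p, base, hL, fun _ => hP⟩
  · obtain ⟨V, -, X, β, ω, p, base, hL⟩ := Pool.Agent.TH480.J869.limit_of_stage T
      (fun s => (PresentedGroup.of s : PresentedGroup (rels T₀)))
      (fun st hst => Pool.Agent.TH159.J891.stage_of_glue T _ (relLemmas' _ _ _) hglue st hst)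
    exact ⟨V, X, β, ω, p, base, hL, fun h => absurd h hBB⟩

end Pool.Agent.H262.EB.Machine
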