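import Pool.Agent.H262.EB.AP

/-!
# Project EB: norm of twisted marked subgraphs (job AP-MARK)
-/

set_option autoImplicit false

namespace Pool.Agent.H262.EB.Mark

open Finset

theorem sum_four (z w : ℂ) :
    ∑ j : ZMod 4, (ii j * z).re * (ii j * w).re = 2 * ((starRingEnd ℂ) z * w).re := by
  have h1 : ii 1 = Complex.I := by
    have : (1 : ZMod 4).val = 1 := rfl
    simp [ii, this]
  have h3 : ii 3 = -Complex.I := by
    have : (3 : ZMod 4).val = 3 := rfl
    simp [ii, this, Complex.I_pow_three]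
  have h : ∀ F : ZMod 4 → ℝ, ∑ j : ZMod 4, F j = F 0 + F 1 + F 2 + F 3 := fun F =>
    Fin.sum_univ_four F
  rw [h, ii_zero, h1, ii_two, h3]
  simp only [Complex.mul_re, Complex.one_re, Complex.one_im, Complex.I_re, Complex.I_im,
    Complex.neg_re, Complex.neg_im, Complex.conj_re, Complex.conj_im]
  ring

section

variable {H S : Type} [Group H] [Fintype S] [DecidableEq S] [DecidableEq H] {d b : ℕ}
  (C : CTData H S d b) (τ : H → Finset S)

/-- marked steps -/
def mk (g : H) (s : S) : Prop :=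
  (s ∈ τ g ∧ (τ g).card ≤ d) ∧ (s ∈ τ (g * C.a s) ∧ (τ (g * C.a s)).card ≤ d)

instance (g : H) (s : S) : Decidable (mk C τ g s) := by
  unfold mk
  infer_instance

/-- the step in the cover -/
def st (x : H × ZMod 4) (s : S) : H × ZMod 4 := (x.1 * C.a s, x.2 + C.om 0 s x.1)

/-- the weights -/
def mm (x y : H × ZMod 4) : ℝ := ∑ s : S, if mk C τ x.1 s ∧ y = st C x s then (1 : ℝ) else 0

theorem st_st (x : H × ZMod 4) (s : S) : st C (st C x s) s = x := by
  unfold st
  ext1
  · simp only [mul_assoc, C.inv, mul_one]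
  · simp only [C.anti]
    abel

theorem mk_st (x : H × ZMod 4) (s : S) : mk C τ (st C x s).1 s ↔ mk C τ x.1 s := by
  unfold mk st
  simp only [mul_assoc, C.inv, mul_one]
  exact and_comm

theorem mm_symm (x y : H × ZMod 4) : mm C τ x y = mm C τ y x := by
  unfold mm
  refine Finset.sum_congr rfl fun s _ => ?_
  have h : (mk C τ x.1 s ∧ y = st C x s) ↔ (mk C τ y.1 s ∧ x = st C y s) := by
    constructor
    · rintro ⟨h1, rfl⟩
      exact ⟨(mk_st C τ x s).2 h1, (st_st C x s).symm⟩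
    · rintro ⟨h1, rfl⟩
      exact ⟨(mk_st C τ y s).2 h1, (st_st C y s).symm⟩
  by_cases h1 : mk C τ x.1 s ∧ y = st C x s
  · rw [if_pos h1, if_pos (h.1 h1)]
  · rw [if_neg h1, if_neg (fun h2 => h1 (h.2 h2))]

/-- the rotation -/
def th (x : H × ZMod 4) : H × ZMod 4 := (x.1, x.2 + 2)

omit [Group H] [DecidableEq H] in
theorem th_th (x : H × ZMod 4) : th (th x) = x := by
  unfold th
  ext1
  · rfl
  · simp only [add_assoc]
    have : (2 : ZMod 4) + 2 = 0 := rfl
    rw [this, add_zero]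

theorem st_th (x : H × ZMod 4) (s : S) : st C (th x) s = th (st C x s) := by
  unfold st th
  ext1
  · rfl
  · simp only
    abel

theorem mm_th (x y : H × ZMod 4) : mm C τ (th x) (th y) = mm C τ x y := by
  unfold mm
  refine Finset.sum_congr rfl fun s _ => ?_
  have h : (mk C τ (th x).1 s ∧ th y = st C (th x) s) ↔ (mk C τ x.1 s ∧ y = st C x s) := by
    rw [st_th]
    constructor
    · rintro ⟨h1, h2⟩
      refine ⟨h1, ?_⟩
      rw [← th_th y, h2, th_th]
    · rintro ⟨h1, h2⟩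
      exact ⟨h1, by rw [h2]⟩
  by_cases h1 : mk C τ x.1 s ∧ y = st C x s
  · rw [if_pos h1, if_pos (h.2 h1)]
  · rw [if_neg h1, if_neg (fun h2 => h1 (h.1 h2))]

theorem mm_nonneg (x y : H × ZMod 4) : 0 ≤ mm C τ x y := by
  unfold mm
  refine Finset.sum_nonneg fun s _ => ?_
  split_ifs
  · exact zero_le_one
  · exact le_refl _

theorem row_sum (W : Finset (H × ZMod 4)) (G : H × ZMod 4 → ℝ) (x : H × ZMod 4) :
    ∑ y ∈ W, mm C τ x y * G y =
      ∑ s : S, if mk C τ x.1 s ∧ st C x s ∈ W then G (st C x s) else 0 := by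
  unfold mm
  simp only [Finset.sum_mul]
  rw [Finset.sum_comm]
  refine Finset.sum_congr rfl fun s _ => ?_
  by_cases h1 : mk C τ x.1 s
  · by_cases h2 : st C x s ∈ W
    · rw [if_pos ⟨h1, h2⟩, Finset.sum_eq_single (st C x s)]
      · rw [if_pos ⟨h1, rfl⟩, one_mul]
      · intro y _ hy
        rw [if_neg (fun h : mk C τ x.1 s ∧ y = st C x s => hy h.2), zero_mul]
      · intro h
        exact absurd h2 h
    · rw [if_neg (fun h => h2 h.2), Finset.sum_eq_zero]
      intro y hy
      rw [if_neg (fun h : mk C τ x.1 s ∧ y = st C x s => h2 (h.2 ▸ hy)), zero_mul]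
  · rw [if_neg (fun h => h1 h.1), Finset.sum_eq_zero]
    intro y hy
    rw [if_neg (fun h : mk C τ x.1 s ∧ y = st C x s => h1 h.1), zero_mul]

theorem row_sum_one (W : Finset (H × ZMod 4)) (x : H × ZMod 4) :
    ∑ y ∈ W, mm C τ x y = ∑ s : S, if mk C τ x.1 s ∧ st C x s ∈ W then (1 : ℝ) else 0 := by
  rw [← row_sum C τ W (fun _ => 1) x]
  simp only [mul_one]

theorem row_le (W : Finset (H × ZMod 4)) (x : H × ZMod 4) : ∑ y ∈ W, mm C τ x y ≤ (d : ℝ) := by
  rw [row_sum_one]
  have h1 : (∑ s : S, if mk C τ x.1 s ∧ st C x s ∈ W then (1 : ℝ) else 0) ≤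
      ((univ.filter fun s : S => mk C τ x.1 s).card : ℝ) := by
    rw [Finset.card_filter]
    push_cast
    refine Finset.sum_le_sum fun s _ => ?_
    by_cases h1 : mk C τ x.1 s
    · rw [if_pos h1]
      split_ifs
      · exact le_refl _
      · exact zero_le_one
    · rw [if_neg h1, if_neg (fun h => h1 h.1)]
  refine h1.trans ?_
  norm_cast
  rcases Finset.eq_empty_or_nonempty (univ.filter fun s : S => mk C τ x.1 s) with h2 | h2
  · rw [h2, Finset.card_empty]
    exact Nat.zero_le _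
  · obtain ⟨s0, hs0⟩ := h2
    have h3 := (mem_filter.1 hs0).2
    refine le_trans (Finset.card_le_card fun s hs => ?_) h3.1.2
    exact (mem_filter.1 hs).2.1.1

end

theorem main : StCheeger → StMark := by
  intro hCh H S _ _ _ _ d b C hd hbd hb3 τ P φ hφ
  have hd3 : 3 ≤ d := by
    have h1 : b ^ 2 ≤ d ^ 2 := Nat.pow_le_pow_left hbd 2
    have h2 : 3 * d ≤ d * d := by
      calc 3 * d ≤ b ^ 2 := hb3
        _ ≤ d ^ 2 := h1
        _ = d * d := sq d
    exact Nat.le_of_mul_le_mul_right h2 hd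
  have hd3' : (3 : ℝ) ≤ d := by exact_mod_cast hd3
  have hb3' : 3 * (d : ℝ) ≤ (b : ℝ) ^ 2 := by exact_mod_cast hb3
  obtain ⟨f, hf⟩ : ∃ f : H × ZMod 4 → ℝ, f = fun x => (ii x.2 * φ x.1).re := ⟨_, rfl⟩
  have hfx : ∀ x, f x = (ii x.2 * φ x.1).re := fun x => by rw [hf]
  have hfθ : ∀ x, f (th x) = - f x := by
    intro x
    rw [hfx, hfx]
    unfold th
    simp only
    rw [ii_add, ii_two]
    simp
  have hmain := hCh (H × ZMod 4) (P ×ˢ univ) (mm C τ) th (d : ℝ) (b : ℝ) ((d : ℝ) - 3 / 2)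
    (mm_nonneg C τ) (mm_symm C τ) th_th
    (fun x hx => by
      rw [mem_product] at hx ⊢
      exact ⟨hx.1, Finset.mem_univ _⟩)
    (mm_th C τ) (fun x _ => row_le C τ _ x) (Nat.cast_nonneg b) (by linarith) (by nlinarith)
    (fun W _ hW => by
      have h1 := C.pl W hW
      have h2 : ((∑ w ∈ W, (univ.filter fun s : S =>
          (w.1 * C.a s, w.2 + C.om 0 s w.1) ∈ W).card : ℕ) : ℝ) + (b : ℝ) * W.card ≤
          (d : ℝ) * W.card := by exact_mod_cast h1
      have h3 : ∑ x ∈ W, ∑ y ∈ W, mm C τ x y ≤ ((∑ w ∈ W, (univ.filter fun s : S =>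
          (w.1 * C.a s, w.2 + C.om 0 s w.1) ∈ W).card : ℕ) : ℝ) := by
        push_cast
        refine Finset.sum_le_sum fun x _ => ?_
        rw [row_sum_one, Finset.card_filter]
        push_cast
        refine Finset.sum_le_sum fun s _ => ?_
        by_cases h4 : (x.1 * C.a s, x.2 + C.om 0 s x.1) ∈ W
        · rw [if_pos h4]
          split_ifs
          · exact le_refl _
          · exact zero_le_one
        · rw [if_neg h4, if_neg (fun h => h4 h.2)]
      linarith)
    f hfθ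
  have hsq : ∑ x ∈ P ×ˢ (univ : Finset (ZMod 4)), f x ^ 2 = 2 * ∑ g ∈ P, ‖φ g‖ ^ 2 := by
    rw [Finset.sum_product, Finset.mul_sum]
    refine Finset.sum_congr rfl fun g _ => ?_
    have h1 := sum_four (φ g) (φ g)
    have h2 : ((starRingEnd ℂ) (φ g) * φ g).re = ‖φ g‖ ^ 2 := by
      rw [mul_comm, Complex.mul_conj, Complex.ofReal_re, Complex.normSq_eq_norm_sq]
    rw [h2] at h1
    rw [← h1]
    refine Finset.sum_congr rfl fun j _ => ?_
    rw [hfx, sq]
  have hff : ∑ x ∈ P ×ˢ (univ : Finset (ZMod 4)), ∑ y ∈ P ×ˢ (univ : Finset (ZMod 4)),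
      mm C τ x y * (f x * f y) = 2 * (∑ g ∈ P, ∑ s : S,
        (if (s ∈ τ g ∧ (τ g).card ≤ d) ∧ (s ∈ τ (g * C.a s) ∧ (τ (g * C.a s)).card ≤ d)
        then (starRingEnd ℂ) (φ g) * ii (C.om 0 s g) * φ (g * C.a s) else 0)).re := by
    have h1 : ∀ x : H × ZMod 4, ∑ y ∈ P ×ˢ (univ : Finset (ZMod 4)), mm C τ x y * (f x * f y) =
        ∑ s : S, if mk C τ x.1 s then f x * f (st C x s) else 0 := by
      intro x
      rw [row_sum C τ (P ×ˢ univ) (fun y => f x * f y) x]
      refine Finset.sum_congr rfl fun s _ => ?_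
      by_cases h2 : mk C τ x.1 s
      · by_cases h3 : st C x s ∈ P ×ˢ (univ : Finset (ZMod 4))
        · rw [if_pos ⟨h2, h3⟩, if_pos h2]
        · rw [if_neg (fun h => h3 h.2), if_pos h2]
          have h4 : (st C x s).1 ∉ P := fun h => h3 (mem_product.2 ⟨h, Finset.mem_univ _⟩)
          rw [hfx (st C x s), hφ _ h4, mul_zero, Complex.zero_re, mul_zero]
      · rw [if_neg h2, if_neg (fun h => h2 h.1)]
    rw [Finset.sum_congr rfl fun x _ => h1 x, Finset.sum_product, Complex.re_sum, Finset.mul_sum]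
    refine Finset.sum_congr rfl fun g _ => ?_
    rw [Finset.sum_comm, Complex.re_sum, Finset.mul_sum]
    refine Finset.sum_congr rfl fun s _ => ?_
    simp only
    by_cases h2 : (s ∈ τ g ∧ (τ g).card ≤ d) ∧ (s ∈ τ (g * C.a s) ∧ (τ (g * C.a s)).card ≤ d)
    · have h2' : mk C τ g s := h2
      simp only [if_pos h2, if_pos h2']
      rw [mul_assoc, ← sum_four]
      refine Finset.sum_congr rfl fun j _ => ?_
      rw [hfx, hfx]
      unfold st
      simp only
      rw [ii_add, mul_assoc]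
    · have h2' : ¬ mk C τ g s := h2
      simp only [if_neg h2, if_neg h2', Finset.sum_const_zero, Complex.zero_re, mul_zero]
  rw [hff, hsq] at hmain
  linarith

end Pool.Agent.H262.EB.Mark
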