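import Pool.Agent.H262.EB.CT
import Pool.Graph.R_seed8.TH553.J779

/-!
# Project EB: maximal graphs of degree `D` and girth `g` (`StMax`), by helper249 for helper262

After the library module `TH553.J779` (there `D = 400`).
-/

set_option autoImplicit false

namespace Pool.Agent.H262.EB.Max

set_option linter.unusedSectionVars false

open scoped BigOperators
open SimpleGraph Finset
open Pool.Agent.TH553.J779 (NC)

section fin
open Classical
variable {V : Type} [Fintype V]

theorem ball (D : ℕ) (hD : 2 ≤ D) (G : SimpleGraph V)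
    (hdeg : ∀ v, (univ.filter (G.Adj v)).card ≤ D) (u0 : V)
    (n : ℕ) : (univ.filter (fun v => ∃ p : G.Walk v u0, p.length ≤ n)).card + 1 ≤ 2 * D ^ n := by
  induction n with
  | zero =>
    have : (univ.filter (fun v => ∃ p : G.Walk v u0, p.length ≤ 0)) ⊆ {u0} := by
      intro v hv
      rw [mem_filter] at hv
      obtain ⟨_, p, hp⟩ := hv
      rw [mem_singleton]
      exact Walk.eq_of_length_eq_zero (p := p) (by omega)
    have := card_le_card this
    rw [card_singleton] at this
    simpa using this
  | succ n ih =>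
    have hsub : (univ.filter (fun v => ∃ p : G.Walk v u0, p.length ≤ n + 1)) ⊆
        insert u0 ((univ.filter (fun v => ∃ p : G.Walk v u0, p.length ≤ n)).biUnion
          (fun w => univ.filter (G.Adj w))) := by
      intro v hv
      rw [mem_filter] at hv
      obtain ⟨_, p, hp⟩ := hv
      rw [mem_insert, mem_biUnion]
      cases p with
      | nil => exact Or.inl rfl
      | @cons _ w _ h p =>
        rw [Walk.length_cons] at hp
        right
        exact ⟨w, mem_filter.2 ⟨mem_univ _, p, by omega⟩, mem_filter.2 ⟨mem_univ _, h.symm⟩⟩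
    have h1 := card_le_card hsub
    have h2 := card_insert_le u0 ((univ.filter (fun v => ∃ p : G.Walk v u0, p.length ≤ n)).biUnion
          (fun w => univ.filter (G.Adj w)))
    have h3 := card_biUnion_le_card_mul (univ.filter (fun v => ∃ p : G.Walk v u0, p.length ≤ n))
      (fun w => univ.filter (G.Adj w)) D (fun w _ => hdeg w)
    have h4 := Nat.mul_le_mul_right D ih
    rw [Nat.add_mul, one_mul, mul_assoc] at h4
    rw [pow_succ]
    omega

theorem exists_maxgraph (D : ℕ) (hD : 2 ≤ D) (g : ℕ) (hg : 3 ≤ g) :
    ∃ G : SimpleGraph (Fin (4 * D ^ g)), (∀ v, (univ.filter (G.Adj v)).card ≤ D) ∧ NC G g ∧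
      D * (4 * D ^ g) ≤ (∑ v, (univ.filter (G.Adj v)).card) + 4 * D ^ g := by
  obtain ⟨G, ⟨hdeg, hNC⟩, hmax⟩ := Set.Finite.exists_maximal
    (s := {G : SimpleGraph (Fin (4 * D ^ g)) |
      (∀ v, (univ.filter (G.Adj v)).card ≤ D) ∧ NC G g}) (Set.toFinite _)
    ⟨⊥, by
      refine ⟨fun v => ?_, fun x y h => absurd h (by simp)⟩
      simp⟩
  refine ⟨G, hdeg, hNC, ?_⟩
  -- low degree vertices are close
  have hclose : ∀ u v, (univ.filter (G.Adj u)).card < D → (univ.filter (G.Adj v)).card < D →
      u ≠ v → ∃ p : G.Walk u v, p.length ≤ g - 2 := by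
    intro u v hu hv huv
    by_contra hcon
    push Not at hcon
    have hsh : ∀ p : G.Walk u v, g ≤ p.length + 1 := by
      intro p
      have := hcon p
      omega
    have hnadj : ¬ G.Adj u v := by
      intro h
      have := hsh (Walk.cons h Walk.nil)
      rw [Walk.length_cons, Walk.length_nil] at this
      omega
    have hNC' := hNC.sup hsh
    obtain ⟨G', hG'⟩ : ∃ G', G' = G ⊔ edge u v := ⟨_, rfl⟩
    have hadj' : ∀ a b, G'.Adj a b ↔ G.Adj a b ∨ (a = u ∧ b = v ∨ a = v ∧ b = u) ∧ a ≠ b := by
      intro a b
      rw [hG', sup_adj, edge_adj]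
    rw [← hG'] at hNC'
    have hmem : G' ∈ {G : SimpleGraph (Fin (4 * D ^ g)) |
      (∀ v, (univ.filter (G.Adj v)).card ≤ D) ∧ NC G g} := by
      refine ⟨fun w => ?_, hNC'⟩
      by_cases hwu : w = u
      · subst hwu
        have hs : univ.filter (G'.Adj w) ⊆ insert v (univ.filter (G.Adj w)) := by
          intro x hx
          rw [mem_filter, hadj'] at hx
          rw [mem_insert, mem_filter]
          rcases hx.2 with h | ⟨⟨_, h⟩ | ⟨h1, h2⟩, h3⟩
          · exact Or.inr ⟨mem_univ _, h⟩
          · exact Or.inl h
          · exact absurd h1 huv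
        have h1 := card_le_card hs
        have h2 := card_insert_le v (univ.filter (G.Adj w))
        omega
      · by_cases hwv : w = v
        · subst hwv
          have hs : univ.filter (G'.Adj w) ⊆ insert u (univ.filter (G.Adj w)) := by
            intro x hx
            rw [mem_filter, hadj'] at hx
            rw [mem_insert, mem_filter]
            rcases hx.2 with h | ⟨⟨h1, h2⟩ | ⟨_, h⟩, h3⟩
            · exact Or.inr ⟨mem_univ _, h⟩
            · exact absurd h1 hwu
            · exact Or.inl h
          have h1 := card_le_card hs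
          have h2 := card_insert_le u (univ.filter (G.Adj w))
          omega
        · refine le_trans (card_le_card ?_) (hdeg w)
          intro x hx
          rw [mem_filter, hadj'] at hx
          rw [mem_filter]
          refine ⟨mem_univ _, ?_⟩
          rcases hx.2 with h | ⟨⟨h1, h2⟩ | ⟨h1, h⟩, h3⟩
          · exact h
          · exact absurd h1 hwu
          · exact absurd h1 hwv
    have hle : G' ≤ G := hmax hmem (hG' ▸ le_sup_left)
    apply hnadj
    apply hle
    rw [hadj']
    exact Or.inr ⟨Or.inl ⟨rfl, rfl⟩, huv⟩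
  -- the set of low degree vertices is small
  obtain ⟨L, hL⟩ : ∃ L, L = univ.filter (fun v => (univ.filter (G.Adj v)).card < D) := ⟨_, rfl⟩
  have hLcard : D * L.card ≤ 4 * D ^ g := by
    rcases L.eq_empty_or_nonempty with h0 | ⟨u0, hu0⟩
    · rw [h0, card_empty]; exact Nat.zero_le _
    · have hs : L ⊆ univ.filter (fun v => ∃ p : G.Walk v u0, p.length ≤ g - 2) := by
        intro v hv
        rw [mem_filter]
        refine ⟨mem_univ _, ?_⟩
        by_cases hvu : v = u0
        · subst hvu; exact ⟨Walk.nil, by simp⟩
        · rw [hL, mem_filter] at hv hu0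
          exact hclose v u0 hv.2 hu0.2 hvu
      have h1 := card_le_card hs
      have h2 := ball D hD G hdeg u0 (g - 2)
      have h3 : L.card ≤ 2 * D ^ (g - 2) := by omega
      have h4 : D * L.card ≤ D * (2 * D ^ (g - 2)) := Nat.mul_le_mul_left D h3
      have h5 : D ^ (g - 2 + 1) ≤ D ^ g := Nat.pow_le_pow_right (by omega) (by omega)
      have h6 : D * (2 * D ^ (g - 2)) = 2 * D ^ (g - 2 + 1) := by rw [pow_succ]; ring
      rw [h6] at h4
      omega
  -- count
  have h1 : D * (univ \ L).card ≤ ∑ v, (univ.filter (G.Adj v)).card := by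
    calc D * (univ \ L).card = ∑ v ∈ univ \ L, D := by rw [sum_const, smul_eq_mul]; ring
      _ ≤ ∑ v ∈ univ \ L, (univ.filter (G.Adj v)).card := by
          refine sum_le_sum fun v hv => ?_
          rw [mem_sdiff, hL, mem_filter] at hv
          by_contra hc
          exact hv.2 ⟨mem_univ _, by omega⟩
      _ ≤ ∑ v, (univ.filter (G.Adj v)).card :=
          sum_le_sum_of_subset (subset_univ _)
  have h2 : (univ \ L).card + L.card = 4 * D ^ g := by
    rw [card_sdiff_add_card_eq_card (subset_univ _), card_univ, Fintype.card_fin]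
  have h3 : D * (4 * D ^ g) = D * (univ \ L).card + D * L.card := by
    rw [← Nat.mul_add, h2]
  rw [h3]
  omega

end fin

theorem ncard_nb {V : Type} [Fintype V] (G : SimpleGraph V) (v : V) [DecidablePred (G.Adj v)] :
    (G.neighborSet v).ncard = (univ.filter (G.Adj v)).card := by
  rw [← Set.ncard_coe_finset]
  have e : G.neighborSet v = ((univ.filter (G.Adj v) : Finset V) : Set V) := by
    ext w
    rw [coe_filter]
    constructor
    · intro h
      exact ⟨mem_univ _, h⟩
    · intro h
      exact h.2
  rw [e]

theorem main : StMax := by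
  intro D g hD hg
  classical
  obtain ⟨G, hdeg, hNC, hE⟩ := exists_maxgraph D (by omega) g hg
  refine ⟨G, fun v => ?_, fun v c hc => hNC.cycle c hc, ?_⟩
  · rw [ncard_nb]
    exact hdeg v
  · rw [sum_congr rfl fun v _ => ncard_nb G v]
    exact hE

end Pool.Agent.H262.EB.Max
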