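import Pool.Agent.H262.EB.CT

/-!
# The norm of the twisted base operators (helper264, for helper262)
-/

set_option autoImplicit false

namespace Pool.Agent.H262.EB.Norm

open Finset
open Pool.Agent.H262.EB

section

variable {V : Type} [Fintype V] [DecidableEq V] (G : SimpleGraph V) [DecidableRel G.Adj]
  (h'' : V → V → ZMod 4)

/-- the weights of the cover -/
noncomputable def mm (x y : V × ZMod 4) : ℝ :=
  if G.Adj x.1 y.1 ∧ y.2 = x.2 + h'' x.1 y.1 then 1 else 0

omit [Fintype V] in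
theorem row (W : Finset (V × ZMod 4)) (x : V × ZMod 4) :
    (∑ y ∈ W, mm G h'' x y) =
      ({v | G.Adj x.1 v ∧ (v, x.2 + h'' x.1 v) ∈ W}.ncard : ℝ) := by
  unfold mm
  rw [Finset.sum_boole]
  have h1 : {v | G.Adj x.1 v ∧ (v, x.2 + h'' x.1 v) ∈ W} =
      (((W.filter fun y => G.Adj x.1 y.1 ∧ y.2 = x.2 + h'' x.1 y.1).image Prod.fst : Finset V) :
        Set V) := by
    ext v
    rw [Finset.mem_coe, Finset.mem_image]
    constructor
    · rintro ⟨h1, h2⟩
      exact ⟨(v, x.2 + h'' x.1 v), Finset.mem_filter.2 ⟨h2, h1, rfl⟩, rfl⟩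
    · rintro ⟨y, hy, rfl⟩
      obtain ⟨h1, h2, h3⟩ := Finset.mem_filter.1 hy
      refine ⟨h2, ?_⟩
      rw [← h3]
      exact h1
  rw [h1, Set.ncard_coe_finset, Finset.card_image_of_injOn]
  intro y hy z hz hyz
  obtain ⟨-, -, h3⟩ := Finset.mem_filter.1 (Finset.mem_coe.1 hy)
  obtain ⟨-, -, h4⟩ := Finset.mem_filter.1 (Finset.mem_coe.1 hz)
  have h5 : y.1 = z.1 := hyz
  refine Prod.ext h5 ?_
  rw [h3, h4, h5]

end

theorem main (hC : StCheeger) : StNorm := by
  intro V _ _ G _ h hdeg hiso h'' hanti hlift F hF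
  have key := hC (V × ZMod 4) Finset.univ (mm G h'') (fun x => (x.1, x.2 + 2)) (DD : ℝ) (EE : ℝ)
    ((DD : ℝ) - 8192) ?_ ?_ ?_ ?_ ?_ ?_ ?_ ?_ ?_ ?_ (fun x => F x.1 x.2) (fun x => hF x.1 x.2)
  · have e1 : (∑ x : V × ZMod 4, ∑ y : V × ZMod 4, mm G h'' x y * (F x.1 x.2 * F y.1 y.2)) =
        ∑ u, ∑ j, ∑ v, if G.Adj u v then F u j * F v (j + h'' u v) else 0 := by
      rw [Fintype.sum_prod_type]
      refine Finset.sum_congr rfl fun u _ => Finset.sum_congr rfl fun j _ => ?_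
      rw [Fintype.sum_prod_type]
      refine Finset.sum_congr rfl fun v _ => ?_
      by_cases huv : G.Adj u v
      · rw [if_pos huv, Finset.sum_eq_single (j + h'' u v)]
        · unfold mm
          rw [if_pos ⟨huv, rfl⟩, one_mul]
        · intro b _ hb
          unfold mm
          rw [if_neg fun hh => hb hh.2, zero_mul]
        · intro hn
          exact absurd (Finset.mem_univ _) hn
      · rw [if_neg huv]
        refine Finset.sum_eq_zero fun b _ => ?_
        unfold mm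
        rw [if_neg fun hh => huv hh.1, zero_mul]
    have e2 : (∑ x : V × ZMod 4, F x.1 x.2 ^ 2) = ∑ u, ∑ j, F u j ^ 2 := by
      rw [Fintype.sum_prod_type]
    rw [← e1, ← e2]
    exact key
  · intro x y
    unfold mm
    split_ifs
    · exact zero_le_one
    · exact le_rfl
  · intro x y
    unfold mm
    have h1 : (G.Adj x.1 y.1 ∧ y.2 = x.2 + h'' x.1 y.1) ↔
        (G.Adj y.1 x.1 ∧ x.2 = y.2 + h'' y.1 x.1) := by
      rw [hanti x.1 y.1]
      constructor
      · rintro ⟨h2, h3⟩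
        exact ⟨h2.symm, by rw [h3]; ring⟩
      · rintro ⟨h2, h3⟩
        exact ⟨h2.symm, by rw [h3]; ring⟩
    exact if_congr h1 rfl rfl
  · intro x
    have h1 : ∀ j : ZMod 4, j + 2 + 2 = j := by decide
    exact Prod.ext rfl (h1 x.2)
  · intro x _
    exact Finset.mem_univ _
  · intro x y
    unfold mm
    refine if_congr ?_ rfl rfl
    refine and_congr Iff.rfl ?_
    show y.2 + 2 = x.2 + 2 + h'' x.1 y.1 ↔ y.2 = x.2 + h'' x.1 y.1
    constructor
    · intro h2
      have h3 : y.2 + 2 = (x.2 + h'' x.1 y.1) + 2 := by rw [h2]; ring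
      exact add_right_cancel h3
    · intro h2
      rw [h2]
      ring
  · intro x _
    rw [row]
    have h1 : {v | G.Adj x.1 v ∧ (v, x.2 + h'' x.1 v) ∈ (Finset.univ : Finset (V × ZMod 4))} =
        G.neighborSet x.1 := by
      ext v
      constructor
      · exact fun h2 => h2.1
      · exact fun h2 => ⟨h2, Finset.mem_univ _⟩
    rw [h1]
    exact_mod_cast hdeg x.1
  · exact Nat.cast_nonneg _
  · show (0 : ℝ) ≤ ((4194304 : ℕ) : ℝ) - 8192
    norm_num
  · show ((4194304 : ℕ) : ℝ) ^ 2 - ((262144 : ℕ) : ℝ) ^ 2 ≤ (((4194304 : ℕ) : ℝ) - 8192) ^ 2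
    norm_num
  · intro W _ hW
    have h1 := hiso h'' hanti hlift W hW
    have h2 : ∑ x ∈ W, ∑ y ∈ W, mm G h'' x y =
        ((∑ w ∈ W, {v | G.Adj w.1 v ∧ (v, w.2 + h'' w.1 v) ∈ W}.ncard : ℕ) : ℝ) := by
      rw [Nat.cast_sum]
      exact Finset.sum_congr rfl fun x _ => row G h'' W x
    rw [h2]
    have h3 : ((∑ w ∈ W, {v | G.Adj w.1 v ∧ (v, w.2 + h'' w.1 v) ∈ W}.ncard : ℕ) : ℝ) +
        (EE : ℝ) * W.card ≤ (DD : ℝ) * W.card := by exact_mod_cast h1
    rw [sub_mul]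
    linarith

end Pool.Agent.H262.EB.Norm
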