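import Pool.Agent.H262.EB.CT

/-!
# Project EB (helper262), job CT-PARITY (helper190): from parities to `ZMod 4`-covers
-/

set_option autoImplicit false

namespace Pool.Agent.H262.EB.Parity

open Finset

/-- reduction modulo `2` -/
def par (x : ZMod 4) : ZMod 2 := if x = 0 ∨ x = 2 then 0 else 1

theorem par_ss : ∀ a b c : ZMod 4, par c ≠ par a + par b → a + c ≠ b := by decide

theorem par_dd : ∀ a b c : ZMod 4, par c ≠ par a + par b →
    (({a, a + 1} : Finset (ZMod 4)).filter fun j => j + c ∈ ({b, b + 1} : Finset (ZMod 4))).card ≤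
      1 := by decide

theorem par_ds : ∀ a b c : ZMod 4,
    (({a, a + 1} : Finset (ZMod 4)).filter fun j => j + c ∈ ({b} : Finset (ZMod 4))).card ≤
      1 := by decide

theorem card_d : ∀ a : ZMod 4, ({a, a + 1} : Finset (ZMod 4)).card = 2 := by decide

theorem d_ne_s : ∀ a b : ZMod 4, ({a, a + 1} : Finset (ZMod 4)) ≠ {b} := by decide

theorem shape : ∀ A : Finset (ZMod 4), A.Nonempty → (∀ j ∈ A, j + 2 ∉ A) →
    ∃ a, A = {a} ∨ A = {a, a + 1} := by decide

/-- the number of the points of the fibre `A` which are moved into the fibre `B` -/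
def mv (A B : Finset (ZMod 4)) (c : ZMod 4) : ℕ := (A.filter fun j => j + c ∈ B).card

theorem mv_le (A B : Finset (ZMod 4)) (c : ZMod 4) : mv A B c ≤ A.card := card_filter_le _ _

/-- a fibre given by its kind and its base point -/
def fib (k : Bool) (a : ZMod 4) : Finset (ZMod 4) := if k = true then {a, a + 1} else {a}

theorem mv_bad (k k' : Bool) (a b c : ZMod 4)
    (h : (k = k' ∧ par c ≠ par a + par b) ∨ (k = true ∧ k' = false)) :
    mv (fib k a) (fib k' b) c + 1 ≤ (fib k a).card := by
  rcases h with ⟨rfl, h⟩ | ⟨rfl, rfl⟩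
  · cases k with
    | false =>
      have h1 : mv (fib false a) (fib false b) c = 0 := by
        unfold mv fib
        rw [card_eq_zero, filter_eq_empty_iff]
        intro j hj hjc
        simp only [Bool.false_eq_true, if_false, mem_singleton] at hj hjc
        subst hj
        exact par_ss j b c h hjc
      rw [h1]
      simp [fib]
    | true =>
      have h1 := par_dd a b c h
      have h2 := card_d a
      simp only [mv, fib, if_true]
      omega
  · have h1 := par_ds a b c
    have h2 := card_d a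
    simp only [mv, fib, if_true, Bool.false_eq_true, if_false]
    omega

theorem fib_card (k : Bool) (a : ZMod 4) : 1 ≤ (fib k a).card ∧ (fib k a).card ≤ 2 := by
  cases k with
  | false => simp [fib]
  | true =>
    have h := card_d a
    simp only [fib, if_true]
    omega

theorem ncard_eq {V : Type} [Fintype V] (p : V → Prop) [DecidablePred p] :
    {v | p v}.ncard = (univ.filter p).card := by
  rw [← Set.ncard_coe_finset]
  simp

/-- the cochain -/
def hh {V : Type} (e : V → ℕ) (t : V → V → ZMod 2) (u v : V) : ℤ :=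
  if t u v = 0 then 0 else if e u < e v then 1 else if e v < e u then -1 else 0

theorem hh_anti {V : Type} (e : V → ℕ) (t : V → V → ZMod 2) (ht : ∀ u v, t u v = t v u) (u v : V) :
    hh e t v u = - hh e t u v := by
  unfold hh
  rw [ht v u]
  by_cases h1 : t u v = 0
  · simp [h1]
  · rcases lt_trichotomy (e u) (e v) with h | h | h
    · simp [h1, h, h.not_gt]
    · simp [h1, h]
    · simp [h1, h, h.not_gt]

theorem hh_abs {V : Type} (e : V → ℕ) (t : V → V → ZMod 2) (u v : V) : |hh e t u v| ≤ 1 := by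
  unfold hh
  split_ifs <;> simp

theorem z2 : ∀ x : ZMod 2, x ≠ 0 → x = 1 := by decide

theorem hh_par {V : Type} (e : V → ℕ) (t : V → V → ZMod 2) (u v : V) (he : e u ≠ e v) (c : ZMod 4)
    (hc : c = (hh e t u v : ZMod 4) ∨ c = (hh e t u v : ZMod 4) + 2) : par c = t u v := by
  by_cases h1 : t u v = 0
  · have h2 : hh e t u v = 0 := by simp [hh, h1]
    rw [h1]
    rw [h2] at hc
    rcases hc with rfl | rfl
    · simp [par]
    · simp [par]
  · rw [z2 _ h1]
    rcases lt_or_gt_of_ne he with h | h
    · have h2 : hh e t u v = 1 := by simp [hh, h1, h]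
      rw [h2] at hc
      rcases hc with rfl | rfl <;> rw [Int.cast_one] <;> decide
    · have h2 : hh e t u v = -1 := by simp [hh, h1, h, h.not_gt]
      rw [h2] at hc
      rcases hc with rfl | rfl <;> rw [Int.cast_neg, Int.cast_one] <;> decide

theorem main : StParity := by
  classical
  intro V _ _ G t D η ht hD hpi
  obtain ⟨e, he⟩ : ∃ e : V → ℕ, Function.Injective e :=
    ⟨fun v => (Fintype.equivFin V v : ℕ), fun a b h => (Fintype.equivFin V).injective (Fin.ext h)⟩
  refine ⟨hh e t, hh_anti e t ht, hh_abs e t, ?_⟩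
  intro h'' hanti hh'' W hW
  set U : Finset V := W.image Prod.fst with hU
  set F : V → Finset (ZMod 4) := fun u => univ.filter fun j => (u, j) ∈ W with hF
  have hmF : ∀ u j, j ∈ F u ↔ (u, j) ∈ W := fun u j => by simp [hF]
  have hmU : ∀ u j, (u, j) ∈ W → u ∈ U := fun u j h => mem_image.2 ⟨_, h, rfl⟩
  -- the shape of the fibres
  have hsh : ∀ u, ∃ (k : Bool) (a : ZMod 4), u ∈ U → F u = fib k a := by
    intro u
    by_cases hu : u ∈ U
    · obtain ⟨w, hw, rfl⟩ := mem_image.1 hu
      obtain ⟨a, ha⟩ := shape (F w.1) ⟨w.2, (hmF _ _).2 hw⟩ (by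
        intro j hj hj2
        exact hW (w.1, j) ((hmF _ _).1 hj) ((hmF _ _).1 hj2))
      rcases ha with ha | ha
      · exact ⟨false, a, fun _ => by rw [ha]; simp [fib]⟩
      · exact ⟨true, a, fun _ => by rw [ha]; simp [fib]⟩
    · exact ⟨false, 0, fun h => (hu h).elim⟩
  choose k a hka using hsh
  -- sums over the fibres
  have hprod : ∀ p : V × ZMod 4, p ∈ W ↔ p.1 ∈ U ∧ p.2 ∈ F p.1 := by
    rintro ⟨u, j⟩
    exact ⟨fun h => ⟨hmU u j h, (hmF _ _).2 h⟩, fun h => (hmF _ _).1 h.2⟩
  have hcard : W.card = ∑ u ∈ U, (F u).card := by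
    rw [card_eq_sum_ones, sum_finset_product W U F hprod]
    refine sum_congr rfl fun u _ => ?_
    rw [card_eq_sum_ones]
  set bad : V → V → Prop := fun u v =>
    (k u = k v ∧ t u v ≠ par (a u) + par (a v)) ∨ (k u = true ∧ k v = false) with hbad
  -- the inequality for a pair
  have hpair : ∀ u ∈ U, ∀ v ∈ U, G.Adj u v →
      mv (F u) (F v) (h'' u v) + (if bad u v then 1 else 0) ≤ (F u).card := by
    intro u hu v hv huv
    by_cases hb : bad u v
    · rw [if_pos hb, hka u hu, hka v hv]
      apply mv_bad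
      have hne : e u ≠ e v := fun h => huv.ne (he h)
      rw [hh_par e t u v hne (h'' u v) (hh'' u v)]
      exact hb
    · rw [if_neg hb, add_zero]
      exact mv_le _ _ _
  -- the inequality for a point
  have hpt : ∀ u ∈ U, (∑ j ∈ F u, {v | G.Adj u v ∧ (v, j + h'' u v) ∈ W}.ncard) +
      (U.filter fun v => G.Adj u v ∧ bad u v).card ≤
        (F u).card * (U.filter fun v => G.Adj u v).card := by
    intro u hu
    have h1 : (∑ j ∈ F u, {v | G.Adj u v ∧ (v, j + h'' u v) ∈ W}.ncard) =
        ∑ v ∈ U.filter (fun v => G.Adj u v), mv (F u) (F v) (h'' u v) := by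
      have h2 : ∀ j ∈ F u, {v | G.Adj u v ∧ (v, j + h'' u v) ∈ W}.ncard =
          ∑ v ∈ U.filter (fun v => G.Adj u v), if j + h'' u v ∈ F v then 1 else 0 := by
        intro j _
        rw [ncard_eq, ← card_filter, filter_filter]
        congr 1
        ext v
        simp only [mem_filter, mem_univ, true_and, hmF]
        exact ⟨fun h => ⟨hmU _ _ h.2, h.1, h.2⟩, fun h => ⟨h.2.1, h.2.2⟩⟩
      rw [sum_congr rfl h2, sum_comm]
      refine sum_congr rfl fun v _ => ?_
      rw [mv, card_filter]
    have h3 : (U.filter fun v => G.Adj u v ∧ bad u v).card =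
        ∑ v ∈ U.filter (fun v => G.Adj u v), if bad u v then 1 else 0 := by
      rw [← card_filter, filter_filter]
    rw [h1, h3, ← sum_add_distrib, mul_comm, ← smul_eq_mul, ← sum_const]
    refine sum_le_sum fun v hv => ?_
    exact hpair u hu v (mem_filter.1 hv).1 (mem_filter.1 hv).2
  -- the parity inequality
  have hpi1 := hpi U k (fun u => par (a u))
  have e1 : ∀ u ∈ U, {v | v ∈ U ∧ G.Adj u v}.ncard = (U.filter fun v => G.Adj u v).card := by
    intro u _
    rw [ncard_eq]
    congr 1
    ext v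
    simp
  have e2 : ∀ u ∈ U, {v | v ∈ U ∧ G.Adj u v ∧ ((k u = k v ∧ t u v ≠ par (a u) + par (a v)) ∨
      (k u = true ∧ k v = false))}.ncard = (U.filter fun v => G.Adj u v ∧ bad u v).card := by
    intro u _
    rw [ncard_eq]
    congr 1
    ext v
    simp [hbad]
  rw [sum_congr rfl e1, sum_congr rfl e2] at hpi1
  -- the degrees
  have hdeg : ∀ u ∈ U, (U.filter fun v => G.Adj u v).card ≤ D := by
    intro u hu
    refine le_trans ?_ (hD u)
    rw [← Set.ncard_coe_finset]
    refine Set.ncard_le_ncard ?_ (Set.toFinite _)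
    intro v hv
    exact (mem_filter.1 (mem_coe.1 hv)).2
  have hone : ∀ u ∈ U, 1 ≤ (F u).card ∧ (F u).card ≤ 2 := fun u hu => by
    rw [hka u hu]
    exact fib_card _ _
  -- the final computation
  have hsum : (∑ w ∈ W, {v | G.Adj w.1 v ∧ (v, w.2 + h'' w.1 v) ∈ W}.ncard) =
      ∑ u ∈ U, ∑ j ∈ F u, {v | G.Adj u v ∧ (v, j + h'' u v) ∈ W}.ncard :=
    sum_finset_product W U F hprod
  have hfin : ∀ u ∈ U, (∑ j ∈ F u, {v | G.Adj u v ∧ (v, j + h'' u v) ∈ W}.ncard) +
      (U.filter fun v => G.Adj u v ∧ bad u v).card + D ≤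
        D * (F u).card + (U.filter fun v => G.Adj u v).card := by
    intro u hu
    have h1 := hpt u hu
    have h2 := hdeg u hu
    have h3 := (hone u hu).1
    obtain ⟨x, hx⟩ := Nat.exists_eq_add_of_le h2
    obtain ⟨y, hy⟩ := Nat.exists_eq_add_of_le h3
    rw [hy] at h1 ⊢
    rw [hx]
    nlinarith [Nat.zero_le (x * y)]
  have h4 := sum_le_sum hfin
  rw [sum_add_distrib, sum_add_distrib, sum_add_distrib, ← mul_sum, ← hcard, sum_const,
    smul_eq_mul, ← hsum] at h4
  have h5 : W.card ≤ 2 * U.card := by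
    rw [hcard, mul_comm, ← smul_eq_mul, ← sum_const]
    exact sum_le_sum fun u hu => (hone u hu).2
  have h6 : η * W.card ≤ 2 * η * U.card := by
    calc η * W.card ≤ η * (2 * U.card) := Nat.mul_le_mul_left _ h5
      _ = 2 * η * U.card := by ring
  have h7 : U.card * D = D * U.card := mul_comm _ _
  omega

end Pool.Agent.H262.EB.Parity
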