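import Pool.Agent.H262.EB.AP

/-!
# Project EB: orthogonality of the lamp projections (`StPs`), by helper980
-/

set_option autoImplicit false

namespace Pool.Agent.H262.EB.Ps

open Finset
open scoped symmDiff

theorem sign_prod {S : Type} [DecidableEq S] (lam Y : Finset S) :
    (-1 : ℝ) ^ (lam ∩ Y).card = ∏ t ∈ lam, (if t ∈ Y then (-1 : ℝ) else 1) := by
  rw [Finset.prod_ite, Finset.prod_const, Finset.prod_const_one, mul_one, Finset.filter_mem_eq_inter]

theorem orth {S : Type} [Fintype S] [DecidableEq S] (A Y : Finset S) :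
    ∑ lam : Finset S, (-1 : ℝ) ^ (lam ∩ A).card * (-1 : ℝ) ^ (lam ∩ Y).card =
      if A = Y then (2 : ℝ) ^ Fintype.card S else 0 := by
  have h1 : ∀ lam : Finset S, (-1 : ℝ) ^ (lam ∩ A).card * (-1 : ℝ) ^ (lam ∩ Y).card =
      ∏ t ∈ lam, ((if t ∈ A then (-1 : ℝ) else 1) * (if t ∈ Y then (-1 : ℝ) else 1)) := by
    intro lam
    rw [sign_prod, sign_prod, Finset.prod_mul_distrib]
  simp only [h1]
  rw [← Finset.powerset_univ, ← Finset.prod_add_one]
  split_ifs with h
  · subst h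
    have h2 : ∀ t ∈ (univ : Finset S),
        (if t ∈ A then (-1 : ℝ) else 1) * (if t ∈ A then (-1 : ℝ) else 1) + 1 = 2 := by
      intro t _
      split_ifs <;> norm_num
    rw [Finset.prod_congr rfl h2, Finset.prod_const, Finset.card_univ]
  · obtain ⟨t, ht⟩ : ∃ t, ¬ (t ∈ A ↔ t ∈ Y) := by
      by_contra hno
      push Not at hno
      exact h (Finset.ext hno)
    apply Finset.prod_eq_zero (Finset.mem_univ t)
    by_cases hA : t ∈ A
    · have hY : t ∉ Y := fun hY => ht ⟨fun _ => hY, fun _ => hA⟩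
      rw [if_pos hA, if_neg hY]
      norm_num
    · have hY : t ∈ Y := by
        by_contra hY
        exact ht ⟨fun h => absurd h hA, fun h => absurd h hY⟩
      rw [if_neg hA, if_pos hY]
      norm_num

theorem main : StPs := by
  intro S _ _ d s Y
  unfold ps
  have h1 : ∀ lam : Finset S, ((2 : ℝ) ^ Fintype.card S)⁻¹ *
      (∑ τ ∈ univ.filter (fun τ : Finset S => s ∈ τ ∧ τ.card ≤ d), (-1 : ℝ) ^ (lam ∩ τ).card) *
      (-1 : ℝ) ^ (lam ∩ Y).card = ((2 : ℝ) ^ Fintype.card S)⁻¹ *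
      ∑ τ ∈ univ.filter (fun τ : Finset S => s ∈ τ ∧ τ.card ≤ d),
        (-1 : ℝ) ^ (lam ∩ τ).card * (-1 : ℝ) ^ (lam ∩ Y).card := by
    intro lam
    rw [mul_assoc, Finset.sum_mul]
  simp only [h1]
  rw [← Finset.mul_sum, Finset.sum_comm]
  simp only [orth]
  rw [Finset.sum_ite_eq']
  simp only [Finset.mem_filter, Finset.mem_univ, true_and]
  split_ifs
  · rw [inv_mul_cancel₀ (by positivity)]
  · rw [mul_zero]

end Pool.Agent.H262.EB.Ps
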