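import Pool.Agent.H262.EB.CT

/-!
# EB RANDA (helper287, for helper262): the random parity, `StRandB → StRandom`
-/

set_option autoImplicit false
set_option linter.unusedSectionVars false

namespace Pool.Agent.H262.EB.RandA

open Finset
open Pool.Agent.H262.EB
open Pool.Agent.TH628.J778

section

variable {V : Type} [Fintype V] [DecidableEq V]

open Classical in
/-- number of ordered pairs in `U` with the property `R` -/
noncomputable def ee (R : V → V → Prop) (U : Finset V) : ℕ :=
  ∑ u ∈ U, ∑ v ∈ U, if R u v then 1 else 0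

theorem ncard_eq (R : V → V → Prop) (U : Finset V) :
    ∑ u ∈ U, {v | v ∈ U ∧ R u v}.ncard = ee R U := by
  classical
  unfold ee
  refine sum_congr rfl fun u _ => ?_
  rw [← card_filter]
  have : {v | v ∈ U ∧ R u v} = ((U.filter fun v => R u v : Finset V) : Set V) := by
    ext v
    simp
  rw [this, Set.ncard_coe_finset]

theorem ee_congr {R R' : V → V → Prop} {U : Finset V}
    (h : ∀ u ∈ U, ∀ v ∈ U, (R u v ↔ R' u v)) : ee R U = ee R' U := by
  classical
  unfold ee
  refine sum_congr rfl fun u hu => sum_congr rfl fun v hv => ?_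
  by_cases hR : R u v
  · rw [if_pos hR, if_pos ((h u hu v hv).1 hR)]
  · rw [if_neg hR, if_neg fun h' => hR ((h u hu v hv).2 h')]

theorem ee_mono {R R' : V → V → Prop} {U : Finset V} (h : ∀ u v, R u v → R' u v) :
    ee R U ≤ ee R' U := by
  classical
  unfold ee
  refine sum_le_sum fun u hu => sum_le_sum fun v hv => ?_
  by_cases hR : R u v
  · rw [if_pos hR, if_pos (h u v hR)]
  · rw [if_neg hR]
    exact Nat.zero_le _

theorem ee_add {R R' : V → V → Prop} (U : Finset V) (h : ∀ u v, R u v → ¬ R' u v) :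
    ee (fun u v => R u v ∨ R' u v) U = ee R U + ee R' U := by
  classical
  unfold ee
  rw [← sum_add_distrib]
  refine sum_congr rfl fun u _ => ?_
  rw [← sum_add_distrib]
  refine sum_congr rfl fun v _ => ?_
  by_cases hR : R u v
  · rw [if_pos (Or.inl hR), if_pos hR, if_neg (h u v hR)]
  · rw [if_neg hR, zero_add]
    by_cases hR' : R' u v
    · rw [if_pos (Or.inr hR'), if_pos hR']
    · rw [if_neg hR', if_neg fun h' => h'.elim hR hR']

theorem ee_swap (R : V → V → Prop) (U : Finset V) : ee (fun u v => R v u) U = ee R U := by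
  classical
  unfold ee
  rw [sum_comm]

theorem ee_split {R : V → V → Prop} {U A : Finset V} (hA : A ⊆ U)
    (h1 : ∀ x ∈ A, ∀ y ∈ U \ A, ¬ R x y ∧ ¬ R y x) : ee R U = ee R A + ee R (U \ A) := by
  classical
  unfold ee
  rw [← sum_sdiff hA, add_comm]
  congr 1
  · refine sum_congr rfl fun u hu => ?_
    rw [← sum_sdiff hA]
    have : ∑ v ∈ U \ A, (if R u v then 1 else 0) = 0 :=
      sum_eq_zero fun v hv => if_neg (h1 u hu v hv).1
    rw [this, zero_add]
  · refine sum_congr rfl fun u hu => ?_
    rw [← sum_sdiff hA]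
    have : ∑ v ∈ A, (if R u v then 1 else 0) = 0 :=
      sum_eq_zero fun v hv => if_neg (h1 v hv u hu).2
    rw [this, add_zero]

theorem ee_two (G : SimpleGraph V) [DecidableRel G.Adj] (R : V → V → Prop)
    [DecidablePred fun p : V × V => R p.1 p.2] (hR : ∀ u v, R u v → R v u) (U : Finset V) :
    ee (fun u v => G.Adj u v ∧ R u v) U = 2 * ((P G U).filter fun p => R p.1 p.2).card := by
  classical
  let G' : SimpleGraph V :=
    { Adj := fun u v => G.Adj u v ∧ R u v
      symm := ⟨fun u v h => ⟨h.1.symm, hR u v h.2⟩⟩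
      loopless := ⟨fun u h => G.loopless.irrefl u h.1⟩ }
  have h1 : ee (fun u v => G.Adj u v ∧ R u v) U =
      ∑ u ∈ U, ∑ v ∈ U, if G'.Adj u v then 1 else 0 := by
    unfold ee
    refine sum_congr rfl fun u _ => sum_congr rfl fun v _ => ?_
    by_cases hR : G.Adj u v ∧ R u v
    · rw [if_pos hR, if_pos (show G'.Adj u v from hR)]
    · rw [if_neg hR, if_neg (show ¬ G'.Adj u v from hR)]
  rw [h1, two_P G' U]
  congr 2
  ext p
  simp only [P, mem_filter, mem_product]
  constructor
  · rintro ⟨h, ⟨h2, h3⟩, h4⟩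
    exact ⟨⟨h, h2, h4⟩, h3⟩
  · rintro ⟨⟨h, h2, h4⟩, h3⟩
    exact ⟨h, ⟨h2, h3⟩, h4⟩

/-- the bit of a pair -/
noncomputable def tt (s : V × V → Bool) (u v : V) : ZMod 2 :=
  if idx u < idx v then (if s (u, v) then 1 else 0) else (if s (v, u) then 1 else 0)

theorem tt_symm (s : V × V → Bool) (u v : V) : tt s u v = tt s v u := by
  unfold tt
  rcases lt_trichotomy (idx u) (idx v) with h | h | h
  · rw [if_pos h, if_neg (not_lt.2 h.le)]
  · rw [idx_inj h]
  · rw [if_neg (not_lt.2 h.le), if_pos h]

/-- the pairs counted on the right -/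
def Bd (G : SimpleGraph V) (t : V → V → ZMod 2) (k : V → Bool) (f : V → ZMod 2) (u v : V) : Prop :=
  G.Adj u v ∧ ((k u = k v ∧ t u v ≠ f u + f v) ∨ (k u = true ∧ k v = false))

theorem parity_iff (G : SimpleGraph V) (t : V → V → ZMod 2) (D η : ℕ) :
    ParityIso G t D η ↔ ∀ (U : Finset V) (k : V → Bool) (f : V → ZMod 2),
      ee G.Adj U + 2 * η * U.card ≤ D * U.card + ee (Bd G t k f) U := by
  unfold ParityIso
  refine forall_congr' fun U => forall_congr' fun k => forall_congr' fun f => ?_
  rw [ncard_eq G.Adj U]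
  have := ncard_eq (Bd G t k f) U
  unfold Bd at this
  rw [this]
  rfl

theorem ee_le_deg (G : SimpleGraph V) (D : ℕ) (hd : ∀ v, (G.neighborSet v).ncard ≤ D)
    (U : Finset V) : ee G.Adj U ≤ D * U.card := by
  rw [← ncard_eq, mul_comm, ← smul_eq_mul, ← sum_const]
  refine sum_le_sum fun u _ => le_trans ?_ (hd u)
  exact Set.ncard_le_ncard (fun v hv => hv.2) (Set.toFinite _)

/-- minimal counterexamples are connected -/
theorem min_conn (G : SimpleGraph V) (t : V → V → ZMod 2) (D η : ℕ) (k : V → Bool)
    (f : V → ZMod 2)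
    (h : ∃ U : Finset V, D * U.card + ee (Bd G t k f) U < ee G.Adj U + 2 * η * U.card) :
    ∃ U : Finset V, D * U.card + ee (Bd G t k f) U < ee G.Adj U + 2 * η * U.card ∧ Conn G U := by
  classical
  obtain ⟨U0, h0⟩ := h
  obtain ⟨U, hU, hmin⟩ := (univ.filter fun U : Finset V =>
    D * U.card + ee (Bd G t k f) U < ee G.Adj U + 2 * η * U.card)
    |>.exists_min_image card ⟨U0, by simpa using h0⟩
  rw [mem_filter] at hU
  refine ⟨U, hU.2, ?_⟩
  intro A hAU hA hne
  by_contra hcon
  push Not at hcon
  have key : ∀ W ⊆ U, W ≠ U →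
      ee G.Adj W + 2 * η * W.card ≤ D * W.card + ee (Bd G t k f) W := by
    intro W hWU hW
    by_contra hlt
    push Not at hlt
    have h2 := hmin W (by rw [mem_filter]; exact ⟨mem_univ _, hlt⟩)
    exact hW (eq_of_subset_of_card_le hWU h2)
  have k1 := key A hAU hne
  have k2 := key (U \ A) sdiff_subset (by
    intro heq
    obtain ⟨a, ha⟩ := hA
    have h3 : a ∈ U \ A := by
      rw [heq]
      exact hAU ha
    exact (mem_sdiff.1 h3).2 ha)
  have s1 : ee G.Adj U = ee G.Adj A + ee G.Adj (U \ A) :=
    ee_split hAU fun x hx y hy => ⟨hcon x hx y hy, fun h => hcon x hx y hy h.symm⟩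
  have s2 : ee (Bd G t k f) U = ee (Bd G t k f) A + ee (Bd G t k f) (U \ A) :=
    ee_split hAU fun x hx y hy => ⟨fun h => hcon x hx y hy h.1, fun h => hcon x hx y hy h.1.symm⟩
  have hcard : U.card = A.card + (U \ A).card := by
    have := card_sdiff_add_card_eq_card hAU
    omega
  have h5 := hU.2
  rw [s1, s2, hcard, mul_add, mul_add] at h5
  omega

theorem ee_empty (R : V → V → Prop) : ee R ∅ = 0 := by
  unfold ee
  exact sum_empty

end

theorem main : StRandB → StRandom := by
  intro hB V _ _ G g hg hcard hd hsp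
  classical
  have hdeg : ∀ v, G.degree v ≤ DD := by
    intro v
    have h1 := hd v
    have h2 : G.neighborSet v = (G.neighborFinset v : Set V) := (G.coe_neighborFinset v).symm
    rw [h2, Set.ncard_coe_finset, G.card_neighborFinset_eq_degree] at h1
    exact h1
  obtain ⟨s, hs⟩ := hB V G g hg hcard hdeg
  refine ⟨tt s, tt_symm s, ?_⟩
  rw [parity_iff]
  by_contra hcon
  push Not at hcon
  obtain ⟨U0, k0, f0, h0⟩ := hcon
  obtain ⟨U, hU, hconn⟩ := min_conn G (tt s) DD EE k0 f0 ⟨U0, h0⟩
  -- trivial outside `U`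
  set k : V → Bool := fun v => if v ∈ U then k0 v else false with hk
  set f : V → ZMod 2 := fun v => if v ∈ U then f0 v else 0 with hf
  have hkf : ee (Bd G (tt s) k0 f0) U = ee (Bd G (tt s) k f) U := by
    refine ee_congr fun u hu v hv => ?_
    have e1 : k u = k0 u := if_pos hu
    have e2 : k v = k0 v := if_pos hv
    have e3 : f u = f0 u := if_pos hu
    have e4 : f v = f0 v := if_pos hv
    unfold Bd
    rw [e1, e2, e3, e4]
  rw [hkf] at hU
  have hne : U.Nonempty := by
    rw [nonempty_iff_ne_empty]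
    rintro rfl
    rw [ee_empty, ee_empty, card_empty] at hU
    omega
  have hpos : 0 < U.card := card_pos.2 hne
  have hgU : g ≤ U.card := by
    refine hsp U hne ?_
    rw [ncard_eq]
    simp only [DD, EE] at hU
    omega
  have hle := ee_le_deg G DD hd U
  -- the different kinds of pairs
  have hsame2 : ee (fun u v => G.Adj u v ∧ k u = k v) U =
      2 * ((P G U).filter fun p => k p.1 = k p.2).card :=
    ee_two G (fun u v => k u = k v) (fun u v h => h.symm) U
  have hbad2 : ee (fun u v => G.Adj u v ∧ (k u = k v ∧ tt s u v ≠ f u + f v)) U =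
      2 * ((P G U).filter fun p => k p.1 = k p.2 ∧
        (if s p then (1 : ZMod 2) else 0) ≠ f p.1 + f p.2).card := by
    rw [ee_two G (fun u v => k u = k v ∧ tt s u v ≠ f u + f v)
      (fun u v h => ⟨h.1.symm, by rw [tt_symm s v u, add_comm]; exact h.2⟩) U]
    congr 2
    ext p
    simp only [mem_filter]
    refine and_congr_right fun hp => and_congr_right fun _ => ?_
    have hlt : idx p.1 < idx p.2 := by
      rw [P, mem_filter] at hp
      exact hp.2.2
    have : tt s p.1 p.2 = if s p then (1 : ZMod 2) else 0 := by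
      unfold tt
      rw [if_pos hlt]
    rw [this]
  have hall : ee G.Adj U = ee (fun u v => G.Adj u v ∧ k u = k v) U +
      (ee (fun u v => G.Adj u v ∧ (k u = true ∧ k v = false)) U +
        ee (fun u v => G.Adj u v ∧ (k u = true ∧ k v = false)) U) := by
    have e1 : ee (fun u v => G.Adj u v ∧ (k u = true ∧ k v = false)) U =
        ee (fun u v => G.Adj u v ∧ (k v = true ∧ k u = false)) U := by
      rw [← ee_swap (fun u v => G.Adj u v ∧ (k u = true ∧ k v = false)) U]
      refine ee_congr fun u _ v _ => ?_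
      rw [G.adj_comm]
    conv_rhs => rw [← add_assoc]
    rw [← ee_add U (R := fun u v => G.Adj u v ∧ k u = k v)
      (R' := fun u v => G.Adj u v ∧ (k u = true ∧ k v = false))
      (fun u v h h' => by
        have h1 := h.2
        rw [h'.2.1, h'.2.2] at h1
        exact absurd h1 (by decide)), e1,
      ← ee_add U (R' := fun u v => G.Adj u v ∧ (k v = true ∧ k u = false))
      (fun u v h h' => by
        rcases h with h | h
        · have h1 := h.2
          rw [h'.2.1, h'.2.2] at h1
          exact absurd h1 (by decide)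
        · rw [h'.2.1] at h
          exact absurd h.2.2 (by decide))]
    refine ee_congr fun u _ v _ => ?_
    constructor
    · intro h
      rcases hku : k u with _ | _
      · rcases hkv : k v with _ | _
        · exact Or.inl (Or.inl ⟨h, rfl⟩)
        · exact Or.inr ⟨h, rfl, rfl⟩
      · rcases hkv : k v with _ | _
        · exact Or.inl (Or.inr ⟨h, rfl, rfl⟩)
        · exact Or.inl (Or.inl ⟨h, rfl⟩)
    · rintro ((h | h) | h)
      · exact h.1
      · exact h.1
      · exact h.1
  have hB2 : ee (Bd G (tt s) k f) U =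
      ee (fun u v => G.Adj u v ∧ (k u = k v ∧ tt s u v ≠ f u + f v)) U +
        ee (fun u v => G.Adj u v ∧ (k u = true ∧ k v = false)) U := by
    rw [← ee_add U (R := fun u v => G.Adj u v ∧ (k u = k v ∧ tt s u v ≠ f u + f v))
      (R' := fun u v => G.Adj u v ∧ (k u = true ∧ k v = false))
      (fun u v h h' => by
        have h1 := h.2.1
        rw [h'.2.1, h'.2.2] at h1
        exact absurd h1 (by decide))]
    refine ee_congr fun u _ v _ => ?_
    unfold Bd
    tauto
  have hmany : 5 * EE * U.card ≤ ((P G U).filter fun p => k p.1 = k p.2).card := by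
    simp only [DD, EE] at hU hle ⊢
    omega
  have hfin := hs U k f hconn hgU
    (fun v hv => ⟨if_neg hv, if_neg hv⟩) hmany
  simp only [DD, EE] at hU hle hfin
  omega

end Pool.Agent.H262.EB.RandA
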