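import Pool.Agent.H262.EB.CT

/-!
# Project EB (helper262), job CT-RANDB (helper969): union bound for random parities
-/

set_option autoImplicit false
set_option linter.unusedSectionVars false

namespace Pool.Agent.H262.EB.RandB

open Finset
open Pool.Agent.TH628.J778

section main

variable {V : Type} [Fintype V] [DecidableEq V]

/-- the pairs of functions which are trivial outside `U` -/
noncomputable def PsiB (U : Finset V) : Finset (V → Bool × ZMod 2) :=
  Fintype.piFinset fun v => if v ∈ U then univ else {(false, 0)}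

theorem mem_PsiB {U : Finset V} {ψ : V → Bool × ZMod 2} :
    ψ ∈ PsiB U ↔ ∀ v, v ∉ U → ψ v = (false, 0) := by
  unfold PsiB
  rw [Fintype.mem_piFinset]
  refine forall_congr' fun v => ?_
  by_cases hv : v ∈ U
  · simp [hv]
  · simp [hv]

theorem card_PsiB (U : Finset V) : (PsiB U).card = 4 ^ U.card := by
  unfold PsiB
  rw [Fintype.card_piFinset]
  have h1 : ∀ v : V, (if v ∈ U then (univ : Finset (Bool × ZMod 2)) else {(false, 0)}).card =
      if v ∈ U then 4 else 1 := by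
    intro v
    split_ifs
    · rw [card_univ, Fintype.card_prod, Fintype.card_bool, ZMod.card]
    · simp
  rw [prod_congr rfl fun v _ => h1 v, prod_ite_mem, univ_inter, prod_const]

/-- the inner edges of the same kind -/
noncomputable def MM (G : SimpleGraph V) [DecidableRel G.Adj] (U : Finset V) (ψ : V → Bool × ZMod 2) :
    Finset (V × V) :=
  (P G U).filter fun p => (ψ p.1).1 = (ψ p.2).1

/-- bad bits -/
def Bad (ψ : V → Bool × ZMod 2) (p : V × V) (b : Bool) : Prop :=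
  (if b then (1 : ZMod 2) else 0) ≠ (ψ p.1).2 + (ψ p.2).2

instance (ψ : V → Bool × ZMod 2) (p : V × V) (b : Bool) : Decidable (Bad ψ p b) := by
  unfold Bad
  infer_instance

theorem bad_one (ψ : V → Bool × ZMod 2) (p : V × V) : Bad ψ p true ∨ Bad ψ p false := by
  by_contra hcon
  push Not at hcon
  obtain ⟨h1, h2⟩ := hcon
  unfold Bad at h1 h2
  push Not at h1 h2
  rw [← h2] at h1
  revert h1
  decide

theorem numericB (η g k n : ℕ) (hη : 100 ≤ η) (hk : 1 ≤ k) (hgk : g ≤ k)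
    (hn : n ≤ 4 * DD ^ g) :
    ((n : ℝ) * (DD : ℝ) ^ (2 * k)) * (4 * (4 * (5 / 8) ^ 5) ^ η) ^ k ≤ (1 / 4) ^ k := by
  have hq : (4 * (5 / 8 : ℝ) ^ 5) ^ η ≤ 1 / 2 ^ 130 := by
    calc (4 * (5 / 8 : ℝ) ^ 5) ^ η ≤ (2 / 5 : ℝ) ^ η := by
          refine pow_le_pow_left₀ (by norm_num) (by norm_num) _
      _ ≤ (2 / 5 : ℝ) ^ 100 := pow_le_pow_of_le_one (by norm_num) (by norm_num) hη
      _ ≤ 1 / 2 ^ 130 := by norm_num
  have hq0 : 0 ≤ (4 * (5 / 8 : ℝ) ^ 5) ^ η := by positivity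
  obtain ⟨q, hqd⟩ : ∃ q : ℝ, q = (4 * (5 / 8 : ℝ) ^ 5) ^ η := ⟨_, rfl⟩
  rw [← hqd] at hq hq0 ⊢
  have h1 : (n : ℝ) ≤ 4 * (DD : ℝ) ^ k := by
    have : (n : ℝ) ≤ 4 * (DD : ℝ) ^ g := by exact_mod_cast hn
    refine this.trans ?_
    have := pow_le_pow_right₀ (by norm_num : (1 : ℝ) ≤ (DD : ℝ)) hgk
    linarith
  have h2 : (DD : ℝ) ^ 3 * (4 * q) ≤ 1 / 2 ^ 62 := by
    have e : (DD : ℝ) = 2 ^ 22 := by norm_num
    rw [e]
    calc ((2 : ℝ) ^ 22) ^ 3 * (4 * q) ≤ (2 ^ 22) ^ 3 * (4 * (1 / 2 ^ 130)) := by gcongr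
      _ ≤ 1 / 2 ^ 62 := by norm_num
  calc ((n : ℝ) * (DD : ℝ) ^ (2 * k)) * (4 * q) ^ k
      ≤ ((4 * (DD : ℝ) ^ k) * (DD : ℝ) ^ (2 * k)) * (4 * q) ^ k := by
        gcongr
    _ = 4 * ((DD : ℝ) ^ 3 * (4 * q)) ^ k := by
        rw [mul_pow ((DD : ℝ) ^ 3), ← pow_mul, show 3 * k = k + 2 * k by ring, pow_add]
        ring
    _ ≤ 4 * (1 / 2 ^ 62) ^ k := by
        gcongr
    _ = 4 * (1 / 2 ^ 60) ^ k * (1 / 4) ^ k := by
        rw [mul_assoc, ← mul_pow]
        norm_num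
    _ ≤ 1 * (1 / 4) ^ k := by
        gcongr
        have : (1 / 2 ^ 60 : ℝ) ^ k ≤ (1 / 2 ^ 60) ^ 1 :=
          pow_le_pow_of_le_one (by norm_num) (by norm_num) hk
        rw [pow_one] at this
        have h60 : (1 / 2 ^ 60 : ℝ) ≤ 1 / 4 := by norm_num
        linarith
    _ = (1 / 4) ^ k := one_mul _

/-- the union bound, with a general number `η ≥ 100` -/
theorem union_bound (G : SimpleGraph V) [DecidableRel G.Adj] (g η : ℕ) (hg : 20 ≤ g)
    (hη : 100 ≤ η) (hcard : Fintype.card V ≤ 4 * DD ^ g) (hd : ∀ v, G.degree v ≤ DD) :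
    ∃ s : V × V → Bool, ∀ (U : Finset V) (ψ : V → Bool × ZMod 2), Conn G U → g ≤ U.card →
      ψ ∈ PsiB U → 5 * η * U.card ≤ (MM G U ψ).card →
      η * U.card ≤ ((MM G U ψ).filter fun p => Bad ψ p (s p)).card := by
  classical
  by_contra hcon
  push Not at hcon
  set UU : Finset (Finset V) := univ.filter fun U : Finset V => Conn G U ∧ g ≤ U.card with hUU
  set TT : Finset V → Finset (V → Bool × ZMod 2) := fun U =>
    (PsiB U).filter fun ψ => 5 * η * U.card ≤ (MM G U ψ).card with hTT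
  set X : ℕ := Fintype.card (V × V) with hX
  have hXpos : (0 : ℝ) < 2 ^ X := by positivity
  have step1 : (2 : ℝ) ^ X ≤ ∑ s : V × V → Bool, ∑ U ∈ UU, ∑ ψ ∈ TT U,
      (4 ^ η) ^ U.card * (1 / 4 : ℝ) ^ ((MM G U ψ).filter fun p => Bad ψ p (s p)).card := by
    have h1 : (2 : ℝ) ^ X = ∑ s : V × V → Bool, (1 : ℝ) := by
      rw [sum_const, card_univ, nsmul_eq_mul, mul_one, Fintype.card_fun, Fintype.card_bool]
      push_cast
      rfl
    rw [h1]
    refine sum_le_sum fun s _ => ?_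
    obtain ⟨U, ψ, hc, hgU, hψ, h5, hN⟩ := hcon s
    have hnn : ∀ (U : Finset V) (ψ : V → Bool × ZMod 2), (0 : ℝ) ≤
        (4 ^ η) ^ U.card * (1 / 4 : ℝ) ^ ((MM G U ψ).filter fun p => Bad ψ p (s p)).card := by
      intro U ψ
      positivity
    have t1 : (1 : ℝ) ≤
        (4 ^ η) ^ U.card * (1 / 4 : ℝ) ^ ((MM G U ψ).filter fun p => Bad ψ p (s p)).card := by
      have := pow_le_pow_of_le_one (by norm_num : (0 : ℝ) ≤ 1 / 4) (by norm_num) hN.le
      calc (1 : ℝ) = (4 ^ η) ^ U.card * (1 / 4) ^ (η * U.card) := by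
            rw [pow_mul, ← mul_pow, ← mul_pow]; norm_num
        _ ≤ _ := by gcongr
    have t2 := single_le_sum (f := fun ψ => ((4 : ℝ) ^ η) ^ U.card *
      (1 / 4 : ℝ) ^ ((MM G U ψ).filter fun p => Bad ψ p (s p)).card)
      (fun ψ _ => hnn U ψ) (show ψ ∈ TT U from mem_filter.2 ⟨hψ, h5⟩)
    have hmem : U ∈ UU := by
      rw [hUU, mem_filter]
      exact ⟨mem_univ _, hc, hgU⟩
    have t4 := single_le_sum (f := fun U => ∑ ψ ∈ TT U, ((4 : ℝ) ^ η) ^ U.card *
      (1 / 4 : ℝ) ^ ((MM G U ψ).filter fun p => Bad ψ p (s p)).card)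
      (fun U _ => sum_nonneg fun ψ _ => hnn U ψ) hmem
    exact t1.trans (t2.trans t4)
  have step2 : (∑ s : V × V → Bool, ∑ U ∈ UU, ∑ ψ ∈ TT U,
      (4 ^ η) ^ U.card * (1 / 4 : ℝ) ^ ((MM G U ψ).filter fun p => Bad ψ p (s p)).card) ≤
      ∑ U ∈ UU, 2 ^ X * (4 * (4 * (5 / 8) ^ 5) ^ η) ^ U.card := by
    rw [sum_comm]
    refine sum_le_sum fun U hU => ?_
    rw [sum_comm]
    calc _ ≤ ∑ ψ ∈ TT U, ((4 ^ η) ^ U.card * (2 ^ X * (5 / 8 : ℝ) ^ (5 * η * U.card))) := by
          refine sum_le_sum fun ψ hψ => ?_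
          rw [← mul_sum]
          refine mul_le_mul_of_nonneg_left ?_ (by positivity)
          have w1 := weight_sum (MM G U ψ) (fun p b => Bad ψ p b) fun p _ => bad_one ψ p
          have w2 : (2 : ℝ) ^ X * (5 / 8 : ℝ) ^ (MM G U ψ).card ≤
              2 ^ X * (5 / 8 : ℝ) ^ (5 * η * U.card) := by
            refine mul_le_mul_of_nonneg_left ?_ (by positivity)
            exact pow_le_pow_of_le_one (by norm_num) (by norm_num) (mem_filter.1 hψ).2
          refine le_trans (le_of_eq ?_) (w1.trans w2)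
          refine sum_congr rfl fun s _ => ?_
          congr 2
          ext p
          simp only [mem_filter]
      _ = ((TT U).card : ℝ) * ((4 ^ η) ^ U.card * (2 ^ X * (5 / 8 : ℝ) ^ (5 * η * U.card))) := by
          rw [sum_const, nsmul_eq_mul]
      _ ≤ ((PsiB U).card : ℝ) * ((4 ^ η) ^ U.card * (2 ^ X * (5 / 8 : ℝ) ^ (5 * η * U.card))) := by
          refine mul_le_mul_of_nonneg_right ?_ (by positivity)
          exact_mod_cast card_le_card (filter_subset _ _)
      _ = 2 ^ X * (4 * (4 * (5 / 8) ^ 5) ^ η) ^ U.card := by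
          rw [card_PsiB, pow_mul (5 / 8 : ℝ), pow_mul (5 / 8 : ℝ), mul_pow, mul_pow, mul_pow]
          push_cast
          ring
  have step3 : ∑ U ∈ UU, ((4 * (4 * (5 / 8 : ℝ) ^ 5) ^ η) ^ U.card) < 1 := by
    have hmaps : ∀ U ∈ UU, U.card ∈ Icc g (Fintype.card V) := by
      intro U hU
      rw [hUU, mem_filter] at hU
      rw [mem_Icc]
      exact ⟨hU.2.2, card_le_univ U⟩
    rw [← sum_fiberwise_of_maps_to hmaps]
    refine lt_of_le_of_lt (sum_le_sum fun k hk => ?_) (geo_Icc g (Fintype.card V) (by omega))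
    rw [mem_Icc] at hk
    calc ∑ U ∈ UU with U.card = k, ((4 * (4 * (5 / 8 : ℝ) ^ 5) ^ η) ^ U.card)
        = ∑ U ∈ UU with U.card = k, ((4 * (4 * (5 / 8 : ℝ) ^ 5) ^ η) ^ k) := by
          refine sum_congr rfl fun U hU => ?_
          rw [(mem_filter.1 hU).2]
      _ = ((UU.filter fun U => U.card = k).card : ℝ) *
            ((4 * (4 * (5 / 8 : ℝ) ^ 5) ^ η) ^ k) := by
          rw [sum_const, nsmul_eq_mul]
      _ ≤ ((Fintype.card V * DD ^ (2 * k) : ℕ) : ℝ) *
            ((4 * (4 * (5 / 8 : ℝ) ^ 5) ^ η) ^ k) := by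
          refine mul_le_mul_of_nonneg_right ?_ (by positivity)
          have hsub : (UU.filter fun U => U.card = k) ⊆
              univ.filter fun U : Finset V => Conn G U ∧ U.card = k := by
            intro U hU
            rw [mem_filter, hUU, mem_filter] at hU
            rw [mem_filter]
            exact ⟨mem_univ _, hU.1.2.1, hU.2⟩
          exact_mod_cast (card_le_card hsub).trans (card_conn G (by norm_num) hd k (by omega))
      _ ≤ (1 / 4) ^ k := by
          rw [Nat.cast_mul, Nat.cast_pow]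
          exact numericB η g k _ hη (by omega) hk.1 hcard
  have h4 := step1.trans step2
  rw [← mul_sum] at h4
  have h5 : (2 : ℝ) ^ X * ∑ U ∈ UU, ((4 * (4 * (5 / 8 : ℝ) ^ 5) ^ η) ^ U.card) <
      2 ^ X * 1 := mul_lt_mul_of_pos_left step3 hXpos
  linarith

end main

/-- JOB CT-RANDB. -/
theorem main : StRandB := by
  intro V _ _ G _ g hg hcard hd
  obtain ⟨s, hs⟩ := union_bound G g EE hg (by norm_num) hcard hd
  refine ⟨s, fun U k f hc hgU htr h5 => ?_⟩
  have hψ : (fun v => (k v, f v)) ∈ PsiB U := by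
    rw [mem_PsiB]
    intro v hv
    obtain ⟨h1, h2⟩ := htr v hv
    show (k v, f v) = (false, 0)
    rw [h1, h2]
  have hMM : MM G U (fun v => (k v, f v)) = (P G U).filter fun p => k p.1 = k p.2 := rfl
  have h := hs U (fun v => (k v, f v)) hc hgU hψ (by rw [hMM]; exact h5)
  refine h.trans (card_le_card ?_)
  intro p hp
  rw [mem_filter, hMM, mem_filter] at hp
  rw [mem_filter]
  exact ⟨hp.1.1, hp.1.2, hp.2⟩

end Pool.Agent.H262.EB.RandB
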