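import Pool.Agent.H262.EB.AP

/-! Project EB (helper262), task AP-SLICE: slices of the extension and Haar measure (helper230) -/

set_option autoImplicit false
set_option linter.style.haveILetI false

namespace Pool.Agent.H262.EB.Slice

open Finset MeasureTheory Pool.Agent.H262.EB

section

variable {D : Type} [Group D] (c : Cocycle D)

theorem isOpen_slice (d : D) : IsOpen (slice c d) := by
  letI : TopologicalSpace D := ⊥
  haveI : DiscreteTopology D := ⟨rfl⟩
  have h : Continuous (fun x : Tw c => x.d) := Tw.continuous_d id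
  exact (isOpen_discrete ({d} : Set D)).preimage h

theorem isCompact_slice (d : D) : IsCompact (slice c d) := by
  letI : TopologicalSpace D := ⊥
  haveI : DiscreteTopology D := ⟨rfl⟩
  have h : Continuous (fun a : ℕ → ZMod 4 => (⟨d, a⟩ : Tw c)) :=
    Tw.continuous_mk_iff (fun _ => d) (fun a => a) continuous_const continuous_id
  have h1 := isCompact_range h
  have h2 : Set.range (fun a : ℕ → ZMod 4 => (⟨d, a⟩ : Tw c)) = slice c d := by
    ext x
    constructor
    · rintro ⟨a, rfl⟩
      exact rfl
    · intro hx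
      exact ⟨x.a, Tw.ext' (Eq.symm hx) rfl⟩
  rwa [h2] at h1

theorem slice_preimage (d : D) :
    (fun x : Tw c => (⟨d, 0⟩ : Tw c)⁻¹ * x) ⁻¹' slice c 1 = slice c d := by
  ext x
  show (((⟨d, 0⟩ : Tw c)⁻¹ * x).d = 1) ↔ x.d = d
  rw [Tw.mul_d, Tw.inv_d]
  show d⁻¹ * x.d = 1 ↔ x.d = d
  rw [inv_mul_eq_one]
  exact eq_comm

theorem mem_iff (d : D) (x : Tw c) : (⟨d, 0⟩ : Tw c) * x ∈ slice c d ↔ x ∈ slice c 1 := by
  show (((⟨d, 0⟩ : Tw c) * x).d = d) ↔ x.d = 1
  rw [Tw.mul_d]
  exact mul_eq_left

end

theorem main : StSlice := by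
  intro D _ _ c
  have ho := isOpen_slice c
  have hc := isCompact_slice c
  have hm : ∀ d, MeasurableSet (slice c d) := fun d => (ho d).measurableSet
  refine ⟨fun d => ⟨ho d, hc d, hm d⟩, ?_, ?_, ?_, ?_, ?_, ?_⟩
  · intro d
    rw [← slice_preimage c d]
    exact measure_preimage_mul _ _ _
  · exact ((ho 1).measure_pos _ ⟨1, rfl⟩).ne'
  · exact (hc 1).measure_lt_top.ne
  · intro F d
    rw [← integral_indicator (hm d), ← integral_indicator (hm 1),
      ← integral_mul_left_eq_self (fun x => (slice c d).indicator F x) (⟨d, 0⟩ : Tw c)]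
    congr 1
    funext x
    by_cases hx : x ∈ slice c 1
    · rw [Set.indicator_of_mem hx, Set.indicator_of_mem ((mem_iff c d x).2 hx)]
    · rw [Set.indicator_of_notMem hx, Set.indicator_of_notMem (fun h => hx ((mem_iff c d x).1 h))]
  · intro F hF
    have hU : ⋃ d, slice c d = Set.univ := by
      rw [Set.eq_univ_iff_forall]
      intro x
      exact Set.mem_iUnion.2 ⟨x.d, rfl⟩
    have hd : Pairwise (Function.onFun Disjoint (slice c)) := by
      intro d d' hdd
      rw [Function.onFun, Set.disjoint_left]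
      intro x hx hx'
      exact hdd (hx.symm.trans hx')
    have h := hasSum_integral_iUnion hm hd (f := F) (μ := Measure.haar)
      (by rw [hU]; exact hF.integrableOn)
    rwa [hU, setIntegral_univ] at h
  · intro F hF hfin
    have hK : IsCompact (⋃ d ∈ {d : D | ∃ x : Tw c, x.d = d ∧ F x ≠ 0}, slice c d) :=
      hfin.isCompact_biUnion fun d _ => hc d
    have hcs : HasCompactSupport F := by
      refine HasCompactSupport.intro hK fun x hx => ?_
      by_contra h0
      exact hx (Set.mem_iUnion₂.2 ⟨x.d, ⟨x, rfl, h0⟩, rfl⟩)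
    exact ⟨hF.integrable_of_hasCompactSupport hcs, hF.memLp_of_hasCompactSupport hcs⟩

end Pool.Agent.H262.EB.Slice
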