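import Pool.Agent.H262.EB.AP

/-!
# Project EB (disproof of MP_6b7756_an, frozen statement S04952): job AP-TAIL

From functions of finite support to square summable functions (`StFour → StTail`), by truncation
and dominated convergence for series.
-/

set_option autoImplicit false

namespace Pool.Agent.H262.EB.Tail

open Finset Filter Topology

section trunc

variable {X : Type}

/-- For every point `y` the truncations of `F` to finite sets are eventually equal to `F` at `y`. -/
theorem eventually_eq (F : X → ℂ) (y : X) :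
    ∀ᶠ V : Finset X in atTop, Set.indicator (V : Set X) F y = F y := by
  filter_upwards [eventually_ge_atTop ({y} : Finset X)] with V hV
  apply Set.indicator_of_mem
  exact_mod_cast hV (mem_singleton_self y)

theorem norm_trunc_le (F : X → ℂ) (V : Finset X) (y : X) :
    ‖Set.indicator (V : Set X) F y‖ ≤ ‖F y‖ :=
  norm_indicator_le_norm_self F y

/-- the square norms of the truncations converge -/
theorem tendsto_norm (F : X → ℂ) (hF : Summable fun y => ‖F y‖ ^ 2) :
    Tendsto (fun V : Finset X => ∑' y, ‖Set.indicator (V : Set X) F y‖ ^ 2) atTop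
      (𝓝 (∑' y, ‖F y‖ ^ 2)) := by
  apply tendsto_tsum_of_dominated_convergence (bound := fun y => ‖F y‖ ^ 2) hF
  · intro y
    apply tendsto_const_nhds.congr'
    filter_upwards [eventually_eq F y] with V hV
    rw [hV]
  · refine Eventually.of_forall fun V y => ?_
    rw [Real.norm_of_nonneg (sq_nonneg _)]
    exact pow_le_pow_left₀ (norm_nonneg _) (norm_trunc_le F V y) 2

/-- the twisted coefficients of the truncations converge -/
theorem tendsto_coef [Group X] (F : X → ℂ) (hF : Summable fun y => ‖F y‖ ^ 2) (c : X → ℂ)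
    (hc : ∀ y, ‖c y‖ = 1) (x : X) :
    Tendsto (fun V : Finset X => ∑' y, (starRingEnd ℂ) (Set.indicator (V : Set X) F y) * c y *
      Set.indicator (V : Set X) F (y * x)) atTop
      (𝓝 (∑' y, (starRingEnd ℂ) (F y) * c y * F (y * x))) := by
  have hF' : Summable fun y => ‖F (y * x)‖ ^ 2 :=
    (Equiv.mulRight x).summable_iff (f := fun y => ‖F y‖ ^ 2) |>.mpr hF
  apply tendsto_tsum_of_dominated_convergence
    (bound := fun y => ‖F y‖ ^ 2 + ‖F (y * x)‖ ^ 2) (hF.add hF')
  · intro y
    apply tendsto_const_nhds.congr'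
    filter_upwards [eventually_eq F y, eventually_eq F (y * x)] with V hV hV'
    rw [hV, hV']
  · refine Eventually.of_forall fun V y => ?_
    rw [norm_mul, norm_mul, RCLike.norm_conj, hc, mul_one]
    have h1 := norm_trunc_le F V y
    have h2 := norm_trunc_le F V (y * x)
    have h3 : ‖Set.indicator (V : Set X) F y‖ * ‖Set.indicator (V : Set X) F (y * x)‖ ≤
        ‖F y‖ * ‖F (y * x)‖ :=
      mul_le_mul h1 h2 (norm_nonneg _) (norm_nonneg _)
    nlinarith [sq_nonneg (‖F y‖ - ‖F (y * x)‖), sq_nonneg ‖F y‖, sq_nonneg ‖F (y * x)‖]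

end trunc

/-- the quadratic form of the test element at the truncations converges -/
theorem tendsto_TT {H S : Type} [Group H] [Fintype S] [DecidableEq S] [DecidableEq H] {d b : ℕ}
    (C : CTData H S d b) (χ : (ℕ → ZMod 4) →+ ZMod 4) (F : Lam H S → ℂ)
    (hF : Summable fun y => ‖F y‖ ^ 2) :
    Tendsto (fun V : Finset (Lam H S) => TT C χ (Set.indicator (V : Set (Lam H S)) F)) atTop
      (𝓝 (TT C χ F)) := by
  unfold TT
  refine tendsto_finsetSum _ fun s _ => ?_
  refine tendsto_finsetSum _ fun lam _ => ?_
  refine tendsto_finsetSum _ fun lam' _ => ?_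
  apply Tendsto.const_mul
  exact tendsto_coef F hF (fun y => ii (χ (fun k => C.om k s y.g))) (fun y => norm_ii _)
    (el C.a s lam lam')

/-- Job AP-TAIL. -/
theorem main : StFour → StTail := by
  intro h4 H S _ _ _ _ d b C hd hb h3 F hF
  have h1 : Tendsto (fun V : Finset (Lam H S) =>
      (TT C chi0 (Set.indicator (V : Set (Lam H S)) F)).re) atTop (𝓝 (TT C chi0 F).re) :=
    (Complex.continuous_re.tendsto _).comp (tendsto_TT C chi0 F hF)
  have h2 : Tendsto (fun V : Finset (Lam H S) =>
      ((d : ℝ) - 3 / 2) * ∑' y, ‖Set.indicator (V : Set (Lam H S)) F y‖ ^ 2) atTop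
      (𝓝 (((d : ℝ) - 3 / 2) * ∑' y, ‖F y‖ ^ 2)) :=
    (tendsto_norm F hF).const_mul _
  refine le_of_tendsto_of_tendsto' h1 h2 fun V => ?_
  refine h4 H S d b C hd hb h3 _ ?_
  exact V.finite_toSet.subset (by
    intro y hy
    by_contra hy'
    exact hy (Set.indicator_of_notMem hy' F))

end Pool.Agent.H262.EB.Tail
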