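import Pool.Agent.H262.EB.CT
import Pool.Graph.R_seed8.TH553.J779
import Pool.Graph.R_seed8.TH472.J862

/-!
# Project EB, job CT-THETA (helper922): assembly of the family of labelled graphs
-/

set_option autoImplicit false

namespace Pool.Agent.H262.EB.Theta

open Pool.Agent.TH950.FC
open Pool.Agent.TH429.J864

section build

variable {m : ℕ} {n : ℕ → ℕ}

/-- the vertices where the cochain is kept -/
def cd (k : ℕ) : QQ m n → Prop
  | Sum.inl ⟨i, _⟩ => k = 0 ∨ k = i + 1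
  | Sum.inr _ => k = 0

theorem cd_zero (q : QQ m n) : cd 0 q := by
  rcases q with ⟨i, v⟩ | q
  · exact Or.inl rfl
  · exact rfl

theorem cd_inl (k i : ℕ) (v : Fin (n i)) :
    cd (m := m) k (Sum.inl ⟨i, v⟩) ↔ (k = 0 ∨ k = i + 1) := Iff.rfl

open Classical in
/-- the family with another cochain -/
noncomputable def Tk (T : Theta (Fin m) (QQ m n)) (h : Fin m → QQ m n → ℤ) (k : ℕ)
    (hcd : ∀ s q r, T.E s q r → (cd k q ↔ cd k r))
    (hanti : ∀ s q r, T.E s q r → h s r = - h s q) : Theta (Fin m) (QQ m n) :=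
  { T with
    h := fun s q => if cd k q then h s q else 0
    h_anti := by
      intro s q r hE
      by_cases hq : cd k q
      · rw [if_pos hq, if_pos ((hcd s q r hE).1 hq), hanti s q r hE]
      · rw [if_neg hq, if_neg (fun h' => hq ((hcd s q r hE).2 h')), neg_zero] }

end build

open Classical in
theorem sparse {n g : ℕ} (G : SimpleGraph (Fin n)) (_hg0 : 1 ≤ g)
    (hg : ∀ (v : Fin n) (c : G.Walk v v), c.IsCycle → g ≤ c.length) (U : Finset (Fin n))
    (hU : U.Nonempty) (h : 2 * U.card ≤ (∑ u ∈ U, {v | v ∈ U ∧ G.Adj u v}.ncard)) :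
    g ≤ U.card := by
  refine Pool.Agent.TH553.J779.card_ge_of_girth G g hg U hU (h.trans (le_of_eq ?_))
  refine Finset.sum_congr rfl fun u _ => ?_
  rw [← Finset.card_filter, ← Set.ncard_coe_finset]
  congr 1
  ext v
  simp

theorem main : StLab → StGraph → StRandom → StParity → StCover → StBBT → StAvg → StTheta := by
  classical
  intro hLab hGraph hRandom hParity hCover hBBT hAvg
  have huniq : ∀ (k : ℕ) (G : SimpleGraph (Fin k)) (g : ℕ),
      (∀ (v : Fin k) (c : G.Walk v v), c.IsCycle → g ≤ c.length) →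
      ∀ p q : List (Fin k), NBWalk G p → NBWalk G q → p.head? = q.head? →
        p.getLast? = q.getLast? → (p.length - 1) + (q.length - 1) < g → p = q :=
    fun k G g hg p q hp hq h0 h1 hl =>
      Pool.Agent.TH950.FC.nbwalk_unique G g hg p q hp hq h0 h1 hl
  obtain ⟨m, hlab⟩ := hLab DD (by norm_num) huniq
  have hgr : ∀ i : ℕ, ∃ (n : ℕ) (G : SimpleGraph (Fin n)) (h : Fin n → Fin n → ℤ),
      0 < n ∧ n ≤ 4 * DD ^ (10000 * (i + 1)) ∧
      (∀ v, (G.neighborSet v).ncard ≤ DD) ∧ (∀ v, 2 ≤ (G.neighborSet v).ncard) ∧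
      (∀ (v : Fin n) (c : G.Walk v v), c.IsCycle → 10000 * (i + 1) ≤ c.length) ∧
      G.Preconnected ∧ DD * n ≤ (∑ v, (G.neighborSet v).ncard) + n ∧
      (∀ u v, h v u = - h u v) ∧ CoverIso G h DD 4096 := by
    intro i
    obtain ⟨n, G, h1, h2, h3, h4, h5, h6, h7⟩ := hGraph DD (10000 * (i + 1)) (by norm_num)
      (by omega)
    obtain ⟨t, ht1, ht2⟩ := hRandom (Fin n) G (10000 * (i + 1)) (by omega)
      (by rw [Fintype.card_fin]; exact h2) h3
      (fun U hU h => sparse G (by omega) h5 U hU h)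
    obtain ⟨h, hh1, hh2, hh3⟩ := hParity (Fin n) G t DD EE ht1 h3 ht2
    exact ⟨n, G, h, h1, h2, h3, h4, h5, h6, h7, hh1, hCover (Fin n) G h hh1 h3 hh3⟩
  choose n G hh hn0 hn hdeg1 hdeg2 hcyc hconn hsum hanti hcov using hgr
  obtain ⟨c, hc1, hc2, hc3⟩ := hlab (fun i => 10000 * (i + 1)) n G (fun i => by
    show 10000 ≤ 10000 * (i + 1)
    omega) (fun i => by
    show 10000 * (i + 1) + 10000 ≤ 10000 * (i + 1 + 1)
    omega) hn hdeg1 hcyc
  let T' : Theta (Fin m) (QQ m n) := Pool.Agent.TH429.J864.TT G hh c hc1 (fun i => 10000 * (i + 1))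
    (fun i => by
      show 10000 ≤ 10000 * (i + 1)
      omega)
    (fun i => by
      show i ≤ 10000 * (i + 1)
      omega) hanti hdeg2
    (fun i => huniq (n i) (G i) (10000 * (i + 1)) (hcyc i)) hc2 hc3
  have hE : ∀ s q r, T'.E s q r → Pool.Agent.TH429.J864.EE G c s q r := fun s q r h => h
  have hcd : ∀ k s q r, T'.E s q r → (cd k q ↔ cd k r) := by
    intro k s q r h
    cases hE s q r h with
    | a h => exact Iff.rfl
    | b => exact Iff.rfl
  have hhanti : ∀ s q r, T'.E s q r → hp G hh c s r = - hp G hh c s q := by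
    intro s q r h
    have h0 := hE s q r h
    have h1 : hp G hh c s q = wt hh q r := hp_eq G hh c hc1 h0
    have h2 : hp G hh c s r = wt hh r q := hp_eq G hh c hc1 ((LGG G c hc1).symm h0)
    rw [h1, h2]
    cases h0 with
    | @a i v w h =>
      rw [wt_same, wt_same, hanti i v w]
    | b => simp [wt]
  refine ⟨m, QQ m n, inferInstance, inferInstance, ⟨Sum.inl ⟨0, ⟨0, hn0 0⟩⟩⟩,
    fun k => Tk T' (hp G hh c) k (hcd k) hhanti, fun k => rfl, ?_, ?_⟩
  · refine hBBT m n G hh c hc1 _ rfl (fun s q => ?_) hcov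
    exact if_pos (cd_zero q)
  · intro i
    obtain ⟨B, hB1, hB2, hB3⟩ := hAvg m n G c hc1 (Tk T' (hp G hh c) 0 (hcd 0) hhanti) rfl DD i
      ⟨0, hn0 i⟩ (hconn i) (hdeg1 i) (hsum i)
    refine ⟨Sum.inl ⟨i, ⟨0, hn0 i⟩⟩, B, hB1, hB2, hB3, ?_⟩
    rintro k s r ⟨w, hw⟩
    obtain ⟨v, rfl⟩ := reach_base G c hc1 (T := Tk T' (hp G hh c) 0 (hcd 0) hhanti) rfl w _ _ hw
    show (if cd k (Sum.inl ⟨i, v⟩ : QQ m n) then hp G hh c s (Sum.inl ⟨i, v⟩) else 0) =
      if k = 0 ∨ k = i + 1 then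
        (if cd 0 (Sum.inl ⟨i, v⟩ : QQ m n) then hp G hh c s (Sum.inl ⟨i, v⟩) else 0) else 0
    rw [if_pos (cd_zero _)]
    by_cases hk : k = 0 ∨ k = i + 1
    · rw [if_pos hk, if_pos ((cd_inl k i v).2 hk)]
    · rw [if_neg hk, if_neg (fun h' => hk ((cd_inl k i v).1 h'))]

end Pool.Agent.H262.EB.Theta
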