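import Pool.Agent.H262.EB.CT

/-! JOB CT-TRA: vertices of the limit graph are the elements of the group (written by helper94). -/

set_option autoImplicit false

namespace Pool.Agent.H262.EB.TrA

open Pool.Agent.H262.EB
open Pool.Agent.TH950.FC

theorem path_snoc {S V : Type} (X : LG S V) {s : S} {y z : V} (hyz : X.E s y z) :
    ∀ (w : List S) (x : V), X.Path x w y → X.Path x (w ++ [s]) z := by
  intro w
  induction w with
  | nil =>
    intro x h
    have h' : x = y := h
    subst h'
    exact ⟨z, hyz, rfl⟩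
  | cons t w ih =>
    rintro x ⟨u, hu, hw⟩
    exact ⟨u, hu, ih u hw⟩

/-- a path of the cover is mapped by a chart to a path of `X` -/
theorem chart_path {S Q V : Type} (Y : LG S (Q × Finset (Sym2 Q))) (X : LG S V)
    (ι : Q × Finset (Sym2 Q) → V) (c₀ : Q × Finset (Sym2 Q))
    (hι : ∀ c, Y.Reach c₀ c → ∀ s c', Y.E s c c' → X.E s (ι c) (ι c')) :
    ∀ (w : List S) (c c' : Q × Finset (Sym2 Q)), Y.Reach c₀ c → Y.Path c w c' →
      X.Path (ι c) w (ι c') := by
  intro w
  induction w with
  | nil =>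
    intro c c' _ h
    have h' : c = c' := h
    subst h'
    exact rfl
  | cons s w ih =>
    rintro c c' hr ⟨z, hz, hw⟩
    refine ⟨ι z, hι c hr s z hz, ih z c' ?_ hw⟩
    obtain ⟨u, hu⟩ := hr
    exact ⟨u ++ [s], path_snoc Y hz u c₀ hu⟩

theorem main : StTrA := by
  intro S Q V _ _ _ T T₀ X β ω p base hT hL
  classical
  have ht := hL.total
  obtain ⟨f, hf⟩ : ∃ f : S → V → V, ∀ s x, X.E s x (f s x) :=
    ⟨fun s x => (ht s x).choose, fun s x => (ht s x).choose_spec⟩
  have hfu : ∀ s x y, X.E s x y → y = f s x := fun s x y h => X.func h (hf s x)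
  have hinv : ∀ s, Function.Involutive (f s) := fun s x => (hfu s (f s x) x (X.symm (hf s x))).symm
  obtain ⟨σ, hσ⟩ : ∃ σ : S → Equiv.Perm V, ∀ s x, (σ s) x = f s x ∧ (σ s)⁻¹ x = f s x :=
    ⟨fun s => (hinv s).toPerm, fun s x => ⟨rfl, rfl⟩⟩
  have hpath : ∀ (w : List S) (x y : V), X.Path x w y →
      (FreeGroup.lift σ (w.map FreeGroup.of).prod)⁻¹ x = y := by
    intro w
    induction w with
    | nil =>
      intro x y h
      have h' : x = y := h
      rw [List.map_nil, List.prod_nil, map_one, inv_one, h']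
      rfl
    | cons s w ih =>
      rintro x y ⟨z, hz, hw⟩
      rw [List.map_cons, List.prod_cons, map_mul, FreeGroup.lift_apply_of, mul_inv_rev,
        Equiv.Perm.mul_apply, (hσ s x).2, ← hfu s x z hz]
      exact ih z y hw
  have hrel : ∀ r ∈ rels T₀, FreeGroup.lift σ r = 1 := by
    rintro r (⟨s, rfl⟩ | ⟨q, u, hu, rfl⟩)
    · rw [map_mul, FreeGroup.lift_apply_of]
      apply Equiv.ext
      intro x
      rw [Equiv.Perm.mul_apply, (hσ s x).1, (hσ s _).1]
      exact hinv s x
    · rw [← inv_eq_one]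
      apply Equiv.ext
      intro x
      rw [← hT] at hu
      obtain ⟨ι, j, ψ, _, hι, hc⟩ := hL.charted x q
      have h1 := chart_path T.cov X ι (q, ∅) (fun c hr s c' he => ((hc c hr).2 s c' he).1) u (q, ∅) (q, ∅)
        ⟨[], rfl⟩ hu
      rw [hι] at h1
      exact hpath u x x h1
  obtain ⟨act, hact⟩ : ∃ act : PresentedGroup (rels T₀) →* Equiv.Perm V,
      ∀ s, act (PresentedGroup.of s) = σ s :=
    ⟨PresentedGroup.toGroup hrel, fun s => PresentedGroup.toGroup.of hrel⟩
  -- the potential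
  obtain ⟨A, hA⟩ : ∃ A : Subgroup (PresentedGroup (rels T₀)), ∀ g, g ∈ A ↔ ∀ x, p ((act g)⁻¹ x) = p x * g := by
    refine ⟨{ carrier := {g | ∀ x, p ((act g)⁻¹ x) = p x * g}, mul_mem' := ?_, one_mem' := ?_, inv_mem' := ?_ },
      fun g => Iff.rfl⟩
    · intro g h hg hh x
      have hg' : ∀ x, p ((act g)⁻¹ x) = p x * g := hg
      have hh' : ∀ x, p ((act h)⁻¹ x) = p x * h := hh
      rw [map_mul, mul_inv_rev, Equiv.Perm.mul_apply, hh', hg', mul_assoc]
    · intro x
      rw [map_one, inv_one, mul_one]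
      rfl
    · intro g hg x
      have hg' : ∀ x, p ((act g)⁻¹ x) = p x * g := hg
      have h1 := hg' ((act g) x)
      rw [← Equiv.Perm.mul_apply, inv_mul_cancel, Equiv.Perm.one_apply] at h1
      rw [map_inv, inv_inv, h1, mul_inv_cancel_right]
  have hAtop : A = ⊤ := by
    rw [eq_top_iff, ← PresentedGroup.closure_range_of, Subgroup.closure_le]
    rintro _ ⟨s, rfl⟩
    change PresentedGroup.of s ∈ A
    rw [hA]
    intro x
    rw [hact, (hσ s x).2]
    exact hL.pot (hf s x)
  have hpot : ∀ g x, p ((act g)⁻¹ x) = p x * g := by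
    intro g
    rw [← hA, hAtop]
    exact Subgroup.mem_top g
  have hword : ∀ (w : List S) (x y : V), X.Path x w y →
      (act (w.map fun s => (PresentedGroup.of s : PresentedGroup (rels T₀))).prod)⁻¹ x = y := by
    intro w
    induction w with
    | nil =>
      intro x y h
      have h' : x = y := h
      rw [List.map_nil, List.prod_nil, map_one, inv_one, h']
      rfl
    | cons s w ih =>
      rintro x y ⟨z, hz, hw⟩
      rw [List.map_cons, List.prod_cons, map_mul, hact, mul_inv_rev, Equiv.Perm.mul_apply, (hσ s x).2,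
        ← hfu s x z hz]
      exact ih z y hw
  refine ⟨Equiv.ofBijective (fun g => (act g)⁻¹ base) ⟨?_, ?_⟩, ?_⟩
  · intro g h hgh
    have h1 : (act g)⁻¹ base = (act h)⁻¹ base := hgh
    have h2 := hpot g base
    rw [h1, hpot h base] at h2
    exact (mul_left_cancel h2).symm
  · intro x
    obtain ⟨w, hw⟩ := hL.conn x
    exact ⟨_, hword w base x hw⟩
  · intro g s
    change X.E s ((act g)⁻¹ base) ((act (g * PresentedGroup.of s))⁻¹ base)
    rw [map_mul, hact, mul_inv_rev, Equiv.Perm.mul_apply, (hσ s _).2]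
    exact hf s _

end Pool.Agent.H262.EB.TrA
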