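import Pool.Agent.H262.EB.CT

/-! JOB CT-TRCHART: charts in the group (written by helper553). -/

set_option autoImplicit false

namespace Pool.Agent.H262.EB.TrChart

open Finset
open scoped symmDiff
open Pool.Agent.TH950.FC

section path

variable {S V : Type} {X : LG S V}

theorem path_app {x y z : V} {w w' : List S} (h : X.Path x w y) (h' : X.Path y w' z) :
    X.Path x (w ++ w') z := by
  induction w generalizing x with
  | nil =>
    have : x = y := h
    subst this
    exact h'
  | cons s w ih =>
    obtain ⟨u, hu, hw⟩ := h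
    exact ⟨u, hu, ih hw⟩

theorem path_rev {x y : V} {w : List S} (h : X.Path x w y) : X.Path y w.reverse x := by
  induction w generalizing x with
  | nil =>
    have : x = y := h
    exact this.symm
  | cons s w ih =>
    obtain ⟨u, hu, hw⟩ := h
    rw [List.reverse_cons]
    exact path_app (ih hw) ⟨x, X.symm hu, rfl⟩

end path

section parity

variable {Q : Type} [DecidableEq Q]

/-- parity of the number of edges at `v` -/
def par (A : Finset (Sym2 Q)) (v : Q) : ZMod 2 := ∑ e ∈ A, if v ∈ e then 1 else 0

theorem par_symmDiff (A : Finset (Sym2 Q)) (e : Sym2 Q) (v : Q) :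
    par (A ∆ {e}) v = par A v + if v ∈ e then 1 else 0 := by
  unfold par
  by_cases he : e ∈ A
  · have h1 : A ∆ {e} = A.erase e := by
      ext f
      simp only [Finset.mem_symmDiff, Finset.mem_singleton, Finset.mem_erase]
      constructor
      · rintro (⟨h2, h3⟩ | ⟨h2, h3⟩)
        · exact ⟨h3, h2⟩
        · subst h2; exact absurd he h3
      · rintro ⟨h2, h3⟩
        exact Or.inl ⟨h3, h2⟩
    rw [h1, ← Finset.add_sum_erase A _ he]
    have h2 : ∀ x : ZMod 2, x + x = 0 := by decide
    rw [add_comm (if v ∈ e then (1 : ZMod 2) else 0), add_assoc, h2, add_zero]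
  · have h1 : A ∆ {e} = insert e A := by
      ext f
      simp only [Finset.mem_symmDiff, Finset.mem_singleton, Finset.mem_insert]
      constructor
      · rintro (⟨h2, h3⟩ | ⟨h2, h3⟩)
        · exact Or.inr h2
        · exact Or.inl h2
      · rintro (h2 | h2)
        · subst h2; exact Or.inr ⟨rfl, he⟩
        · refine Or.inl ⟨h2, ?_⟩
          rintro rfl
          exact he h2
    rw [h1, Finset.sum_insert he, add_comm]

variable {S : Type}

theorem no_loop (T : Theta S Q) (s : S) (u : Q) : ¬ T.E s u u := by
  intro h
  have h1 := T.hundred_le u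
  have h2 := T.girth (q := u) (r := u) (w := [s]) (w' := []) (List.isChain_singleton s)
    List.isChain_nil ⟨u, h, rfl⟩ rfl (by
      simp only [List.length_cons, List.length_nil]
      omega)
  exact absurd h2 (by simp)

/-- the edge set determines the end point -/
theorem par_path (T : Theta S Q) (w : List S) (c c' : Q × Finset (Sym2 Q))
    (h : T.cov.Path c w c') (v : Q) :
    par c'.2 v + (if v = c'.1 then 1 else 0) = par c.2 v + if v = c.1 then 1 else 0 := by
  induction w generalizing c with
  | nil =>
    have : c = c' := h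
    rw [this]
  | cons s w ih =>
    obtain ⟨u, ⟨hu1, hu2⟩, hw⟩ := h
    rw [ih u hw, hu2, par_symmDiff]
    have hne : c.1 ≠ u.1 := by
      intro he
      rw [← he] at hu1
      exact no_loop T s _ hu1
    have h2 : ∀ x : ZMod 2, x + 1 + 1 = x := by decide
    by_cases h3 : v = c.1
    · have h4 : v ≠ u.1 := by rw [h3]; exact hne
      have h5 : v ∈ s(c.1, u.1) := by rw [h3]; exact Sym2.mem_mk_left _ _
      rw [if_pos h5, if_neg h4, if_pos h3, add_zero]
    · by_cases h4 : v = u.1
      · have h5 : v ∈ s(c.1, u.1) := by rw [h4]; exact Sym2.mem_mk_right _ _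
        rw [if_pos h5, if_pos h4, if_neg h3, h2, add_zero]
      · have h5 : v ∉ s(c.1, u.1) := by
          rw [Sym2.mem_iff]
          rintro (h6 | h6)
          · exact h3 h6
          · exact h4 h6
        rw [if_neg h5, if_neg h4, if_neg h3, add_zero]

theorem end_eq (T : Theta S Q) (q : Q) (w w' : List S) (c c' : Q × Finset (Sym2 Q))
    (h : T.cov.Path (q, ∅) w c) (h' : T.cov.Path (q, ∅) w' c') (h2 : c.2 = c'.2) : c = c' := by
  have h3 := par_path T w _ _ h c.1
  have h4 := par_path T w' _ _ h' c.1
  rw [← h4, ← h2] at h3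
  have h5 := add_left_cancel h3
  rw [if_pos rfl] at h5
  by_cases h6 : c.1 = c'.1
  · exact Prod.ext h6 h2
  · rw [if_neg h6] at h5
    exact absurd h5 (by decide)

end parity

theorem main : StTrChart := by
  intro S Q V _ _ _ T T₀ X β ω p base hT hL e he
  have hcov : T.toLG.cov = T₀.toLG.cov := by rw [hT]
  -- the charts
  have key : ∀ q : Q, ∃ (ι : Q × Finset (Sym2 Q) → V) (j : Sym2 Q → Wt Q)
      (ψ : Q × Finset (Sym2 Q) → ℤ), Function.Injective j ∧
      (∀ w c, T₀.cov.Path (q, ∅) w c →
        ι c = e ((w.map fun s => (PresentedGroup.of s : PresentedGroup (rels T₀))).prod)) ∧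
      ∀ c, T₀.cov.Reach (q, ∅) c → β (ι c) = β (e 1) ∆ c.2.image j ∧
        ∀ s c', T₀.cov.E s c c' → X.E s (ι c) (ι c') ∧ ω s (ι c) = T.h s c.1 + ψ c' - ψ c := by
    intro q
    obtain ⟨ι, j, ψ, hj, hι, hc⟩ := hL.charted (e 1) q
    rw [hcov] at hc
    refine ⟨ι, j, ψ, hj, ?_, hc⟩
    have gen : ∀ (w : List S) (c : Q × Finset (Sym2 Q)) (g : PresentedGroup (rels T₀)),
        T₀.cov.Reach (q, ∅) c → ι c = e g → ∀ c', T₀.cov.Path c w c' →
        ι c' = e (g * (w.map fun s => (PresentedGroup.of s : PresentedGroup (rels T₀))).prod) := by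
      intro w
      induction w with
      | nil =>
        intro c g _ hg c' hp
        have : c = c' := hp
        rw [← this, hg, List.map_nil, List.prod_nil, mul_one]
      | cons s w ih =>
        intro c g hr hg c' hp
        obtain ⟨z, hz, hw⟩ := hp
        have h1 := ((hc c hr).2 s z hz).1
        rw [hg] at h1
        have h2 := X.func h1 (he g s)
        have hrz : T₀.cov.Reach (q, ∅) z := by
          obtain ⟨w0, hw0⟩ := hr
          exact ⟨w0 ++ [s], path_app hw0 ⟨z, hz, rfl⟩⟩
        have h3 := ih z _ hrz h2 c' hw
        rw [h3, List.map_cons, List.prod_cons, mul_assoc]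
    intro w c hp
    have := gen w (q, ∅) 1 ⟨[], rfl⟩ hι c hp
    rwa [one_mul] at this
  refine ⟨fun q => ?_, fun q w w' c c' hw hw' => ?_⟩
  · obtain ⟨ι, j, ψ, _, hι, hc⟩ := key q
    refine ⟨ψ, fun w c hp s c' hE => ?_⟩
    rw [← hι w c hp]
    exact ((hc c ⟨w, hp⟩).2 s c' hE).2
  · obtain ⟨ι, j, ψ, hj, hι, hc⟩ := key q
    constructor
    · intro hprod
      have h1 : ι c = ι c' := by rw [hι w c hw, hι w' c' hw', hprod]
      have h2 := (hc c ⟨w, hw⟩).1
      have h3 := (hc c' ⟨w', hw'⟩).1
      rw [h1, h3] at h2
      have h4 : c'.2.image j = c.2.image j := symmDiff_right_injective _ h2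
      exact end_eq T₀ q w w' c c' hw hw' (Finset.image_injective hj h4).symm
    · rintro rfl
      have hsq : ∀ s : S, (PresentedGroup.of s : PresentedGroup (rels T₀)) *
          PresentedGroup.of s = 1 := by
        intro s
        have h1 : (FreeGroup.of s * FreeGroup.of s) ∈ rels T₀ := Or.inl ⟨s, rfl⟩
        have h2 := PresentedGroup.one_of_mem h1
        rw [map_mul] at h2
        exact h2
      have hrev : ∀ w : List S,
          (w.map fun s => (PresentedGroup.of s : PresentedGroup (rels T₀))).prod *
          (w.reverse.map fun s => (PresentedGroup.of s : PresentedGroup (rels T₀))).prod = 1 := by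
        intro w
        induction w with
        | nil => simp
        | cons s w ih =>
          rw [List.reverse_cons, List.map_append, List.prod_append, List.map_cons, List.prod_cons,
            List.map_singleton, List.prod_singleton]
          calc _ = PresentedGroup.of s *
              ((w.map fun s => (PresentedGroup.of s : PresentedGroup (rels T₀))).prod *
              (w.reverse.map fun s => (PresentedGroup.of s : PresentedGroup (rels T₀))).prod) *
              PresentedGroup.of s := by simp only [mul_assoc]
            _ = 1 := by rw [ih, mul_one, hsq]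
      have hclosed : T₀.cov.Path (q, ∅) (w ++ w'.reverse) (q, ∅) := path_app hw (path_rev hw')
      have h1 : ((w ++ w'.reverse).map FreeGroup.of).prod ∈ rels T₀ :=
        Or.inr ⟨q, _, hclosed, rfl⟩
      have h2 := PresentedGroup.one_of_mem h1
      rw [map_list_prod, List.map_map, List.map_append, List.prod_append] at h2
      have h3 := hrev w'
      have h4 : (w.map fun s => (PresentedGroup.of s : PresentedGroup (rels T₀))).prod *
          (w'.reverse.map fun s => (PresentedGroup.of s : PresentedGroup (rels T₀))).prod = 1 := h2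
      exact mul_right_cancel (h4.trans h3.symm)

end Pool.Agent.H262.EB.TrChart
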