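import Pool.Agent.H262.EB.CT
import Pool.Graph.R_seed8.TH429.J866

/-!
# JOB CT-TRLIFT: homogeneous holonomy gives lifts
-/

set_option autoImplicit false

namespace Pool.Agent.H262.EB.TrLift

open Pool.Agent.TH950.FC

section

variable {S V : Type} {X : LG S V} {ω : S → V → ℤ}

theorem wpath_unique (w : List S) : ∀ {x y y' : V} {m m' : ℤ}, X.WPath ω x w y m →
    X.WPath ω x w y' m' → y = y' ∧ m = m' := by
  induction w with
  | nil =>
    rintro x y y' m m' ⟨h1, h2⟩ ⟨h3, h4⟩
    exact ⟨h1.symm.trans h3, h2.trans h4.symm⟩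
  | cons s w ih =>
    rintro x y y' m m' ⟨z, hz, hw⟩ ⟨z', hz', hw'⟩
    obtain rfl := X.func hz hz'
    obtain ⟨h1, h2⟩ := ih hw hw'
    exact ⟨h1, by omega⟩

theorem wpath_append (w : List S) : ∀ {w' : List S} {x y z : V} {m m' : ℤ}, X.WPath ω x w y m →
    X.WPath ω y w' z m' → X.WPath ω x (w ++ w') z (m + m') := by
  induction w with
  | nil =>
    rintro w' x y z m m' ⟨h1, h2⟩ h3
    subst h1 h2
    rw [zero_add]
    exact h3
  | cons s w ih =>
    rintro w' x y z m m' ⟨u, hu, hw⟩ h3
    refine ⟨u, hu, ?_⟩
    have h4 := ih hw h3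
    have e : m - ω s x + m' = m + m' - ω s x := by ring
    rw [e] at h4
    exact h4

theorem wpath_single {s : S} {x y : V} (h : X.E s x y) : X.WPath ω x [s] y (ω s x) :=
  ⟨y, h, rfl, sub_self _⟩

theorem wpath_reverse (ha : ∀ {s x y}, X.E s x y → ω s y = - ω s x) (w : List S) :
    ∀ {x y : V} {m : ℤ}, X.WPath ω x w y m → X.WPath ω y w.reverse x (-m) := by
  induction w with
  | nil =>
    rintro x y m ⟨h1, h2⟩
    subst h1 h2
    exact ⟨rfl, neg_zero⟩
  | cons s w ih =>
    rintro x y m ⟨u, hu, hw⟩
    rw [List.reverse_cons]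
    have h1 := wpath_append _ (ih hw) (wpath_single (ω := ω) (X.symm hu))
    rw [ha hu] at h1
    have e : -(m - ω s x) + -ω s x = -m := by ring
    rw [e] at h1
    exact h1

end

section

variable {S Q : Type} [DecidableEq Q] (T₀ : Theta S Q)

theorem of_sq (s : S) : (PresentedGroup.of s : PresentedGroup (rels T₀)) * PresentedGroup.of s = 1 :=
  PresentedGroup.one_of_mem (rels := rels T₀) (Or.inl ⟨s, rfl⟩)

theorem of_inv (s : S) : (PresentedGroup.of s : PresentedGroup (rels T₀))⁻¹ = PresentedGroup.of s :=
  inv_eq_of_mul_eq_one_right (of_sq T₀ s)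

theorem prod_reverse (w : List S) :
    (w.reverse.map fun s => (PresentedGroup.of s : PresentedGroup (rels T₀))).prod =
      (w.map fun s => (PresentedGroup.of s : PresentedGroup (rels T₀))).prod⁻¹ := by
  induction w with
  | nil => simp
  | cons s w ih =>
    simp only [List.reverse_cons, List.map_append, List.prod_append, ih, List.map_cons,
      List.prod_cons, List.map_nil, List.prod_nil, mul_one, mul_inv_rev, of_inv]

theorem exists_word (x : PresentedGroup (rels T₀)) :
    ∃ w : List S, (w.map fun s => (PresentedGroup.of s : PresentedGroup (rels T₀))).prod = x := by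
  induction x using PresentedGroup.induction_on with
  | _ z =>
    induction z using FreeGroup.induction_on with
    | C1 => exact ⟨[], by simp⟩
    | of s => exact ⟨[s], by simp [PresentedGroup.of]⟩
    | inv_of s ih =>
      refine ⟨[s], ?_⟩
      have h := of_inv T₀ s
      simp only [List.map_cons, List.map_nil, List.prod_cons, List.prod_nil, mul_one]
      rw [← h, map_inv]
      rfl
    | mul a b ha hb =>
      obtain ⟨u, hu⟩ := ha
      obtain ⟨v, hv⟩ := hb
      exact ⟨u ++ v, by rw [List.map_append, List.prod_append, hu, hv, map_mul]⟩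

end

theorem homog {S Q V W : Type} [DecidableEq Q] [DecidableEq W] (T T₀ : Theta S Q)
    (hT : T.toLG = T₀.toLG) (X : LG S V) (β : V → Finset W) (ω : S → V → ℤ)
    (p : V → PresentedGroup (rels T₀)) (base : V)
    (hL : Limit T (fun s => (PresentedGroup.of s : PresentedGroup (rels T₀))) X β ω p base)
    (w : List S) (x : V) (m : ℤ) (hw : X.WPath ω x w x m) (y : V) : X.WPath ω y w y m := by
  obtain ⟨L, g, h, h1, h2, h3, h4, h5, h6, h7, h8⟩ := T
  obtain ⟨L₀, g', h', h1', h2', h3', h4', h5', h6', h7', h8'⟩ := T₀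
  simp only at hT
  subst hT
  exact Pool.Agent.TH429.J866.homog_of_limit ⟨L, g, h, h1, h2, h3, h4, h5, h6, h7, h8⟩ X β ω p base hL
    w x m hw y

theorem main : StTrLift := by
  intro S Q V _ _ _ T T₀ X β ω p base hT hL e he g
  have hpath : ∀ (w : List S) (x : PresentedGroup (rels T₀)), ∃ m : ℤ, X.WPath ω (e x) w
      (e (x * (w.map fun s => (PresentedGroup.of s : PresentedGroup (rels T₀))).prod)) m := by
    intro w
    induction w with
    | nil => intro x; exact ⟨0, by simp, rfl⟩
    | cons s w ih =>
      intro x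
      obtain ⟨m, hm⟩ := ih (x * PresentedGroup.of s)
      refine ⟨m + ω s (e x), e (x * PresentedGroup.of s), he x s, ?_⟩
      rw [List.map_cons, List.prod_cons, ← mul_assoc, add_sub_cancel_right]
      exact hm
  choose M hM using hpath
  have ha : ∀ {s x y}, X.E s x y → ω s y = - ω s x := fun {s x y} h => hL.anti h
  have hindep : ∀ w w' : List S, (w.map fun s => (PresentedGroup.of s : PresentedGroup (rels T₀))).prod =
      (w'.map fun s => (PresentedGroup.of s : PresentedGroup (rels T₀))).prod →
      M w g - M w 1 = M w' g - M w' 1 := by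
    intro w w' hww
    have hclosed : ∀ x : PresentedGroup (rels T₀), X.WPath ω (e x) (w ++ w'.reverse) (e x)
        (M w x + -M w' x) := by
      intro x
      have h1 := hM w x
      have h2 := wpath_reverse ha _ (hM w' x)
      rw [← hww] at h2
      exact wpath_append _ h1 h2
    have h3 := homog T T₀ hT X β ω p base hL _ _ _ (hclosed 1) (e g)
    have h4 := (wpath_unique _ h3 (hclosed g)).2
    omega
  choose wd hwd using exists_word T₀
  refine ⟨fun x => M (wd x) g - M (wd x) 1, fun s x => ?_⟩
  have h1 : M (wd (x * PresentedGroup.of s)) g - M (wd (x * PresentedGroup.of s)) 1 =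
      M (wd x ++ [s]) g - M (wd x ++ [s]) 1 := by
    apply hindep
    rw [hwd, List.map_append, List.prod_append, hwd]
    simp
  have h2 : ∀ y : PresentedGroup (rels T₀), M (wd x ++ [s]) y = M (wd x) y + ω s (e (y * x)) := by
    intro y
    have h3 := hM (wd x) y
    rw [hwd] at h3
    have h4 := wpath_append _ h3 (wpath_single (ω := ω) (he (y * x) s))
    exact (wpath_unique _ (hM (wd x ++ [s]) y) h4).2
  simp only
  rw [h1, h2, h2, one_mul]
  ring

end Pool.Agent.H262.EB.TrLift
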