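import Pool.Agent.H262.EB.CT

/-!
# Project EB: assembly of the transport to the group (`StTransport`), by helper980
-/

set_option autoImplicit false

namespace Pool.Agent.H262.EB.Transport

open Finset
open Pool.Agent.TH950.FC

theorem main : StTrA → StTrLift → StTrChart → StTransport := by
  intro hA hLift hChart S Q V _ _ _ T T₀ X β ω p base hT hL
  obtain ⟨e, he⟩ := hA S Q V T T₀ X β ω p base hT hL
  obtain ⟨hc1, hc2⟩ := hChart S Q V T T₀ X β ω p base hT hL e he
  have hlift := hLift S Q V T T₀ X β ω p base hT hL e he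
  refine ⟨fun s g => (ω s (e g) : ZMod 4), ?_, ?_, ?_, hc2, ?_⟩
  · intro s g
    have h1 := hL.anti (he g s)
    show (ω s (e (g * PresentedGroup.of s)) : ZMod 4) = - (ω s (e g) : ZMod 4)
    rw [h1]
    push_cast
    rfl
  · intro g
    obtain ⟨ψ, hψ⟩ := hlift g
    refine ⟨fun x => (ψ x : ZMod 4), fun s x => ?_⟩
    have h1 := congrArg (fun z : ℤ => (z : ZMod 4)) (hψ s x)
    push_cast at h1
    exact h1
  · intro q
    obtain ⟨ψ, hψ⟩ := hc1 q
    refine ⟨fun x => (ψ x : ZMod 4), fun w c hw s c' hE => ?_⟩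
    have h1 := congrArg (fun z : ℤ => (z : ZMod 4)) (hψ w c hw s c' hE)
    push_cast at h1
    exact h1
  · intro d b hP _ W hW
    obtain ⟨f, hf⟩ : ∃ f : PresentedGroup (rels T₀) × ZMod 4 ↪ V × ZMod 4,
        ∀ w, f w = (e w.1, w.2) :=
      ⟨⟨fun w => (e w.1, w.2), fun w w' h => by
        have h1 := (Prod.mk.inj h).1
        have h2 := (Prod.mk.inj h).2
        exact Prod.ext (e.injective h1) h2⟩, fun _ => rfl⟩
    have hmem : ∀ (g : PresentedGroup (rels T₀)) (j : ZMod 4), (e g, j) ∈ W.map f ↔ (g, j) ∈ W := by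
      intro g j
      have h1 : (e g, j) = f (g, j) := (hf (g, j)).symm
      rw [h1, Finset.mem_map' f]
    have h1 := hP (W.map f) (by
      intro w hw
      rw [Finset.mem_map] at hw
      obtain ⟨v, hv, rfl⟩ := hw
      rw [hf]
      intro h
      exact hW v hv ((hmem _ _).1 h))
    rw [Finset.sum_map, Finset.card_map] at h1
    have h2 : ∀ w ∈ W, outd X (fun s x => (ω s x : ZMod 4)) (W.map f) (f w) =
        (univ.filter fun s : S =>
          (w.1 * PresentedGroup.of s, w.2 + (ω s (e w.1) : ZMod 4)) ∈ W).card := by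
      intro w _
      unfold outd
      apply congrArg Finset.card
      ext s
      simp only [Finset.mem_filter, Finset.mem_univ, true_and]
      rw [hf]
      constructor
      · rintro ⟨y, hy, hyW⟩
        have h3 := X.func hy (he w.1 s)
        rw [h3] at hyW
        exact (hmem _ _).1 hyW
      · intro h
        exact ⟨e (w.1 * PresentedGroup.of s), he w.1 s, (hmem _ _).2 h⟩
    rw [Finset.sum_congr rfl h2] at h1
    exact h1

end Pool.Agent.H262.EB.Transport
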