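import Mathlib

/-!
# Central extensions of discrete groups by the compact group `ℕ → ZMod 4`

(project EB, disproof of MP_6b7756_an)
-/

set_option autoImplicit false
set_option linter.style.haveILetI false

namespace Pool.Agent.H262.EB

open MeasureTheory

/-- A normalised 2-cocycle of `D` with values in the compact group `ℕ → ZMod 4`. -/
structure Cocycle (D : Type) [Group D] where
  c : D → D → ℕ → ZMod 4
  one_left : ∀ x, c 1 x = 0
  one_right : ∀ x, c x 1 = 0
  coc : ∀ x y z, c x y + c (x * y) z = c x (y * z) + c y z

/-- The central extension of `D` by `ℕ → ZMod 4` given by a cocycle: pairs `(d, a)` with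
`(d, a) * (d', a') = (d * d', a + a' + c d d')`. -/
structure Tw {D : Type} [Group D] (c : Cocycle D) : Type where
  d : D
  a : ℕ → ZMod 4

namespace Tw

variable {D : Type} [Group D] {c : Cocycle D}

@[ext] theorem ext' {x y : Tw c} (h1 : x.d = y.d) (h2 : x.a = y.a) : x = y := by
  cases x; cases y; simp_all

instance : Mul (Tw c) := ⟨fun x y => ⟨x.d * y.d, x.a + y.a + c.c x.d y.d⟩⟩
instance : One (Tw c) := ⟨⟨1, 0⟩⟩
instance : Inv (Tw c) := ⟨fun x => ⟨x.d⁻¹, -x.a - c.c x.d⁻¹ x.d⟩⟩

@[simp] theorem mul_d (x y : Tw c) : (x * y).d = x.d * y.d := rfl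
@[simp] theorem mul_a (x y : Tw c) : (x * y).a = x.a + y.a + c.c x.d y.d := rfl
@[simp] theorem one_d : (1 : Tw c).d = 1 := rfl
@[simp] theorem one_a : (1 : Tw c).a = 0 := rfl
@[simp] theorem inv_d (x : Tw c) : (x⁻¹).d = x.d⁻¹ := rfl
@[simp] theorem inv_a (x : Tw c) : (x⁻¹).a = -x.a - c.c x.d⁻¹ x.d := rfl

instance : Group (Tw c) :=
  Group.ofLeftAxioms
    (by
      intro x y z
      apply ext'
      · simp [mul_assoc]
      · have h := c.coc x.d y.d z.d
        simp only [mul_a, mul_d]
        calc x.a + y.a + c.c x.d y.d + z.a + c.c (x.d * y.d) z.d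
            = x.a + y.a + z.a + (c.c x.d y.d + c.c (x.d * y.d) z.d) := by abel
          _ = x.a + y.a + z.a + (c.c x.d (y.d * z.d) + c.c y.d z.d) := by rw [h]
          _ = _ := by abel)
    (by
      intro x
      apply ext'
      · simp
      · simp [c.one_left])
    (by
      intro x
      apply ext'
      · simp
      · simp only [mul_a, inv_a, inv_d, one_a]
        abel)

/-- the underlying pair -/
def equiv : Tw c ≃ D × (ℕ → ZMod 4) where
  toFun x := (x.d, x.a)
  invFun p := ⟨p.1, p.2⟩
  left_inv _ := rfl
  right_inv _ := rfl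

/-- The topology of `Tw c`: the product of the discrete topology on `D` and the product topology
on `ℕ → ZMod 4`. -/
instance : TopologicalSpace (Tw c) :=
  letI : TopologicalSpace D := ⊥
  TopologicalSpace.induced (equiv (c := c)) inferInstance

theorem continuous_a : Continuous (fun x : Tw c => x.a) := by
  letI : TopologicalSpace D := ⊥
  exact continuous_snd.comp (continuous_induced_dom (f := equiv (c := c)))

theorem continuous_d (f : D → D) : @Continuous (Tw c) D _ ⊥ (fun x : Tw c => f x.d) := by
  letI : TopologicalSpace D := ⊥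
  haveI : DiscreteTopology D := ⟨rfl⟩
  exact (continuous_of_discreteTopology (f := f)).comp
    (continuous_fst.comp (continuous_induced_dom (f := equiv (c := c))))

/-- the homeomorphism with the product -/
def homeo : @Homeomorph (Tw c) (D × (ℕ → ZMod 4)) _ (@instTopologicalSpaceProd _ _ ⊥ _) :=
  letI : TopologicalSpace D := ⊥
  (equiv (c := c)).toHomeomorphOfIsInducing ⟨rfl⟩

theorem continuous_mk_iff {X : Type} [TopologicalSpace X] (f : X → D) (g : X → ℕ → ZMod 4)
    (hf : @Continuous X D _ ⊥ f) (hg : Continuous g) :
    Continuous (fun x => (⟨f x, g x⟩ : Tw c)) := by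
  letI : TopologicalSpace D := ⊥
  rw [continuous_induced_rng]
  exact hf.prodMk hg

instance : IsTopologicalGroup (Tw c) where
  continuous_mul := by
    letI : TopologicalSpace D := ⊥
    haveI : DiscreteTopology D := ⟨rfl⟩
    have hd1 : Continuous (fun p : Tw c × Tw c => p.1.d) := (continuous_d id).comp continuous_fst
    have hd2 : Continuous (fun p : Tw c × Tw c => p.2.d) := (continuous_d id).comp continuous_snd
    refine continuous_mk_iff (fun p : Tw c × Tw c => p.1.d * p.2.d)
      (fun p : Tw c × Tw c => p.1.a + p.2.a + c.c p.1.d p.2.d) ?_ ?_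
    · exact (continuous_of_discreteTopology (f := fun q : D × D => q.1 * q.2)).comp
        (hd1.prodMk hd2)
    · refine ((continuous_a.comp continuous_fst).add (continuous_a.comp continuous_snd)).add ?_
      exact (continuous_of_discreteTopology (f := fun q : D × D => c.c q.1 q.2)).comp
        (hd1.prodMk hd2)
  continuous_inv := by
    letI : TopologicalSpace D := ⊥
    haveI : DiscreteTopology D := ⟨rfl⟩
    have hd1 : Continuous (fun p : Tw c => p.d) := continuous_d id
    refine continuous_mk_iff (fun p : Tw c => p.d⁻¹)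
      (fun p : Tw c => -p.a - c.c p.d⁻¹ p.d) ?_ ?_
    · exact (continuous_of_discreteTopology (f := fun q : D => q⁻¹)).comp hd1
    · refine continuous_a.neg.sub ?_
      exact (continuous_of_discreteTopology (f := fun q : D => c.c q⁻¹ q)).comp hd1

instance : T2Space (Tw c) := by
  letI : TopologicalSpace D := ⊥
  haveI : DiscreteTopology D := ⟨rfl⟩
  exact (homeo (c := c)).symm.t2Space

instance : LocallyCompactSpace (Tw c) := by
  letI : TopologicalSpace D := ⊥
  haveI : DiscreteTopology D := ⟨rfl⟩
  exact (homeo (c := c)).isClosedEmbedding.locallyCompactSpace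

instance [Countable D] : SecondCountableTopology (Tw c) := by
  letI : TopologicalSpace D := ⊥
  haveI : DiscreteTopology D := ⟨rfl⟩
  exact (homeo (c := c)).isInducing.secondCountableTopology

instance : MeasurableSpace (Tw c) := borel _
instance : BorelSpace (Tw c) := ⟨rfl⟩

end Tw

/-- The coefficient function of the left regular representation (as in the frozen statement). -/
noncomputable def coef {G : Type} [Group G] [TopologicalSpace G] [IsTopologicalGroup G]
    [LocallyCompactSpace G] [MeasurableSpace G] [BorelSpace G] (ξ : G → ℂ) (x : G) : ℂ :=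
  ∫ y, ξ y * (starRingEnd ℂ) (ξ (x⁻¹ * y)) ∂(MeasureTheory.Measure.haar : MeasureTheory.Measure G)

end Pool.Agent.H262.EB
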